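import Pool.Agent.Lib.MP_424cb6_lc.Irred
import Pool.Agent.Lib.MP_17a834_lc.Msr.Ops

/-! The algorithm on lists of natural numbers. -/

namespace FVS424

open Relation Pool.Agent.MSR

/-- remove a vertex -/
def rm (S : List ℕ) (a : ℕ) : List ℕ := S.filter (fun v => !decide (v = a))

/-- remove a list of vertices -/
def minus (S K : List ℕ) : List ℕ := S.filter (fun v => !decide (v ∈ K))

section

variable (A : ℕ → ℕ → Bool)

/-- vertices reachable from `x` inside `S` -/
def reach (S : List ℕ) (x : ℕ) : List ℕ :=
  (fun R => S.filter (fun v => decide (v ∈ R) || R.any (fun u => A u v)))^[S.length]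
    (S.filter (fun v => decide (v = x)))

/-- greedy minimal connecting set -/
def minconn (R : List ℕ) (x y : ℕ) : List ℕ :=
  R.foldl (fun P z => bif (!decide (z = x) && (!decide (z = y) && decide (y ∈ reach A (rm P z) x)))
    then rm P z else P) R

/-- degree inside a list -/
def degl (S : List ℕ) (u : ℕ) : ℕ := (S.filter (fun v => A u v)).length

/-- is there a vertex of degree at least three in `K` -/
def hasBig (S K : List ℕ) : Bool := K.any (fun u => leb 3 (degl A S u))

/-- candidates: a flag (`true` for vertex cuts), the side, and the ends -/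
abbrev Cand : Type := Bool × List ℕ × ℕ × ℕ × ℕ × ℕ

/-- vertex cut candidate -/
def vc (S : List ℕ) (a u : ℕ) : List Cand :=
  bif (rm S a).any (fun z => !decide (z ∈ reach A (rm S a) u)) then
    [(true, reach A (rm S a) u, a, a, a, a)] else []

/-- vertex cut candidates -/
def vcands (S : List ℕ) : List Cand := S.flatMap (fun a => (rm S a).flatMap (fun u => vc A S a u))

/-- the side of the edge cut candidate -/
def sideE (S : List ℕ) (x1 y1 x2 : ℕ) : List ℕ := reach A (rm (rm S x1) x2) y1

/-- test for an edge cut -/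
def testE (S K : List ℕ) (x1 y1 x2 y2 : ℕ) : Bool :=
  (((!decide (x1 = x2)) && (!decide (y1 = y2))) && (A x1 y1 && A x2 y2)) &&
  (((decide (y1 ∈ K)) && (decide (y2 ∈ K))) &&
  ((!(K.any (fun u => (A u x1 && !decide (u = y1)) || (A u x2 && !decide (u = y2))))) &&
  (decide (x2 ∈ reach A (minus S K) x1) && (hasBig A S K && hasBig A S (minus S K)))))

/-- edge cut candidate -/
def ec (S : List ℕ) (x1 y1 x2 y2 : ℕ) : List Cand :=
  bif testE A S (sideE A S x1 y1 x2) x1 y1 x2 y2 then [(false, sideE A S x1 y1 x2, x1, y1, x2, y2)]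
    else []

/-- edge cut candidates -/
def ecands (S : List ℕ) : List Cand :=
  S.flatMap (fun x1 => S.flatMap (fun y1 => S.flatMap (fun x2 => S.flatMap (fun y2 =>
    ec A S x1 y1 x2 y2))))

/-- all candidates sorted by size -/
def sorted (S : List ℕ) : List Cand :=
  (List.range (S.length + 1)).flatMap (fun m =>
    (vcands A S ++ ecands A S).filter (fun c => decide (c.2.1.length = m)))

variable (val : List ℕ → ℕ)

/-- reduction at a vertex cut -/
def stepV (st : List ℕ × ℕ) (a : ℕ) (C : List ℕ) : List ℕ × ℕ :=
  (bif decide (val C = val (a :: C)) then minus st.1 C else rm (minus st.1 C) a,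
    st.2 + val (a :: C))

/-- reduction at an edge cut -/
def stepE (st : List ℕ × ℕ) (K : List ℕ) (x1 y1 x2 y2 : ℕ) : List ℕ × ℕ :=
  (bif decide (val (K ++ minconn A (minus st.1 K) x1 x2) = val K) then minus st.1 K
    else st.1.filter (fun v => (!decide (v ∈ K)) || decide (v ∈ minconn A K y1 y2)),
    st.2 + val K)

/-- one reduction step -/
def stepc (st : List ℕ × ℕ) : List ℕ × ℕ :=
  lcase (sorted A st.1) st (fun c _ => bif c.1 then stepV val st c.2.2.1 c.2.1
    else stepE A val st c.2.1 c.2.2.1 c.2.2.2.1 c.2.2.2.2.1 c.2.2.2.2.2)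

/-- the whole algorithm -/
def algo (S : List ℕ) : ℕ :=
  ((stepc A val)^[S.length] (S, 0)).2 + val ((stepc A val)^[S.length] (S, 0)).1

end

/-! ### correctness -/

section

variable {A : ℕ → ℕ → Bool} {G : SimpleGraph ℕ}

theorem mem_rm {S : List ℕ} {a z : ℕ} : z ∈ rm S a ↔ z ∈ S ∧ z ≠ a := by
  simp [rm]

theorem mem_minus {S K : List ℕ} {z : ℕ} : z ∈ minus S K ↔ z ∈ S ∧ z ∉ K := by
  simp [minus]

theorem toFinset_rm (S : List ℕ) (a : ℕ) : (rm S a).toFinset = S.toFinset.erase a := by
  ext z
  rw [List.mem_toFinset, mem_rm, Finset.mem_erase, List.mem_toFinset]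
  tauto

theorem toFinset_minus (S K : List ℕ) : (minus S K).toFinset = S.toFinset \ K.toFinset := by
  ext z
  rw [List.mem_toFinset, mem_minus, Finset.mem_sdiff, List.mem_toFinset, List.mem_toFinset]

theorem reach_sublist (S : List ℕ) (x : ℕ) : (reach A S x).Sublist S := by
  unfold reach
  cases h : S.length with
  | zero => exact List.filter_sublist
  | succ n =>
    rw [Function.iterate_succ_apply']
    exact List.filter_sublist

theorem reach_nodup {S : List ℕ} (hS : S.Nodup) (x : ℕ) : (reach A S x).Nodup :=
  hS.sublist (reach_sublist S x)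

theorem mem_reach (hA : ∀ i j, A i j = true ↔ G.Adj i j) (S : List ℕ) (x z : ℕ) :
    z ∈ reach A S x ↔ Conn G (S.toFinset : Set ℕ) x z := by
  have hmem : ∀ z, z ∈ (S.toFinset : Set ℕ) ↔ z ∈ S := by intro z; simp
  set F : List ℕ → List ℕ := fun R => S.filter (fun v => decide (v ∈ R) || R.any (fun u => A u v))
    with hF
  have hFm : ∀ R v, v ∈ F R ↔ v ∈ S ∧ (v ∈ R ∨ ∃ u ∈ R, G.Adj u v) := by
    intro R v
    simp only [hF, List.mem_filter, Bool.or_eq_true, decide_eq_true_eq, List.any_eq_true, hA]
  have h0 : ∀ v, v ∈ S.filter (fun v => decide (v = x)) ↔ v ∈ S ∧ v = x := by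
    intro v; simp
  show z ∈ F^[S.length] (S.filter (fun v => decide (v = x))) ↔ _
  constructor
  · have : ∀ k z, z ∈ F^[k] (S.filter (fun v => decide (v = x))) →
        Conn G (S.toFinset : Set ℕ) x z := by
      intro k
      induction k with
      | zero =>
        intro z hz
        obtain ⟨h1, h2⟩ := (h0 z).1 hz
        subst h2
        exact .refl ((hmem _).2 h1)
      | succ k ih =>
        intro z hz
        rw [Function.iterate_succ_apply', hFm] at hz
        rcases hz.2 with h | ⟨u, hu, huz⟩
        · exact ih z h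
        · exact (ih u hu).tail ((hmem _).2 hz.1) huz
    exact this _ z
  · intro h
    obtain ⟨l, h1, h2, h3, h4, h5⟩ := h.exists_path
    have hlen : l.length ≤ S.length := by
      have e1 : l.toFinset ⊆ S.toFinset := by
        intro t ht
        rw [List.mem_toFinset] at ht ⊢
        exact (hmem t).1 (h5 t ht)
      have e2 := Finset.card_le_card e1
      rw [List.toFinset_card_of_nodup h2] at e2
      exact e2.trans (List.toFinset_card_le S)
    have hmono : ∀ k m v, v ∈ F^[k] (S.filter (fun v => decide (v = x))) →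
        v ∈ F^[k + m] (S.filter (fun v => decide (v = x))) := by
      intro k m v hv
      induction m with
      | zero => exact hv
      | succ m ih =>
        rw [← Nat.add_assoc, Function.iterate_succ_apply', hFm]
        refine ⟨?_, Or.inl ih⟩
        -- elements stay in `S`
        have : ∀ k v, v ∈ F^[k] (S.filter (fun v => decide (v = x))) → v ∈ S := by
          intro k
          induction k with
          | zero => intro v hv; exact ((h0 v).1 hv).1
          | succ k ih =>
            intro v hv
            rw [Function.iterate_succ_apply', hFm] at hv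
            exact hv.1
        exact this _ v ih
    have key : ∀ (l : List ℕ) (a : ℕ) (k : ℕ), (a :: l).IsChain G.Adj → (∀ t ∈ a :: l, t ∈ S) →
        a ∈ F^[k] (S.filter (fun v => decide (v = x))) → ∀ b, (a :: l).getLast? = some b →
        b ∈ F^[k + l.length] (S.filter (fun v => decide (v = x))) := by
      intro l
      induction l with
      | nil =>
        intro a k _ _ ha b hb
        simp at hb
        subst hb
        exact ha
      | cons c l ih =>
        intro a k hc hS ha b hb
        rw [List.isChain_cons_cons] at hc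
        rw [List.getLast?_cons_cons] at hb
        have : c ∈ F^[k + 1] (S.filter (fun v => decide (v = x))) := by
          rw [Function.iterate_succ_apply', hFm]
          exact ⟨hS c (by simp), Or.inr ⟨a, ha, hc.1⟩⟩
        have := ih c (k + 1) hc.2 (fun t ht => hS t (List.mem_cons_of_mem _ ht)) this b hb
        rw [List.length_cons]
        convert this using 2
        omega
    cases l with
    | nil => simp at h3
    | cons a l =>
      simp at h3
      subst h3
      have hz := key l a 0 h1 (fun t ht => (hmem t).1 (h5 t ht))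
        ((h0 a).2 ⟨(hmem a).1 (h5 a (by simp)), rfl⟩) z h4
      rw [Nat.zero_add] at hz
      rw [List.length_cons] at hlen
      have := hmono _ (S.length - l.length) z hz
      convert this using 2
      omega

theorem toFinset_reach (hA : ∀ i j, A i j = true ↔ G.Adj i j) (S : List ℕ) (x : ℕ) :
    (reach A S x).toFinset = comp G S.toFinset x := by
  ext z
  rw [List.mem_toFinset, mem_comp, mem_reach hA]

theorem degl_eq (hA : ∀ i j, A i j = true ↔ G.Adj i j) {S : List ℕ} (hS : S.Nodup) (u : ℕ) :
    degl A S u = dgS G (S.toFinset : Set ℕ) u := by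
  unfold degl dgS
  have : G.neighborSet u ∩ (S.toFinset : Set ℕ) = ((S.filter (fun v => A u v)).toFinset : Set ℕ) := by
    ext z
    simp only [Set.mem_inter_iff, SimpleGraph.mem_neighborSet, List.coe_toFinset, Set.mem_ofPred_eq,
      List.mem_filter, hA]
    tauto
  rw [this, Set.ncard_coe_finset, List.toFinset_card_of_nodup (hS.filter _)]

theorem hasBig_iff (hA : ∀ i j, A i j = true ↔ G.Adj i j) {S : List ℕ} (hS : S.Nodup)
    (K : List ℕ) : hasBig A S K = true ↔ ∃ u ∈ K, 3 ≤ dgS G (S.toFinset : Set ℕ) u := by
  unfold hasBig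
  simp only [List.any_eq_true, leb, decide_eq_true_eq, degl_eq hA hS]

theorem minconn_spec (hA : ∀ i j, A i j = true ↔ G.Adj i j) (R : List ℕ) (x y : ℕ)
    (hc : Conn G (R.toFinset : Set ℕ) x y) :
    MinConn G R.toFinset x y (minconn A R x y).toFinset ∧ (minconn A R x y).Sublist R := by
  set f : List ℕ → ℕ → List ℕ := fun P z => bif (!decide (z = x) && (!decide (z = y) &&
    decide (y ∈ reach A (rm P z) x))) then rm P z else P with hf
  -- invariant
  have key : ∀ (l : List ℕ) (P : List ℕ), P.Sublist R → Conn G (P.toFinset : Set ℕ) x y →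
      (l.foldl f P).Sublist P ∧ Conn G ((l.foldl f P).toFinset : Set ℕ) x y ∧
      ∀ z ∈ l, z ∈ l.foldl f P → z ≠ x → z ≠ y →
        ¬ Conn G (((l.foldl f P).toFinset.erase z : Finset ℕ) : Set ℕ) x y := by
    intro l
    induction l with
    | nil => intro P _ hP; exact ⟨List.Sublist.refl _, hP, by simp⟩
    | cons a l ih =>
      intro P hPR hP
      rw [List.foldl_cons]
      by_cases ht : a ≠ x ∧ a ≠ y ∧ y ∈ reach A (rm P a) x
      · have hfa : f P a = rm P a := by
          simp [hf, ht.1, ht.2.1, ht.2.2]
        rw [hfa]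
        have hsub : (rm P a).Sublist P := List.filter_sublist
        obtain ⟨h1, h2, h3⟩ := ih (rm P a) (hsub.trans hPR) ((mem_reach hA _ _ _).1 ht.2.2)
        refine ⟨h1.trans hsub, h2, ?_⟩
        intro z hz hzm hzx hzy
        rcases List.mem_cons.1 hz with rfl | hz
        · exfalso
          have := h1.subset hzm
          rw [mem_rm] at this
          exact this.2 rfl
        · exact h3 z hz hzm hzx hzy
      · have hfa : f P a = P := by
          simp only [hf]
          by_cases e1 : a = x
          · simp [e1]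
          · by_cases e2 : a = y
            · simp [e2]
            · have e3 : y ∉ reach A (rm P a) x := fun h => ht ⟨e1, e2, h⟩
              simp [e1, e2, e3]
        rw [hfa]
        obtain ⟨h1, h2, h3⟩ := ih P hPR hP
        refine ⟨h1, h2, ?_⟩
        intro z hz hzm hzx hzy
        rcases List.mem_cons.1 hz with rfl | hz
        · intro hcon
          apply ht
          refine ⟨hzx, hzy, (mem_reach hA _ _ _).2 (hcon.mono ?_)⟩
          intro t ht'
          rw [Finset.mem_coe, Finset.mem_erase, List.mem_toFinset] at ht'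
          rw [Finset.mem_coe, List.mem_toFinset, mem_rm]
          exact ⟨h1.subset ht'.2, ht'.1⟩
        · exact h3 z hz hzm hzx hzy
  obtain ⟨h1, h2, h3⟩ := key R R (List.Sublist.refl _) hc
  refine ⟨⟨?_, h2, ?_⟩, h1⟩
  · intro z hz
    rw [List.mem_toFinset] at hz ⊢
    exact h1.subset hz
  · intro z hz hzx hzy
    rw [List.mem_toFinset] at hz
    exact h3 z (h1.subset hz) hz hzx hzy

/-- specification of a candidate -/
def CandOK (G : SimpleGraph ℕ) (S : Finset ℕ) (c : Cand) : Prop :=
  (c.1 = true ∧ VCut G S c.2.2.1 c.2.1.toFinset) ∨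
  (c.1 = false ∧ ECut G S c.2.1.toFinset c.2.2.1 c.2.2.2.1 c.2.2.2.2.1 c.2.2.2.2.2)

theorem cand_sound (hA : ∀ i j, A i j = true ↔ G.Adj i j) {S : List ℕ} (hS : S.Nodup) (c : Cand)
    (hc : c ∈ vcands A S ++ ecands A S) : CandOK G S.toFinset c ∧ c.2.1.Sublist S := by
  rcases List.mem_append.1 hc with h | h
  · unfold vcands at h
    rw [List.mem_flatMap] at h
    obtain ⟨a, ha, h⟩ := h
    rw [List.mem_flatMap] at h
    obtain ⟨u, hu, h⟩ := h
    unfold vc at h
    by_cases ht : (rm S a).any (fun z => !decide (z ∈ reach A (rm S a) u)) = true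
    · rw [ht, cond_true, List.mem_singleton] at h
      subst h
      have hsub : (reach A (rm S a) u).Sublist (rm S a) := reach_sublist _ _
      refine ⟨Or.inl ⟨rfl, ?_⟩, hsub.trans List.filter_sublist⟩
      simp only
      rw [List.any_eq_true] at ht
      obtain ⟨z, hz, hz'⟩ := ht
      have hz'' : z ∉ reach A (rm S a) u := by simpa using hz'
      rw [mem_rm] at hz hu
      refine ⟨List.mem_toFinset.2 ha, ?_, ?_, ?_, ?_, ?_⟩
      · intro t ht
        rw [List.mem_toFinset] at ht ⊢
        exact (mem_rm.1 (hsub.subset ht)).1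
      · intro h'
        rw [List.mem_toFinset] at h'
        exact (mem_rm.1 (hsub.subset h')).2 rfl
      · refine ⟨u, ?_⟩
        rw [List.mem_toFinset, mem_reach hA]
        refine .refl ?_
        rw [Finset.mem_coe, List.mem_toFinset, mem_rm]
        exact hu
      · exact ⟨z, List.mem_toFinset.2 hz.1, hz.2, fun h' => hz'' (List.mem_toFinset.1 h')⟩
      · intro u' hu' w hw hwn huw
        rw [toFinset_reach hA] at hu' hwn
        by_contra hwa
        apply hwn
        refine comp_closed hu' ?_ huw
        rw [List.mem_toFinset, mem_rm]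
        exact ⟨List.mem_toFinset.1 hw, hwa⟩
    · rw [Bool.not_eq_true] at ht
      rw [ht] at h
      simp at h
  · unfold ecands at h
    rw [List.mem_flatMap] at h
    obtain ⟨x1, hx1, h⟩ := h
    rw [List.mem_flatMap] at h
    obtain ⟨y1, hy1, h⟩ := h
    rw [List.mem_flatMap] at h
    obtain ⟨x2, hx2, h⟩ := h
    rw [List.mem_flatMap] at h
    obtain ⟨y2, hy2, h⟩ := h
    unfold ec at h
    by_cases ht : testE A S (sideE A S x1 y1 x2) x1 y1 x2 y2 = true
    · rw [ht, cond_true, List.mem_singleton] at h
      subst h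
      have hsub : (sideE A S x1 y1 x2).Sublist (rm (rm S x1) x2) := reach_sublist _ _
      have hsubS : (sideE A S x1 y1 x2).Sublist S :=
        hsub.trans (List.filter_sublist.trans List.filter_sublist)
      refine ⟨Or.inr ⟨rfl, ?_⟩, hsubS⟩
      simp only
      unfold testE at ht
      set K := sideE A S x1 y1 x2 with hK
      simp only [Bool.and_eq_true, Bool.not_eq_true', decide_eq_false_iff_not, decide_eq_true_eq,
        hA, hasBig_iff hA hS, mem_reach hA, List.any_eq_false] at ht
      obtain ⟨⟨⟨h1, h2⟩, h3, h4⟩, ⟨h5, h6⟩, h7, h8, h9, h10⟩ := ht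
      have hm : ∀ z ∈ K, z ∈ S ∧ z ≠ x1 ∧ z ≠ x2 := by
        intro z hz
        have := hsub.subset hz
        rw [mem_rm, mem_rm] at this
        exact ⟨this.1.1, this.1.2, this.2⟩
      have hcoe : ∀ z, z ∈ (K.toFinset : Set ℕ) ↔ z ∈ K := by intro z; simp
      have hcoeS : ∀ z, z ∈ (S.toFinset : Set ℕ) ↔ z ∈ S := by intro z; simp
      have hKc : K.toFinset = comp G (rm (rm S x1) x2).toFinset y1 := by
        rw [hK]; unfold sideE; rw [toFinset_reach hA]
      refine ⟨⟨?_, (hcoe _).2 h5, (hcoe _).2 h6, (hcoeS _).2 hx1, (hcoeS _).2 hx2, ?_, ?_, h1, h2,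
        h3, h4, ?_⟩, ?_, ?_, ?_, ?_⟩
      · intro z hz
        exact (hcoeS _).2 (hm z ((hcoe z).1 hz)).1
      · intro h'
        exact (hm x1 ((hcoe _).1 h')).2.1 rfl
      · intro h'
        exact (hm x2 ((hcoe _).1 h')).2.2 rfl
      · intro u hu w hw hwn huw
        have hwx : w = x1 ∨ w = x2 := by
          by_contra hno
          push Not at hno
          apply hwn
          rw [hKc] at hu ⊢
          rw [Finset.mem_coe] at hu ⊢
          refine comp_closed hu ?_ huw
          rw [List.mem_toFinset, mem_rm, mem_rm]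
          exact ⟨⟨(hcoeS _).1 hw, hno.1⟩, hno.2⟩
        have := h7 u ((hcoe u).1 hu)
        rw [Bool.or_eq_true, not_or] at this
        simp only [Bool.and_eq_true, Bool.not_eq_true', decide_eq_false_iff_not, hA,
          not_and, not_not] at this
        rcases hwx with rfl | rfl
        · exact Or.inl ⟨this.1 huw, rfl⟩
        · exact Or.inr ⟨this.2 huw, rfl⟩
      · rw [← Finset.coe_sdiff, ← toFinset_minus]
        exact h8
      · have h6' : y2 ∈ K.toFinset := List.mem_toFinset.2 h6
        rw [hKc] at h6'
        have := mem_comp.1 h6'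
        have hr := this.restrict ((comp G (rm (rm S x1) x2).toFinset y1 : Finset ℕ) : Set ℕ)
          (mem_comp.2 (.refl this.left)) ?_
        · refine hr.mono ?_
          intro t ht
          rw [hKc]
          exact ht.2
        · intro u hu hu' v hv huv
          exact comp_closed hu hv huv
      · obtain ⟨u, hu, hd⟩ := h9
        exact ⟨u, List.mem_toFinset.2 hu, hd⟩
      · obtain ⟨u, hu, hd⟩ := h10
        rw [mem_minus] at hu
        exact ⟨u, List.mem_toFinset.2 hu.1, fun h' => hu.2 (List.mem_toFinset.1 h'), hd⟩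
    · rw [Bool.not_eq_true] at ht
      rw [ht] at h
      simp at h

theorem vcut_cand (hA : ∀ i j, A i j = true ↔ G.Adj i j) {S : List ℕ} (hS : S.Nodup) {a : ℕ}
    {C : Finset ℕ} (h : VCut G S.toFinset a C) :
    ∃ c ∈ vcands A S ++ ecands A S, c.2.1.length ≤ C.card := by
  obtain ⟨u, hu⟩ := h.ne
  have huS := List.mem_toFinset.1 (h.sub hu)
  have hua : u ≠ a := by rintro rfl; exact h.aC hu
  have hsubC : (reach A (rm S a) u).toFinset ⊆ C := by
    intro z hz
    rw [toFinset_reach hA, mem_comp] at hz
    refine hz.closed (fun z => z ∈ C) hu ?_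
    intro v w _ hv hvw hw
    by_contra hwC
    rw [Finset.mem_coe, List.mem_toFinset, mem_rm] at hw
    exact hw.2 (h.only v hv w (List.mem_toFinset.2 hw.1) hwC hvw)
  refine ⟨(true, reach A (rm S a) u, a, a, a, a), ?_, ?_⟩
  · apply List.mem_append_left
    unfold vcands
    rw [List.mem_flatMap]
    refine ⟨a, List.mem_toFinset.1 h.aS, ?_⟩
    rw [List.mem_flatMap]
    refine ⟨u, mem_rm.2 ⟨huS, hua⟩, ?_⟩
    unfold vc
    have : (rm S a).any (fun z => !decide (z ∈ reach A (rm S a) u)) = true := by
      rw [List.any_eq_true]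
      obtain ⟨z, hz, hza, hzC⟩ := h.other
      refine ⟨z, mem_rm.2 ⟨List.mem_toFinset.1 hz, hza⟩, ?_⟩
      have : z ∉ reach A (rm S a) u := fun h' => hzC (hsubC (List.mem_toFinset.2 h'))
      simpa using this
    rw [this]
    simp
  · simp only
    rw [← List.toFinset_card_of_nodup (show (reach A (rm S a) u).Nodup from
      reach_nodup (hS.filter _) u)]
    exact Finset.card_le_card hsubC

theorem ecut_cand (hA : ∀ i j, A i j = true ↔ G.Adj i j) {S : List ℕ} (hS : S.Nodup)
    {x1 y1 x2 y2 : ℕ} {K : Finset ℕ} (h : ECut G S.toFinset K x1 y1 x2 y2) :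
    ∃ c ∈ vcands A S ++ ecands A S, c.2.1.length ≤ K.card := by
  have hKS : ∀ z ∈ K, z ∈ S := fun z hz => List.mem_toFinset.1 (h.cut.sub hz)
  have hx1S : x1 ∈ S := List.mem_toFinset.1 h.cut.x1S
  have hx2S : x2 ∈ S := List.mem_toFinset.1 h.cut.x2S
  have hy1 : y1 ∈ K := h.cut.y1K
  have hy2 : y2 ∈ K := h.cut.y2K
  have hx1 : x1 ∉ K := h.cut.x1K
  have hx2 : x2 ∉ K := h.cut.x2K
  set K' := sideE A S x1 y1 x2 with hK'
  have hK'c : K'.toFinset = comp G (rm (rm S x1) x2).toFinset y1 := by
    rw [hK']; unfold sideE; rw [toFinset_reach hA]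
  have hmT : ∀ z, z ∈ (rm (rm S x1) x2).toFinset ↔ z ∈ S ∧ z ≠ x1 ∧ z ≠ x2 := by
    intro z
    rw [List.mem_toFinset, mem_rm, mem_rm]
    tauto
  have hsubK : K'.toFinset ⊆ K := by
    intro z hz
    rw [hK'c, mem_comp] at hz
    refine hz.closed (fun z => z ∈ K) hy1 ?_
    intro v w _ hv hvw hw
    by_contra hwK
    rw [Finset.mem_coe, hmT] at hw
    rcases h.cut.only v hv w (List.mem_toFinset.2 hw.1) hwK hvw with h' | h'
    · exact hw.2.1 h'.2
    · exact hw.2.2 h'.2
  have hnd : K'.Nodup := by
    rw [hK']; unfold sideE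
    exact reach_nodup ((hS.filter _).filter _) _
  have hcl : ∀ u ∈ K', ∀ w ∈ K, G.Adj u w → w ∈ K' := by
    intro u hu w hw huw
    rw [← List.mem_toFinset, hK'c] at hu ⊢
    refine comp_closed hu ?_ huw
    rw [hmT]
    exact ⟨hKS w hw, fun e => hx1 (e ▸ hw), fun e => hx2 (e ▸ hw)⟩
  have hy1K' : y1 ∈ K' := by
    rw [← List.mem_toFinset, hK'c, mem_comp]
    refine .refl ?_
    rw [Finset.mem_coe, hmT]
    exact ⟨hKS y1 hy1, fun e => hx1 (e ▸ hy1), fun e => hx2 (e ▸ hy1)⟩
  have hy2K' : y2 ∈ K' := by
    refine h.connI.closed (fun z => z ∈ K') hy1K' ?_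
    intro u w _ hu huw hw
    exact hcl u hu w hw huw
  by_cases hbig : ∃ u ∈ K', 3 ≤ dgS G (S.toFinset : Set ℕ) u
  · refine ⟨(false, K', x1, y1, x2, y2), ?_, ?_⟩
    · apply List.mem_append_right
      unfold ecands
      rw [List.mem_flatMap]
      refine ⟨x1, hx1S, ?_⟩
      rw [List.mem_flatMap]
      refine ⟨y1, hKS y1 hy1, ?_⟩
      rw [List.mem_flatMap]
      refine ⟨x2, hx2S, ?_⟩
      rw [List.mem_flatMap]
      refine ⟨y2, hKS y2 hy2, ?_⟩
      unfold ec
      have ht : testE A S (sideE A S x1 y1 x2) x1 y1 x2 y2 = true := by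
        unfold testE
        rw [← hK']
        simp only [Bool.and_eq_true, Bool.not_eq_true', decide_eq_false_iff_not, decide_eq_true_eq,
          hA, hasBig_iff hA hS, mem_reach hA, List.any_eq_false]
        refine ⟨⟨⟨h.cut.xne, h.cut.yne⟩, h.cut.adj1, h.cut.adj2⟩, ⟨hy1K', hy2K'⟩, ?_, ?_, hbig, ?_⟩
        · intro u hu
          have huK := hsubK (List.mem_toFinset.2 hu)
          rw [Bool.or_eq_true, not_or]
          simp only [Bool.and_eq_true, Bool.not_eq_true', decide_eq_false_iff_not, hA,
            not_and, not_not]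
          constructor
          · intro hux
            rcases h.cut.only u huK x1 h.cut.x1S hx1 hux with h' | h'
            · exact h'.1
            · exact absurd h'.2 h.cut.xne
          · intro hux
            rcases h.cut.only u huK x2 h.cut.x2S hx2 hux with h' | h'
            · exact absurd h'.2.symm h.cut.xne
            · exact h'.1
        · refine h.connO.mono ?_
          rintro z ⟨hz, hzK⟩
          rw [Finset.mem_coe, List.mem_toFinset, mem_minus]
          exact ⟨List.mem_toFinset.1 hz, fun h' => hzK (hsubK (List.mem_toFinset.2 h'))⟩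
        · obtain ⟨u, hu, huK, hd⟩ := h.degO
          exact ⟨u, mem_minus.2 ⟨List.mem_toFinset.1 hu,
            fun h' => huK (hsubK (List.mem_toFinset.2 h'))⟩, hd⟩
      rw [ht, cond_true, List.mem_singleton]
    · simp only
      rw [← List.toFinset_card_of_nodup hnd]
      exact Finset.card_le_card hsubK
  · -- a piece of `K` without attachments
    obtain ⟨k, hk, hkd⟩ := h.degI
    have hkK' : k ∉ K' := fun h' => hbig ⟨k, h', hkd⟩
    have hcut : VCut G S.toFinset y1 (K \ K'.toFinset) := by
      refine ⟨List.mem_toFinset.2 (hKS y1 hy1), ?_, ?_, ⟨k, ?_⟩, ⟨x1, h.cut.x1S, ?_, ?_⟩, ?_⟩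
      · intro z hz
        exact List.mem_toFinset.2 (hKS z (Finset.mem_sdiff.1 hz).1)
      · intro h'
        exact (Finset.mem_sdiff.1 h').2 (List.mem_toFinset.2 hy1K')
      · exact Finset.mem_sdiff.2 ⟨hk, fun h' => hkK' (List.mem_toFinset.1 h')⟩
      · rintro rfl; exact hx1 hy1
      · intro h'
        exact hx1 (Finset.mem_sdiff.1 h').1
      · intro u hu w hw hwn huw
        exfalso
        rw [Finset.mem_sdiff, List.mem_toFinset] at hu hwn
        by_cases hwK : w ∈ K
        · have hwK' : w ∈ K' := by
            by_contra h'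
            exact hwn ⟨hwK, h'⟩
          exact hu.2 (hcl w hwK' u hu.1 huw.symm)
        · rcases h.cut.only u hu.1 w hw hwK huw with h' | h'
          · exact hu.2 (h'.1 ▸ hy1K')
          · exact hu.2 (h'.1 ▸ hy2K')
    obtain ⟨c, hc, hcl'⟩ := vcut_cand hA hS hcut
    exact ⟨c, hc, hcl'.trans (Finset.card_le_card Finset.sdiff_subset)⟩

/-- the first sorted candidate is minimal -/
theorem sorted_head {S : List ℕ} (hlen : ∀ c ∈ vcands A S ++ ecands A S,
    c.2.1.length ≤ S.length) :
    (sorted A S = [] → vcands A S ++ ecands A S = []) ∧ ∀ c t, sorted A S = c :: t →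
      c ∈ vcands A S ++ ecands A S ∧ ∀ c' ∈ vcands A S ++ ecands A S,
        c.2.1.length ≤ c'.2.1.length := by
  set L := vcands A S ++ ecands A S with hL
  have hm : ∀ c, c ∈ sorted A S ↔ c ∈ L := by
    intro c
    unfold sorted
    rw [List.mem_flatMap]
    constructor
    · rintro ⟨m, _, h⟩
      exact (List.mem_filter.1 h).1
    · intro h
      exact ⟨c.2.1.length, List.mem_range.2 (by have := hlen c h; omega),
        List.mem_filter.2 ⟨h, by simp⟩⟩
  constructor
  · intro h
    rw [List.eq_nil_iff_forall_not_mem]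
    intro c hc
    have := (hm c).2 hc
    rw [h] at this
    simp at this
  · intro c t hct
    have hc : c ∈ L := (hm c).1 (by rw [hct]; simp)
    refine ⟨hc, ?_⟩
    have hsorted : (sorted A S).Pairwise (fun c c' => c.2.1.length ≤ c'.2.1.length) := by
      unfold sorted
      rw [List.pairwise_flatMap]
      constructor
      · intro m _
        rw [← hL]
        refine List.Pairwise.imp_of_mem (R := fun _ _ => True) ?_ (List.pairwise_of_forall
          (fun _ _ => trivial))
        intro c c' h h' _
        have e1 := (List.mem_filter.1 h).2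
        have e2 := (List.mem_filter.1 h').2
        simp only [decide_eq_true_eq] at e1 e2
        omega
      · refine List.Pairwise.imp ?_ List.pairwise_lt_range
        intro m m' hmm c h c' h'
        have e1 := (List.mem_filter.1 h).2
        have e2 := (List.mem_filter.1 h').2
        simp only [decide_eq_true_eq] at e1 e2
        omega
    rw [hct, List.pairwise_cons] at hsorted
    intro c' hc'
    have := (hm c').2 hc'
    rw [hct] at this
    rcases List.mem_cons.1 this with rfl | h
    · exact le_rfl
    · exact hsorted.1 c' h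

/-- the oracle is correct on solvable sublists of `[0, n)` -/
def ValOK (G : SimpleGraph ℕ) (w n : ℕ) (val : List ℕ → ℕ) : Prop :=
  ∀ S : List ℕ, S.Nodup → (∀ z ∈ S, z < n) → Solv G w S.toFinset → val S = fvs G S.toFinset

theorem fvs_ecut {S K P1 P2 : Finset ℕ} {x1 y1 x2 y2 : ℕ} (h : ECut G S K x1 y1 x2 y2)
    (h1 : MinConn G (S \ K) x1 x2 P1) (h2 : MinConn G K y1 y2 P2) :
    fvs G S = fvs G K + (if fvs G (K ∪ P1) = fvs G K then fvs G (S \ K)
      else fvs G ((S \ K) ∪ P2)) := by
  have hKS : K ⊆ S := fun z hz => h.cut.sub hz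
  have hS : S = (S \ K) ∪ K := by
    rw [Finset.sdiff_union_of_subset hKS]
  have hP1 : ∀ z ∈ P1, z ∈ S ∧ z ∉ K := fun z hz => Finset.mem_sdiff.1 (h1.sub hz)
  have hP2 : ∀ z ∈ P2, z ∈ K := fun z hz => h2.sub hz
  have hE : ∀ u ∈ S \ K, ∀ w ∈ K, G.Adj u w → (u = x1 ∧ w = y1) ∨ (u = x2 ∧ w = y2) := by
    intro u hu w hw huw
    rw [Finset.mem_sdiff] at hu
    rcases h.cut.only w hw u hu.1 hu.2 huw.symm with h' | h'
    · exact Or.inl ⟨h'.2, h'.1⟩
    · exact Or.inr ⟨h'.2, h'.1⟩
  have e0 : fvs G S = min (sep G (S \ K) x1 x2 + fvs G K) (fvs G (S \ K) + sep G K y1 y2) := by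
    conv_lhs => rw [hS]
    exact fvs_two (fun z hz hz' => (Finset.mem_sdiff.1 hz).2 hz') h.cut.xne h.cut.adj1 h.cut.adj2 hE
  have e1 : fvs G (K ∪ P1) = sep G K y1 y2 := by
    refine fvs_path (fun z hz hz' => (hP1 z hz').2 hz) h.cut.yne h.cut.adj1.symm h.cut.adj2.symm ?_
      h1.acyc h1.conn
    intro u hu w hw huw
    rcases hE w (h1.sub hw) u hu huw.symm with h' | h'
    · exact Or.inl ⟨h'.2, h'.1⟩
    · exact Or.inr ⟨h'.2, h'.1⟩
  have e2 : fvs G ((S \ K) ∪ P2) = sep G (S \ K) x1 x2 := by
    refine fvs_path (fun z hz hz' => (Finset.mem_sdiff.1 hz).2 (hP2 z hz')) h.cut.xne h.cut.adj1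
      h.cut.adj2 ?_ h2.acyc h2.conn
    intro u hu w hw huw
    exact hE u hu w (hP2 w hw) huw
  have a1 := fvs_le_sep G K y1 y2
  have a2 := sep_le G K y1 y2
  have a3 := fvs_le_sep G (S \ K) x1 x2
  have a4 := sep_le G (S \ K) x1 x2
  rw [e0, e1, e2]
  split_ifs with hc
  · rw [hc]
    rw [min_eq_right (by omega)]
    omega
  · have : sep G K y1 y2 = fvs G K + 1 := by omega
    rw [this, min_eq_left (by omega)]
    omega

/-- progress: the connecting set is smaller than the side -/
theorem path_ne {S K P2 : Finset ℕ} {x1 y1 x2 y2 : ℕ} (h : ECut G S K x1 y1 x2 y2)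
    (h2 : MinConn G K y1 y2 P2) : P2 ≠ K := by
  intro he
  have hKS : K ⊆ S := fun z hz => h.cut.sub hz
  have hcompl : S \ (S \ K) = K := by
    rw [Finset.sdiff_sdiff_eq_self hKS]
  have h2' : MinConn G (S \ (S \ K)) y1 y2 P2 := by rw [hcompl]; exact h2
  obtain ⟨u, hu, hd⟩ := h.degI
  have := deg_path h.compl h2' u (he ▸ hu)
  have e : (S \ K) ∪ P2 = S := by rw [he, Finset.sdiff_union_of_subset hKS]
  rw [e] at this
  omega

theorem step_correct (hA : ∀ i j, A i j = true ↔ G.Adj i j) (p q r N n : ℕ) (hN : 1 ≤ N)
    (hp : p ≤ N) (hq : q ≤ N) (hr : r ≤ N) (hfree : ¬ (spider ![1, p, q, r]).IsContained G)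
    (val : List ℕ → ℕ) (hval : ValOK G (twBound N) n val) (S : List ℕ) (acc : ℕ) (hS : S.Nodup)
    (hSn : ∀ z ∈ S, z < n) :
    ((stepc A val (S, acc)).1.Sublist S) ∧
    (stepc A val (S, acc)).2 + fvs G (stepc A val (S, acc)).1.toFinset = acc + fvs G S.toFinset ∧
    ((stepc A val (S, acc)).1.length < S.length ∨ (stepc A val (S, acc) = (S, acc) ∧
      Irr G S.toFinset)) := by
  have hcs : ∀ c ∈ vcands A S ++ ecands A S, CandOK G S.toFinset c ∧ c.2.1.Sublist S :=
    fun c hc => cand_sound hA hS c hc
  obtain ⟨hnil, hcons⟩ := sorted_head (A := A) (S := S) (fun c hc => (hcs c hc).2.length_le)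
  cases hsort : sorted A S with
  | nil =>
    have hst : stepc A val (S, acc) = (S, acc) := by
      unfold stepc
      simp only
      rw [hsort]
      rfl
    rw [hst]
    have hno := hnil hsort
    refine ⟨List.Sublist.refl _, rfl, Or.inr ⟨rfl, ?_, ?_⟩⟩
    · intro a C hC
      obtain ⟨c, hc, _⟩ := vcut_cand hA hS hC
      rw [hno] at hc
      simp at hc
    · intro K x1 y1 x2 y2 hK
      obtain ⟨c, hc, _⟩ := ecut_cand hA hS hK
      rw [hno] at hc
      simp at hc
  | cons c t =>
    obtain ⟨hc, hmin⟩ := hcons c t hsort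
    obtain ⟨hok, hsub⟩ := hcs c hc
    have hnd : c.2.1.Nodup := hS.sublist hsub
    have hsmall : NoSmall G S.toFinset c.2.1.toFinset.card := by
      rw [List.toFinset_card_of_nodup hnd]
      constructor
      · intro a C hC
        obtain ⟨c', hc', hl⟩ := vcut_cand hA hS hC
        exact (hmin c' hc').trans hl
      · intro K x1 y1 x2 y2 hK
        obtain ⟨c', hc', hl⟩ := ecut_cand hA hS hK
        exact (hmin c' hc').trans hl
    obtain ⟨flag, K, x1, y1, x2, y2⟩ := c
    simp only at hsub hnd hsmall hok
    have hKn : ∀ z ∈ K, z < n := fun z hz => hSn z (hsub.subset hz)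
    rcases hok with ⟨hf, hV⟩ | ⟨hf, hE⟩
    · simp only at hf hV
      subst hf
      have hst : stepc A val (S, acc) = stepV val (S, acc) x1 K := by
        unfold stepc
        simp only
        rw [hsort]
        rfl
      have hirr := min_v hV hsmall
      have hsolv := irr_solv G p q r N hN hp hq hr hfree _ hirr
      have hx1K : x1 ∉ K := fun h => hV.aC (List.mem_toFinset.2 h)
      have hx1S : x1 ∈ S := List.mem_toFinset.1 hV.aS
      have hv1 : val (x1 :: K) = fvs G (insert x1 K.toFinset) := by
        rw [hval (x1 :: K) (List.nodup_cons.2 ⟨hx1K, hnd⟩) ?_ ?_]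
        · rw [List.toFinset_cons]
        · intro z hz
          rcases List.mem_cons.1 hz with rfl | hz
          · exact hSn z hx1S
          · exact hKn z hz
        · rw [List.toFinset_cons]
          exact hsolv
      have hv2 : val K = fvs G K.toFinset :=
        hval K hnd hKn (hsolv.mono (Finset.subset_insert _ _))
      have hform := fvs_vcut hV
      have hlt : (minus S K).length < S.length := by
        obtain ⟨z, hz⟩ := hV.ne
        rw [List.mem_toFinset] at hz
        apply List.length_filter_lt_length_iff_exists.2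
        exact ⟨z, hsub.subset hz, by simpa using hz⟩
      rw [hst]
      unfold stepV
      rw [hv1, hv2]
      simp only
      by_cases hcase : fvs G K.toFinset = fvs G (insert x1 K.toFinset)
      · rw [if_pos hcase] at hform
        rw [decide_eq_true hcase, cond_true]
        refine ⟨List.filter_sublist, ?_, Or.inl hlt⟩
        rw [toFinset_minus, hform]
        omega
      · rw [if_neg hcase] at hform
        rw [decide_eq_false hcase, cond_false]
        refine ⟨List.filter_sublist.trans List.filter_sublist, ?_, Or.inl ?_⟩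
        · rw [toFinset_rm, toFinset_minus, hform]
          omega
        · exact lt_of_le_of_lt (List.filter_sublist.length_le) hlt
    · simp only at hf hE
      subst hf
      have hst : stepc A val (S, acc) = stepE A val (S, acc) K x1 y1 x2 y2 := by
        unfold stepc
        simp only
        rw [hsort]
        rfl
      obtain ⟨hm1, hs1⟩ := minconn_spec hA (minus S K) x1 x2 (by
        rw [toFinset_minus, Finset.coe_sdiff]
        exact hE.connO)
      obtain ⟨hm2, hs2⟩ := minconn_spec hA K y1 y2 hE.connI
      set P1 := minconn A (minus S K) x1 x2 with hP1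
      set P2 := minconn A K y1 y2 with hP2
      rw [toFinset_minus] at hm1
      have hirr := min_e hE hsmall hm1
      have hsolv := irr_solv G p q r N hN hp hq hr hfree _ hirr
      have hv1 : val (K ++ P1) = fvs G (K.toFinset ∪ P1.toFinset) := by
        rw [hval (K ++ P1) ?_ ?_ ?_]
        · rw [List.toFinset_append]
        · rw [List.nodup_append]
          refine ⟨hnd, (hS.filter _).sublist hs1, ?_⟩
          rintro a ha b hb rfl
          exact (mem_minus.1 (hs1.subset hb)).2 ha
        · intro z hz
          rcases List.mem_append.1 hz with hz | hz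
          · exact hKn z hz
          · exact hSn z (mem_minus.1 (hs1.subset hz)).1
        · rw [List.toFinset_append]
          exact hsolv
      have hv2 : val K = fvs G K.toFinset :=
        hval K hnd hKn (hsolv.mono Finset.subset_union_left)
      have hform := fvs_ecut hE hm1 hm2
      rw [hst]
      unfold stepE
      simp only
      rw [← hP1, ← hP2, hv1, hv2]
      by_cases hcase : fvs G (K.toFinset ∪ P1.toFinset) = fvs G K.toFinset
      · rw [if_pos hcase] at hform
        rw [decide_eq_true hcase, cond_true]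
        refine ⟨List.filter_sublist, ?_, Or.inl ?_⟩
        · rw [toFinset_minus, hform]
          omega
        · apply List.length_filter_lt_length_iff_exists.2
          have : y1 ∈ K := List.mem_toFinset.1 hE.cut.y1K
          exact ⟨y1, hsub.subset this, by simpa using this⟩
      · rw [if_neg hcase] at hform
        rw [decide_eq_false hcase, cond_false]
        refine ⟨List.filter_sublist, ?_, Or.inl ?_⟩
        · have : (S.filter (fun v => (!decide (v ∈ K)) || decide (v ∈ P2))).toFinset =
              (S.toFinset \ K.toFinset) ∪ P2.toFinset := by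
            ext z
            simp only [List.mem_toFinset, List.mem_filter, Bool.or_eq_true, Bool.not_eq_true',
              decide_eq_false_iff_not, decide_eq_true_eq, Finset.mem_union, Finset.mem_sdiff]
            constructor
            · rintro ⟨h1, h2 | h2⟩
              · exact Or.inl ⟨h1, h2⟩
              · exact Or.inr h2
            · rintro (⟨h1, h2⟩ | h2)
              · exact ⟨h1, Or.inl h2⟩
              · exact ⟨hsub.subset (hs2.subset h2), Or.inr h2⟩
          rw [this, hform]
          omega
        · apply List.length_filter_lt_length_iff_exists.2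
          obtain ⟨z, hz, hz2⟩ : ∃ z ∈ K, z ∉ P2 := by
            by_contra hno
            push Not at hno
            apply path_ne hE hm2
            apply Finset.Subset.antisymm hm2.sub
            intro z hz
            rw [List.mem_toFinset] at hz ⊢
            exact hno z hz
          refine ⟨z, hsub.subset hz, ?_⟩
          simp [hz, hz2]

theorem algo_correct (hA : ∀ i j, A i j = true ↔ G.Adj i j) (p q r N n : ℕ) (hN : 1 ≤ N)
    (hp : p ≤ N) (hq : q ≤ N) (hr : r ≤ N) (hfree : ¬ (spider ![1, p, q, r]).IsContained G)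
    (val : List ℕ → ℕ) (hval : ValOK G (twBound N) n val) (S : List ℕ) (hS : S.Nodup)
    (hSn : ∀ z ∈ S, z < n) : algo A val S = fvs G S.toFinset := by
  have key : ∀ k, ((stepc A val)^[k] (S, 0)).1.Sublist S ∧
      ((stepc A val)^[k] (S, 0)).2 + fvs G ((stepc A val)^[k] (S, 0)).1.toFinset =
        fvs G S.toFinset ∧
      (((stepc A val)^[k] (S, 0)).1.length + k ≤ S.length ∨
        Irr G ((stepc A val)^[k] (S, 0)).1.toFinset) := by
    intro k
    induction k with
    | zero =>
      refine ⟨List.Sublist.refl _, ?_, Or.inl ?_⟩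
      · simp
      · simp
    | succ k ih =>
      obtain ⟨h1, h2, h3⟩ := ih
      rw [Function.iterate_succ_apply']
      set st := (stepc A val)^[k] (S, 0) with hst
      have hst' : st = (st.1, st.2) := rfl
      obtain ⟨h4, h5, h6⟩ := step_correct hA p q r N n hN hp hq hr hfree val hval st.1 st.2
        (hS.sublist h1) (fun z hz => hSn z (h1.subset hz))
      rw [← hst'] at h4 h5 h6
      refine ⟨h4.trans h1, h5.trans h2, ?_⟩
      rcases h6 with h6 | ⟨h6, h7⟩
      · rcases h3 with h3 | h3
        · left; omega
        · -- already irreducible: the step cannot shrink; treat via the dichotomy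
          obtain ⟨_, _, h6'⟩ := step_correct hA p q r N n hN hp hq hr hfree val hval st.1 st.2
            (hS.sublist h1) (fun z hz => hSn z (h1.subset hz))
          rw [← hst'] at h6'
          right
          -- no candidates exist
          have hnil : sorted A st.1 = [] := by
            cases hs : sorted A st.1 with
            | nil => rfl
            | cons c t =>
              exfalso
              have hcs : ∀ c ∈ vcands A st.1 ++ ecands A st.1,
                  CandOK G st.1.toFinset c ∧ c.2.1.Sublist st.1 :=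
                fun c hc => cand_sound hA (hS.sublist h1) c hc
              obtain ⟨_, hcons⟩ := sorted_head (A := A) (S := st.1)
                (fun c hc => (hcs c hc).2.length_le)
              obtain ⟨hc, _⟩ := hcons c t hs
              rcases (hcs c hc).1 with h | h
              · exact h3.1 _ _ h.2
              · exact h3.2 _ _ _ _ _ h.2
          have : stepc A val st = st := by
            unfold stepc
            rw [hnil]
            rfl
          rw [this]
          exact h3
      · right
        rw [h6]
        exact h7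
  obtain ⟨h1, h2, h3⟩ := key S.length
  unfold algo
  set st := (stepc A val)^[S.length] (S, 0) with hst
  have hsolv : Solv G (twBound N) st.1.toFinset := by
    rcases h3 with h3 | h3
    · have : st.1 = [] := by
        rw [← List.length_eq_zero_iff]
        omega
      rw [this]
      left
      intro v hv
      simp at hv
    · exact irr_solv G p q r N hN hp hq hr hfree _ h3
  rw [hval st.1 (hS.sublist h1) (fun z hz => hSn z (h1.subset hz)) hsolv]
  exact h2

end

end FVS424
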