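import Pool.Agent.Lib.MP_424cb6_lc.Main

/-! Transfer between `Fin n` and `ℕ`, binary thresholds, search, and the final assembly. -/

namespace FVS424

open Pool.Agent.MSR N68a2faeb N487b59b3 Turing Turing.TM2 Cmd En

attribute [local fun_prop] PT.eq PT.mem

/-! ### transfer -/

theorem subdividedStar_eq (ℓ : Fin 4 → ℕ) : subdividedStar ℓ = spider ℓ := by
  unfold subdividedStar spider
  congr 1
  funext a b
  apply propext
  match a, b with
  | none, none =>
    constructor
    · rintro (⟨i, j, _, h, _⟩ | ⟨i, j, k, h, _⟩) <;> simp at h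
    · intro h; exact absurd h id
  | none, some ⟨i, j⟩ =>
    constructor
    · rintro (⟨i', j', _, h, h'⟩ | ⟨i', j', k, h, _⟩)
      · rw [Option.some.injEq] at h
        cases h
        exact h'
      · simp at h
    · intro h; exact Or.inl ⟨i, j, rfl, rfl, h⟩
  | some ⟨i, j⟩, none =>
    constructor
    · rintro (⟨i', j', h, _, h'⟩ | ⟨i', j', k, _, h, _⟩) <;> simp at h
    · intro h; exact absurd h id
  | some ⟨i, j⟩, some ⟨i', j'⟩ =>
    constructor
    · rintro (⟨_, _, h, _, _⟩ | ⟨i'', j'', k, h, h', h''⟩)
      · simp at h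
      · rw [Option.some.injEq] at h h'
        cases h
        cases h'
        exact ⟨rfl, h''⟩
    · rintro ⟨rfl, h⟩
      exact Or.inr ⟨i, j, j', rfl, rfl, h⟩

theorem spider_nbr (ℓ : Fin 4 → ℕ) (h0 : 0 < ℓ 0) (a : Option (Σ i : Fin 4, Fin (ℓ i))) :
    ∃ b, (spider ℓ).Adj a b := by
  match a with
  | none =>
    refine ⟨some ⟨0, ⟨0, h0⟩⟩, ?_⟩
    exact ⟨by simp, Or.inl rfl⟩
  | some ⟨i, ⟨0, hj⟩⟩ => exact ⟨none, by simp, Or.inr rfl⟩
  | some ⟨i, ⟨j + 1, hj⟩⟩ =>
    refine ⟨some ⟨i, ⟨j, by omega⟩⟩, ?_, Or.inr ⟨rfl, rfl⟩⟩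
    intro h
    simp only [Option.some.injEq, Sigma.mk.injEq, heq_eq_eq, true_and, Fin.mk.injEq] at h
    omega

theorem contained_map {n : ℕ} {G : SimpleGraph (Fin n)} {ℓ : Fin 4 → ℕ} (h0 : 0 < ℓ 0)
    (h : (spider ℓ).IsContained (G.map Fin.valEmbedding)) : (spider ℓ).IsContained G := by
  obtain ⟨f⟩ := h
  have hlt : ∀ a, f a < n := by
    intro a
    obtain ⟨b, hb⟩ := spider_nbr ℓ h0 a
    have := f.toHom.map_adj hb
    rw [SimpleGraph.map_adj] at this
    obtain ⟨x, y, _, hx, _⟩ := this
    exact (show f a = x from hx.symm) ▸ x.2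
  refine ⟨⟨⟨fun a => ⟨f a, hlt a⟩, ?_⟩, ?_⟩⟩
  · intro a b hab
    have := f.toHom.map_adj hab
    rw [SimpleGraph.map_adj] at this
    obtain ⟨x, y, hxy, hx, hy⟩ := this
    have e1 : x = ⟨f a, hlt a⟩ := Fin.ext hx
    have e2 : y = ⟨f b, hlt b⟩ := Fin.ext hy
    rwa [← e1, ← e2]
  · intro a b hab
    have : f a = f b := congrArg Fin.val hab
    exact f.injective this

theorem isFVS_iff {n : ℕ} (G : SimpleGraph (Fin n)) (X : Finset (Fin n)) :
    IsFVS G X ↔ Acyc (G.map Fin.valEmbedding)
      (((List.range n).toFinset : Set ℕ) \ ((X.map Fin.valEmbedding : Finset ℕ) : Set ℕ)) := by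
  rw [acyc_iff]
  constructor
  · intro h
    have hlt : ∀ v : (((List.range n).toFinset : Set ℕ) \
        ((X.map Fin.valEmbedding : Finset ℕ) : Set ℕ) : Set ℕ), (v : ℕ) < n := by
      intro v
      exact List.mem_range.1 (List.mem_toFinset.1 v.2.1)
    refine SimpleGraph.IsAcyclic.comap (G' := G.induce {v | v ∉ X})
      ⟨fun v => ⟨⟨v, hlt v⟩, ?_⟩, ?_⟩ ?_ h
    · intro hv
      exact v.2.2 (Finset.mem_coe.2 (Finset.mem_map.2 ⟨_, hv, rfl⟩))
    · intro a b hab
      have hab' : (G.map Fin.valEmbedding).Adj a b := hab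
      rw [SimpleGraph.map_adj] at hab'
      obtain ⟨x, y, hxy, hx, hy⟩ := hab'
      have e1 : x = ⟨a, hlt a⟩ := Fin.ext hx
      have e2 : y = ⟨b, hlt b⟩ := Fin.ext hy
      show G.Adj ⟨a, hlt a⟩ ⟨b, hlt b⟩
      rwa [← e1, ← e2]
    · intro a b hab
      have : (a : ℕ) = b := congrArg (fun z : {v : Fin n | v ∉ X} => (z : Fin n).val) hab
      exact Subtype.ext this
  · intro h
    refine SimpleGraph.IsAcyclic.comap (G' := (G.map Fin.valEmbedding).induce
      (((List.range n).toFinset : Set ℕ) \ ((X.map Fin.valEmbedding : Finset ℕ) : Set ℕ)))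
      ⟨fun v => ⟨(v : Fin n).val, ?_⟩, ?_⟩ ?_ h
    · refine ⟨Finset.mem_coe.2 (List.mem_toFinset.2 (List.mem_range.2 (v : Fin n).2)), fun hv => ?_⟩
      rw [Finset.mem_coe, Finset.mem_map] at hv
      obtain ⟨w, hw, hw'⟩ := hv
      have : w = v := Fin.ext hw'
      exact v.2 (this ▸ hw)
    · intro a b hab
      show (G.map Fin.valEmbedding).Adj _ _
      rw [SimpleGraph.map_adj]
      exact ⟨_, _, hab, rfl, rfl⟩
    · intro a b hab
      have h1 := congrArg Subtype.val hab
      exact Subtype.ext (Fin.ext h1)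

theorem exists_fin {n : ℕ} {X : Finset ℕ} (hX : ∀ z ∈ X, z < n) :
    ∃ Y : Finset (Fin n), Y.map Fin.valEmbedding = X ∧ Y.card = X.card := by
  refine ⟨Finset.univ.filter (fun v : Fin n => (v : ℕ) ∈ X), ?_, ?_⟩
  · ext z
    rw [Finset.mem_map]
    constructor
    · rintro ⟨v, hv, rfl⟩
      exact (Finset.mem_filter.1 hv).2
    · intro hz
      exact ⟨⟨z, hX z hz⟩, Finset.mem_filter.2 ⟨Finset.mem_univ _, hz⟩, rfl⟩
  · rw [← Finset.card_map Fin.valEmbedding]
    congr 1
    ext z
    rw [Finset.mem_map]
    constructor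
    · rintro ⟨v, hv, rfl⟩
      exact (Finset.mem_filter.1 hv).2
    · intro hz
      exact ⟨⟨z, hX z hz⟩, Finset.mem_filter.2 ⟨Finset.mem_univ _, hz⟩, rfl⟩

theorem fvs_fin {n : ℕ} (G : SimpleGraph (Fin n)) (k : ℕ) :
    fvs (G.map Fin.valEmbedding) (List.range n).toFinset ≤ k ↔
      ∃ X : Finset (Fin n), X.card ≤ k ∧ IsFVS G X := by
  constructor
  · intro h
    obtain ⟨X, hX, hXc⟩ := exists_fvs (G.map Fin.valEmbedding) (List.range n).toFinset
    obtain ⟨Y, hY, hYc⟩ := exists_fin (n := n) (X := X) (fun z hz => by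
      exact List.mem_range.1 (List.mem_toFinset.1 (hX.1 hz)))
    refine ⟨Y, by omega, ?_⟩
    rw [isFVS_iff, hY]
    exact hX.2
  · rintro ⟨X, hXc, hX⟩
    rw [isFVS_iff] at hX
    refine (fvs_le_of hX).trans ((Finset.card_le_card Finset.inter_subset_left).trans ?_)
    rw [Finset.card_map]
    exact hXc

/-! ### correctness of the values -/

theorem valM_eq {V : List (List Bool) × List ℕ → ℕ} {M : List (List Bool)} {G : SimpleGraph ℕ}
    (hM : ∀ i j, ad M i j = true ↔ G.Adj i j) {p q r N : ℕ} (hN : 1 ≤ N) (hp : p ≤ N)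
    (hq : q ≤ N) (hr : r ≤ N) (hfree : ¬ (spider ![1, p, q, r]).IsContained G)
    (hV : ValOK G (twBound N) M.length (vcl V M)) {S : List ℕ} (hS : S.Nodup)
    (hSn : ∀ z ∈ S, z < M.length) : valM V M S = fvs G S.toFinset :=
  algo_correct hM p q r N M.length hN hp hq hr hfree _ hV S hS hSn

theorem minset_spec {V : List (List Bool) × List ℕ → ℕ} {M : List (List Bool)}
    {G : SimpleGraph ℕ}
    (hval : ∀ S : List ℕ, S.Nodup → (∀ z ∈ S, z < M.length) → valM V M S = fvs G S.toFinset) :
    (minset V M).toFinset ⊆ (List.range M.length).toFinset ∧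
    (minset V M).toFinset.card ≤ fvs G (List.range M.length).toFinset ∧
    Acyc G (((List.range M.length).toFinset : Set ℕ) \ ((minset V M).toFinset : Set ℕ)) := by
  classical
  set n := M.length with hn
  -- invariant
  have key : ∀ (l : List ℕ) (st : List ℕ × List ℕ), (∀ v ∈ l, v < n) →
      st.1.Nodup → (∀ z ∈ st.1, z < n) → 
      (∀ v ∈ st.1, v ∉ l → fvs G st.1.toFinset ≤ fvs G (st.1.toFinset.erase v)) →
      (l.foldl (srch V M) st).1.Nodup ∧ (∀ z ∈ (l.foldl (srch V M) st).1, z < n) ∧
      (l.foldl (srch V M) st).1.toFinset ∪ (l.foldl (srch V M) st).2.toFinset =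
        st.1.toFinset ∪ st.2.toFinset ∧
      (l.foldl (srch V M) st).2.length + fvs G (l.foldl (srch V M) st).1.toFinset =
        st.2.length + fvs G st.1.toFinset ∧
      ∀ v ∈ (l.foldl (srch V M) st).1, fvs G (l.foldl (srch V M) st).1.toFinset ≤
        fvs G ((l.foldl (srch V M) st).1.toFinset.erase v) := by
    intro l
    induction l with
    | nil =>
      intro st _ h1 h2 h3
      exact ⟨h1, h2, rfl, rfl, fun v hv => h3 v hv (by simp)⟩
    | cons u l ih =>
      intro st hl h1 h2 h3
      rw [List.foldl_cons]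
      have hu := hl u List.mem_cons_self
      have hrm1 : (rm st.1 u).Nodup := h1.filter _
      have hrm2 : ∀ z ∈ rm st.1 u, z < n := fun z hz => h2 z (mem_rm.1 hz).1
      have e1 : valM V M st.1 = fvs G st.1.toFinset := hval _ h1 h2
      have e2 : valM V M (rm st.1 u) = fvs G (st.1.toFinset.erase u) := by
        rw [hval _ hrm1 hrm2, toFinset_rm]
      by_cases hlt : fvs G (st.1.toFinset.erase u) < fvs G st.1.toFinset
      · have hs : srch V M st u = (rm st.1 u, u :: st.2) := by
          unfold srch
          rw [e1, e2]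
          simp [ltb, hlt]
        rw [hs]
        have hu1 : u ∈ st.1 := by
          by_contra h
          rw [Finset.erase_eq_of_notMem (by simpa using h)] at hlt
          exact lt_irrefl _ hlt
        have hle := fvs_insert_le (G := G) (S := st.1.toFinset) u
        obtain ⟨i1, i2, i3, i4, i5⟩ := ih (rm st.1 u, u :: st.2)
          (fun v hv => hl v (List.mem_cons_of_mem _ hv)) hrm1 hrm2 (by
            intro v hv hvl
            simp only at hv ⊢
            rw [toFinset_rm]
            rw [mem_rm] at hv
            have h4 := h3 v hv.1 (by simp [hv.2, hvl])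
            have h5 := fvs_insert_le (G := G) (S := st.1.toFinset.erase v) u
            rw [Finset.erase_right_comm] at h5
            omega)
        refine ⟨i1, i2, ?_, ?_, i5⟩
        · rw [i3]
          simp only
          rw [toFinset_rm, List.toFinset_cons, Finset.union_insert, ← Finset.insert_union,
            Finset.insert_erase (List.mem_toFinset.2 hu1)]
        · rw [i4]
          simp only
          rw [toFinset_rm, List.length_cons]
          omega
      · have hs : srch V M st u = st := by
          unfold srch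
          rw [e1, e2]
          simp [ltb, hlt]
        rw [hs]
        refine ih st (fun v hv => hl v (List.mem_cons_of_mem _ hv)) h1 h2 ?_
        intro v hv hvl
        by_cases hvu : v = u
        · subst hvu; omega
        · exact h3 v hv (by simp [hvu, hvl])
  obtain ⟨k1, k2, k3, k4, k5⟩ := key (List.range n) (List.range n, [])
    (fun v hv => List.mem_range.1 hv) List.nodup_range (fun z hz => List.mem_range.1 hz)
    (fun v hv hv' => absurd hv hv')
  set st := (List.range n).foldl (srch V M) (List.range n, []) with hst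
  have hms : minset V M = st.2 := rfl
  rw [hms]
  simp only [List.toFinset_nil, Finset.union_empty] at k3
  have hzero : Acyc G (st.1.toFinset : Set ℕ) := by
    obtain ⟨Y, hY, hYc⟩ := exists_fvs G st.1.toFinset
    rcases Y.eq_empty_or_nonempty with h | ⟨v, hv⟩
    · have := hY.2
      rw [h, Finset.coe_empty, Set.sdiff_empty] at this
      exact this
    · exfalso
      have hvS := hY.1 hv
      have h1 := k5 v (List.mem_toFinset.1 hvS)
      have h2 : IsF G (st.1.toFinset.erase v) (Y.erase v) := by
        refine ⟨Finset.erase_subset_erase _ hY.1, hY.2.mono ?_⟩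
        intro z hz
        simp only [Set.mem_sdiff, Finset.mem_coe, Finset.mem_erase, not_and] at hz ⊢
        exact ⟨hz.1.2, fun h => hz.2 hz.1.1 h⟩
      have h3 := fvs_le h2
      rw [Finset.card_erase_of_mem hv] at h3
      have h4 : 0 < Y.card := Finset.card_pos.2 ⟨v, hv⟩
      omega
  refine ⟨?_, ?_, ?_⟩
  · rw [← k3]; exact Finset.subset_union_right
  · refine (List.toFinset_card_le _).trans ?_
    simp only [List.length_nil, zero_add] at k4
    omega
  · refine hzero.mono ?_
    intro z hz
    have h1 : z ∈ st.1.toFinset ∪ st.2.toFinset := by rw [k3]; exact hz.1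
    rcases Finset.mem_union.1 h1 with h | h
    · exact h
    · exact absurd h hz.2

/-! ### binary thresholds -/

/-- value of a little-endian binary string, cut off at `m` -/
def capv (m : ℕ) (l : List Bool) : ℕ :=
  l.reverse.foldl (fun c b => bif leb (c + c + bif b then 1 else 0) m then c + c + bif b then 1 else 0
    else m) 0

theorem pt_capv {α : Type} [En α] {m : α → ℕ} {l : α → List Bool} (hm : PT m) (hl : PT l) :
    PT (fun a => capv (m a) (l a)) := by
  unfold capv
  obtain ⟨d, hd⟩ := hm.bound
  refine PT.foldl (l := fun a => (l a).reverse) (f := fun _ => 0)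
    (g := fun a c b => bif leb (c + c + bif b then 1 else 0) (m a) then
      c + c + bif b then 1 else 0 else m a) (by fun_prop) (by fun_prop) (by fun_prop) ?_
  refine ⟨fun n => (n + 2) ^ d, (PB.id.add (PB.const 2)).pow d, ?_⟩
  intro a k
  have h1 := hd a
  rw [sz_nat] at h1 ⊢
  refine le_trans ?_ h1
  have key : ∀ (t : List Bool) (c : ℕ), c ≤ m a →
      t.foldl (fun c b => bif leb (c + c + bif b then 1 else 0) (m a) then
        c + c + bif b then 1 else 0 else m a) c ≤ m a := by
    intro t
    induction t with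
    | nil => intro c hc; exact hc
    | cons b t ih =>
      intro c hc
      rw [List.foldl_cons]
      apply ih
      by_cases h : (c + c + bif b then 1 else 0) ≤ m a
      · simp [leb, h]
      · simp [leb, h]
  exact key _ 0 (Nat.zero_le _)

theorem capv_eq (m : ℕ) (l : List Bool) :
    capv m l = min (l.foldr (fun b c => 2 * c + bif b then 1 else 0) 0) m := by
  unfold capv
  rw [List.foldl_reverse]
  induction l with
  | nil => simp
  | cons b l ih =>
    rw [List.foldr_cons, List.foldr_cons, ih]
    set s := l.foldr (fun b c => 2 * c + bif b then 1 else 0) 0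
    set t : ℕ := bif b then 1 else 0 with ht
    have ht1 : t ≤ 1 := by rw [ht]; cases b <;> simp
    by_cases h : min s m + min s m + t ≤ m
    · simp only [leb, h, decide_true, cond_true]
      rcases le_total s m with h1 | h1
      · rw [min_eq_left h1] at h ⊢
        rw [min_eq_left (by omega)]
        omega
      · rw [min_eq_right h1] at h ⊢
        have : m = 0 := by omega
        have : t = 0 := by omega
        omega
    · simp only [leb, h, decide_false, cond_false]
      rcases le_total s m with h1 | h1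
      · rw [min_eq_left h1] at h
        rw [min_eq_right (by omega)]
      · rw [min_eq_right (by omega)]

theorem foldr_encodePosNum (p : PosNum) :
    (Computability.encodePosNum p).foldr (fun b c => 2 * c + bif b then 1 else 0) 0 = (p : ℕ) := by
  induction p with
  | one => rfl
  | bit0 p ih =>
    show 2 * ((Computability.encodePosNum p).foldr _ 0) + 0 = _
    rw [ih, PosNum.cast_bit0]
    omega
  | bit1 p ih =>
    show 2 * ((Computability.encodePosNum p).foldr _ 0) + 1 = _
    rw [ih, PosNum.cast_bit1]
    omega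

theorem foldr_encodeNat (k : ℕ) :
    (Computability.encodeNat k).foldr (fun b c => 2 * c + bif b then 1 else 0) 0 = k := by
  unfold Computability.encodeNat
  have h : ((k : Num) : ℕ) = k := Num.to_of_nat k
  cases hk : (k : Num) with
  | zero =>
    rw [hk] at h
    rw [← h]
    rfl
  | pos p =>
    rw [hk] at h
    have h1 := foldr_encodePosNum p
    show (Computability.encodePosNum p).foldr _ 0 = k
    rw [h1]
    exact h

/-- decision function on matrices and binary strings -/
def decF (V : List (List Bool) × List ℕ → ℕ) (q : List (List Bool) × Raw) : Bool :=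
  leb (valM V q.1 (List.range q.1.length))
    (capv (valM V q.1 (List.range q.1.length)) q.2.str)

theorem pt_decF {V : List (List Bool) × List ℕ → ℕ} (hV : PT V) : PT (decF V) := by
  unfold decF
  have h1 : PT (fun q : List (List Bool) × Raw => valM V q.1 (List.range q.1.length)) := by
    fun_prop
  exact PT.leb h1 (pt_capv h1 (PT.ofRaw (PT.snd PT.id')))

theorem decF_iff {V : List (List Bool) × List ℕ → ℕ} (M : List (List Bool)) (k : ℕ) :
    decF V (M, ⟨Computability.encodeNat k⟩) = true ↔ valM V M (List.range M.length) ≤ k := by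
  unfold decF
  simp only [leb, decide_eq_true_eq]
  rw [capv_eq, foldr_encodeNat]
  omega

theorem enc_matrix (M : List (List Bool)) : (enc M : List Bool) = bitEncode M := rfl

theorem enc_listNat (l : List ℕ) :
    enc (l.map (fun j => (⟨Computability.encodeNat j⟩ : Raw))) = bitEncode l := by
  show ((List.map enc (l.map _)).map delimit).flatten = ((l.map bitEncode).map delimit).flatten
  congr 2
  rw [List.map_map]
  rfl

/-- **Main assembly**: polynomial-time decision and search on `S_{1,p,q,r}`-subgraph-free graphs,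
from a polynomial-time rank function and polynomial-time algorithms for bounded treewidth. -/
theorem main_of {rk : List (List ℕ) → ℕ → ℕ}
    (hrkPT : PT (fun q : List (List ℕ) × ℕ => rk q.1 q.2)) (hrk : RankSpec rk)
    (htw : ∀ w, ∃ tw : List (List Bool) × List ℕ → ℕ, PT tw ∧ TwSpec w tw) (p q r : ℕ) :
    (∃ f : List (List Bool) × ℕ → Bool, IsPolyTime f ∧
      ∀ (n : ℕ) (G : SimpleGraph (Fin n)) [DecidableRel G.Adj] (k : ℕ),
        (subdividedStar ![1, p, q, r]).Free G →
        (f (adjMat G, k) = true ↔ ∃ X : Finset (Fin n), X.card ≤ k ∧ IsFVS G X)) ∧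
    (∃ g : List (List Bool) → List ℕ, IsPolyTime g ∧
      ∀ (n : ℕ) (G : SimpleGraph (Fin n)) [DecidableRel G.Adj],
        (subdividedStar ![1, p, q, r]).Free G →
        ∃ X : Finset (Fin n), (g (adjMat G)).toFinset = X.map Fin.valEmbedding ∧ IsFVS G X ∧
          ∀ Y : Finset (Fin n), IsFVS G Y → X.card ≤ Y.card) := by
  rw [subdividedStar_eq]
  set N := p + q + r + 1 with hN
  obtain ⟨tw, htwPT, htwS⟩ := htw (twBound N)
  set V := vsolv rk tw with hVdef
  have hVPT : PT V := pt_vsolv hrkPT htwPT
  have hval : ∀ (n : ℕ) (G : SimpleGraph (Fin n)) [DecidableRel G.Adj],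
      (spider ![1, p, q, r]).Free G → ∀ S : List ℕ, S.Nodup → (∀ z ∈ S, z < (adjMat G).length) →
      valM V (adjMat G) S = fvs (G.map Fin.valEmbedding) S.toFinset := by
    intro n G _ hfree S hS hSn
    refine valM_eq (ad_adjMat G) (p := p) (q := q) (r := r) (N := N) (by omega) (by omega)
      (by omega) (by omega) ?_ ?_ hS hSn
    · intro h
      exact hfree (contained_map (by simp) h)
    · exact valok hrk htwS (ad_adjMat G)
  constructor
  · refine ⟨fun x => decF V (x.1, ⟨Computability.encodeNat x.2⟩), ?_, ?_⟩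
    · apply isPolyTime_of_CT
      refine (CT.reindex (fun x : List (List Bool) × ℕ =>
        ((x.1, ⟨Computability.encodeNat x.2⟩) : List (List Bool) × Raw)) (pt_decF hVPT)).congr
        (fun x => ?_) (fun x => rfl)
      rfl
    · intro n G _ k hfree
      rw [decF_iff, hval n G hfree _ List.nodup_range (fun z hz => List.mem_range.1 hz),
        adjMat_length]
      exact fvs_fin G k
  · refine ⟨fun M => minset V M, ?_, ?_⟩
    · apply isPolyTime_of_CT
      have h1 : PT (fun M : List (List Bool) =>
          (minset V M).map (fun j => (⟨Computability.encodeNat j⟩ : Raw))) := by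
        apply PT.map (pt_minset hVPT)
        exact PT.toRaw (PT.encodeNat (PT.snd PT.id'))
      exact h1.congr (fun M => rfl) (fun M => (enc_listNat _).symm)
    · intro n G _ hfree
      obtain ⟨h1, h2, h3⟩ := minset_spec (V := V) (hval n G hfree)
      rw [adjMat_length] at h1 h2 h3
      obtain ⟨X, hX, hXc⟩ := exists_fin (n := n) (X := (minset V (adjMat G)).toFinset)
        (fun z hz => List.mem_range.1 (List.mem_toFinset.1 (h1 hz)))
      refine ⟨X, hX.symm, ?_, ?_⟩
      · rw [isFVS_iff, hX]
        exact h3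
      · intro Y hY
        have := (fvs_fin G Y.card).2 ⟨Y, le_rfl, hY⟩
        omega

end FVS424
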