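import Pool.Agent.Lib.MP_424cb6_lc.Insep

/-! The barrier lemma: an element of an inseparable set which has a long path through it (or just a
long path meeting the set often) starts three disjoint long paths. -/

namespace FVS424

open Relation

variable {V : Type*}

/-- three paths starting in `v`, pairwise disjoint except for `v`, each with at least `M` further
vertices -/
def Fan (G : SimpleGraph V) (v : V) (M : ℕ) : Prop :=
  ∃ p : Fin 3 → List V, (∀ i, IsP G (v :: p i) ∧ M ≤ (p i).length) ∧
    ∀ i j, i ≠ j → (p i).Disjoint (p j)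

theorem to_path {G : SimpleGraph V} {v w : V} {q : List V}
    (h : (v :: (q ++ [w])).IsChain G.Adj) (hv : v ∉ q) (hvw : v ≠ w) :
    ∃ q' : List V, (∀ z ∈ q', z ∈ q) ∧ IsP G (v :: (q' ++ [w])) := by
  have hc := conn_of_list (S := {z | z ∈ v :: (q ++ [w])}) _ v h (fun z hz => hz) w (by simp)
  obtain ⟨l, h1, h2, h3, h4, h5⟩ := hc.exists_path
  cases l with
  | nil => simp at h3
  | cons a r =>
    simp at h3
    subst h3
    rcases List.eq_nil_or_concat r with rfl | ⟨q', b, rfl⟩
    · simp at h4
      exact absurd h4 hvw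
    · rw [List.concat_eq_append] at h1 h2 h4 h5
      have hb : b = w := by
        simpa [List.getLast?_cons] using h4
      subst hb
      refine ⟨q', ?_, h1, h2⟩
      intro z hz
      rw [List.nodup_cons, List.nodup_append] at h2
      have hzm := h5 z (by simp [hz])
      simp only [Set.mem_ofPred_eq, List.mem_cons, List.mem_append, List.not_mem_nil,
        or_false] at hzm
      rcases hzm with rfl | hzm | rfl
      · exact absurd (by simp [hz]) h2.1
      · exact hzm
      · exact absurd rfl (h2.2.2.2 z hz z (by simp))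

/-- continue inside a long path -/
theorem extend {G : SimpleGraph V} {M : ℕ} {s : List V} (hs : IsP G s) (hl : 2 * M + 1 ≤ s.length)
    {w : V} (hw : w ∈ s) : ∃ e : List V, IsP G (w :: e) ∧ M ≤ e.length ∧ ∀ z ∈ w :: e, z ∈ s := by
  obtain ⟨a, b, rfl⟩ := List.append_of_mem hw
  have hch := hs.1
  have hnd := hs.2
  rw [List.isChain_split] at hch
  by_cases hb : M ≤ b.length
  · refine ⟨b, ⟨hch.2, ?_⟩, hb, ?_⟩
    · exact (List.nodup_append.1 hnd).2.1
    · intro z hz
      exact List.mem_append_right _ hz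
  · refine ⟨a.reverse, ⟨?_, ?_⟩, ?_, ?_⟩
    · have := hch.1
      have h2 : (a ++ [w]).reverse.IsChain G.Adj := by
        rw [List.isChain_reverse]
        exact this.imp (fun _ _ h => h.symm)
      simpa using h2
    · rw [List.nodup_cons, List.nodup_reverse, List.mem_reverse]
      have h1 := List.nodup_append.1 hnd
      refine ⟨?_, h1.1⟩
      intro h
      exact h1.2.2 w h w (by simp) rfl
    · simp only [List.length_append, List.length_cons, List.length_reverse] at hl ⊢
      omega
    · intro z hz
      simp only [List.mem_cons, List.mem_reverse, List.mem_append] at hz ⊢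
      tauto

section

variable (G : SimpleGraph V) {m : ℕ} (s : Fin m → List V) (v : V) (J : Finset (Fin m))

/-- union of the segments with index in `J` -/
def W : Set V := {z | ∃ j ∈ J, z ∈ s j}

/-- contracted digraph -/
def CR : V ⊕ Fin m → V ⊕ Fin m → Prop
  | .inl u, .inl u' => G.Adj u u' ∧ u ∉ W s J ∧ u' ∉ W s J ∧ u ≠ v ∧ u' ≠ v
  | .inl u, .inr j => j ∈ J ∧ u ∉ W s J ∧ u ≠ v ∧ ∃ w ∈ s j, G.Adj u w
  | .inr _, _ => False

/-- possible continuation after the vertex `p` -/
def CA (p : V) : Set (V ⊕ Fin m) :=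
  {a | match a with
    | .inl u => G.Adj p u ∧ u ∉ W s J ∧ u ≠ v
    | .inr j => j ∈ J ∧ ∃ w ∈ s j, G.Adj p w}

/-- targets -/
def CB : Set (V ⊕ Fin m) := {a | ∃ j ∈ J, a = .inr j}

variable {G s v J}

theorem cr_to_real : ∀ (l : List (V ⊕ Fin m)) (a : V ⊕ Fin m) (p : V),
    (a :: l).IsChain (CR G s v J) → a ∈ CA G s v J p → (∃ b ∈ (a :: l).getLast?, b ∈ CB (V := V) J) →
    ∃ (q : List V) (w : V) (j : Fin m), a :: l = q.map Sum.inl ++ [Sum.inr j] ∧ j ∈ J ∧ w ∈ s j ∧
      (p :: (q ++ [w])).IsChain G.Adj ∧ ∀ z ∈ q, z ∉ W s J ∧ z ≠ v := by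
  intro l
  induction l with
  | nil =>
    intro a p _ ha hb
    obtain ⟨b, hb1, j, hj, hb2⟩ := hb
    simp at hb1
    subst hb1
    subst hb2
    obtain ⟨_, w, hw, hpw⟩ := ha
    refine ⟨[], w, j, rfl, hj, hw, ?_, by simp⟩
    simpa using hpw
  | cons b l ih =>
    intro a p hc ha hb
    rw [List.isChain_cons_cons] at hc
    rcases a with u | j
    swap
    · exact hc.1.elim
    have hbA : b ∈ CA G s v J u := by
      rcases b with u' | j
      · obtain ⟨h1, h2, h3, h4, h5⟩ := hc.1
        exact ⟨h1, h3, h5⟩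
      · obtain ⟨h1, h2, h3, h4⟩ := hc.1
        exact ⟨h1, h4⟩
    obtain ⟨q, w, j, h1, h2, h3, h4, h5⟩ := ih b u hc.2 hbA (by
      rw [List.getLast?_cons_cons] at hb
      exact hb)
    obtain ⟨ha1, ha2, ha3⟩ := ha
    refine ⟨u :: q, w, j, ?_, h2, h3, ?_, ?_⟩
    · rw [h1]; rfl
    · rw [List.cons_append, List.isChain_cons_cons]
      exact ⟨ha1, h4⟩
    · intro z hz
      rcases List.mem_cons.1 hz with rfl | hz
      · exact ⟨ha2, ha3⟩
      · exact h5 z hz

theorem real_to_cr {j : Fin m} (hj : j ∈ J) {w : V} (hw : w ∈ s j) : ∀ (q : List V) (p : V),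
    (p :: (q ++ [w])).IsChain G.Adj → (∀ z ∈ q, z ∉ W s J ∧ z ≠ v) →
    WAB (CR G s v J) (CA G s v J p) (CB J) (q.map Sum.inl ++ [Sum.inr j]) := by
  intro q
  induction q with
  | nil =>
    intro p h _
    refine ⟨.singleton _, ⟨_, rfl, ?_⟩, ⟨_, rfl, j, hj, rfl⟩⟩
    refine ⟨hj, w, hw, ?_⟩
    simpa using h
  | cons u q ih =>
    intro p h hq
    rw [List.cons_append, List.isChain_cons_cons] at h
    obtain ⟨h1, h2, h3⟩ := ih u h.2 (fun z hz => hq z (List.mem_cons_of_mem _ hz))
    have hu := hq u (by simp)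
    refine ⟨?_, ⟨_, rfl, h.1, hu.1, hu.2⟩, ?_⟩
    · rw [List.map_cons, List.cons_append, List.isChain_cons]
      refine ⟨?_, h1⟩
      intro b hb
      obtain ⟨b', hb', hA⟩ := h2
      rw [hb] at hb'
      simp at hb'
      subst hb'
      rcases b with u' | j'
      · obtain ⟨h4, h5, h6⟩ := hA
        exact ⟨h4, hu.1, h5, hu.2, h6⟩
      · obtain ⟨h4, h5⟩ := hA
        exact ⟨h4, hu.1, hu.2, h5⟩
    · rw [List.map_cons, List.cons_append]
      obtain ⟨b, hb, hB⟩ := h3
      refine ⟨b, ?_, hB⟩
      rw [List.getLast?_cons, hb]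
      simp

end

section

variable {G : SimpleGraph V} {m : ℕ} {s : Fin m → List V} {v : V} {X : Set V}

/-- every set of walks hitting `W J` hits the separator -/
theorem sep_hit {J : Finset (Fin m)} {T : Finset (V ⊕ Fin m)}
    (hT : Sep (CR G s v J) (CA G s v J v) (CB J) T) (p : List V)
    (hp : (v :: p).IsChain G.Adj) (hv : v ∉ p) (hW : ∃ z ∈ p, z ∈ W s J) :
    ∃ z ∈ p, (∃ j ∈ J, Sum.inr j ∈ T ∧ z ∈ s j) ∨ Sum.inl z ∈ T := by
  obtain ⟨q, w, p', rfl, hw, hq⟩ := split_first (fun z => z ∈ W s J) p hW
  obtain ⟨j, hj, hwj⟩ := hw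
  have hch : (v :: (q ++ [w])).IsChain G.Adj := by
    rw [← List.cons_append, List.isChain_split] at hp
    simpa using hp.1
  obtain ⟨t, ht, htl⟩ := hT _ (real_to_cr hj hwj q v hch (fun z hz =>
    ⟨hq z hz, by rintro rfl; exact hv (by simp [hz])⟩))
  simp only [List.mem_append, List.mem_map, List.mem_singleton] at htl
  rcases htl with ⟨u, hu, rfl⟩ | rfl
  · exact ⟨u, by simp [hu], Or.inr ht⟩
  · exact ⟨w, by simp, Or.inl ⟨j, hj, ht, hwj⟩⟩

open Classical in
theorem barrier_step [Finite V] (M : ℕ) (hX : Insep G Set.univ X) (hvX : v ∈ X)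
    (hs : ∀ j, IsP G (s j)) (hsl : ∀ j, 2 * M + 1 ≤ (s j).length) (hvs : ∀ j, v ∉ s j)
    (hsd : ∀ i j, i ≠ j → (s i).Disjoint (s j))
    (hsX : ∀ j, ∀ Y : Finset V, Y.card ≤ 2 → ∃ x ∈ s j, x ∈ X ∧ x ∉ Y)
    (J : Finset (Fin m)) (hJ : J.Nonempty) :
    Fan G v M ∨ ∃ (I : Finset (Fin m)) (U : Finset V), I ⊆ J ∧ I.card ≤ 2 ∧ U.card ≤ 1 ∧
      ∀ p : List V, (v :: p).IsChain G.Adj → v ∉ p → (∃ z ∈ p, z ∈ W s J) →
        ∃ z ∈ p, z ∈ W s I ∨ z ∈ U := by
  have : Fintype V := Fintype.ofFinite V
  by_cases hbig : ∀ T : Finset (V ⊕ Fin m), Sep (CR G s v J) (CA G s v J v) (CB J) T → 3 ≤ T.card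
  · left
    obtain ⟨l, hl1, hl2⟩ := menger _ _ _ 3 hbig
    have hreal : ∀ i, ∃ (q : List V) (w : V) (j : Fin m), l i = q.map Sum.inl ++ [Sum.inr j] ∧
        j ∈ J ∧ w ∈ s j ∧ (v :: (q ++ [w])).IsChain G.Adj ∧ ∀ z ∈ q, z ∉ W s J ∧ z ≠ v := by
      intro i
      have h := hl1 i
      cases hli : l i with
      | nil => exact absurd hli h.ne_nil
      | cons a r =>
        rw [hli] at h
        obtain ⟨h1, ⟨a', ha', hA⟩, h3⟩ := h
        simp at ha'
        subst ha'
        exact cr_to_real r a v h1 hA h3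
    choose q w j h1 h2 h3 h4 h5 using hreal
    have hjd : ∀ i k, i ≠ k → j i ≠ j k := by
      intro i k hik hjk
      apply hl2 i k hik (a := Sum.inr (j i))
      · rw [h1]; simp
      · rw [h1, hjk]; simp
    have hqd : ∀ i k, i ≠ k → ∀ z ∈ q i, z ∉ q k := by
      intro i k hik z hz hz'
      apply hl2 i k hik (a := Sum.inl z)
      · rw [h1]; simp [hz]
      · rw [h1]; simp [hz']
    have hpath : ∀ i, ∃ q' : List V, (∀ z ∈ q', z ∈ q i) ∧ IsP G (v :: (q' ++ [w i])) := by
      intro i
      refine to_path (h4 i) (fun h => (h5 i v h).2 rfl) ?_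
      intro h
      apply hvs (j i)
      rw [h]; exact h3 i
    choose q' hq1 hq2 using hpath
    choose e he1 he2 he3 using fun i => extend (M := M) (hs (j i)) (hsl (j i)) (h3 i)
    refine ⟨fun i => q' i ++ w i :: e i, ?_, ?_⟩
    · intro i
      refine ⟨⟨?_, ?_⟩, ?_⟩
      · rw [← List.cons_append, List.isChain_split]
        exact ⟨(hq2 i).1, (he1 i).1⟩
      · have hn := (hq2 i).2
        rw [List.nodup_cons, List.nodup_append] at hn ⊢
        refine ⟨?_, hn.2.1, (he1 i).2, ?_⟩
        · intro h
          rcases List.mem_append.1 h with h | h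
          · exact hn.1 (List.mem_append_left _ h)
          · exact hvs (j i) (he3 i v h)
        · intro a ha b hb hab
          subst hab
          exact (h5 i a (hq1 i a ha)).1 ⟨j i, h2 i, he3 i a hb⟩
      · have := he2 i
        simp only [List.length_append, List.length_cons]
        omega
    · intro i k hik z hz hz'
      simp only [List.mem_append] at hz hz'
      rcases hz with hz | hz <;> rcases hz' with hz' | hz'
      · exact hqd i k hik z (hq1 i z hz) (hq1 k z hz')
      · exact (h5 i z (hq1 i z hz)).1 ⟨j k, h2 k, he3 k z hz'⟩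
      · exact (h5 k z (hq1 k z hz')).1 ⟨j i, h2 i, he3 i z hz⟩
      · exact hsd (j i) (j k) (hjd i k hik) (he3 i z hz) (he3 k z hz')
  · right
    push Not at hbig
    obtain ⟨T, hT, hTc⟩ := hbig
    set I : Finset (Fin m) := J.filter (fun j => Sum.inr j ∈ T) with hI
    set U : Finset V := Finset.univ.filter (fun u => Sum.inl u ∈ T) with hU
    have hIU : I.card + U.card ≤ T.card := by
      have h1 : (I.map ⟨Sum.inr, Sum.inr_injective⟩ ∪ U.map ⟨Sum.inl, Sum.inl_injective⟩ :
          Finset (V ⊕ Fin m)) ⊆ T := by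
        intro t ht
        rw [Finset.mem_union, Finset.mem_map, Finset.mem_map] at ht
        rcases ht with ⟨j, hj, rfl⟩ | ⟨u, hu, rfl⟩
        · exact (Finset.mem_filter.1 hj).2
        · exact (Finset.mem_filter.1 hu).2
      have h2 := Finset.card_le_card h1
      rw [Finset.card_union_of_disjoint, Finset.card_map, Finset.card_map] at h2
      · exact h2
      · rw [Finset.disjoint_left]
        intro t ht ht'
        rw [Finset.mem_map] at ht ht'
        obtain ⟨j, _, rfl⟩ := ht
        obtain ⟨u, _, hu⟩ := ht'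
        simp at hu
    have hhit : ∀ p : List V, (v :: p).IsChain G.Adj → v ∉ p → (∃ z ∈ p, z ∈ W s J) →
        ∃ z ∈ p, z ∈ W s I ∨ z ∈ U := by
      intro p hp hv hW
      obtain ⟨z, hz, h⟩ := sep_hit hT p hp hv hW
      refine ⟨z, hz, ?_⟩
      rcases h with ⟨j, hj, hjT, hzj⟩ | h
      · exact Or.inl ⟨j, Finset.mem_filter.2 ⟨hj, hjT⟩, hzj⟩
      · exact Or.inr (Finset.mem_filter.2 ⟨Finset.mem_univ _, h⟩)
    have hIne : I.Nonempty := by
      by_contra hI0
      rw [Finset.not_nonempty_iff_eq_empty] at hI0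
      obtain ⟨j, hj⟩ := hJ
      have hUc : U.card ≤ 2 := by omega
      obtain ⟨x, hxs, hxX, hxU⟩ := hsX j U hUc
      have hc := hX.2 (U.erase v) ((Finset.card_erase_le).trans hUc) v hvX (by simp) x hxX
        (fun h => hxU (Finset.mem_of_mem_erase h))
      obtain ⟨l, hl1, hl2, hl3, hl4, hl5⟩ := hc.exists_path
      cases l with
      | nil => simp at hl3
      | cons a p =>
        simp at hl3
        subst hl3
        rw [List.nodup_cons] at hl2
        have hxp : x ∈ p := by
          have : x ∈ a :: p := List.mem_of_getLast? hl4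
          rcases List.mem_cons.1 this with h | h
          · exact absurd hxs (h ▸ hvs j)
          · exact h
        obtain ⟨z, hz, h⟩ := hhit p hl1 hl2.1 ⟨x, hxp, j, hj, hxs⟩
        rcases h with ⟨i, hi, _⟩ | h
        · rw [hI0] at hi
          simp at hi
        · have hzn := (hl5 z (List.mem_cons_of_mem _ hz)).2
          apply hzn
          rw [Finset.mem_coe, Finset.mem_erase]
          refine ⟨?_, h⟩
          rintro rfl
          exact hl2.1 hz
    have := hIne.card_pos
    exact ⟨I, U, Finset.filter_subset _ _, by omega, by omega, hhit⟩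

theorem W_mono {J J' : Finset (Fin m)} (h : J' ⊆ J) : W s J' ⊆ W s J := by
  rintro z ⟨j, hj, hz⟩
  exact ⟨j, h hj, hz⟩

open Classical in
theorem barrier_iter [Finite V] (M : ℕ) (hX : Insep G Set.univ X) (hvX : v ∈ X)
    (hs : ∀ j, IsP G (s j)) (hsl : ∀ j, 2 * M + 1 ≤ (s j).length) (hvs : ∀ j, v ∉ s j)
    (hsd : ∀ i j, i ≠ j → (s i).Disjoint (s j))
    (hsX : ∀ j, ∀ Y : Finset V, Y.card ≤ 2 → ∃ x ∈ s j, x ∈ X ∧ x ∉ Y) (T : ℕ) :
    ∀ (J : Finset (Fin m)), 2 * T + 1 ≤ J.card →
    Fan G v M ∨ ∃ (J' : Finset (Fin m)) (I : ℕ → Finset (Fin m)) (U : ℕ → Finset V), J' ⊆ J ∧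
      J'.Nonempty ∧ (∀ t < T, I t ⊆ J \ J') ∧ (∀ t < T, (U t).card ≤ 1) ∧
      (∀ t < T, ∀ t' < T, t ≠ t' → Disjoint (I t) (I t')) ∧
      ∀ t < T, ∀ p : List V, (v :: p).IsChain G.Adj → v ∉ p → (∃ z ∈ p, z ∈ W s J') →
        ∃ z ∈ p, z ∈ W s (I t) ∨ z ∈ U t := by
  induction T with
  | zero =>
    intro J hJ
    right
    refine ⟨J, fun _ => ∅, fun _ => ∅, subset_rfl, ?_, ?_⟩
    · rw [← Finset.card_pos]; omega
    · simp
  | succ T ih =>
    intro J hJ
    rcases barrier_step M hX hvX hs hsl hvs hsd hsX J (by rw [← Finset.card_pos]; omega) with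
      h | ⟨I0, U0, h1, h2, h3, h4⟩
    · exact Or.inl h
    · have hc : 2 * T + 1 ≤ (J \ I0).card := by
        have := Finset.card_sdiff_add_card_eq_card h1
        omega
      rcases ih (J \ I0) hc with h | ⟨J', I, U, a1, a2, a3, a4, a5, a6⟩
      · exact Or.inl h
      · right
        refine ⟨J', fun t => if t = 0 then I0 else I (t - 1),
          fun t => if t = 0 then U0 else U (t - 1), a1.trans Finset.sdiff_subset, a2, ?_, ?_, ?_,
          ?_⟩
        · intro t ht
          by_cases h0 : t = 0
          · simp only [h0, if_true]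
            intro i hi
            rw [Finset.mem_sdiff]
            refine ⟨h1 hi, fun h => ?_⟩
            have := a1 h
            rw [Finset.mem_sdiff] at this
            exact this.2 hi
          · simp only [h0, if_false]
            refine (a3 (t - 1) (by omega)).trans ?_
            intro i hi
            rw [Finset.mem_sdiff, Finset.mem_sdiff] at hi
            rw [Finset.mem_sdiff]
            exact ⟨hi.1.1, hi.2⟩
        · intro t ht
          by_cases h0 : t = 0
          · simp only [h0, if_true]; exact h3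
          · simp only [h0, if_false]; exact a4 (t - 1) (by omega)
        · have hd0 : ∀ t < T, Disjoint I0 (I t) := by
            intro t ht
            rw [Finset.disjoint_left]
            intro i hi hi'
            have := a3 t ht hi'
            rw [Finset.mem_sdiff, Finset.mem_sdiff] at this
            exact this.1.2 hi
          intro t ht t' ht' htt
          by_cases h0 : t = 0
          · have h0' : t' ≠ 0 := fun h => htt (by omega)
            simp only [h0, h0', if_true, if_false]
            exact hd0 _ (by omega)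
          · by_cases h0' : t' = 0
            · simp only [h0, h0', if_true, if_false]
              exact (hd0 _ (by omega)).symm
            · simp only [h0, h0', if_false]
              exact a5 _ (by omega) _ (by omega) (by omega)
        · intro t ht p hp hv hz
          by_cases h0 : t = 0
          · simp only [h0, if_true]
            apply h4 p hp hv
            obtain ⟨z, hz1, hz2⟩ := hz
            exact ⟨z, hz1, W_mono (a1.trans Finset.sdiff_subset) hz2⟩
          · simp only [h0, if_false]
            exact a6 (t - 1) (by omega) p hp hv hz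

open Classical in
theorem barrier_final [Finite V] (M : ℕ) (hX : Insep G Set.univ X) (hvX : v ∈ X)
    (hs : ∀ j, IsP G (s j)) (hsl : ∀ j, 2 * M + 1 ≤ (s j).length) (hvs : ∀ j, v ∉ s j)
    (hsd : ∀ i j, i ≠ j → (s i).Disjoint (s j))
    (hsX : ∀ j, ∀ Y : Finset V, Y.card ≤ 2 → ∃ x ∈ s j, x ∈ X ∧ x ∉ Y)
    (hm : 2 * (2 * M + 1) + 1 ≤ m) : Fan G v M := by
  have : Fintype V := Fintype.ofFinite V
  rcases barrier_iter M hX hvX hs hsl hvs hsd hsX (2 * M + 1) Finset.univ (by simpa using hm) with
    h | ⟨J, I, U, _, hJ, a3, a4, a5, a6⟩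
  · exact h
  -- three disjoint walks to `W J`
  have hmen : ∀ T : Finset V, Sep (fun u u' => G.Adj u u' ∧ u ≠ v ∧ u' ≠ v) {u | G.Adj v u}
      (W s J) T → 3 ≤ T.card := by
    intro T hT
    by_contra hTc
    have hTc' : T.card ≤ 2 := by omega
    obtain ⟨j, hj⟩ := hJ
    obtain ⟨x, hxs, hxX, hxT⟩ := hsX j T hTc'
    have hc := hX.2 (T.erase v) ((Finset.card_erase_le).trans hTc') v hvX (by simp) x hxX
        (fun h => hxT (Finset.mem_of_mem_erase h))
    obtain ⟨l, hl1, hl2, hl3, hl4, hl5⟩ := hc.exists_path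
    cases l with
    | nil => simp at hl3
    | cons a p =>
      simp at hl3
      subst hl3
      rw [List.nodup_cons] at hl2
      have hne : ∀ z ∈ p, z ≠ a := by
        rintro z hz rfl
        exact hl2.1 hz
      have hpne : p ≠ [] := by
        rintro rfl
        simp at hl4
        subst hl4
        exact hvs j hxs
      have hw : WAB (fun u u' => G.Adj u u' ∧ u ≠ a ∧ u' ≠ a) {u | G.Adj a u} (W s J) p := by
        rw [List.isChain_cons] at hl1
        refine ⟨?_, ?_, ?_⟩
        · exact hl1.2.imp_of_mem_imp (fun u u' hu hu' h => ⟨h, hne u hu, hne u' hu'⟩)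
        · cases p with
          | nil => exact absurd rfl hpne
          | cons b p => exact ⟨b, rfl, hl1.1 b rfl⟩
        · refine ⟨x, ?_, j, hj, hxs⟩
          cases p with
          | nil => exact absurd rfl hpne
          | cons b p =>
            rw [List.getLast?_cons_cons] at hl4
            exact hl4
      obtain ⟨t, ht, htp⟩ := hT p hw
      have := (hl5 t (List.mem_cons_of_mem _ htp)).2
      apply this
      rw [Finset.mem_coe, Finset.mem_erase]
      exact ⟨hne t htp, ht⟩
  obtain ⟨l, hl1, hl2⟩ := menger _ _ _ 3 hmen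
  have hpath : ∀ i, ∃ (q : List V) (w : V), (∀ z ∈ q, z ∈ l i) ∧ w ∈ l i ∧ w ∈ W s J ∧
      (∀ z ∈ q, z ∉ W s J) ∧ IsP G (v :: (q ++ [w])) := by
    intro i
    obtain ⟨h1, ⟨a, ha, hav⟩, ⟨b, hb, hbW⟩⟩ := hl1 i
    have hvl : v ∉ l i := by
      -- `v` has no arcs, so the walk would be `[v]`
      intro hv
      obtain ⟨c, d, hcd⟩ := List.append_of_mem hv
      rw [hcd] at h1 ha hb
      cases c with
      | nil =>
        simp at ha
        subst ha
        exact G.loopless.irrefl _ hav
      | cons c0 c =>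
        rw [List.isChain_append] at h1
        obtain ⟨_, _, h3⟩ := h1
        cases hg : (c0 :: c).getLast? with
        | none => simp at hg
        | some g =>
          exact (h3 g hg v (by simp)).2.2 rfl
    obtain ⟨q, w, r, hr, hw, hq⟩ := split_first (fun z => z ∈ W s J) (l i)
      ⟨b, List.mem_of_getLast? hb, hbW⟩
    have hch : (v :: (q ++ [w])).IsChain G.Adj := by
      rw [List.isChain_cons]
      constructor
      · intro y hy
        rw [hr] at ha
        rw [head?_append_cons] at ha
        rw [ha] at hy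
        simp at hy
        subst hy
        exact hav
      · rw [hr, List.isChain_split] at h1
        exact h1.1.imp (fun _ _ h => h.1)
    have hvw : v ≠ w := by
      rintro rfl
      exact hvl (by rw [hr]; simp)
    obtain ⟨q', hq1, hq2⟩ := to_path hch (fun h => hvl (by rw [hr]; simp [h])) hvw
    refine ⟨q', w, ?_, by rw [hr]; simp, hw, fun z hz => hq z (hq1 z hz), hq2⟩
    intro z hz
    rw [hr]
    simp [hq1 z hz]
  choose q w hq1 hw1 hw2 hq2 hq3 using hpath
  -- at most one is short
  have hshort : ∀ i k, i ≠ k → (q i).length < M → (q k).length < M → False := by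
    intro i k hik hi hk
    have hZ : ∀ i, (q i).length < M → ((Finset.range (2 * M + 1)).filter
        (fun t => ∃ z ∈ q i ++ [w i], z ∈ W s (I t))).card ≤ M := by
      intro i hi
      have hle : ((Finset.range (2 * M + 1)).filter
        (fun t => ∃ z ∈ q i ++ [w i], z ∈ W s (I t))).card ≤ (q i ++ [w i]).toFinset.card := by
        have hch : ∀ t ∈ (Finset.range (2 * M + 1)).filter
            (fun t => ∃ z ∈ q i ++ [w i], z ∈ W s (I t)), ∃ z ∈ q i ++ [w i], z ∈ W s (I t) :=
          fun t ht => (Finset.mem_filter.1 ht).2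
        choose f hf1 hf2 using hch
        refine Finset.card_le_card_of_forall_subsingleton (fun t z => z ∈ W s (I t)) ?_ ?_
        · intro t ht
          exact ⟨f t ht, List.mem_toFinset.2 (hf1 t ht), hf2 t ht⟩
        · rintro z _ t ⟨ht, ht2⟩ t' ⟨ht', ht2'⟩
          have ht1 := Finset.mem_range.1 (Finset.mem_filter.1 (Finset.mem_coe.1 ht)).1
          have ht1' := Finset.mem_range.1 (Finset.mem_filter.1 (Finset.mem_coe.1 ht')).1
          by_contra hne
          obtain ⟨j, hj, hzj⟩ := ht2
          obtain ⟨j', hj', hzj'⟩ := ht2'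
          have hjj : j ≠ j' := by
            rintro rfl
            exact Finset.disjoint_left.1 (a5 t ht1 t' ht1' hne) hj hj'
          exact hsd j j' hjj hzj hzj'
      refine hle.trans ((List.toFinset_card_le _).trans ?_)
      simp only [List.length_append, List.length_cons, List.length_nil]
      omega
    have hex : ∃ t ∈ Finset.range (2 * M + 1), t ∉ ((Finset.range (2 * M + 1)).filter
        (fun t => ∃ z ∈ q i ++ [w i], z ∈ W s (I t))) ∪ ((Finset.range (2 * M + 1)).filter
        (fun t => ∃ z ∈ q k ++ [w k], z ∈ W s (I t))) := by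
      by_contra hno
      push Not at hno
      have h1 := Finset.card_le_card (show Finset.range (2 * M + 1) ⊆ _ from hno)
      have h2 := Finset.card_union_le ((Finset.range (2 * M + 1)).filter
        (fun t => ∃ z ∈ q i ++ [w i], z ∈ W s (I t))) ((Finset.range (2 * M + 1)).filter
        (fun t => ∃ z ∈ q k ++ [w k], z ∈ W s (I t)))
      have h3 := hZ i hi
      have h4 := hZ k hk
      rw [Finset.card_range] at h1
      omega
    obtain ⟨t, ht, htn⟩ := hex
    rw [Finset.mem_range] at ht
    have hU : ∀ i, t ∉ ((Finset.range (2 * M + 1)).filter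
        (fun t => ∃ z ∈ q i ++ [w i], z ∈ W s (I t))) → ∃ z ∈ l i, z ∈ U t := by
      intro i hti
      obtain ⟨z, hz1, hz2⟩ := a6 t ht (q i ++ [w i]) (hq3 i).1 (List.nodup_cons.1 (hq3 i).2).1
        ⟨w i, by simp, hw2 i⟩
      rcases hz2 with h | h
      · exfalso
        apply hti
        rw [Finset.mem_filter, Finset.mem_range]
        exact ⟨ht, z, hz1, h⟩
      · refine ⟨z, ?_, h⟩
        rcases List.mem_append.1 hz1 with h' | h'
        · exact hq1 i z h'
        · rw [List.mem_singleton] at h'
          subst h'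
          exact hw1 i
    obtain ⟨z, hz1, hz2⟩ := hU i (fun h => htn (Finset.mem_union_left _ h))
    obtain ⟨z', hz1', hz2'⟩ := hU k (fun h => htn (Finset.mem_union_right _ h))
    have hzz : z = z' := Finset.card_le_one.1 (a4 t ht) z hz2 z' hz2'
    subst hzz
    exact hl2 i k hik hz1 hz1'
  choose j hj hwj using hw2
  choose e he1 he2 he3 using fun i => extend (M := M) (hs (j i)) (hsl (j i)) (hwj i)
  have heW : ∀ i, ∀ z ∈ w i :: e i, z ∈ W s J := fun i z hz => ⟨j i, hj i, he3 i z hz⟩
  refine ⟨fun i => if M ≤ (q i).length then q i else q i ++ w i :: e i, ?_, ?_⟩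
  · intro i
    by_cases hi : M ≤ (q i).length
    · simp only [hi, if_true]
      refine ⟨⟨?_, ?_⟩, trivial⟩
      · have := (hq3 i).1
        rw [← List.cons_append] at this
        exact this.left_of_append
      · have := (hq3 i).2
        rw [← List.cons_append] at this
        exact (List.nodup_append.1 this).1
    · simp only [hi, if_false]
      refine ⟨⟨?_, ?_⟩, ?_⟩
      · rw [← List.cons_append, List.isChain_split]
        exact ⟨(hq3 i).1, (he1 i).1⟩
      · have hn := (hq3 i).2
        rw [List.nodup_cons, List.nodup_append] at hn ⊢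
        refine ⟨?_, hn.2.1, (he1 i).2, ?_⟩
        · intro h
          rcases List.mem_append.1 h with h | h
          · exact hn.1 (List.mem_append_left _ h)
          · exact hvs (j i) (he3 i v h)
        · intro a ha b hb hab
          subst hab
          exact hq2 i a ha (heW i a hb)
      · have := he2 i
        simp only [List.length_append, List.length_cons]
        omega
  · intro i k hik z hz hz'
    have hqq : z ∈ q i → z ∉ q k := fun h h' => hl2 i k hik (hq1 i z h) (hq1 k z h')
    by_cases hi : M ≤ (q i).length <;> by_cases hk : M ≤ (q k).length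
    · simp only [hi, hk, if_true] at hz hz'
      exact hqq hz hz'
    · simp only [hi, hk, if_true, if_false] at hz hz'
      rcases List.mem_append.1 hz' with h | h
      · exact hqq hz h
      · exact hq2 i z hz (heW k z h)
    · simp only [hi, hk, if_true, if_false] at hz hz'
      rcases List.mem_append.1 hz with h | h
      · exact hqq h hz'
      · exact hq2 k z hz' (heW i z h)
    · exact hshort i k hik (by omega) (by omega)

end

end FVS424
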