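import Pool.Agent.Lib.MP_424cb6_lc.Menger

set_option linter.unusedSimpArgs false

/-! Connectivity inside a vertex set, and walks as lists. -/

namespace FVS424

open Relation

variable {V : Type*}

/-- `y` can be reached from `x` by a walk all of whose vertices lie in `S` -/
def Conn (G : SimpleGraph V) (S : Set V) (x y : V) : Prop :=
  x ∈ S ∧ ReflTransGen (fun u v => G.Adj u v ∧ v ∈ S) x y

variable {G G' : SimpleGraph V} {S S' : Set V} {x y z : V}

theorem Conn.refl (hx : x ∈ S) : Conn G S x x := ⟨hx, .refl⟩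

theorem Conn.left (h : Conn G S x y) : x ∈ S := h.1

theorem Conn.right (h : Conn G S x y) : y ∈ S := by
  rcases ReflTransGen.cases_tail h.2 with e | ⟨z, _, h2⟩
  · exact e ▸ h.1
  · exact h2.2

theorem Conn.trans (h : Conn G S x y) (h' : Conn G S y z) : Conn G S x z := ⟨h.1, h.2.trans h'.2⟩

theorem Conn.adj (hx : x ∈ S) (hy : y ∈ S) (h : G.Adj x y) : Conn G S x y :=
  ⟨hx, .single ⟨h, hy⟩⟩

theorem Conn.tail (h : Conn G S x y) (hz : z ∈ S) (h' : G.Adj y z) : Conn G S x z :=
  ⟨h.1, h.2.tail ⟨h', hz⟩⟩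

theorem Conn.symm (h : Conn G S x y) : Conn G S y x := by
  obtain ⟨hx, h⟩ := h
  induction h with
  | refl => exact .refl hx
  | tail h1 h2 ih =>
    exact (Conn.adj h2.2 ih.1 h2.1.symm).trans ih

theorem Conn.mono (h : Conn G S x y) (hS : S ⊆ S') : Conn G S' x y :=
  ⟨hS h.1, ReflTransGen.mono (p := fun u v => G.Adj u v ∧ v ∈ S')
    (fun _ _ h => ⟨h.1, hS h.2⟩) _ _ h.2⟩

theorem Conn.mono' (h : Conn G S x y) (hG : ∀ u ∈ S, ∀ v ∈ S, G.Adj u v → G'.Adj u v)
    (hS : S ⊆ S') : Conn G' S' x y := by
  obtain ⟨hx, h⟩ := h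
  induction h with
  | refl => exact .refl (hS hx)
  | @tail b c h1 h2 ih =>
    exact ih.tail (hS h2.2) (hG b (Conn.right ⟨hx, h1⟩) c h2.2 h2.1)

/-- induction principle: a closed property propagates -/
theorem Conn.closed (h : Conn G S x y) (P : V → Prop) (hx : P x)
    (hP : ∀ u v, Conn G S x u → P u → G.Adj u v → v ∈ S → P v) : P y := by
  obtain ⟨hxS, h⟩ := h
  induction h with
  | refl => exact hx
  | tail h1 h2 ih => exact hP _ _ ⟨hxS, h1⟩ ih h2.1 h2.2

/-- restrict to a closed subset -/
theorem Conn.restrict (h : Conn G S x y) (K : Set V) (hx : x ∈ K)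
    (hK : ∀ u ∈ K, u ∈ S → ∀ v ∈ S, G.Adj u v → v ∈ K) : Conn G (S ∩ K) x y := by
  refine h.closed (fun z => Conn G (S ∩ K) x z) (.refl ⟨h.1, hx⟩) ?_
  intro u v _ h2 h3 h4
  exact h2.tail ⟨h4, hK u h2.right.2 h2.right.1 v h4 h3⟩ h3

theorem conn_of_list : ∀ (l : List V) (x : V), (x :: l).IsChain G.Adj → (∀ z ∈ x :: l, z ∈ S) →
    ∀ y ∈ x :: l, Conn G S x y := by
  intro l
  induction l with
  | nil =>
    intro x _ hS y hy
    rw [List.mem_singleton] at hy
    subst hy
    exact .refl (hS _ (by simp))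
  | cons a l ih =>
    intro x hc hS y hy
    rw [List.isChain_cons_cons] at hc
    rcases List.mem_cons.1 hy with rfl | hy
    · exact .refl (hS _ (by simp))
    · exact (Conn.adj (hS _ (by simp)) (hS _ (by simp)) hc.1).trans
        (ih a hc.2 (fun z hz => hS z (List.mem_cons_of_mem _ hz)) y hy)

theorem conn_of_chain {l : List V} (hc : l.IsChain G.Adj) (hS : ∀ z ∈ l, z ∈ S) :
    ∀ x ∈ l, ∀ y ∈ l, Conn G S x y := by
  cases l with
  | nil => intro x hx; simp at hx
  | cons a l =>
    intro x hx y hy
    exact (conn_of_list l a hc hS x hx).symm.trans (conn_of_list l a hc hS y hy)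

/-- a walk in a set contains a path (with first hitting) -/
theorem Conn.exists_path (h : Conn G S x y) : ∃ l : List V, l.IsChain G.Adj ∧ l.Nodup ∧
    l.head? = some x ∧ l.getLast? = some y ∧ ∀ z ∈ l, z ∈ S := by
  obtain ⟨hxS, h⟩ := h
  induction h with
  | refl => exact ⟨[x], .singleton _, List.nodup_singleton _, rfl, rfl, by simpa using hxS⟩
  | @tail b c h1 h2 ih =>
    obtain ⟨l, h3, h4, h5, h6, h7⟩ := ih
    by_cases hc : c ∈ l
    · obtain ⟨l1, l2, rfl⟩ := List.append_of_mem hc
      refine ⟨l1 ++ [c], ?_, ?_, ?_, by simp, ?_⟩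
      · rw [List.isChain_split] at h3; exact h3.1
      · rw [← List.singleton_append, ← List.append_assoc] at h4
        exact (List.nodup_append.1 h4).1
      · rw [← head?_append_cons l1 c l2]; exact h5
      · intro z hz
        apply h7
        simp only [List.mem_append, List.mem_cons, List.mem_singleton, List.not_mem_nil,
          or_false] at hz ⊢
        tauto
    · refine ⟨l ++ [c], ?_, ?_, ?_, by simp, ?_⟩
      · rw [List.isChain_append]
        refine ⟨h3, .singleton _, ?_⟩
        intro u hu v hv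
        rw [h6] at hu
        simp at hu hv
        subst hu; subst hv
        exact h2.1
      · rw [List.nodup_append]
        refine ⟨h4, List.nodup_singleton _, ?_⟩
        intro a ha b' hb' hab
        rw [List.mem_singleton] at hb'
        subst hb'; subst hab
        exact hc ha
      · cases l with
        | nil => simp at h5
        | cons a l => simpa using h5
      · intro z hz
        rcases List.mem_append.1 hz with hz | hz
        · exact h7 z hz
        · rw [List.mem_singleton] at hz
          subst hz; exact h2.2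

/-- If a connected walk goes from outside `T` to a point of `T`, there is a last edge before the
first visit of `T`. -/
theorem Conn.first_hit (h : Conn G S x y) (T : Set V) (hx : x ∉ T) (hy : y ∈ T) :
    ∃ u v, Conn G (S \ T) x u ∧ G.Adj u v ∧ v ∈ T ∧ v ∈ S := by
  by_contra hno
  push Not at hno
  have : Conn G (S \ T) x y := by
    refine h.closed (fun z => Conn G (S \ T) x z) (.refl ⟨h.1, hx⟩) ?_
    intro u v _ h2 h3 h4
    exact h2.tail ⟨h4, fun h5 => hno u v h2 h3 h5 h4⟩ h3
  exact this.right.2 hy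

/-- paths as lists -/
def IsP (G : SimpleGraph V) (l : List V) : Prop := l.IsChain G.Adj ∧ l.Nodup

end FVS424
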