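import Pool.Agent.Lib.MP_424cb6_lc.Structure

/-! Feedback vertex sets and recursion formulas. -/

namespace FVS424

open Relation

variable {V : Type*}

/-- `G[S]` is acyclic -/
def Acyc (G : SimpleGraph V) (S : Set V) : Prop :=
  ∀ u ∈ S, ∀ w ∈ S, G.Adj u w → ¬ Conn (G.deleteEdges {s(u, w)}) S u w

theorem conn_of_reachable {G : SimpleGraph V} {S : Set V} {u w : S}
    (h : (G.induce S).Reachable u w) : Conn G S u w := by
  rw [SimpleGraph.reachable_iff_reflTransGen] at h
  induction h with
  | refl => exact .refl u.2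
  | tail _ h2 ih => exact ih.tail (Subtype.coe_prop _) h2

theorem induce_deleteEdges {G : SimpleGraph V} {S : Set V} (u w : S) :
    (G.induce S).deleteEdges {s(u, w)} = (G.deleteEdges {s((u : V), (w : V))}).induce S := by
  ext a b
  simp only [SimpleGraph.deleteEdges_adj, SimpleGraph.comap_adj, Set.mem_singleton_iff,
    Function.Embedding.subtype_apply, Sym2.eq_iff, Subtype.ext_iff]

theorem acyc_iff {G : SimpleGraph V} {S : Set V} : Acyc G S ↔ (G.induce S).IsAcyclic := by
  rw [SimpleGraph.isAcyclic_iff_forall_adj_isBridge]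
  constructor
  · intro h u w huw
    rw [SimpleGraph.isBridge_iff]
    intro hr
    rw [induce_deleteEdges] at hr
    exact h u u.2 w w.2 huw (conn_of_reachable hr)
  · intro h u hu w hw huw hc
    have h1 := h (show (G.induce S).Adj ⟨u, hu⟩ ⟨w, hw⟩ from huw)
    rw [SimpleGraph.isBridge_iff] at h1
    apply h1
    rw [induce_deleteEdges]
    exact conn_induce hc hu hw

theorem Acyc.mono {G : SimpleGraph V} {S S' : Set V} (h : Acyc G S) (hS : S' ⊆ S) : Acyc G S' :=
  fun u hu w hw huw hc => h u (hS hu) w (hS hw) huw (hc.mono hS)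

theorem acyc_subsingleton {G : SimpleGraph V} {S : Set V} (h : ∀ u ∈ S, ∀ w ∈ S, u = w) :
    Acyc G S := by
  intro u hu w hw huw
  have := h u hu w hw
  subst this
  exact absurd huw (G.loopless.irrefl _)

/-- gluing at (at most) one vertex -/
theorem acyc_glue {G : SimpleGraph V} {A B : Set V}
    (hAB : ∀ z ∈ A, z ∈ B → ∀ z' ∈ A, z' ∈ B → z = z')
    (hE : ∀ u ∈ A, ∀ w ∈ B, G.Adj u w → u ∈ B ∨ w ∈ A)
    (hA : Acyc G A) (hB : Acyc G B) : Acyc G (A ∪ B) := by
  have key : ∀ (A B : Set V), (∀ z ∈ A, z ∈ B → ∀ z' ∈ A, z' ∈ B → z = z') →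
      (∀ u ∈ A, ∀ w ∈ B, G.Adj u w → u ∈ B ∨ w ∈ A) →
      Acyc G A → ∀ u ∈ A, ∀ w ∈ A, G.Adj u w →
      ¬ Conn (G.deleteEdges {s(u, w)}) (A ∪ B) u w := by
    intro A B hAB hE hA u hu w hw huw hc
    apply hA u hu w hw huw
    have : (w ∈ A → Conn (G.deleteEdges {s(u, w)}) A u w) ∧
        (w ∉ A → ∃ a ∈ A, a ∈ B ∧ Conn (G.deleteEdges {s(u, w)}) A u a) := by
      refine hc.closed (fun z => (z ∈ A → Conn (G.deleteEdges {s(u, w)}) A u z) ∧
        (z ∉ A → ∃ a ∈ A, a ∈ B ∧ Conn (G.deleteEdges {s(u, w)}) A u a))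
        ⟨fun _ => .refl hu, fun h => absurd hu h⟩ ?_
      intro z z' hz1 hz hzz' hz'
      have hadj : G.Adj z z' := by
        rw [SimpleGraph.deleteEdges_adj] at hzz'
        exact hzz'.1
      constructor
      · intro hz'A
        by_cases hzA : z ∈ A
        · exact (hz.1 hzA).tail hz'A hzz'
        · have hzB : z ∈ B := by
            rcases hz1.right with h | h
            · exact absurd h hzA
            · exact h
          rcases hE z' hz'A z hzB hadj.symm with h | h
          · obtain ⟨a, ha, haB, hc⟩ := hz.2 hzA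
            rw [hAB z' hz'A h a ha haB]
            exact hc
          · exact absurd h hzA
      · intro hz'A
        have hz'B : z' ∈ B := by
          rcases hz' with h | h
          · exact absurd h hz'A
          · exact h
        by_cases hzA : z ∈ A
        · rcases hE z hzA z' hz'B hadj with h | h
          · exact ⟨z, hzA, h, hz.1 hzA⟩
          · exact absurd h hz'A
        · exact hz.2 hzA
    exact this.1 hw
  intro u hu w hw huw
  by_cases hA' : u ∈ A ∧ w ∈ A
  · exact key A B hAB hE hA u hA'.1 w hA'.2 huw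
  · have hB' : u ∈ B ∧ w ∈ B := by
      rcases hu with hu | hu <;> rcases hw with hw | hw
      · exact absurd ⟨hu, hw⟩ hA'
      · rcases hE u hu w hw huw with h | h
        · exact ⟨h, hw⟩
        · exact absurd ⟨hu, h⟩ hA'
      · rcases hE w hw u hu huw.symm with h | h
        · exact ⟨hu, h⟩
        · exact absurd ⟨h, hw⟩ hA'
      · exact ⟨hu, hw⟩
    rw [Set.union_comm]
    exact key B A (fun z hz hz' z'' h h' => hAB z hz' hz z'' h' h)
      (fun u hu w hw huw => (hE w hw u hu huw.symm).symm) hB u hB'.1 w hB'.2 huw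

theorem acyc_pair {G : SimpleGraph V} (x y : V) : Acyc G {x, y} := by
  intro u hu w hw huw hc
  have : w = u := by
    refine hc.closed (fun z => z = u) rfl ?_
    rintro z z' hz1 rfl hzz' hz'
    rw [SimpleGraph.deleteEdges_adj] at hzz'
    obtain ⟨h1, h2⟩ := hzz'
    by_contra hne
    apply h2
    have hz'w : z' = w := by
      have huw' := huw.ne
      rcases hu with rfl | rfl <;> rcases hw with rfl | rfl <;> rcases hz' with rfl | rfl <;>
        first
          | rfl
          | exact absurd rfl hne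
          | exact absurd rfl huw'
    rw [hz'w]
    rfl
  exact huw.ne this.symm

/-- gluing along (at most) one edge -/
theorem acyc_glue_edge {G : SimpleGraph V} {A B : Set V} (x y : V)
    (hd : ∀ z ∈ A, z ∉ B)
    (hE : ∀ u ∈ A, ∀ w ∈ B, G.Adj u w → u = x ∧ w = y)
    (hA : Acyc G A) (hB : Acyc G B) : Acyc G (A ∪ B) := by
  by_cases hxy : x ∈ A ∧ y ∈ B
  swap
  · refine acyc_glue (fun z h1 h2 => absurd h2 (hd z h1)) ?_ hA hB
    intro u hu w hw huw
    obtain ⟨rfl, rfl⟩ := hE u hu w hw huw
    exact absurd ⟨hu, hw⟩ hxy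
  · obtain ⟨hx, hy⟩ := hxy
    have hB' : Acyc G (B ∪ {x, y}) := by
      refine acyc_glue ?_ ?_ hB (acyc_pair x y)
      · have : ∀ z ∈ B, z ∈ ({x, y} : Set V) → z = y := by
          rintro z hz (rfl | rfl)
          · exact absurd hz (hd _ hx)
          · rfl
        intro z hz hz' z'' h h'
        rw [this z hz hz', this z'' h h']
      · rintro u hu w (rfl | rfl) huw
        · left
          right
          exact (hE w hx u hu huw.symm).2
        · exact Or.inr hy
    have := acyc_glue (G := G) (A := A) (B := B ∪ {x, y}) ?_ ?_ hA hB'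
    · refine this.mono ?_
      rintro z (hz | hz)
      · exact Or.inl hz
      · exact Or.inr (Or.inl hz)
    · have : ∀ z ∈ A, z ∈ B ∪ {x, y} → z = x := by
        rintro z hz (hz' | (hz' | hz'))
        · exact absurd hz' (hd z hz)
        · exact hz'
        · subst hz'
          exact absurd hy (hd z hz)
      intro z hz hz' z'' h h'
      rw [this z hz hz', this z'' h h']
    · rintro u hu w (hw | (hw | hw)) huw
      · left
        right
        left
        exact (hE u hu w hw huw).1
      · right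
        rw [hw]; exact hx
      · left
        right
        left
        rw [hw] at huw
        exact (hE u hu y hy huw).1

/-- a 2-edge cut: acyclicity -/
theorem acyc_glue_two {G : SimpleGraph V} {A B : Set V} (x1 y1 x2 y2 : V)
    (hd : ∀ z ∈ A, z ∉ B)
    (hE : ∀ u ∈ A, ∀ w ∈ B, G.Adj u w → (u = x1 ∧ w = y1) ∨ (u = x2 ∧ w = y2))
    (hA : Acyc G A) (hB : Acyc G B) (hc : ¬ Conn G A x1 x2) : Acyc G (A ∪ B) := by
  set K : Set V := {z | Conn G A x2 z} with hK
  have hKA : K ⊆ A := fun z hz => Conn.right hz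
  have hx1 : x1 ∉ K := fun h => hc (Conn.symm h)
  have h1 : Acyc G (K ∪ B) := by
    refine acyc_glue_edge x2 y2 (fun z hz => hd z (hKA hz)) ?_ (hA.mono hKA) hB
    intro u hu w hw huw
    rcases hE u (hKA hu) w hw huw with h | h
    · exact absurd (h.1 ▸ hu) hx1
    · exact h
  have h2 : Acyc G ((A \ K) ∪ (K ∪ B)) := by
    refine acyc_glue_edge x1 y1 ?_ ?_ (hA.mono Set.diff_subset) h1
    · rintro z ⟨hz, hzK⟩ (h | h)
      · exact hzK h
      · exact hd z hz h
    · rintro u ⟨hu, huK⟩ w (hw | hw) huw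
      · exfalso
        exact huK (Conn.tail hw hu huw.symm)
      · rcases hE u hu w hw huw with h | h
        · exact h
        · exfalso
          apply huK
          rw [h.1] at hu ⊢
          exact Conn.refl hu
  refine h2.mono ?_
  rintro z (hz | hz)
  · by_cases hzK : z ∈ K
    · exact Or.inr (Or.inl hzK)
    · exact Or.inl ⟨hz, hzK⟩
  · exact Or.inr (Or.inr hz)

theorem not_acyc_two {G : SimpleGraph V} {A B : Set V} (x1 y1 x2 y2 : V)
    (hd : ∀ z ∈ A, z ∉ B) (h1 : G.Adj x1 y1) (h2 : G.Adj x2 y2) (hx : x1 ≠ x2)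
    (hA : Conn G A x1 x2) (hB : Conn G B y1 y2) : ¬ Acyc G (A ∪ B) := by
  intro h
  have hx1 := hA.left
  have hx2 := hA.right
  have hy1 := hB.left
  have hy2 := hB.right
  apply h x1 (Or.inl hx1) y1 (Or.inr hy1) h1
  have e1 : Conn (G.deleteEdges {s(x1, y1)}) (A ∪ B) x1 x2 := by
    refine hA.mono' ?_ Set.subset_union_left
    intro u hu w hw huw
    rw [SimpleGraph.deleteEdges_adj]
    refine ⟨huw, ?_⟩
    intro he
    rw [Set.mem_singleton_iff, Sym2.eq_iff] at he
    rcases he with ⟨_, rfl⟩ | ⟨rfl, _⟩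
    · exact hd _ hw hy1
    · exact hd _ hu hy1
  have e2 : Conn (G.deleteEdges {s(x1, y1)}) (A ∪ B) y1 y2 := by
    refine hB.mono' ?_ Set.subset_union_right
    intro u hu w hw huw
    rw [SimpleGraph.deleteEdges_adj]
    refine ⟨huw, ?_⟩
    intro he
    rw [Set.mem_singleton_iff, Sym2.eq_iff] at he
    rcases he with ⟨rfl, _⟩ | ⟨_, rfl⟩
    · exact hd _ hx1 hu
    · exact hd _ hx1 hw
  have e3 : (G.deleteEdges {s(x1, y1)}).Adj x2 y2 := by
    rw [SimpleGraph.deleteEdges_adj]
    refine ⟨h2, ?_⟩
    intro he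
    rw [Set.mem_singleton_iff, Sym2.eq_iff] at he
    rcases he with ⟨h', _⟩ | ⟨rfl, _⟩
    · exact hx h'.symm
    · exact hd _ hx2 hy1
  exact (e1.tail (Or.inr hy2) e3).trans e2.symm

/-! ### feedback vertex number -/

section fvs

variable [DecidableEq V]

/-- `X` is a feedback vertex set of `G[S]` -/
def IsF (G : SimpleGraph V) (S X : Finset V) : Prop := X ⊆ S ∧ Acyc G ((S : Set V) \ X)

theorem isF_self (G : SimpleGraph V) (S : Finset V) : IsF G S S := by
  refine ⟨subset_rfl, acyc_subsingleton ?_⟩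
  intro u hu
  exact absurd hu.1 hu.2

/-- the feedback vertex number of `G[S]` -/
noncomputable def fvs (G : SimpleGraph V) (S : Finset V) : ℕ :=
  sInf {k | ∃ X, IsF G S X ∧ X.card = k}

theorem fvs_le {G : SimpleGraph V} {S X : Finset V} (h : IsF G S X) : fvs G S ≤ X.card :=
  Nat.sInf_le ⟨X, h, rfl⟩

theorem exists_fvs (G : SimpleGraph V) (S : Finset V) : ∃ X, IsF G S X ∧ X.card = fvs G S :=
  Nat.sInf_mem (s := {k | ∃ X, IsF G S X ∧ X.card = k}) ⟨_, S, isF_self G S, rfl⟩

theorem fvs_le_of {G : SimpleGraph V} {S X : Finset V} (h : Acyc G ((S : Set V) \ X)) :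
    fvs G S ≤ (X ∩ S).card := by
  apply fvs_le
  refine ⟨Finset.inter_subset_right, h.mono ?_⟩
  rintro z ⟨h1, h2⟩
  refine ⟨h1, fun h3 => h2 ?_⟩
  simp only [Finset.coe_inter]
  exact ⟨h3, h1⟩

theorem fvs_mono {G : SimpleGraph V} {S S' : Finset V} (h : S ⊆ S') : fvs G S ≤ fvs G S' := by
  obtain ⟨X, hX, hc⟩ := exists_fvs G S'
  rw [← hc]
  refine (fvs_le_of (X := X) (hX.2.mono ?_)).trans (Finset.card_le_card Finset.inter_subset_left)
  rintro z ⟨h1, h2⟩
  exact ⟨h h1, h2⟩

theorem fvs_insert_le {G : SimpleGraph V} {S : Finset V} (a : V) :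
    fvs G S ≤ fvs G (S.erase a) + 1 := by
  obtain ⟨X, hX, hc⟩ := exists_fvs G (S.erase a)
  rw [← hc]
  refine (fvs_le_of (X := insert a X) (hX.2.mono ?_)).trans
    ((Finset.card_le_card Finset.inter_subset_left).trans (Finset.card_insert_le _ _))
  rintro z ⟨h1, h2⟩
  rw [Finset.mem_coe, Finset.mem_insert, not_or] at h2
  exact ⟨by rw [Finset.mem_coe, Finset.mem_erase]; exact ⟨h2.1, h1⟩, h2.2⟩

/-- `a` is a cut vertex of `G[S]` (or `G[S]` is disconnected) with `C` a union of components of
`G[S] - a`. -/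
structure VCut (G : SimpleGraph V) (S : Finset V) (a : V) (C : Finset V) : Prop where
  aS : a ∈ S
  sub : C ⊆ S
  aC : a ∉ C
  ne : C.Nonempty
  other : ∃ z ∈ S, z ≠ a ∧ z ∉ C
  only : ∀ u ∈ C, ∀ w ∈ S, w ∉ C → G.Adj u w → w = a

theorem fvs_vcut {G : SimpleGraph V} {S C : Finset V} {a : V} (h : VCut G S a C) :
    fvs G S = fvs G (insert a C) +
      (if fvs G C = fvs G (insert a C) then fvs G (S \ C) else fvs G ((S \ C).erase a)) := by
  have hCe : (insert a C).erase a = C := Finset.erase_insert h.aC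
  have hle : fvs G C ≤ fvs G (insert a C) := fvs_mono (Finset.subset_insert _ _)
  have hle' : fvs G (insert a C) ≤ fvs G C + 1 := by
    have := fvs_insert_le (G := G) (S := insert a C) a
    rwa [hCe] at this
  have glue : ∀ X : Finset V, Acyc G (((S \ C : Finset V) : Set V) \ X) →
      Acyc G (((insert a C : Finset V) : Set V) \ X) → Acyc G ((S : Set V) \ X) := by
    intro X h1 h2
    refine (acyc_glue ?_ ?_ h1 h2).mono ?_
    · have : ∀ z ∈ ((S \ C : Finset V) : Set V) \ X, z ∈ ((insert a C : Finset V) : Set V) \ X →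
          z = a := by
        rintro z ⟨hz1, _⟩ ⟨hz2, _⟩
        rw [Finset.mem_coe, Finset.mem_sdiff] at hz1
        rw [Finset.mem_coe, Finset.mem_insert] at hz2
        exact hz2.resolve_right hz1.2
      intro z hz hz' z'' h h'
      rw [this z hz hz', this z'' h h']
    · rintro u ⟨hu, huX⟩ w ⟨hw, hwX⟩ huw
      rw [Finset.mem_coe, Finset.mem_sdiff] at hu
      rw [Finset.mem_coe, Finset.mem_insert] at hw
      rcases hw with rfl | hw
      · right
        refine ⟨?_, hwX⟩
        rw [Finset.mem_coe, Finset.mem_sdiff]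
        exact ⟨h.aS, h.aC⟩
      · left
        refine ⟨?_, huX⟩
        rw [Finset.mem_coe, Finset.mem_insert]
        exact Or.inl (h.only w hw u hu.1 hu.2 huw.symm)
    · rintro z ⟨hz, hzX⟩
      by_cases hzC : z ∈ C
      · exact Or.inr ⟨by simp [hzC], hzX⟩
      · exact Or.inl ⟨by
          rw [Finset.mem_coe, Finset.mem_sdiff]
          exact ⟨hz, hzC⟩, hzX⟩
  split_ifs with hc
  · apply le_antisymm
    · obtain ⟨X, hX, hXc⟩ := exists_fvs G (S \ C)
      obtain ⟨Y, hY, hYc⟩ := exists_fvs G (insert a C)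
      rw [← hXc, ← hYc]
      refine (fvs_le_of (X := Y ∪ X) (glue _ (hX.2.mono ?_) (hY.2.mono ?_))).trans
        ((Finset.card_le_card Finset.inter_subset_left).trans (Finset.card_union_le _ _))
      · rintro z ⟨h1, h2⟩
        exact ⟨h1, fun h3 => h2 (by simp [show z ∈ X from h3])⟩
      · rintro z ⟨h1, h2⟩
        exact ⟨h1, fun h3 => h2 (by simp [show z ∈ Y from h3])⟩
    · obtain ⟨X, hX, hXc⟩ := exists_fvs G S
      have h1 : fvs G (S \ C) ≤ (X ∩ (S \ C)).card := by
        refine fvs_le_of (hX.2.mono ?_)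
        rintro z ⟨h1, h2⟩
        exact ⟨(Finset.mem_sdiff.1 h1).1, h2⟩
      have h2 : fvs G C ≤ (X ∩ C).card := by
        refine fvs_le_of (hX.2.mono ?_)
        rintro z ⟨h1, h2⟩
        exact ⟨h.sub h1, h2⟩
      have h3 : (X ∩ (S \ C)).card + (X ∩ C).card ≤ X.card := by
        rw [← Finset.card_union_of_disjoint]
        · apply Finset.card_le_card
          intro z hz
          simp only [Finset.mem_union, Finset.mem_inter] at hz
          rcases hz with hz | hz <;> exact hz.1
        · rw [Finset.disjoint_left]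
          intro z hz hz'
          simp only [Finset.mem_inter, Finset.mem_sdiff] at hz hz'
          exact hz.2.2 hz'.2
      omega
  · have hc' : fvs G (insert a C) = fvs G C + 1 := by omega
    apply le_antisymm
    · obtain ⟨X, hX, hXc⟩ := exists_fvs G ((S \ C).erase a)
      obtain ⟨Y, hY, hYc⟩ := exists_fvs G C
      rw [← hXc, hc', ← hYc]
      refine (fvs_le_of (X := insert a (Y ∪ X)) (glue _ (hX.2.mono ?_) (hY.2.mono ?_))).trans
        ((Finset.card_le_card Finset.inter_subset_left).trans ((Finset.card_insert_le _ _).trans ?_))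
      · rintro z ⟨h1, h2⟩
        rw [Finset.mem_coe, Finset.mem_insert, Finset.mem_union] at h2
        push Not at h2
        refine ⟨?_, h2.2.2⟩
        rw [Finset.mem_coe, Finset.mem_erase]
        exact ⟨h2.1, h1⟩
      · rintro z ⟨h1, h2⟩
        rw [Finset.mem_coe, Finset.mem_insert, Finset.mem_union] at h2
        push Not at h2
        refine ⟨?_, h2.2.1⟩
        rw [Finset.mem_coe, Finset.mem_insert] at h1
        exact h1.resolve_left h2.1
      · have := Finset.card_union_le Y X
        omega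
    · obtain ⟨X, hX, hXc⟩ := exists_fvs G S
      by_cases haX : a ∈ X
      · have h1 : fvs G ((S \ C).erase a) ≤ (X ∩ ((S \ C).erase a)).card := by
          refine fvs_le_of (hX.2.mono ?_)
          rintro z ⟨h1, h2⟩
          rw [Finset.mem_coe, Finset.mem_erase, Finset.mem_sdiff] at h1
          exact ⟨h1.2.1, h2⟩
        have h2 : fvs G C ≤ (X ∩ C).card := by
          refine fvs_le_of (hX.2.mono ?_)
          rintro z ⟨h1, h2⟩
          exact ⟨h.sub h1, h2⟩
        have h3 : (X ∩ ((S \ C).erase a)).card + (X ∩ C).card + 1 ≤ X.card := by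
          rw [← Finset.card_union_of_disjoint]
          · rw [← Finset.card_insert_of_notMem (a := a)]
            · apply Finset.card_le_card
              intro z hz
              simp only [Finset.mem_insert, Finset.mem_union, Finset.mem_inter] at hz
              rcases hz with rfl | hz | hz
              · exact haX
              · exact hz.1
              · exact hz.1
            · simp only [Finset.mem_union, Finset.mem_inter, Finset.mem_erase]
              rintro (h' | h')
              · exact h'.2.1 rfl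
              · exact h.aC h'.2
          · rw [Finset.disjoint_left]
            intro z hz hz'
            simp only [Finset.mem_inter, Finset.mem_sdiff, Finset.mem_erase] at hz hz'
            exact hz.2.2.2 hz'.2
        omega
      · have h1 : fvs G ((S \ C).erase a) ≤ (X ∩ ((S \ C).erase a)).card := by
          refine fvs_le_of (hX.2.mono ?_)
          rintro z ⟨h1, h2⟩
          rw [Finset.mem_coe, Finset.mem_erase, Finset.mem_sdiff] at h1
          exact ⟨h1.2.1, h2⟩
        have h2 : fvs G (insert a C) ≤ (X ∩ (insert a C)).card := by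
          refine fvs_le_of (hX.2.mono ?_)
          rintro z ⟨h1, h2⟩
          rw [Finset.mem_coe, Finset.mem_insert] at h1
          rcases h1 with rfl | h1
          · exact ⟨h.aS, h2⟩
          · exact ⟨h.sub h1, h2⟩
        have h3 : (X ∩ ((S \ C).erase a)).card + (X ∩ (insert a C)).card ≤ X.card := by
          rw [← Finset.card_union_of_disjoint]
          · apply Finset.card_le_card
            intro z hz
            simp only [Finset.mem_union, Finset.mem_inter] at hz
            rcases hz with hz | hz <;> exact hz.1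
          · rw [Finset.disjoint_left]
            intro z hz hz'
            simp only [Finset.mem_inter, Finset.mem_sdiff, Finset.mem_erase,
              Finset.mem_insert] at hz hz'
            rcases hz'.2 with h' | h'
            · exact hz.2.1 h'
            · exact hz.2.2.2 h'
        omega

/-- minimum size of a feedback vertex set of `G[S]` separating `x` from `y` -/
noncomputable def sep (G : SimpleGraph V) (S : Finset V) (x y : V) : ℕ :=
  sInf {k | ∃ X, IsF G S X ∧ ¬ Conn G ((S : Set V) \ X) x y ∧ X.card = k}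

theorem exists_sep (G : SimpleGraph V) (S : Finset V) (x y : V) :
    ∃ X, IsF G S X ∧ ¬ Conn G ((S : Set V) \ X) x y ∧ X.card = sep G S x y :=
  Nat.sInf_mem (s := {k | ∃ X, IsF G S X ∧ ¬ Conn G ((S : Set V) \ X) x y ∧ X.card = k})
    ⟨_, S, isF_self G S, fun h => h.left.2 h.left.1, rfl⟩

theorem sep_le_of {G : SimpleGraph V} {S X : Finset V} {x y : V} (h : Acyc G ((S : Set V) \ X))
    (hc : ¬ Conn G ((S : Set V) \ X) x y) : sep G S x y ≤ (X ∩ S).card := by
  have he : ((S : Set V) \ ((X ∩ S : Finset V) : Set V)) = (S : Set V) \ X := by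
    ext z
    simp only [Finset.coe_inter, Set.mem_sdiff, Set.mem_inter_iff, Finset.mem_coe, not_and]
    tauto
  apply Nat.sInf_le
  refine ⟨X ∩ S, ⟨Finset.inter_subset_right, ?_⟩, ?_, rfl⟩
  · rw [he]; exact h
  · rw [he]; exact hc

theorem fvs_le_sep (G : SimpleGraph V) (S : Finset V) (x y : V) : fvs G S ≤ sep G S x y := by
  obtain ⟨X, hX, _, hc⟩ := exists_sep G S x y
  rw [← hc]
  exact fvs_le hX

theorem sep_le (G : SimpleGraph V) (S : Finset V) (x y : V) : sep G S x y ≤ fvs G S + 1 := by
  obtain ⟨X, hX, hc⟩ := exists_fvs G S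
  rw [← hc]
  refine (sep_le_of (X := insert x X) (hX.2.mono ?_) ?_).trans
    ((Finset.card_le_card Finset.inter_subset_left).trans (Finset.card_insert_le _ _))
  · rintro z ⟨h1, h2⟩
    exact ⟨h1, fun h3 => h2 (by simp [show z ∈ X from h3])⟩
  · intro h
    exact h.left.2 (by simp)

/-- The formula for a 2-edge cut (general form). -/
theorem fvs_two {G : SimpleGraph V} {A B : Finset V} {x1 y1 x2 y2 : V}
    (hd : ∀ z ∈ A, z ∉ B) (hx : x1 ≠ x2) (h1 : G.Adj x1 y1) (h2 : G.Adj x2 y2)
    (hE : ∀ u ∈ A, ∀ w ∈ B, G.Adj u w → (u = x1 ∧ w = y1) ∨ (u = x2 ∧ w = y2)) :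
    fvs G (A ∪ B) = min (sep G A x1 x2 + fvs G B) (fvs G A + sep G B y1 y2) := by
  apply le_antisymm
  · apply le_min
    · obtain ⟨X, hX, hXs, hXc⟩ := exists_sep G A x1 x2
      obtain ⟨Y, hY, hYc⟩ := exists_fvs G B
      rw [← hXc, ← hYc]
      refine (fvs_le_of (X := X ∪ Y) ?_).trans
        ((Finset.card_le_card Finset.inter_subset_left).trans (Finset.card_union_le _ _))
      refine (acyc_glue_two (A := (A : Set V) \ X) (B := (B : Set V) \ Y) x1 y1 x2 y2 ?_ ?_ hX.2
        hY.2 hXs).mono ?_
      · rintro z ⟨hz, _⟩ ⟨hz', _⟩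
        exact hd z hz hz'
      · rintro u ⟨hu, _⟩ w ⟨hw, _⟩ huw
        exact hE u hu w hw huw
      · rintro z ⟨hz1, hz2⟩
        rw [Finset.mem_coe, Finset.mem_union] at hz1 hz2
        push Not at hz2
        rcases hz1 with h | h
        · exact Or.inl ⟨h, hz2.1⟩
        · exact Or.inr ⟨h, hz2.2⟩
    · obtain ⟨X, hX, hXc⟩ := exists_fvs G A
      obtain ⟨Y, hY, hYs, hYc⟩ := exists_sep G B y1 y2
      rw [← hXc, ← hYc]
      refine (fvs_le_of (X := X ∪ Y) ?_).trans
        ((Finset.card_le_card Finset.inter_subset_left).trans (Finset.card_union_le _ _))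
      refine (acyc_glue_two (A := (B : Set V) \ Y) (B := (A : Set V) \ X) y1 x1 y2 x2 ?_ ?_ hY.2
        hX.2 hYs).mono ?_
      · rintro z ⟨hz, _⟩ ⟨hz', _⟩
        exact hd z hz' hz
      · rintro u ⟨hu, _⟩ w ⟨hw, _⟩ huw
        rcases hE w hw u hu huw.symm with h | h
        · exact Or.inl ⟨h.2, h.1⟩
        · exact Or.inr ⟨h.2, h.1⟩
      · rintro z ⟨hz1, hz2⟩
        rw [Finset.mem_coe, Finset.mem_union] at hz1 hz2
        push Not at hz2
        rcases hz1 with h | h
        · exact Or.inr ⟨h, hz2.1⟩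
        · exact Or.inl ⟨h, hz2.2⟩
  · obtain ⟨X, hX, hXc⟩ := exists_fvs G (A ∪ B)
    have hac := hX.2
    have hcard : (X ∩ A).card + (X ∩ B).card ≤ X.card := by
      rw [← Finset.card_union_of_disjoint]
      · apply Finset.card_le_card
        intro z hz
        simp only [Finset.mem_union, Finset.mem_inter] at hz
        rcases hz with hz | hz <;> exact hz.1
      · rw [Finset.disjoint_left]
        intro z hz hz'
        simp only [Finset.mem_inter] at hz hz'
        exact hd z hz.2 hz'.2
    have hsplit : ((A ∪ B : Finset V) : Set V) \ X = ((A : Set V) \ X) ∪ ((B : Set V) \ X) := by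
      ext z
      simp only [Finset.coe_union, Set.mem_sdiff, Set.mem_union]
      tauto
    rw [hsplit] at hac
    have hA := hac.mono Set.subset_union_left
    have hB := hac.mono Set.subset_union_right
    have hnot : ¬ (Conn G ((A : Set V) \ X) x1 x2 ∧ Conn G ((B : Set V) \ X) y1 y2) := by
      rintro ⟨ha, hb⟩
      refine not_acyc_two x1 y1 x2 y2 ?_ h1 h2 hx ha hb hac
      rintro z ⟨hz, _⟩ ⟨hz', _⟩
      exact hd z hz hz'
    by_cases hcA : Conn G ((A : Set V) \ X) x1 x2
    · have hcB : ¬ Conn G ((B : Set V) \ X) y1 y2 := fun h => hnot ⟨hcA, h⟩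
      have e1 := sep_le_of hB hcB
      have e2 := fvs_le_of hA
      exact (min_le_right _ _).trans (by omega)
    · have e1 := sep_le_of hA hcA
      have e2 := fvs_le_of hB
      exact (min_le_left _ _).trans (by omega)

theorem fvs_eq_zero {G : SimpleGraph V} {S : Finset V} (h : Acyc G (S : Set V)) : fvs G S = 0 := by
  have := fvs_le_of (G := G) (S := S) (X := ∅) (by simpa using h)
  simpa using this

/-- attaching a path -/
theorem fvs_path {G : SimpleGraph V} {A P : Finset V} {x1 y1 x2 y2 : V}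
    (hd : ∀ z ∈ A, z ∉ P) (hx : x1 ≠ x2) (h1 : G.Adj x1 y1) (h2 : G.Adj x2 y2)
    (hE : ∀ u ∈ A, ∀ w ∈ P, G.Adj u w → (u = x1 ∧ w = y1) ∨ (u = x2 ∧ w = y2))
    (hP : Acyc G (P : Set V)) (hc : Conn G (P : Set V) y1 y2) :
    fvs G (A ∪ P) = sep G A x1 x2 := by
  rw [fvs_two hd hx h1 h2 hE, fvs_eq_zero hP]
  have e1 := sep_le G P y1 y2
  rw [fvs_eq_zero hP] at e1
  have e2 : 1 ≤ sep G P y1 y2 := by
    by_contra h
    obtain ⟨X, hX, hXs, hXc⟩ := exists_sep G P y1 y2
    have : X = ∅ := by
      rw [← Finset.card_eq_zero]; omega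
    subst this
    apply hXs
    simpa using hc
  have e3 := sep_le G A x1 x2
  have e4 : sep G P y1 y2 = 1 := by omega
  rw [e4]
  simpa using e3

end fvs

end FVS424
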