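import Pool.Agent.Lib.MP_424cb6_lc.Skew

/-! Flows (cycle space) of a graph over a field, and the upper bound for feedback vertex sets of
subcubic graphs. -/

namespace FVS424

open Module Finset

variable {V : Type*} [Fintype V] [DecidableEq V] {F : Type*} [Field F]

/-- flows on `G` -/
def Z (F : Type*) [Field F] (G : SimpleGraph V) : Submodule F (V → V → F) where
  carrier := {C | (∀ u v, C u v = - C v u) ∧ (∀ u v, ¬ G.Adj u v → C u v = 0) ∧
    ∀ v, ∑ u, C v u = 0}
  zero_mem' := ⟨fun _ _ => by simp, fun _ _ _ => rfl, fun _ => by simp⟩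
  add_mem' := by
    rintro a b ⟨ha, ha', ha''⟩ ⟨hb, hb', hb''⟩
    refine ⟨fun u v => ?_, fun u v h => ?_, fun v => ?_⟩
    · simp only [Pi.add_apply]; rw [ha u v, hb u v]; ring
    · simp only [Pi.add_apply]; rw [ha' u v h, hb' u v h, add_zero]
    · simp only [Pi.add_apply]; rw [Finset.sum_add_distrib, ha'' v, hb'' v, add_zero]
  smul_mem' := by
    rintro c a ⟨ha, ha', ha''⟩
    refine ⟨fun u v => ?_, fun u v h => ?_, fun v => ?_⟩
    · simp only [Pi.smul_apply, smul_eq_mul]; rw [ha u v]; ring
    · simp only [Pi.smul_apply, smul_eq_mul]; rw [ha' u v h, mul_zero]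
    · simp only [Pi.smul_apply, smul_eq_mul]; rw [← Finset.mul_sum, ha'' v, mul_zero]

theorem mem_Z {G : SimpleGraph V} {C : V → V → F} : C ∈ Z F G ↔ (∀ u v, C u v = - C v u) ∧
    (∀ u v, ¬ G.Adj u v → C u v = 0) ∧ ∀ v, ∑ u, C v u = 0 := Iff.rfl

theorem Z_mono {G H : SimpleGraph V} (h : G ≤ H) : Z F G ≤ Z F H :=
  fun _ hC => ⟨hC.1, fun u v huv => hC.2.1 u v fun h' => huv (h h'), hC.2.2⟩

theorem Z_eq_bot (h2 : (2 : F) ≠ 0) {G : SimpleGraph V} (hG : G.IsAcyclic) : Z F G = ⊥ := by
  classical
  rw [eq_bot_iff]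
  intro C hC
  rw [Submodule.mem_bot]
  funext u v
  by_cases huv : G.Adj u v
  swap
  · exact hC.2.1 u v huv
  have hb := SimpleGraph.isAcyclic_iff_forall_adj_isBridge.1 hG huv
  rw [SimpleGraph.isBridge_iff] at hb
  set H := G.deleteEdges {s(u, v)} with hH
  set A : Finset V := univ.filter (fun a => H.Reachable u a) with hA
  have huA : u ∈ A := by simp [hA]
  have hvA : v ∉ A := by simpa [hA] using hb
  have h1 : ∑ a ∈ A, ∑ b, C a b = 0 := Finset.sum_eq_zero fun a _ => hC.2.2 a
  have h3 : ∑ a ∈ A, ∑ b ∈ A, C a b = 0 := by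
    have e : ∑ a ∈ A, ∑ b ∈ A, C a b = - ∑ a ∈ A, ∑ b ∈ A, C a b := by
      conv_lhs => rw [Finset.sum_comm]
      rw [← Finset.sum_neg_distrib]
      refine Finset.sum_congr rfl fun a _ => ?_
      rw [← Finset.sum_neg_distrib]
      exact Finset.sum_congr rfl fun b _ => hC.1 b a
    have e2 : (2 : F) * ∑ a ∈ A, ∑ b ∈ A, C a b = 0 := by linear_combination e
    exact (mul_eq_zero.1 e2).resolve_left h2
  have h4 : ∑ a ∈ A, ∑ b ∈ Aᶜ, C a b = C u v := by
    rw [Finset.sum_eq_single u, Finset.sum_eq_single v]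
    · intro b hb hbv
      by_contra hne
      have hadj : G.Adj u b := by
        by_contra h; exact hne (hC.2.1 u b h)
      apply Finset.mem_compl.1 hb
      simp only [hA, mem_filter, mem_univ, true_and]
      apply SimpleGraph.Adj.reachable
      rw [hH, SimpleGraph.deleteEdges_adj]
      refine ⟨hadj, ?_⟩
      rw [Set.mem_singleton_iff, Sym2.eq_iff]
      rintro (⟨_, h⟩ | ⟨h, h'⟩)
      · exact hbv h
      · exact huv.ne h
    · intro h; exact absurd (Finset.mem_compl.2 hvA) h
    · intro a ha hau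
      refine Finset.sum_eq_zero fun b hbA => ?_
      by_contra hne
      have hadj : G.Adj a b := by
        by_contra h; exact hne (hC.2.1 a b h)
      apply Finset.mem_compl.1 hbA
      simp only [hA, mem_filter, mem_univ, true_and] at ha ⊢
      refine ha.trans (SimpleGraph.Adj.reachable ?_)
      rw [hH, SimpleGraph.deleteEdges_adj]
      refine ⟨hadj, ?_⟩
      rw [Set.mem_singleton_iff, Sym2.eq_iff]
      rintro (⟨h, _⟩ | ⟨h, h'⟩)
      · exact hau h
      · subst h
        exact hb.elim ha
    · intro h; exact absurd huA h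
  have h5 : ∑ a ∈ A, ∑ b, C a b = ∑ a ∈ A, ∑ b ∈ A, C a b + ∑ a ∈ A, ∑ b ∈ Aᶜ, C a b := by
    rw [← Finset.sum_add_distrib]
    exact Finset.sum_congr rfl fun a _ => (Finset.sum_add_sum_compl A _).symm
  rw [h1, h3, h4, zero_add] at h5
  exact h5.symm

omit [Fintype V] in
theorem ind_comm (x y a b : V) :
    (if x = a ∧ y = b then (1 : F) else 0) = if y = b ∧ x = a then 1 else 0 := by
  by_cases h1 : x = a <;> by_cases h2 : y = b <;> simp [h1, h2]

theorem path_flow (H : SimpleGraph V) (u w : V) (h : H.Reachable u w) :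
    ∃ P : V → V → F, (∀ x y, P x y = - P y x) ∧ (∀ x y, ¬ H.Adj x y → P x y = 0) ∧
      ∀ x, ∑ y, P x y = (if x = u then 1 else 0) - (if x = w then 1 else 0) := by
  rw [SimpleGraph.reachable_iff_reflTransGen] at h
  induction h with
  | refl => exact ⟨0, fun _ _ => by simp, fun _ _ _ => rfl, fun _ => by simp⟩
  | @tail a b _ hab ih =>
    obtain ⟨P, h1, h2, h3⟩ := ih
    refine ⟨fun x y => P x y + ((if x = a ∧ y = b then 1 else 0) - (if x = b ∧ y = a then 1 else 0)),
      fun x y => ?_, fun x y hxy => ?_, fun x => ?_⟩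
    · simp only
      rw [h1 x y, ind_comm x y a b, ind_comm x y b a]
      ring
    · simp only
      rw [h2 x y hxy, if_neg, if_neg]
      · ring
      · rintro ⟨rfl, rfl⟩; exact hxy hab.symm
      · rintro ⟨rfl, rfl⟩; exact hxy hab
    · simp only
      rw [Finset.sum_add_distrib, h3, Finset.sum_sub_distrib]
      have e1 : ∀ p q : V, ∑ y, (if x = p ∧ y = q then (1 : F) else 0) = if x = p then 1 else 0 := by
        intro p q
        by_cases hx : x = p
        · simp [hx]
        · simp [hx]
      rw [e1, e1]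
      ring

theorem acyclic_of_Z {G : SimpleGraph V} (h : Z F G = ⊥) : G.IsAcyclic := by
  rw [SimpleGraph.isAcyclic_iff_forall_adj_isBridge]
  intro u v huv
  rw [SimpleGraph.isBridge_iff]
  intro hr
  obtain ⟨P, h1, h2, h3⟩ := path_flow (F := F) _ u v hr
  have hP : P u v = 0 := by
    apply h2
    rw [SimpleGraph.deleteEdges_adj]
    simp
  have hm : (fun x y => P x y + ((if x = v ∧ y = u then 1 else 0) -
      (if x = u ∧ y = v then 1 else 0)) : V → V → F) ∈ Z F G := by
    refine ⟨fun x y => ?_, fun x y hxy => ?_, fun x => ?_⟩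
    · simp only
      rw [h1 x y, ind_comm x y v u, ind_comm x y u v]
      ring
    · simp only
      rw [h2 x y, if_neg, if_neg]
      · ring
      · rintro ⟨rfl, rfl⟩; exact hxy huv
      · rintro ⟨rfl, rfl⟩; exact hxy huv.symm
      · rw [SimpleGraph.deleteEdges_adj]; exact fun h => hxy h.1
    · simp only
      rw [Finset.sum_add_distrib, h3, Finset.sum_sub_distrib]
      have e1 : ∀ p q : V, ∑ y, (if x = p ∧ y = q then (1 : F) else 0) = if x = p then 1 else 0 := by
        intro p q
        by_cases hx : x = p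
        · simp [hx]
        · simp [hx]
      rw [e1, e1]
      ring
  rw [h, Submodule.mem_bot] at hm
  have := congrFun (congrFun hm u) v
  simp [hP, huv.ne] at this

/-- delete all edges at the vertices of `X` -/
def del (G : SimpleGraph V) (X : Finset V) : SimpleGraph V where
  Adj u w := G.Adj u w ∧ u ∉ X ∧ w ∉ X
  symm := ⟨fun _ _ h => ⟨h.1.symm, h.2.2, h.2.1⟩⟩
  loopless := ⟨fun _ h => G.loopless.irrefl _ h.1⟩

omit [Fintype V] [DecidableEq V] in
theorem del_le (G : SimpleGraph V) (X : Finset V) : del G X ≤ G := fun _ _ h => h.1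

omit [Fintype V] in
theorem del_del (G : SimpleGraph V) (X Y : Finset V) : del (del G X) Y = del G (X ∪ Y) := by
  ext u w
  simp only [del, mem_union]
  tauto

theorem mem_Z_del {G : SimpleGraph V} {X : Finset V} {C : V → V → F} (hC : C ∈ Z F G)
    (h : ∀ v ∈ X, ∀ u, C v u = 0) : C ∈ Z F (del G X) := by
  refine ⟨hC.1, fun u v huv => ?_, hC.2.2⟩
  by_contra hne
  apply huv
  refine ⟨?_, ?_, ?_⟩
  · by_contra h'; exact hne (hC.2.1 u v h')
  · intro hu; exact hne (h u hu v)
  · intro hv; apply hne; rw [hC.1, h v hv u, neg_zero]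

theorem Z_del_apply {G : SimpleGraph V} {X : Finset V} {C : V → V → F} (hC : C ∈ Z F (del G X))
    {v : V} (hv : v ∈ X) (u : V) : C v u = 0 := hC.2.1 v u fun h => h.2.1 hv

/-- `n1, n2` are neighbours that determine the flow at each vertex -/
def Loc (G : SimpleGraph V) (n1 n2 : V → V) : Prop :=
  ∀ v, ∃ c, ∀ u, G.Adj v u → u = n1 v ∨ u = n2 v ∨ u = c

omit [Fintype V] [DecidableEq V] in
theorem Loc.mono {G H : SimpleGraph V} {n1 n2 : V → V} (h : Loc G n1 n2) (hH : H ≤ G) :
    Loc H n1 n2 := fun v => by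
  obtain ⟨c, hc⟩ := h v
  exact ⟨c, fun u hu => hc u (hH hu)⟩

theorem Loc.zero {G : SimpleGraph V} {n1 n2 : V → V} (h : Loc G n1 n2) {C : V → V → F}
    (hC : C ∈ Z F G) {v : V} (h1 : C v (n1 v) = 0) (h2 : C v (n2 v) = 0) (u : V) : C v u = 0 := by
  obtain ⟨c, hc⟩ := h v
  by_cases hu : u = n1 v
  · rw [hu, h1]
  by_cases hu2 : u = n2 v
  · rw [hu2, h2]
  by_cases hu3 : u = c
  · have h3 := hC.2.2 v
    rw [Finset.sum_eq_single u] at h3
    · exact h3
    · intro b _ hb
      by_cases hadj : G.Adj v b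
      · rcases hc b hadj with h | h | h
        · rw [h, h1]
        · rw [h, h2]
        · exact absurd (h.trans hu3.symm) hb
      · exact hC.2.1 v b hadj
    · intro h; exact absurd (Finset.mem_univ _) h
  · apply hC.2.1
    intro hadj
    rcases hc u hadj with h | h | h
    · exact hu h
    · exact hu2 h
    · exact hu3 h

/-- evaluation at an ordered pair -/
def evl (u w : V) : (V → V → F) →ₗ[F] F :=
  (LinearMap.proj w).comp (LinearMap.proj (R := F) (φ := fun _ : V => V → F) u)

omit [Fintype V] [DecidableEq V] in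
@[simp] theorem evl_apply (u w : V) (C : V → V → F) : evl u w C = C u w := rfl

/-- local form -/
def om (n1 n2 : V → V) (v : V) : (V → V → F) →ₗ[F] (V → V → F) →ₗ[F] F :=
  wedge (evl v (n1 v)) (evl v (n2 v))

omit [Fintype V] [DecidableEq V] in
theorem om_apply (n1 n2 : V → V) (v : V) (C D : V → V → F) :
    om n1 n2 v C D = C v (n1 v) * D v (n2 v) - C v (n2 v) * D v (n1 v) := rfl

/-- global form -/
def Mx (n1 n2 : V → V) (x : V → F) : (V → V → F) →ₗ[F] (V → V → F) →ₗ[F] F :=
  ∑ v, x v • om n1 n2 v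

omit [DecidableEq V] in
theorem Mx_apply (n1 n2 : V → V) (x : V → F) (C D : V → V → F) :
    Mx n1 n2 x C D = ∑ v, x v * om n1 n2 v C D := by
  simp [Mx, LinearMap.sum_apply]

omit [DecidableEq V] in
theorem Mx_self (n1 n2 : V → V) (x : V → F) (C : V → V → F) : Mx n1 n2 x C C = 0 := by
  rw [Mx_apply]
  refine Finset.sum_eq_zero fun v _ => ?_
  rw [om, wedge_self, mul_zero]

theorem Mx_update (n1 n2 : V → V) (x : V → F) (v : V) (t : F) :
    Mx n1 n2 (Function.update x v (x v + t)) = Mx n1 n2 x + t • om n1 n2 v := by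
  rw [Mx, Mx, ← Finset.add_sum_erase _ _ (mem_univ v), ← Finset.add_sum_erase _ _ (mem_univ v),
    Function.update_self, add_smul]
  have : ∑ w ∈ univ.erase v, Function.update x v (x v + t) w • om (F := F) n1 n2 w =
      ∑ w ∈ univ.erase v, x w • om n1 n2 w := by
    refine Finset.sum_congr rfl fun w hw => ?_
    rw [Function.update_of_ne (Finset.ne_of_mem_erase hw)]
  rw [this]
  abel

/-- one vertex per dimension is enough -/
theorem exists_small : ∀ n, ∀ (G : SimpleGraph V), finrank F (Z F G) = n →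
    ∃ X : Finset V, (del G X).IsAcyclic ∧ X.card ≤ finrank F (Z F G) := by
  intro n
  induction n using Nat.strong_induction_on with
  | _ n ih =>
    intro G hn
    by_cases hZ : Z F G = ⊥
    · refine ⟨∅, ?_, by simp⟩
      have := acyclic_of_Z hZ
      exact this.anti (del_le _ _)
    · obtain ⟨C, hC, hne⟩ := Submodule.exists_mem_ne_zero_of_ne_bot hZ
      obtain ⟨u, hu⟩ := Function.ne_iff.1 hne
      obtain ⟨v, hv⟩ := Function.ne_iff.1 hu
      have hlt : Z F (del G {u}) < Z F G := by
        refine lt_of_le_of_ne (Z_mono (del_le _ _)) fun h => ?_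
        rw [← h] at hC
        exact hv (Z_del_apply hC (Finset.mem_singleton_self u) v)
      have hlt' := Submodule.finrank_lt_finrank_of_lt hlt
      obtain ⟨X, hX, hX'⟩ := ih _ (by omega) (del G {u}) rfl
      rw [del_del] at hX
      refine ⟨{u} ∪ X, hX, ?_⟩
      have := Finset.card_union_le {u} X
      simp only [Finset.card_singleton] at this
      omega

/-- upper bound on the feedback vertex number from any coordinate vector -/
theorem upper [DecidableEq F] (n1 n2 : V → V) : ∀ (k : ℕ) (x : V → F) (G : SimpleGraph V), Loc G n1 n2 →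
    (univ.filter (fun v => x v ≠ 0)).card = k →
    ∃ X : Finset V, (del G X).IsAcyclic ∧
      2 * X.card ≤ finrank F (Z F G) + finrank F (radW (Mx n1 n2 x) (Z F G)) := by
  classical
  intro k
  induction k with
  | zero =>
    intro x G hG hk
    obtain ⟨X, hX, hX'⟩ := exists_small (F := F) _ G rfl
    refine ⟨X, hX, ?_⟩
    have hx : x = 0 := by
      rw [Finset.card_eq_zero, Finset.filter_eq_empty_iff] at hk
      funext v
      simpa using hk (mem_univ v)
    have : radW (Mx n1 n2 x) (Z F G) = Z F G := by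
      refine le_antisymm (radW_le _ _) fun C hC => ⟨hC, fun D _ => ?_⟩
      rw [Mx_apply, hx]
      simp
    rw [this]
    omega
  | succ k ih =>
    intro x G hG hk
    obtain ⟨v, hv⟩ : (univ.filter (fun v => x v ≠ 0)).Nonempty := by
      rw [← Finset.card_pos]; omega
    have hxv : x v ≠ 0 := (Finset.mem_filter.1 hv).2
    set x0 := Function.update x v 0 with hx0
    have hMx : Mx n1 n2 x = Mx n1 n2 x0 + x v • om n1 n2 v := by
      rw [← Mx_update]
      congr 1
      funext w
      by_cases hw : w = v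
      · subst hw; simp [hx0]
      · simp [hx0, Function.update_of_ne hw]
    have hk0 : (univ.filter (fun w => x0 w ≠ 0)).card = k := by
      have : univ.filter (fun w => x0 w ≠ 0) = (univ.filter (fun w => x w ≠ 0)).erase v := by
        ext w
        simp only [mem_filter, mem_univ, true_and, mem_erase]
        by_cases hw : w = v
        · subst hw; simp [hx0]
        · simp [hx0, Function.update_of_ne hw, hw]
      rw [this, Finset.card_erase_of_mem hv]
      omega
    have hM0 := Mx_self (F := F) n1 n2 x0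
    by_cases hA : ∀ C ∈ radW (Mx n1 n2 x0) (Z F G), ∀ D ∈ radW (Mx n1 n2 x0) (Z F G),
        om n1 n2 v C D = 0
    · obtain ⟨X, hX, hX'⟩ := ih x0 G hG hk0
      refine ⟨X, hX, ?_⟩
      have h1 := rad_down hM0 (x v) hA
      rw [hMx]
      have h2 : om (F := F) n1 n2 v = wedge (evl v (n1 v)) (evl v (n2 v)) := rfl
      rw [h2]
      omega
    · push Not at hA
      obtain ⟨C, hC, D, hD, hne⟩ := hA
      obtain ⟨X, hX, hX'⟩ := ih x0 (del G {v}) (hG.mono (del_le _ _)) hk0
      rw [del_del] at hX
      refine ⟨{v} ∪ X, hX, ?_⟩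
      set f : (V → V → F) →ₗ[F] F × F := (evl v (n1 v)).prod (evl v (n2 v)) with hf
      have hs : ∀ n : F × F, ∃ w ∈ Z F G, f w = n := by
        rintro ⟨p, q⟩
        set d := om n1 n2 v C D with hd
        rw [om_apply] at hd
        refine ⟨(d⁻¹ * (p * D v (n2 v) - q * D v (n1 v))) • C +
          (d⁻¹ * (q * C v (n1 v) - p * C v (n2 v))) • D,
          Submodule.add_mem _ (Submodule.smul_mem _ _ hC.1) (Submodule.smul_mem _ _ hD.1), ?_⟩
        apply Prod.ext
        · show (d⁻¹ * (p * D v (n2 v) - q * D v (n1 v))) * C v (n1 v) +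
            (d⁻¹ * (q * C v (n1 v) - p * C v (n2 v))) * D v (n1 v) = p
          have : (d⁻¹ * (p * D v (n2 v) - q * D v (n1 v))) * C v (n1 v) +
            (d⁻¹ * (q * C v (n1 v) - p * C v (n2 v))) * D v (n1 v) =
            d⁻¹ * (C v (n1 v) * D v (n2 v) - C v (n2 v) * D v (n1 v)) * p := by ring
          rw [this, ← hd, inv_mul_cancel₀ hne, one_mul]
        · show (d⁻¹ * (p * D v (n2 v) - q * D v (n1 v))) * C v (n2 v) +
            (d⁻¹ * (q * C v (n1 v) - p * C v (n2 v))) * D v (n2 v) = q
          have : (d⁻¹ * (p * D v (n2 v) - q * D v (n1 v))) * C v (n2 v) +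
            (d⁻¹ * (q * C v (n1 v) - p * C v (n2 v))) * D v (n2 v) =
            d⁻¹ * (C v (n1 v) * D v (n2 v) - C v (n2 v) * D v (n1 v)) * q := by ring
          rw [this, ← hd, inv_mul_cancel₀ hne, one_mul]
      have hdim := finrank_eq_ker f (Z F G) hs
      rw [Module.finrank_prod, Module.finrank_self] at hdim
      have hker : Z F G ⊓ LinearMap.ker f = Z F (del G {v}) := by
        apply le_antisymm
        · rintro E ⟨hE, hE'⟩
          have h1 : f E = 0 := LinearMap.mem_ker.1 hE'
          have h2 : E v (n1 v) = 0 := (Prod.ext_iff.1 h1).1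
          have h3 : E v (n2 v) = 0 := (Prod.ext_iff.1 h1).2
          refine mem_Z_del hE fun w hw u => ?_
          rw [Finset.mem_singleton.1 hw]
          exact hG.zero hE h2 h3 u
        · intro E hE
          refine ⟨Z_mono (del_le _ _) hE, ?_⟩
          refine LinearMap.mem_ker.2 (Prod.ext_iff.2 ⟨?_, ?_⟩)
          · exact Z_del_apply hE (Finset.mem_singleton_self v) _
          · exact Z_del_apply hE (Finset.mem_singleton_self v) _
      rw [hker] at hdim
      have hrad : radW (Mx n1 n2 x0) (Z F (del G {v})) ≤ radW (Mx n1 n2 x) (Z F G) := by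
        intro E hE
        have hEv : ∀ u, E v u = 0 := Z_del_apply hE.1 (Finset.mem_singleton_self v)
        have hEZ := Z_mono (del_le _ _) hE.1
        refine ⟨hEZ, fun Y hY => ?_⟩
        rw [hMx, LinearMap.add_apply, LinearMap.add_apply, LinearMap.smul_apply,
          LinearMap.smul_apply, om_apply n1 n2 v E Y, hEv, hEv]
        obtain ⟨p, hp⟩ : ∃ p, p = (om n1 n2 v C D)⁻¹ * (om n1 n2 v Y D) := ⟨_, rfl⟩
        obtain ⟨q, hq⟩ : ∃ q, q = (om n1 n2 v C D)⁻¹ * (om n1 n2 v C Y) := ⟨_, rfl⟩
        have hY' : Y - p • C - q • D ∈ Z F (del G {v}) := by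
          rw [← hker]
          refine ⟨Submodule.sub_mem _ (Submodule.sub_mem _ hY (Submodule.smul_mem _ _ hC.1))
            (Submodule.smul_mem _ _ hD.1), LinearMap.mem_ker.2 (Prod.ext_iff.2 ⟨?_, ?_⟩)⟩
          · show Y v (n1 v) - p * C v (n1 v) - q * D v (n1 v) = 0
            have : om n1 n2 v C D * (Y v (n1 v) - p * C v (n1 v) - q * D v (n1 v)) = 0 := by
              rw [hp, hq]
              have e : om n1 n2 v C D * (om n1 n2 v C D)⁻¹ = 1 := mul_inv_cancel₀ hne
              have e2 : om n1 n2 v C D * (Y v (n1 v) - (om n1 n2 v C D)⁻¹ * (om n1 n2 v Y D) *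
                C v (n1 v) - (om n1 n2 v C D)⁻¹ * (om n1 n2 v C Y) * D v (n1 v)) =
                om n1 n2 v C D * Y v (n1 v) - (om n1 n2 v C D * (om n1 n2 v C D)⁻¹) *
                (om n1 n2 v Y D * C v (n1 v) + om n1 n2 v C Y * D v (n1 v)) := by ring
              rw [e2, e, om_apply, om_apply, om_apply]
              ring
            exact (mul_eq_zero.1 this).resolve_left hne
          · show Y v (n2 v) - p * C v (n2 v) - q * D v (n2 v) = 0
            have : om n1 n2 v C D * (Y v (n2 v) - p * C v (n2 v) - q * D v (n2 v)) = 0 := by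
              rw [hp, hq]
              have e : om n1 n2 v C D * (om n1 n2 v C D)⁻¹ = 1 := mul_inv_cancel₀ hne
              have e2 : om n1 n2 v C D * (Y v (n2 v) - (om n1 n2 v C D)⁻¹ * (om n1 n2 v Y D) *
                C v (n2 v) - (om n1 n2 v C D)⁻¹ * (om n1 n2 v C Y) * D v (n2 v)) =
                om n1 n2 v C D * Y v (n2 v) - (om n1 n2 v C D * (om n1 n2 v C D)⁻¹) *
                (om n1 n2 v Y D * C v (n2 v) + om n1 n2 v C Y * D v (n2 v)) := by ring
              rw [e2, e, om_apply, om_apply, om_apply]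
              ring
            exact (mul_eq_zero.1 this).resolve_left hne
        have hYe : Y = (Y - p • C - q • D) + (p • C + q • D) := by abel
        have h1 : Mx n1 n2 x0 E C = 0 := by rw [alt_swap hM0, hC.2 E hEZ, neg_zero]
        have h2 : Mx n1 n2 x0 E D = 0 := by rw [alt_swap hM0, hD.2 E hEZ, neg_zero]
        have h3 : Mx n1 n2 x0 E Y = 0 := by
          rw [hYe, map_add, hE.2 _ hY', map_add, map_smul, map_smul, h1, h2]
          simp
        rw [h3]
        simp
      have hle := Submodule.finrank_mono hrad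
      have hc := Finset.card_union_le {v} X
      simp only [Finset.card_singleton] at hc
      omega

end FVS424
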