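import Pool.Agent.Lib.MP_424cb6_lc.TreeDec

/-! Inseparable sets, and large treewidth forces an inseparable set on a long path. -/

namespace FVS424

open Relation

variable {V : Type*}

/-- No two elements of `X` are separated in `G[A]` by at most two vertices. -/
def Insep (G : SimpleGraph V) (A X : Set V) : Prop :=
  X ⊆ A ∧ ∀ Y : Finset V, Y.card ≤ 2 → ∀ x ∈ X, x ∉ Y → ∀ x' ∈ X, x' ∉ Y →
    Conn G (A \ Y) x x'

/-- add all edges inside `Y` -/
def addClique (G : SimpleGraph V) (Y : Finset V) : SimpleGraph V where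
  Adj u v := G.Adj u v ∨ (u ≠ v ∧ u ∈ Y ∧ v ∈ Y)
  symm := ⟨by
    rintro u v (h | ⟨h1, h2, h3⟩)
    · exact Or.inl h.symm
    · exact Or.inr ⟨h1.symm, h3, h2⟩⟩
  loopless := ⟨by
    rintro u (h | ⟨h1, h2, h3⟩)
    · exact G.loopless.irrefl u h
    · exact h1 rfl⟩

theorem addClique_adj {G : SimpleGraph V} {Y : Finset V} {u v : V} :
    (addClique G Y).Adj u v ↔ G.Adj u v ∨ (u ≠ v ∧ u ∈ Y ∧ v ∈ Y) := Iff.rfl

theorem pair_of_card_le_two {Y : Finset V} (hY : Y.card ≤ 2) {a b c : V} (ha : a ∈ Y) (hb : b ∈ Y)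
    (hab : a ≠ b) (hc : c ∈ Y) : c = a ∨ c = b := by
  classical
  by_contra h
  push Not at h
  have : 2 < Y.card := by
    rw [Finset.two_lt_card]
    exact ⟨c, hc, a, ha, b, hb, h.1, h.2, hab⟩
  omega

/-- Transfer of an inseparable set along a 2-separation with virtual edge. -/
theorem transfer (G : SimpleGraph V) (A A1 : Set V) (Y X : Finset V) (hA : A1 ⊆ A)
    (hYA : ∀ y ∈ Y, y ∈ A1) (hY : Y.card ≤ 2)
    (hq : ∀ y1 ∈ Y, ∀ y2 ∈ Y, y1 ≠ y2 → ∃ q : List V, (y1 :: (q ++ [y2])).IsChain G.Adj ∧
      q.Nodup ∧ ∀ z ∈ q, z ∈ A ∧ z ∉ A1)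
    (hX4 : 4 ≤ X.card) (hX : Insep (addClique G Y) A1 (X : Set V))
    (l : List V) (hl : IsP (addClique G Y) l) (hlA : ∀ z ∈ l, z ∈ A1) :
    Insep G A (X : Set V) ∧ ∃ l', IsP G l' ∧ (∀ z ∈ l', z ∈ A) ∧ ∀ z ∈ l, z ∈ l' := by
  classical
  have hnov : ∀ l : List V, l.IsChain (addClique G Y).Adj →
      (∀ a ∈ l, ∀ b ∈ l, a ∈ Y → b ∈ Y → a = b) → l.IsChain G.Adj := by
    intro l h h'
    refine h.imp_of_mem_imp ?_
    intro a b ha hb hab
    rcases hab with h1 | ⟨h1, h2, h3⟩
    · exact h1
    · exact absurd (h' a ha b hb h2 h3) h1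
  constructor
  · refine ⟨hX.1.trans hA, ?_⟩
    intro Y' hY' x hx hxY x' hx' hxY'
    have hbase := hX.2 Y' hY' x hx hxY x' hx' hxY'
    by_cases hpair : ∃ y1 ∈ Y, ∃ y2 ∈ Y, y1 ≠ y2
    swap
    · push Not at hpair
      refine hbase.mono' ?_ ?_
      · intro u _ v _ huv
        rcases huv with h1 | ⟨h1, h2, h3⟩
        · exact h1
        · exact absurd (hpair u h2 v h3) h1
      · rintro z ⟨h1, h2⟩
        exact ⟨hA h1, h2⟩
    obtain ⟨y1, hy1, y2, hy2, hy12⟩ := hpair
    obtain ⟨q, hq1, hq2, hq3⟩ := hq y1 hy1 y2 hy2 hy12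
    by_cases hhit : ∃ z ∈ q, z ∈ Y'
    swap
    · push Not at hhit
      have hc : y1 ∉ Y' → y2 ∉ Y' → Conn G (A \ Y') y1 y2 := by
        intro h1 h2
        refine conn_of_list _ y1 hq1 ?_ y2 (by simp)
        intro z hz
        simp only [List.mem_cons, List.mem_append, List.not_mem_nil, or_false] at hz
        rcases hz with rfl | hz | rfl
        · exact ⟨hA (hYA _ hy1), h1⟩
        · exact ⟨(hq3 z hz).1, hhit z hz⟩
        · exact ⟨hA (hYA _ hy2), h2⟩
      refine hbase.closed (fun z => Conn G (A \ Y') x z) (.refl ⟨hA hbase.1.1, hbase.1.2⟩) ?_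
      intro u v h1 h2 h3 h4
      rcases h3 with h3 | ⟨h5, h6, h7⟩
      · exact h2.tail ⟨hA h4.1, h4.2⟩ h3
      · refine h2.trans ?_
        have hu := h1.right.2
        have hv := h4.2
        rcases pair_of_card_le_two hY hy1 hy2 hy12 h6 with rfl | rfl <;>
          rcases pair_of_card_le_two hY hy1 hy2 hy12 h7 with rfl | rfl
        · exact absurd rfl h5
        · exact hc hu hv
        · exact (hc hv hu).symm
        · exact absurd rfl h5
    · obtain ⟨z, hzq, hzY⟩ := hhit
      have hzA := (hq3 z hzq).2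
      have hc1 : (Y'.erase z).card ≤ 1 := by
        rw [Finset.card_erase_of_mem hzY]; omega
      have key : ∀ t ∈ Y, ∀ u ∈ X, u ∉ Y' → u ≠ t → ∀ u' ∈ X, u' ∉ Y' → u' ≠ t →
          Conn G (A \ Y') u u' := by
        intro t ht u hu huY hut u' hu' huY' hut'
        have h1 := hX.2 (insert t (Y'.erase z)) ((Finset.card_insert_le _ _).trans (by omega))
          u hu (by
            rw [Finset.mem_insert, Finset.mem_erase]
            rintro (h | h)
            · exact hut h
            · exact huY h.2) u' hu' (by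
            rw [Finset.mem_insert, Finset.mem_erase]
            rintro (h | h)
            · exact hut' h
            · exact huY' h.2)
        refine h1.mono' ?_ ?_
        · intro a ha b hb hab
          rcases hab with h | ⟨h2, h3, h4⟩
          · exact h
          · exfalso
            have hat : a ≠ t := by
              rintro rfl
              exact ha.2 (by simp)
            have hbt : b ≠ t := by
              rintro rfl
              exact hb.2 (by simp)
            rcases pair_of_card_le_two hY h3 h4 h2 ht with h | h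
            · exact hat h.symm
            · exact hbt h.symm
        · rintro a ⟨ha1, ha2⟩
          refine ⟨hA ha1, ?_⟩
          intro ha3
          apply ha2
          rw [Finset.mem_coe, Finset.mem_insert, Finset.mem_erase]
          right
          refine ⟨?_, ha3⟩
          rintro rfl
          exact hzA ha1
      by_cases hxx : x = x'
      · subst hxx
        exact .refl ⟨hA hbase.1.1, hbase.1.2⟩
      by_cases h1 : x ≠ y1 ∧ x' ≠ y1
      · exact key y1 hy1 x hx hxY h1.1 x' hx' hxY' h1.2
      by_cases h2 : x ≠ y2 ∧ x' ≠ y2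
      · exact key y2 hy2 x hx hxY h2.1 x' hx' hxY' h2.2
      have hxYm : x ∈ Y ∧ x' ∈ Y := by
        by_cases e1 : x = y1
        · by_cases e2 : x' = y2
          · exact ⟨e1 ▸ hy1, e2 ▸ hy2⟩
          · exfalso
            apply h2
            exact ⟨e1 ▸ hy12, e2⟩
        · have e3 : x' = y1 := by
            by_contra h
            exact h1 ⟨e1, h⟩
          by_cases e4 : x = y2
          · exact ⟨e4 ▸ hy2, e3 ▸ hy1⟩
          · exfalso
            apply h2
            exact ⟨e4, e3 ▸ hy12⟩
      obtain ⟨w, hwX, hw⟩ : ∃ w ∈ X, w ∉ insert x (insert x' (Y'.erase z)) := by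
        by_contra h
        push Not at h
        have := Finset.card_le_card (show X ⊆ insert x (insert x' (Y'.erase z)) from h)
        have h3 := Finset.card_insert_le x (insert x' (Y'.erase z))
        have h4 := Finset.card_insert_le x' (Y'.erase z)
        omega
      simp only [Finset.mem_insert, Finset.mem_erase, not_or, not_and] at hw
      have hwY : w ∉ Y' := by
        apply hw.2.2
        rintro rfl
        exact hzA (hX.1 hwX)
      exact (key x' hxYm.2 x hx hxY hxx w hwX hwY hw.2.1).trans
        (key x hxYm.1 w hwX hwY hw.1 x' hx' hxY' (Ne.symm hxx))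
  · by_cases hch : l.IsChain G.Adj
    · exact ⟨l, ⟨hch, hl.2⟩, fun z hz => hA (hlA z hz), fun z hz => hz⟩
    · rw [List.isChain_iff_forall_rel_of_append_cons_cons] at hch
      push Not at hch
      obtain ⟨u, v, l1, l2, hl', huv⟩ := hch
      have hadj : (addClique G Y).Adj u v := by
        have := hl.1
        rw [List.isChain_iff_forall_rel_of_append_cons_cons] at this
        exact this hl'
      rcases hadj with h | ⟨hne, huY, hvY⟩
      · exact absurd h huv
      obtain ⟨q, hq1, hq2, hq3⟩ := hq u huY v hvY hne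
      have hnd := hl.2
      have hchn := hl.1
      rw [hl'] at hnd hchn hlA
      have hYuv : ∀ a ∈ Y, a = u ∨ a = v := fun a ha => pair_of_card_le_two hY huY hvY hne ha
      rw [List.nodup_append, List.nodup_cons, List.nodup_cons] at hnd
      obtain ⟨hn1, ⟨hn2, hn3, hn4⟩, hn5⟩ := hnd
      have hul1 : u ∉ l1 := fun h => hn5 u h u (by simp) rfl
      have hvl1 : v ∉ l1 := fun h => hn5 v h v (by simp) rfl
      have hul2 : u ∉ l2 := fun h => hn2 (by simp [h])
      have c1 : (l1 ++ [u]).IsChain G.Adj := by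
        apply hnov
        · rw [List.isChain_split] at hchn
          exact hchn.1
        · intro a ha b hb haY hbY
          have : ∀ a ∈ l1 ++ [u], a ∈ Y → a = u := by
            intro a ha haY
            rcases hYuv a haY with h | h
            · exact h
            · subst h
              simp only [List.mem_append, List.mem_singleton] at ha
              rcases ha with ha | ha
              · exact absurd ha hvl1
              · exact ha
          rw [this a ha haY, this b hb hbY]
      have c2 : (v :: l2).IsChain G.Adj := by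
        apply hnov
        · rw [List.isChain_split, List.isChain_cons_cons] at hchn
          exact hchn.2.2
        · intro a ha b hb haY hbY
          have : ∀ a ∈ v :: l2, a ∈ Y → a = v := by
            intro a ha haY
            rcases hYuv a haY with h | h
            · subst h
              simp only [List.mem_cons] at ha
              rcases ha with ha | ha
              · exact ha
              · exact absurd ha hul2
            · exact h
          rw [this a ha haY, this b hb hbY]
      refine ⟨l1 ++ u :: (q ++ v :: l2), ⟨?_, ?_⟩, ?_, ?_⟩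
      · rw [List.isChain_split]
        refine ⟨c1, ?_⟩
        rw [← List.cons_append, List.isChain_split]
        exact ⟨hq1, c2⟩
      · have hqA : ∀ z ∈ q, z ∉ l1 ++ u :: v :: l2 := fun z hz h => (hq3 z hz).2 (hlA z h)
        rw [List.nodup_append, List.nodup_cons, List.nodup_append, List.nodup_cons]
        refine ⟨hn1, ⟨?_, hq2, ⟨hn3, hn4⟩, ?_⟩, ?_⟩
        · intro h
          simp only [List.mem_append, List.mem_cons] at h
          rcases h with h | h | h
          · exact hqA u h (by simp)
          · exact hne h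
          · exact hul2 h
        · intro a ha b hb hab
          subst hab
          apply hqA a ha
          simp only [List.mem_append, List.mem_cons] at hb ⊢
          tauto
        · intro a ha b hb hab
          subst hab
          simp only [List.mem_append, List.mem_cons] at hb
          rcases hb with hb | hb | hb | hb
          · exact hul1 (hb ▸ ha)
          · exact hqA a hb (by simp [ha])
          · exact hvl1 (hb ▸ ha)
          · exact hn5 a ha a (by simp [hb]) rfl
      · intro z hz
        simp only [List.mem_append, List.mem_cons] at hz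
        by_cases hzq : z ∈ q
        · exact (hq3 z hzq).1
        · apply hA
          apply hlA
          simp only [List.mem_append, List.mem_cons]
          tauto
      · intro z hz
        rw [hl'] at hz
        simp only [List.mem_append, List.mem_cons] at hz ⊢
        tauto

/-- the connecting path through one side -/
theorem side_path (G : SimpleGraph V) (A K : Set V) (y1 y2 p : V) (hp : p ∈ K)
    (hK : K ⊆ A \ {y1, y2})
    (hKcl : ∀ u ∈ K, ∀ v ∈ A \ {y1, y2}, G.Adj u v → v ∈ K) (hy : y1 ≠ y2)
    (h1 : Conn G (A \ {y2}) p y1) (h2 : Conn G (A \ {y1}) p y2) :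
    ∃ q : List V, (y1 :: (q ++ [y2])).IsChain G.Adj ∧ q.Nodup ∧ ∀ z ∈ q, z ∈ K := by
  have hp1 : p ≠ y1 := by rintro rfl; exact (hK hp).2 (by simp)
  have hp2 : p ≠ y2 := by rintro rfl; exact (hK hp).2 (by simp)
  obtain ⟨u1, v1, a1, a2, a3, _⟩ := h1.first_hit {y1} (by simpa using hp1) rfl
  obtain ⟨u2, v2, b1, b2, b3, _⟩ := h2.first_hit {y2} (by simpa using hp2) rfl
  rw [Set.mem_singleton_iff] at a3 b3
  subst a3; subst b3
  have hcl : ∀ u ∈ K, u ∈ A \ {v1, v2} → ∀ v ∈ A \ {v1, v2}, G.Adj u v → v ∈ K :=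
    fun u hu _ v hv huv => hKcl u hu v hv huv
  have a4 : Conn G K p u1 := by
    have : Conn G (A \ {v1, v2}) p u1 := a1.mono (by
      rintro z ⟨⟨h1, h2⟩, h3⟩
      refine ⟨h1, ?_⟩
      rintro (h | h)
      · exact h3 h
      · exact h2 h)
    exact (this.restrict K hp hcl).mono (fun z hz => hz.2)
  have b4 : Conn G K p u2 := by
    have : Conn G (A \ {v1, v2}) p u2 := b1.mono (by
      rintro z ⟨⟨h1, h2⟩, h3⟩
      refine ⟨h1, ?_⟩
      rintro (h | h)
      · exact h2 h
      · exact h3 h)
    exact (this.restrict K hp hcl).mono (fun z hz => hz.2)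
  obtain ⟨l, c1, c2, c3, c4, c5⟩ := (a4.symm.trans b4).exists_path
  refine ⟨l, ?_, c2, c5⟩
  rw [List.isChain_cons, List.isChain_append]
  refine ⟨?_, c1, .singleton _, ?_⟩
  · intro y hy
    cases l with
    | nil => simp at c3
    | cons a l =>
      simp at c3 hy
      subst hy; subst c3
      exact a2.symm
  · intro a ha b hb
    rw [c4] at ha
    simp at ha hb
    subst ha; subst hb
    exact b2

open Classical in
/-- Either small treewidth, or a large inseparable set on a path. -/
theorem tw_or_insep (L : ℕ) (hL : 4 ≤ L) : ∀ (n : ℕ) (G : SimpleGraph V) (A : Finset V),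
    A.card = n → TDR G (A : Set V) L ∅ ∨ ∃ X : Finset V, L ≤ X.card ∧
      Insep G (A : Set V) (X : Set V) ∧ ∃ l, IsP G l ∧ (∀ z ∈ l, z ∈ A) ∧ ∀ x ∈ X, x ∈ l := by
  intro n
  induction n using Nat.strong_induction_on with
  | _ n ih =>
  intro G A hAn
  by_cases hins : Insep G (A : Set V) (A : Set V)
  · by_cases hlong : ∃ l, IsP G l ∧ (∀ z ∈ l, z ∈ A) ∧ L + 1 < l.length
    · right
      obtain ⟨l, h1, h2, h3⟩ := hlong
      refine ⟨l.toFinset, ?_, ?_, l, h1, h2, by simp⟩
      · rw [List.toFinset_card_of_nodup h1.2]; omega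
      · refine ⟨?_, ?_⟩
        · intro z hz
          exact h2 z (by simpa using hz)
        · intro Y hY x hx hxY x' hx' hxY'
          exact hins.2 Y hY x (h2 x (by simpa using hx)) hxY x' (h2 x' (by simpa using hx')) hxY'
    · left
      push Not at hlong
      have := tdr_dfs G L A.card A [] rfl ⟨.nil, List.nodup_nil⟩ (by simp)
        (fun l hl hz => hlong l hl (fun z h => by simpa using hz z h)) (by simp)
      refine TDR.mono (R := {z | z ∈ ([] : List V)}) ?_ (fun _ _ _ _ h => h) le_rfl
        (Set.empty_subset _)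
      convert this using 1
      ext z
      simp
  -- a separation of minimal order
  have hex : ∃ k, ∃ Y : Finset V, Y.card = k ∧ Y.card ≤ 2 ∧ (∀ y ∈ Y, y ∈ A) ∧
      ∃ x ∈ A, x ∉ Y ∧ ∃ x' ∈ A, x' ∉ Y ∧ ¬ Conn G ((A : Set V) \ Y) x x' := by
    unfold Insep at hins
    push Not at hins
    obtain ⟨Y, hY, x, hx, hxY, x', hx', hxY', hc⟩ := hins subset_rfl
    refine ⟨_, Y ∩ A, rfl, (Finset.card_le_card Finset.inter_subset_left).trans hY,
      fun y hy => (Finset.mem_inter.1 hy).2, x, hx, fun h => hxY (Finset.mem_inter.1 h).1, x', hx',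
      fun h => hxY' (Finset.mem_inter.1 h).1, ?_⟩
    intro h
    apply hc
    refine h.mono ?_
    rintro z ⟨h1, h2⟩
    exact ⟨h1, fun h3 => h2 (by simpa using ⟨h3, h1⟩)⟩
  obtain ⟨Y, hYk, hY2, hYA, x, hxA, hxY, x', hx'A, hx'Y, hc⟩ := Nat.find_spec hex
  have hmin := fun m hm => Nat.find_min hex (m := m) hm
  rw [← hYk] at hmin
  -- smaller sets do not separate
  have hsmall : ∀ y ∈ Y, ∀ p ∈ A, p ∉ Y.erase y → ∀ p' ∈ A, p' ∉ Y.erase y →
      Conn G ((A : Set V) \ (Y.erase y : Finset V)) p p' := by
    intro y hy p hp hpY p' hp' hpY'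
    by_contra hcon
    exact hmin _ (Finset.card_erase_lt_of_mem hy) ⟨Y.erase y, rfl,
      (Finset.card_le_card (Finset.erase_subset _ _)).trans hY2,
      fun z hz => hYA z (Finset.mem_of_mem_erase hz), p, hp, hpY, p', hp', hpY', hcon⟩
  set C : Finset V := A.filter (fun z => Conn G ((A : Set V) \ Y) x z) with hC
  have hCmem : ∀ z, z ∈ C ↔ Conn G ((A : Set V) \ Y) x z := by
    intro z
    rw [hC, Finset.mem_filter]
    exact ⟨fun h => h.2, fun h => ⟨h.right.1, h⟩⟩
  have hCA : C ⊆ A := Finset.filter_subset _ _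
  have hCY : ∀ z ∈ C, z ∉ Y := fun z hz => ((hCmem z).1 hz).right.2
  have hxC : x ∈ C := (hCmem x).2 (.refl ⟨hxA, hxY⟩)
  have hx'C : x' ∉ C := fun h => hc ((hCmem x').1 h)
  have hCcl : ∀ u ∈ C, ∀ v ∈ A, v ∉ Y → G.Adj u v → v ∈ C := by
    intro u hu v hv hvY huv
    rw [hCmem] at hu ⊢
    exact hu.tail ⟨hv, hvY⟩ huv
  set K : Finset V := (A \ C) \ Y with hK
  have hKmem : ∀ z, z ∈ K ↔ z ∈ A ∧ z ∉ C ∧ z ∉ Y := by
    intro z
    simp only [hK, Finset.mem_sdiff]
    tauto
  have hKcl : ∀ u ∈ K, ∀ v ∈ A, v ∉ Y → G.Adj u v → v ∈ K := by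
    intro u hu v hv hvY huv
    rw [hKmem] at hu ⊢
    exact ⟨hv, fun h => hu.2.1 (hCcl v h u hu.1 hu.2.2 huv.symm), hvY⟩
  -- the two sides
  have hAC : A = (C ∪ Y) ∪ (K ∪ Y) := by
    ext z
    simp only [Finset.mem_union, hKmem]
    constructor
    · intro hz
      by_cases h1 : z ∈ C
      · tauto
      · by_cases h2 : z ∈ Y <;> tauto
    · rintro ((h | h) | (h | h))
      · exact hCA h
      · exact hYA z h
      · exact h.1
      · exact hYA z h
  have hcard1 : (C ∪ Y).card < n := by
    rw [← hAn]
    apply Finset.card_lt_card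
    refine ⟨?_, ?_⟩
    · intro z hz
      rcases Finset.mem_union.1 hz with h | h
      · exact hCA h
      · exact hYA z h
    · intro h
      have := h hx'A
      rcases Finset.mem_union.1 this with h | h
      · exact hx'C h
      · exact hx'Y h
  have hcard2 : (K ∪ Y).card < n := by
    rw [← hAn]
    apply Finset.card_lt_card
    refine ⟨?_, ?_⟩
    · intro z hz
      rcases Finset.mem_union.1 hz with h | h
      · exact ((hKmem z).1 h).1
      · exact hYA z h
    · intro h
      have := h hxA
      rcases Finset.mem_union.1 this with h | h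
      · exact ((hKmem x).1 h).2.1 hxC
      · exact hxY h
  -- connecting paths
  have hside : ∀ (M : Finset V) (p : V), p ∈ M → (∀ z ∈ M, z ∈ A ∧ z ∉ Y) →
      (∀ u ∈ M, ∀ v ∈ A, v ∉ Y → G.Adj u v → v ∈ M) → ∀ y1 ∈ Y, ∀ y2 ∈ Y, y1 ≠ y2 →
      ∃ q : List V, (y1 :: (q ++ [y2])).IsChain G.Adj ∧ q.Nodup ∧ ∀ z ∈ q, z ∈ M := by
    intro M p hp hM hMcl y1 hy1 y2 hy2 hy12
    have hYe : ∀ z, z ∈ Y ↔ z = y1 ∨ z = y2 := by
      intro z
      constructor
      · exact fun h => pair_of_card_le_two hY2 hy1 hy2 hy12 h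
      · rintro (rfl | rfl)
        · exact hy1
        · exact hy2
    have e1 : ((Y.erase y1 : Finset V) : Set V) = {y2} := by
      ext z
      simp only [Finset.coe_erase, Set.mem_sdiff, Finset.mem_coe, hYe, Set.mem_singleton_iff]
      constructor
      · rintro ⟨h1 | h1, h2⟩
        · exact absurd h1 h2
        · exact h1
      · intro h; exact ⟨Or.inr h, h ▸ hy12.symm⟩
    have e2 : ((Y.erase y2 : Finset V) : Set V) = {y1} := by
      ext z
      simp only [Finset.coe_erase, Set.mem_sdiff, Finset.mem_coe, hYe, Set.mem_singleton_iff]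
      constructor
      · rintro ⟨h1 | h1, h2⟩
        · exact h1
        · exact absurd h1 h2
      · intro h; exact ⟨Or.inl h, h ▸ hy12⟩
    have h1 := hsmall y1 hy1 p (hM p hp).1 (fun h => (hM p hp).2 (Finset.mem_of_mem_erase h))
      y1 (hYA y1 hy1) (by simp)
    have h2 := hsmall y2 hy2 p (hM p hp).1 (fun h => (hM p hp).2 (Finset.mem_of_mem_erase h))
      y2 (hYA y2 hy2) (by simp)
    rw [e1] at h1
    rw [e2] at h2
    refine side_path G (A : Set V) (M : Set V) y1 y2 p hp ?_ ?_ hy12 h1 h2
    · intro z hz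
      refine ⟨(hM z hz).1, ?_⟩
      intro h
      apply (hM z hz).2
      rw [hYe]
      simpa using h
    · rintro u hu v ⟨hv1, hv2⟩ huv
      refine hMcl u hu v hv1 ?_ huv
      rw [hYe]
      simpa using hv2
  have htrans : ∀ (M M' : Finset V) (p : V), p ∈ M' → (∀ z ∈ M', z ∈ A ∧ z ∉ Y ∧ z ∉ M) →
      (∀ z ∈ M, z ∈ A) →
      (∀ u ∈ M', ∀ v ∈ A, v ∉ Y → G.Adj u v → v ∈ M') →
      (∃ X : Finset V, L ≤ X.card ∧
      Insep (addClique G Y) ((M ∪ Y : Finset V) : Set V) (X : Set V) ∧ ∃ l,
        IsP (addClique G Y) l ∧ (∀ z ∈ l, z ∈ M ∪ Y) ∧ ∀ x ∈ X, x ∈ l) →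
      ∃ X : Finset V, L ≤ X.card ∧
      Insep G (A : Set V) (X : Set V) ∧ ∃ l, IsP G l ∧ (∀ z ∈ l, z ∈ A) ∧ ∀ x ∈ X, x ∈ l := by
    rintro M M' p hp hM' hM hcl ⟨X, hX1, hX2, l, hl1, hl2, hl3⟩
    obtain ⟨h1, l', h2, h3, h4⟩ := transfer G (A : Set V) ((M ∪ Y : Finset V) : Set V) Y X
      (by
        intro z hz
        rcases Finset.mem_union.1 hz with h | h
        · exact hM z h
        · exact hYA z h)
      (by
        intro y hy
        simp [hy]) hY2
      (by
        intro y1 hy1 y2 hy2 hy12
        obtain ⟨q, q1, q2, q3⟩ := hside M' p hp (fun z hz => ⟨(hM' z hz).1, (hM' z hz).2.1⟩) hcl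
          y1 hy1 y2 hy2 hy12
        refine ⟨q, q1, q2, ?_⟩
        intro z hz
        refine ⟨(hM' z (q3 z hz)).1, ?_⟩
        intro h
        rcases Finset.mem_union.1 h with h | h
        · exact (hM' z (q3 z hz)).2.2 h
        · exact (hM' z (q3 z hz)).2.1 h)
      (hL.trans hX1) hX2 l hl1 (fun z hz => hl2 z hz)
    exact ⟨X, hX1, h1, l', h2, h3, fun x hx => h4 x (hl3 x hx)⟩
  rcases ih _ hcard1 (addClique G Y) (C ∪ Y) rfl with h1 | h1
  · rcases ih _ hcard2 (addClique G Y) (K ∪ Y) rfl with h2 | h2
    · left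
      have r1 := h1.root Y (by intro y hy; simp [hy]) hY2 (fun u hu v hv huv => Or.inr ⟨huv, hu, hv⟩)
      have r2 := h2.root Y (by intro y hy; simp [hy]) hY2 (fun u hu v hv huv => Or.inr ⟨huv, hu, hv⟩)
      have hin : ((C ∪ Y : Finset V) : Set V) ∩ ((K ∪ Y : Finset V) : Set V) ⊆ (Y : Set V) := by
        rintro z ⟨ha, hb⟩
        rw [Finset.mem_coe, Finset.mem_union] at ha hb
        rcases ha with ha | ha
        · rcases hb with hb | hb
          · exact absurd ha ((hKmem z).1 hb).2.1
          · exact hb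
        · exact ha
      have r3 := r1.glue r2 hin hin ?_
      · rw [← Finset.coe_union, ← hAC] at r3
        exact r3.mono (fun u _ v _ h => Or.inl h) le_rfl (Set.empty_subset _)
      · intro u hu v hv huv
        rw [← Finset.coe_union, ← hAC] at hu hv
        by_cases hcu : u ∈ C
        · left
          refine ⟨by simp [hcu], ?_⟩
          by_cases hvY : v ∈ Y
          · simp [hvY]
          · have : G.Adj u v := by
              rcases huv with h | ⟨_, _, h⟩
              · exact h
              · exact absurd h hvY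
            simp [hCcl u hcu v hv hvY this]
        · by_cases hcv : v ∈ C
          · left
            refine ⟨?_, by simp [hcv]⟩
            by_cases huY : u ∈ Y
            · simp [huY]
            · have : G.Adj u v := by
                rcases huv with h | ⟨_, h, _⟩
                · exact h
                · exact absurd h huY
              exact absurd (hCcl v hcv u hu huY this.symm) hcu
          · right
            have hK' : ∀ z ∈ A, z ∉ C → z ∈ ((K ∪ Y : Finset V) : Set V) := by
              intro z hz hzC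
              rw [Finset.mem_coe, Finset.mem_union, hKmem]
              by_cases hzY : z ∈ Y
              · exact Or.inr hzY
              · exact Or.inl ⟨hz, hzC, hzY⟩
            exact ⟨hK' u hu hcu, hK' v hv hcv⟩
    · right
      refine htrans K C x hxC (fun z hz => ⟨hCA hz, hCY z hz, ?_⟩) (fun z hz => ((hKmem z).1 hz).1)
        hCcl h2
      intro h
      exact ((hKmem z).1 h).2.1 hz
  · right
    exact htrans C K x' ((hKmem x').2 ⟨hx'A, hx'C, hx'Y⟩)
      (fun z hz => ⟨((hKmem z).1 hz).1, ((hKmem z).1 hz).2.2, ((hKmem z).1 hz).2.1⟩)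
      (fun z hz => hCA hz) hKcl h1

end FVS424
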