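import Pool.Agent.Lib.MP_424cb6_lc.MinSide

/-! Irreducible vertex sets induce subcubic graphs or graphs of bounded treewidth. -/

namespace FVS424

open Relation

variable {V : Type*}

theorem TDR.sub {G : SimpleGraph V} {A B : Set V} {w : ℕ} {R : Set V} (h : TDR G A w R)
    (hB : B ⊆ A) : TDR G B w ∅ := by
  classical
  obtain ⟨ι, hf, T, bag, r, a1, a2, a3, a4, a5, a6, a7⟩ := h
  refine ⟨ι, hf, T, fun i => (bag i).filter (· ∈ B), r, a1, ?_, ?_, ?_, ?_, ?_, Set.empty_subset _⟩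
  · intro i v hv
    exact (Finset.mem_filter.1 hv).2
  · intro i
    exact (Finset.card_le_card (Finset.filter_subset _ _)).trans (a3 i)
  · intro v hv
    obtain ⟨i, hi⟩ := a4 v (hB hv)
    exact ⟨i, Finset.mem_filter.2 ⟨hi, hv⟩⟩
  · intro u hu v hv huv
    obtain ⟨i, hi, hi'⟩ := a5 u (hB hu) v (hB hv) huv
    exact ⟨i, Finset.mem_filter.2 ⟨hi, hu⟩, Finset.mem_filter.2 ⟨hi', hv⟩⟩
  · intro v i j hi hj
    rw [Finset.mem_filter] at hi hj
    refine (a6 v i j hi.1 hj.1).mono ?_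
    intro k hk
    exact Finset.mem_filter.2 ⟨hk, hi.2⟩

/-- `G[S]` is subcubic or has treewidth at most `w` -/
def Solv (G : SimpleGraph V) (w : ℕ) (S : Finset V) : Prop :=
  (∀ v ∈ S, dgS G (S : Set V) v ≤ 3) ∨ TDR G (S : Set V) w ∅

theorem Solv.mono {G : SimpleGraph V} {w : ℕ} {S S' : Finset V} (h : Solv G w S) (hS : S' ⊆ S) :
    Solv G w S' := by
  rcases h with h | h
  · left
    intro v hv
    exact (dgS_mono (by intro z hz; exact hS hz) v).trans (h v (hS hv))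
  · right
    exact h.sub (by intro z hz; exact hS hz)

theorem ecut_of_twocut [DecidableEq V] {G : SimpleGraph V} {S K : Finset V}
    (hV : ∀ a C, ¬ VCut G S a C) {x1 y1 x2 y2 : V}
    (hc : TwoCut G (S : Set V) (K : Set V) x1 y1 x2 y2)
    (hI : ∃ u ∈ K, 3 ≤ dgS G (S : Set V) u) (hO : ∃ u ∈ S, u ∉ K ∧ 3 ≤ dgS G (S : Set V) u) :
    ECut G S K x1 y1 x2 y2 := by
  have hKS : ∀ z ∈ K, z ∈ S := fun z hz => hc.sub hz
  have hy1 : y1 ∈ K := hc.y1K
  have hy2 : y2 ∈ K := hc.y2K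
  have hx1 : x1 ∉ K := hc.x1K
  have hx2 : x2 ∉ K := hc.x2K
  refine ⟨hc, ?_, ?_, hI, hO⟩
  · rw [← Finset.coe_sdiff]
    by_contra hno
    have hx2D : x2 ∉ comp G (S \ K) x1 := fun h => hno (mem_comp.1 h)
    have hx1m : x1 ∈ S \ K := Finset.mem_sdiff.2 ⟨hc.x1S, hx1⟩
    refine hV y1 (comp G (S \ K) x1) ⟨hKS _ hy1, fun t ht => (Finset.mem_sdiff.1 (comp_sub ht)).1,
      fun h => (Finset.mem_sdiff.1 (comp_sub h)).2 hy1, ⟨x1, mem_comp.2 (.refl hx1m)⟩,
      ⟨x2, hc.x2S, ?_, hx2D⟩, ?_⟩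
    · rintro rfl; exact hx2 hy1
    · intro u hu w hw hwD huw
      have hu' := Finset.mem_sdiff.1 (comp_sub hu)
      by_cases hwK : w ∈ K
      · rcases hc.only w hwK u hu'.1 hu'.2 huw.symm with h | h
        · exact h.1
        · exact absurd (h.2 ▸ hu) hx2D
      · exact absurd (comp_closed hu (Finset.mem_sdiff.2 ⟨hw, hwK⟩) huw) hwD
  · by_contra hno
    have hy2D : y2 ∉ comp G K y1 := fun h => hno (mem_comp.1 h)
    refine hV x1 (comp G K y1) ⟨hc.x1S, fun t ht => hKS t (comp_sub ht), fun h => hx1 (comp_sub h),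
      ⟨y1, mem_comp.2 (.refl hy1)⟩, ⟨y2, hKS _ hy2, ?_, hy2D⟩, ?_⟩
    · rintro rfl; exact hx1 hy2
    · intro u hu w hw hwD huw
      by_cases hwK : w ∈ K
      · exact absurd (comp_closed hu hwK huw) hwD
      · rcases hc.only u (comp_sub hu) w hw hwK huw with h | h
        · exact h.2
        · exact absurd (h.1 ▸ hu) hy2D

theorem conn_to_induce {G : SimpleGraph V} {S R : Set V} {x y : V} (h : Conn G R x y) (hR : R ⊆ S)
    (hx : x ∈ S) (hy : y ∈ S) : Conn (G.induce S) {z | (z : V) ∈ R} ⟨x, hx⟩ ⟨y, hy⟩ := by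
  have : ∀ hy', Conn (G.induce S) {z | (z : V) ∈ R} ⟨x, hx⟩ ⟨y, hy'⟩ := by
    refine h.closed (fun z => ∀ hz, Conn (G.induce S) {z | (z : V) ∈ R} ⟨x, hx⟩ ⟨z, hz⟩)
      (fun _ => .refl h.left) ?_
    intro u v h1 h2 h3 h4 h5
    exact (h2 (hR h1.right)).tail h4 h3
  exact this hy

theorem dg_induce {G : SimpleGraph V} {S : Set V} (u : S) :
    dg (G.induce S) u = dgS G S (u : V) := by
  unfold dg dgS
  rw [← Set.ncard_image_of_injective _ Subtype.val_injective]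
  congr 1
  ext z
  constructor
  · rintro ⟨w, hw, rfl⟩
    exact ⟨hw, w.2⟩
  · rintro ⟨hz, hzS⟩
    exact ⟨⟨z, hzS⟩, hz, rfl⟩

theorem irr_solv [DecidableEq V] (G : SimpleGraph V) (p q r N : ℕ) (hN : 1 ≤ N) (hp : p ≤ N)
    (hq : q ≤ N) (hr : r ≤ N) (hfree : ¬ (spider ![1, p, q, r]).IsContained G)
    (S : Finset V) (hS : Irr G S) : Solv G (twBound N) S := by
  classical
  set H := G.induce (S : Set V) with hH
  have hfreeH : ¬ (spider ![1, p, q, r]).IsContained H := by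
    intro h
    exact hfree (h.trans ⟨(SimpleGraph.Embedding.induce (G := G) (S : Set V)).toCopy⟩)
  have hc1 : ∀ a x y, x ≠ a → y ≠ a → Conn H {a}ᶜ x y := by
    rintro ⟨a, ha⟩ ⟨x, hx⟩ ⟨y, hy⟩ hxa hya
    have hxa' : x ≠ a := fun h => hxa (Subtype.ext h)
    have hya' : y ≠ a := fun h => hya (Subtype.ext h)
    have hc : Conn G ((S.erase a : Finset V) : Set V) x y := by
      by_contra hno
      have hyD : y ∉ comp G (S.erase a) x := fun h => hno (mem_comp.1 h)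
      have hxm : x ∈ S.erase a := Finset.mem_erase.2 ⟨hxa', hx⟩
      refine hS.1 a (comp G (S.erase a) x) ⟨ha, fun t ht => Finset.mem_of_mem_erase (comp_sub ht),
        fun h => absurd (comp_sub h) (by simp), ⟨x, mem_comp.2 (.refl hxm)⟩,
        ⟨y, hy, hya', hyD⟩, ?_⟩
      intro u hu w hw hwD huw
      by_contra hwa
      exact hwD (comp_closed hu (Finset.mem_erase.2 ⟨hwa, hw⟩) huw)
    refine (conn_to_induce hc (S := (S : Set V)) ?_ hx hy).mono ?_
    · intro z hz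
      exact Finset.mem_of_mem_erase hz
    · rintro z hz h
      rw [Set.mem_singleton_iff] at h
      subst h
      exact absurd (Finset.mem_coe.1 hz) (by simp)
  have hc2 : ∀ K x1 y1 x2 y2, TwoCut H Set.univ K x1 y1 x2 y2 →
      (∀ u ∈ K, dg H u ≤ 2) ∨ (∀ u, u ∉ K → dg H u ≤ 2) := by
    intro K' x1 y1 x2 y2 hc
    by_contra hno
    push Not at hno
    obtain ⟨⟨u1, hu1, hd1⟩, ⟨u2, hu2, hd2⟩⟩ := hno
    set K : Finset V := S.filter (fun z => ∃ h : z ∈ (S : Set V), (⟨z, h⟩ : (S : Set V)) ∈ K') with hK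
    have hKm : ∀ z : (S : Set V), (z : V) ∈ K ↔ z ∈ K' := by
      intro z
      rw [hK, Finset.mem_filter]
      constructor
      · rintro ⟨_, h, h'⟩
        exact h'
      · intro h
        exact ⟨z.2, z.2, h⟩
    have hcut : TwoCut G (S : Set V) (K : Set V) x1 y1 x2 y2 := by
      refine ⟨fun z hz => (Finset.mem_filter.1 hz).1, (hKm _).2 hc.y1K, (hKm _).2 hc.y2K, x1.2, x2.2,
        fun h => hc.x1K ((hKm _).1 h), fun h => hc.x2K ((hKm _).1 h),
        fun h => hc.xne (Subtype.ext h), fun h => hc.yne (Subtype.ext h), hc.adj1, hc.adj2, ?_⟩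
      intro u hu w hw hwK huw
      have huS : u ∈ (S : Set V) := (Finset.mem_filter.1 hu).1
      rcases hc.only ⟨u, huS⟩ ((hKm _).1 hu) ⟨w, hw⟩ trivial (fun h => hwK ((hKm _).2 h)) huw with
        h | h
      · exact Or.inl ⟨congrArg Subtype.val h.1, congrArg Subtype.val h.2⟩
      · exact Or.inr ⟨congrArg Subtype.val h.1, congrArg Subtype.val h.2⟩
    refine hS.2 K _ _ _ _ (ecut_of_twocut hS.1 hcut ?_ ?_)
    · refine ⟨u1, (hKm _).2 hu1, ?_⟩
      rw [dg_induce] at hd1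
      omega
    · refine ⟨u2, u2.2, fun h => hu2 ((hKm _).1 h), ?_⟩
      rw [dg_induce] at hd2
      omega
  rcases structure_theorem H p q r N hN hp hq hr hfreeH hc1 hc2 with h | h
  · left
    intro v hv
    rw [← dg_induce (⟨v, hv⟩ : (S : Set V))]
    exact h ⟨v, hv⟩
  · right
    obtain ⟨ι, hf, T, bag, r, a1, a2, a3, a4, a5, a6, a7⟩ := h
    refine ⟨ι, hf, T, fun i => (bag i).map ⟨Subtype.val, Subtype.val_injective⟩, r, a1, ?_, ?_, ?_,
      ?_, ?_, Set.empty_subset _⟩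
    · intro i v hv
      obtain ⟨z, _, rfl⟩ := Finset.mem_map.1 hv
      exact z.2
    · intro i
      rw [Finset.card_map]
      exact a3 i
    · intro v hv
      obtain ⟨i, hi⟩ := a4 ⟨v, hv⟩ trivial
      exact ⟨i, Finset.mem_map.2 ⟨_, hi, rfl⟩⟩
    · intro u hu v hv huv
      obtain ⟨i, hi, hi'⟩ := a5 ⟨u, hu⟩ trivial ⟨v, hv⟩ trivial huv
      exact ⟨i, Finset.mem_map.2 ⟨_, hi, rfl⟩, Finset.mem_map.2 ⟨_, hi', rfl⟩⟩
    · intro v i j hi hj
      obtain ⟨z, hz, rfl⟩ := Finset.mem_map.1 hi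
      obtain ⟨z', hz', he⟩ := Finset.mem_map.1 hj
      have : z' = z := Subtype.ext he
      subst this
      refine (a6 z' i j hz hz').mono ?_
      intro k hk
      exact Finset.mem_map.2 ⟨_, hk, rfl⟩

end FVS424
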