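import Pool.Agent.Lib.MP_424cb6_lc.Flow

/-! Lower bound: at a local optimum of (rank, support) the upper bound is tight. -/

namespace FVS424

open Module Finset

variable {V : Type*} [Fintype V] [DecidableEq V] {F : Type*} [Field F]

/-- any feedback vertex set `X` bounds the dimension of the flow space of a subgraph living on `A` -/
theorem dim_le (h2 : (2 : F) ≠ 0) {G H : SimpleGraph V} {n1 n2 : V → V} (hG : Loc G n1 n2)
    (hH : H ≤ G) {A X : Finset V} (hA : ∀ u w, H.Adj u w → u ∈ A) (hX : (del G X).IsAcyclic) :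
    finrank F (Z F H) ≤ 2 * (X ∩ A).card := by
  set f : (V → V → F) →ₗ[F] (↥(X ∩ A) → F × F) :=
    LinearMap.pi fun v => (evl (v : V) (n1 v)).prod (evl (v : V) (n2 v)) with hf
  have h := finrank_le_ker f (Z F H)
  have h1 : Z F H ⊓ LinearMap.ker f = ⊥ := by
    rw [eq_bot_iff]
    rintro C ⟨hC, hC'⟩
    have hC' : f C = 0 := LinearMap.mem_ker.1 hC'
    have hle : del H X ≤ del G X := fun u w huw => ⟨hH huw.1, huw.2⟩
    have hHX : (del H X).IsAcyclic := hX.anti hle
    rw [← Z_eq_bot h2 hHX]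
    refine mem_Z_del hC fun v hv u => ?_
    by_cases hvA : v ∈ A
    · have h3 := congrFun hC' ⟨v, Finset.mem_inter.2 ⟨hv, hvA⟩⟩
      exact (hG.mono hH).zero hC (Prod.ext_iff.1 h3).1 (Prod.ext_iff.1 h3).2 u
    · exact hC.2.1 v u fun h' => hvA (hA v u h')
  rw [h1, finrank_bot, add_zero] at h
  refine h.trans (le_of_eq ?_)
  rw [Module.finrank_pi_fintype]
  simp only [Module.finrank_prod, Module.finrank_self, Finset.sum_const, Finset.card_univ,
    Fintype.card_coe, smul_eq_mul]
  ring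

omit [Fintype V] [DecidableEq V] in
theorem om_par {n1 n2 : V → V} {v : V} {C D : V → V → F}
    (h0 : C v (n1 v) ≠ 0 ∨ C v (n2 v) ≠ 0) (h : om n1 n2 v C D = 0) :
    ∃ l : F, D v (n1 v) = l * C v (n1 v) ∧ D v (n2 v) = l * C v (n2 v) :=
  wedge_par (F := F) (U := V → V → F) (a := evl v (n1 v)) (b := evl v (n2 v)) (C := C) (D := D)
    h0 h

/-- support of a space of functions -/
noncomputable def supp (W : Submodule F (V → V → F)) : Finset (V × V) := by
  classical exact univ.filter fun e => ∃ C ∈ W, C e.1 e.2 ≠ 0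

omit [DecidableEq V] in
theorem mem_supp {W : Submodule F (V → V → F)} {e : V × V} :
    e ∈ supp W ↔ ∃ C ∈ W, C e.1 e.2 ≠ 0 := by
  simp [supp]

/-- local optimality of a coordinate vector -/
def LocOpt (G : SimpleGraph V) (n1 n2 : V → V) (x : V → F) : Prop :=
  ∀ (v : V) (t : F),
    finrank F (radW (Mx n1 n2 x) (Z F G)) ≤
      finrank F (radW (Mx n1 n2 (Function.update x v t)) (Z F G)) ∧
    (finrank F (radW (Mx n1 n2 (Function.update x v t)) (Z F G)) =
        finrank F (radW (Mx n1 n2 x) (Z F G)) →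
      (supp (radW (Mx n1 n2 (Function.update x v t)) (Z F G))).card ≤
        (supp (radW (Mx n1 n2 x) (Z F G))).card)

theorem locopt_one {G : SimpleGraph V} {n1 n2 : V → V} {x : V → F} (hopt : LocOpt G n1 n2 x)
    (v : V) {C D : V → V → F} (hC : C ∈ radW (Mx n1 n2 x) (Z F G))
    (hD : D ∈ radW (Mx n1 n2 x) (Z F G)) : om n1 n2 v C D = 0 := by
  by_contra hne
  have h1 := (hopt v (x v + 1)).1
  rw [Mx_update] at h1
  have hlt : radW (Mx n1 n2 x + (1 : F) • om n1 n2 v) (Z F G) < radW (Mx n1 n2 x) (Z F G) := by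
    have key : ∀ E ∈ radW (Mx n1 n2 x + (1 : F) • om n1 n2 v) (Z F G),
        E v (n1 v) = 0 ∧ E v (n2 v) = 0 := by
      intro E hE
      exact rad_up (Mx_self n1 n2 x) one_ne_zero hC hD hne hE.1 fun X hX => hE.2 X hX.1
    refine lt_of_le_of_ne ?_ ?_
    · intro E hE
      refine ⟨hE.1, fun X hX => ?_⟩
      have h2 := hE.2 X hX
      rw [LinearMap.add_apply, LinearMap.add_apply, LinearMap.smul_apply, LinearMap.smul_apply,
        om_apply, (key E hE).1, (key E hE).2] at h2
      simpa using h2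
    · intro h
      rw [← h] at hC
      apply hne
      rw [om_apply, (key C hC).1, (key C hC).2]
      ring
  have := Submodule.finrank_lt_finrank_of_lt hlt
  omega

theorem locopt_two [Fintype F] (hF : Fintype.card (V × V) < Fintype.card F)
    {G : SimpleGraph V} {n1 n2 : V → V} (hG : Loc G n1 n2) {x : V → F}
    (hopt : LocOpt G n1 n2 x)
    (v : V) {C : V → V → F} (hC : C ∈ radW (Mx n1 n2 x) (Z F G)) {u : V} (hCv : C v u ≠ 0) :
    ∃ D ∈ Z F G, (∀ E ∈ Z F G, Mx n1 n2 x D E = om n1 n2 v C E) ∧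
      ∀ a b, D a b ≠ 0 → ∃ E ∈ radW (Mx n1 n2 x) (Z F G), E a b ≠ 0 := by
  classical
  have hM := Mx_self (F := F) n1 n2 x
  have h0 : C v (n1 v) ≠ 0 ∨ C v (n2 v) ≠ 0 := by
    by_contra h
    push Not at h
    exact hCv (hG.zero hC.1 h.1 h.2 u)
  obtain ⟨D, hD, ha, hb, hDE, hrad⟩ := exchange (a := evl v (n1 v)) (b := evl v (n2 v)) hM hC
    (fun D hD => locopt_one hopt v hC hD) h0
  -- a good value of `t`
  obtain ⟨t, ht⟩ : ∃ t : F, t ∉ univ.image (fun e : V × V => C e.1 e.2 / D e.1 e.2) := by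
    by_contra h
    push Not at h
    have h1 : (univ : Finset F) ⊆ univ.image (fun e : V × V => C e.1 e.2 / D e.1 e.2) :=
      fun t _ => h t
    have h2 := Finset.card_le_card h1
    have h3 := Finset.card_image_le (s := (univ : Finset (V × V)))
      (f := fun e : V × V => C e.1 e.2 / D e.1 e.2)
    rw [Finset.card_univ] at h2 h3
    omega
  have ht' : ∀ a b, D a b ≠ 0 → C a b - t * D a b ≠ 0 := by
    intro a b hab h
    apply ht
    rw [Finset.mem_image]
    refine ⟨(a, b), mem_univ _, ?_⟩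
    rw [div_eq_iff hab]
    linear_combination h
  have hm := hopt v (x v + t)
  rw [Mx_update] at hm
  have h1 := hrad t
  -- the dimension does not change
  have hdim : finrank F (radW (Mx n1 n2 x + t • om n1 n2 v) (Z F G)) =
      finrank F (radW (Mx n1 n2 x) (Z F G)) := by
    refine le_antisymm ?_ hm.1
    have hM' : ∀ C : V → V → F,
        (Mx n1 n2 x + t • om n1 n2 v : (V → V → F) →ₗ[F] (V → V → F) →ₗ[F] F) C C = 0 :=
      add_wedge_self hM _ _ t
    have hback : Mx n1 n2 x + t • om n1 n2 v + (-t) • om n1 n2 v = Mx n1 n2 x := by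
      rw [add_assoc, ← add_smul, add_neg_cancel, zero_smul, add_zero]
    by_cases hA : ∀ C ∈ radW (Mx n1 n2 x + t • om n1 n2 v) (Z F G),
        ∀ D ∈ radW (Mx n1 n2 x + t • om n1 n2 v) (Z F G), om n1 n2 v C D = 0
    · have h3 := rad_down hM' (-t) hA
      have e : (Mx n1 n2 x + t • om n1 n2 v + (-t) • wedge (evl v (n1 v)) (evl v (n2 v))) =
        Mx n1 n2 x := hback
      rw [e] at h3
      exact h3
    · exfalso
      push Not at hA
      obtain ⟨C', hC', D', hD', hne⟩ := hA
      have hnt : -t ≠ 0 := by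
        intro h
        have ht0 : t = 0 := by simpa using h
        rw [ht0, zero_smul, add_zero] at hC' hD'
        exact hne (locopt_one hopt v hC' hD')
      have h3 := rad_up hM' hnt hC' hD' hne hC.1 (fun X hX => by
        have e : (Mx n1 n2 x + t • om n1 n2 v + (-t) • wedge (evl v (n1 v)) (evl v (n2 v))) =
          Mx n1 n2 x := hback
        rw [e]
        exact hC.2 X hX.1)
      rcases h0 with h | h
      · exact h h3.1
      · exact h h3.2
  have hcard := hm.2 hdim
  have hsub : supp (radW (Mx n1 n2 x) (Z F G)) ⊆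
      supp (radW (Mx n1 n2 x + t • om n1 n2 v) (Z F G)) := by
    intro e he
    rw [mem_supp] at he ⊢
    obtain ⟨E, hE, hEe⟩ := he
    obtain ⟨l, hl1, hl2⟩ := om_par h0 (locopt_one hopt v hC hE)
    have hE' : E - l • C ∈ radW (Mx n1 n2 x + t • om n1 n2 v) (Z F G) := by
      refine rad_inf_le (Submodule.sub_mem _ hE (Submodule.smul_mem _ _ hC)) ?_ ?_
      · show E v (n1 v) - l * C v (n1 v) = 0
        rw [hl1]; ring
      · show E v (n2 v) - l * C v (n2 v) = 0
        rw [hl2]; ring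
    by_cases h4 : (E - l • C) e.1 e.2 = 0
    · refine ⟨C - t • D, h1, ?_⟩
      have h5 : E e.1 e.2 = l * C e.1 e.2 := by
        have : E e.1 e.2 - l * C e.1 e.2 = 0 := h4
        linear_combination this
      have h6 : C e.1 e.2 ≠ 0 := by
        intro h; rw [h, mul_zero] at h5; exact hEe h5
      show C e.1 e.2 - t * D e.1 e.2 ≠ 0
      by_cases h7 : D e.1 e.2 = 0
      · rw [h7, mul_zero, sub_zero]; exact h6
      · exact ht' _ _ h7
    · exact ⟨_, hE', h4⟩
  have heq := Finset.eq_of_subset_of_card_le hsub hcard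
  refine ⟨D, hD, hDE, fun a b hab => ?_⟩
  have : (a, b) ∈ supp (radW (Mx n1 n2 x + t • om n1 n2 v) (Z F G)) :=
    mem_supp.2 ⟨C - t • D, h1, ht' a b hab⟩
  rw [← heq, mem_supp] at this
  exact this

/-- restriction to rows in `A` -/
noncomputable def res (A : Set V) : (V → V → F) →ₗ[F] (V → V → F) := by
  classical exact LinearMap.pi fun v => if v ∈ A then LinearMap.proj v else 0

omit [Fintype V] [DecidableEq V] in
theorem res_mem {A : Set V} {v : V} (hv : v ∈ A) (C : V → V → F) : res A C v = C v := by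
  simp [res, hv]

omit [Fintype V] [DecidableEq V] in
theorem res_not {A : Set V} {v : V} (hv : v ∉ A) (C : V → V → F) : res A C v = 0 := by
  simp [res, hv]

/-- subgraph on a set -/
def onS (Γ : SimpleGraph V) (A : Set V) : SimpleGraph V where
  Adj u w := Γ.Adj u w ∧ u ∈ A ∧ w ∈ A
  symm := ⟨fun _ _ h => ⟨h.1.symm, h.2.2, h.2.1⟩⟩
  loopless := ⟨fun _ h => Γ.loopless.irrefl _ h.1⟩

theorem res_Z {Γ : SimpleGraph V} {A : Set V} (hA : ∀ u w, Γ.Adj u w → u ∈ A → w ∈ A)
    {C : V → V → F} (hC : C ∈ Z F Γ) : res A C ∈ Z F (onS Γ A) := by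
  refine ⟨fun u v => ?_, fun u v h => ?_, fun v => ?_⟩
  · by_cases huv : Γ.Adj u v
    · by_cases hu : u ∈ A
      · rw [res_mem hu, res_mem (hA u v huv hu), hC.1]
      · rw [res_not hu, res_not fun hv => hu (hA v u huv.symm hv)]
        simp
    · have h1 := hC.2.1 u v huv
      have h2 := hC.2.1 v u fun h => huv h.symm
      by_cases hu : u ∈ A <;> by_cases hv : v ∈ A <;> simp [res_mem, res_not, hu, hv, h1, h2]
  · by_cases hu : u ∈ A
    · rw [res_mem hu]
      apply hC.2.1
      intro huv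
      exact h ⟨huv, hu, hA u v huv hu⟩
    · rw [res_not hu]; rfl
  · by_cases hv : v ∈ A
    · rw [res_mem hv]; exact hC.2.2 v
    · rw [res_not hv]; simp

omit [DecidableEq V] in
theorem Mx_res (n1 n2 : V → V) (x : V → F) {A : Set V} {C D : V → V → F}
    (hD : ∀ v, v ∉ A → ∀ u, D v u = 0) : Mx n1 n2 x (res A C) D = Mx n1 n2 x C D := by
  rw [Mx_apply, Mx_apply]
  refine Finset.sum_congr rfl fun v _ => ?_
  by_cases hv : v ∈ A
  · rw [om_apply, om_apply, res_mem hv]
  · rw [om_apply, om_apply, hD v hv, hD v hv]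
    ring

theorem lower (h2 : (2 : F) ≠ 0) [Fintype F] (hF : Fintype.card (V × V) < Fintype.card F)
    {G : SimpleGraph V} {n1 n2 : V → V} (hG : Loc G n1 n2) {x : V → F}
    (hopt : LocOpt G n1 n2 x) (X : Finset V) (hX : (del G X).IsAcyclic) :
    finrank F (Z F G) + finrank F (radW (Mx n1 n2 x) (Z F G)) ≤ 2 * X.card := by
  classical
  set M := Mx n1 n2 x with hMdef
  have hM : ∀ C, M C C = 0 := Mx_self (F := F) n1 n2 x
  set R := radW M (Z F G) with hR
  -- the support graph
  let Γ : SimpleGraph V :=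
    { Adj := fun u w => ∃ C ∈ R, C u w ≠ 0
      symm := ⟨fun u w ⟨C, hC, h⟩ => ⟨C, hC, by rw [hC.1.1]; exact neg_ne_zero.2 h⟩⟩
      loopless := ⟨fun u ⟨C, hC, h⟩ => h (hC.1.2.1 u u (G.loopless.irrefl u))⟩ }
  have hΓ : ∀ u w, Γ.Adj u w ↔ ∃ C ∈ R, C u w ≠ 0 := fun _ _ => Iff.rfl
  have hΓG : Γ ≤ G := by
    intro u w ⟨C, hC, h⟩
    by_contra hne
    exact h (hC.1.2.1 u w hne)
  have hRW : R ≤ Z F Γ := by
    intro C hC
    refine ⟨hC.1.1, fun u v huv => ?_, hC.1.2.2⟩
    by_contra hne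
    exact huv ⟨C, hC, hne⟩
  -- values at a vertex are parallel
  have par : ∀ v, ∀ C ∈ R, ∀ u, C v u ≠ 0 → ∀ E ∈ Z F G, om n1 n2 v C E = 0 →
      ∃ l : F, ∀ w, E v w = l * C v w := by
    intro v C hC u hCu E hE hom
    have h0 : C v (n1 v) ≠ 0 ∨ C v (n2 v) ≠ 0 := by
      by_contra h
      push Not at h
      exact hCu (hG.zero hC.1 h.1 h.2 u)
    obtain ⟨l, hl1, hl2⟩ := om_par h0 hom
    refine ⟨l, fun w => ?_⟩
    have h3 : E - l • C ∈ Z F G := Submodule.sub_mem _ hE (Submodule.smul_mem _ _ hC.1)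
    have h4 := hG.zero h3 (v := v) (by
      show E v (n1 v) - l * C v (n1 v) = 0
      have : E v (n1 v) = l * C v (n1 v) := hl1
      rw [this]; ring) (by
      show E v (n2 v) - l * C v (n2 v) = 0
      have : E v (n2 v) = l * C v (n2 v) := hl2
      rw [this]; ring) w
    have h5 : E v w - l * C v w = 0 := h4
    linear_combination h5
  have nz : ∀ v, ∀ C ∈ R, ∀ u, C v u ≠ 0 → ∀ w, Γ.Adj v w → C v w ≠ 0 := by
    intro v C hC u hCu w hw
    obtain ⟨E, hE, hEw⟩ := hw
    obtain ⟨l, hl⟩ := par v C hC u hCu E hE.1 (locopt_one hopt v hC hE)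
    intro h
    rw [hl w, h, mul_zero] at hEw
    exact hEw rfl
  -- represented local functionals
  have rep : ∀ v u, Γ.Adj v u → ∃ C ∈ R, C v u ≠ 0 ∧ ∃ D ∈ Z F Γ,
      ∀ E ∈ Z F G, M D E = om n1 n2 v C E := by
    intro v u hvu
    obtain ⟨C, hC, hCu⟩ := hvu
    obtain ⟨D, hD, hDE, hs⟩ := locopt_two hF hG hopt v hC hCu
    refine ⟨C, hC, hCu, D, ⟨hD.1, fun a b hab => ?_, hD.2.2⟩, hDE⟩
    by_contra hne
    exact hab (hs a b hne)
  -- propagation
  have prop : ∀ E ∈ Z F G, (∀ v u, Γ.Adj v u → ∃ C ∈ R, C v u ≠ 0 ∧ om n1 n2 v C E = 0) →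
      ∀ v u, Γ.Adj v u → E v u = 0 → ∀ v', Γ.Reachable v v' → ∀ w, E v' w = 0 := by
    intro E hE hpar v u hvu hEvu v' hr
    rw [SimpleGraph.reachable_iff_reflTransGen] at hr
    have one : ∀ v u, Γ.Adj v u → E v u = 0 → ∀ w, E v w = 0 := by
      intro v u hvu hEvu w
      obtain ⟨C, hC, hCu, hom⟩ := hpar v u hvu
      obtain ⟨l, hl⟩ := par v C hC u hCu E hE hom
      have h1 := hl u
      rw [hEvu] at h1
      have h3 : l = 0 := (mul_eq_zero.1 h1.symm).resolve_right hCu
      rw [hl w, h3, zero_mul]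
    induction hr with
    | refl => exact one v u hvu hEvu
    | @tail a b _ hab ih =>
      exact one b a hab.symm (by rw [hE.1, ih b, neg_zero])
  -- dimension count
  set W := Z F Γ with hW
  have hWZ : W ≤ Z F G := Z_mono hΓG
  have hcount := orth_dim M hM (Z F G) W hWZ
  rw [← hR, inf_eq_right.2 hRW] at hcount
  set T := orthW M (Z F G) W with hT
  have hparT : ∀ E ∈ T, ∀ v u, Γ.Adj v u → ∃ C ∈ R, C v u ≠ 0 ∧ om n1 n2 v C E = 0 := by
    intro E hE v u hvu
    obtain ⟨C, hC, hCu, D, hD, hDE⟩ := rep v u hvu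
    exact ⟨C, hC, hCu, by rw [← hDE E hE.1]; exact hE.2 D hD⟩
  -- components
  set mk := Γ.connectedComponentMk with hmk
  set 𝒞 : Finset Γ.ConnectedComponent := univ.filter (fun c => ∃ v u, Γ.Adj v u ∧ mk v = c) with h𝒞
  have hsel : ∀ c : 𝒞, ∃ e : V × V, Γ.Adj e.1 e.2 ∧ mk e.1 = c := by
    rintro ⟨c, hc⟩
    obtain ⟨v, u, h, h'⟩ := (Finset.mem_filter.1 hc).2
    exact ⟨(v, u), h, h'⟩
  choose sel hsel1 hsel2 using hsel
  set VK : Finset V := univ.filter (fun v => ∃ u, Γ.Adj v u) with hVK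
  have hreach : ∀ (c : 𝒞) v, mk v = c → Γ.Reachable (sel c).1 v := by
    intro c v hv
    rw [← SimpleGraph.ConnectedComponent.eq]
    exact (hsel2 c).trans hv.symm
  have hTdim : finrank F T ≤ 𝒞.card + finrank F (Z F (del G VK)) := by
    set f : (V → V → F) →ₗ[F] (𝒞 → F) := LinearMap.pi fun c => evl (sel c).1 (sel c).2 with hf
    have h := finrank_le_ker f T
    rw [Module.finrank_fintype_fun_eq_card, Fintype.card_coe] at h
    refine h.trans (Nat.add_le_add_left (Submodule.finrank_mono ?_) _)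
    rintro E ⟨hE, hE'⟩
    have hE' : f E = 0 := LinearMap.mem_ker.1 hE'
    refine mem_Z_del hE.1 fun v hv => ?_
    obtain ⟨u, hu⟩ := (Finset.mem_filter.1 hv).2
    have hc : mk v ∈ 𝒞 := Finset.mem_filter.2 ⟨mem_univ _, v, u, hu, rfl⟩
    exact prop E hE.1 (hparT E hE) _ _ (hsel1 ⟨mk v, hc⟩) (congrFun hE' ⟨mk v, hc⟩) v
      (hreach ⟨mk v, hc⟩ v rfl)
  -- each component has odd dimension
  have hclosed : ∀ c : Γ.ConnectedComponent, ∀ u w, Γ.Adj u w → u ∈ {v | mk v = c} →
      w ∈ {v | mk v = c} := by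
    intro c u w huw hu
    rw [Set.mem_ofPred_eq] at hu ⊢
    rw [← hu]
    exact (SimpleGraph.ConnectedComponent.eq.2 huw.reachable).symm
  have hodd : ∀ c : 𝒞, Odd (finrank F (Z F (onS Γ {v | mk v = c}))) := by
    intro c
    set A : Set V := {v | mk v = c} with hA
    have hAc := hclosed c
    have hle : onS Γ A ≤ Γ := fun _ _ h => h.1
    have hout : ∀ E ∈ Z F (onS Γ A), ∀ v, v ∉ A → ∀ u, E v u = 0 :=
      fun E hE v hv u => hE.2.1 v u fun h => hv h.2.1
    have hone : finrank F (radW M (Z F (onS Γ A))) = 1 := by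
      obtain ⟨C, hC, hCu⟩ := hsel1 c
      have hmem : res A C ∈ radW M (Z F (onS Γ A)) := by
        refine ⟨res_Z hAc (hRW hC), fun D hD => ?_⟩
        rw [hMdef, Mx_res n1 n2 x (hout D hD)]
        exact hC.2 D (Z_mono (hle.trans hΓG) hD)
      apply le_antisymm
      · have h := finrank_le_ker (evl (sel c).1 (sel c).2) (radW M (Z F (onS Γ A)))
        rw [Module.finrank_self] at h
        have h0 : radW M (Z F (onS Γ A)) ⊓ LinearMap.ker (evl (sel c).1 (sel c).2) = ⊥ := by
          rw [eq_bot_iff]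
          rintro E ⟨hE, hE'⟩
          have hE' : E (sel c).1 (sel c).2 = 0 := LinearMap.mem_ker.1 hE'
          rw [Submodule.mem_bot]
          have hEG : E ∈ Z F G := Z_mono (hle.trans hΓG) hE.1
          funext v
          by_cases hv : v ∈ A
          · funext w
            refine prop E hEG ?_ _ _ (hsel1 c) hE' v (hreach c v hv) w
            intro v u hvu
            obtain ⟨C, hC, hCu, D, hD, hDE⟩ := rep v u hvu
            refine ⟨C, hC, hCu, ?_⟩
            rw [← hDE E hEG]
            have h4 : M (res A D) E = M D E := by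
              rw [hMdef, Mx_res n1 n2 x (hout E hE.1)]
            rw [← h4, alt_swap hM, hE.2 _ (res_Z hAc hD), neg_zero]
          · funext w
            exact hout E hE.1 v hv w
        rw [h0, finrank_bot] at h
        exact h
      · rw [Nat.one_le_iff_ne_zero]
        intro h0
        have h4 : radW M (Z F (onS Γ A)) = ⊥ := Submodule.finrank_eq_zero.1 h0
        rw [h4, Submodule.mem_bot] at hmem
        have h5 := congrFun (congrFun hmem (sel c).1) (sel c).2
        rw [res_mem (show (sel c).1 ∈ A from hsel2 c)] at h5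
        exact hCu h5
    have hev := rank_even M hM _ (Z F (onS Γ A)) rfl
    rw [hone] at hev
    obtain ⟨k, hk⟩ := hev
    refine ⟨k - 1, ?_⟩
    omega
  -- the flow space of Γ splits
  have hsplit : finrank F W ≤ ∑ c : 𝒞, finrank F (Z F (onS Γ {v | mk v = c})) := by
    let f : W →ₗ[F] (∀ c : 𝒞, Z F (onS Γ {v | mk v = c})) :=
      LinearMap.pi fun c => LinearMap.codRestrict (Z F (onS Γ {v | mk v = c}))
        ((res {v | mk v = c}).comp W.subtype) fun C => res_Z (hclosed c) C.2
    have hinj : Function.Injective f := by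
      rw [← LinearMap.ker_eq_bot, LinearMap.ker_eq_bot']
      intro C hC
      apply Subtype.ext
      funext v u
      by_cases hvu : Γ.Adj v u
      · have hc : mk v ∈ 𝒞 := Finset.mem_filter.2 ⟨mem_univ _, v, u, hvu, rfl⟩
        have h3 : (f C ⟨mk v, hc⟩ : V → V → F) = 0 := by rw [hC]; rfl
        have h4 : res {v' | mk v' = mk v} (C : V → V → F) = 0 := h3
        have h5 := congrFun (congrFun h4 v) u
        rw [res_mem (show v ∈ {v' | mk v' = mk v} from rfl)] at h5
        exact h5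
      · exact C.2.2.1 v u hvu
    have h := LinearMap.finrank_le_finrank_of_injective hinj
    rwa [Module.finrank_pi_fintype] at h
  -- final count
  have hparts : ∀ c : 𝒞, finrank F (Z F (onS Γ {v | mk v = c})) + 1 ≤
      2 * ((X ∩ VK).filter (fun v => mk v = c)).card := by
    intro c
    have h := dim_le h2 hG (H := onS Γ {v | mk v = c}) (fun _ _ h => hΓG h.1)
      (A := VK.filter (fun v => mk v = c)) (fun u w h => by
        simp only [hVK, mem_filter, mem_univ, true_and]
        exact ⟨⟨w, h.1⟩, h.2.1⟩) hX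
    have e : X ∩ VK.filter (fun v => mk v = c) = (X ∩ VK).filter (fun v => mk v = c) := by
      ext v
      simp only [mem_inter, mem_filter]
      tauto
    rw [e] at h
    obtain ⟨k, hk⟩ := hodd c
    omega
  have hrest : finrank F (Z F (del G VK)) ≤ 2 * (X \ VK).card := by
    have h := dim_le h2 hG (H := del G VK) (del_le _ _) (A := VKᶜ) (fun u w h => by
      exact Finset.mem_compl.2 h.2.1) hX
    have e : X ∩ VKᶜ = X \ VK := by
      ext v
      simp only [mem_inter, mem_compl, mem_sdiff]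
    rwa [e] at h
  have hsum : (X ∩ VK).card = ∑ c : 𝒞, ((X ∩ VK).filter (fun v => mk v = c)).card := by
    rw [Finset.card_eq_sum_card_fiberwise (f := mk) (t := 𝒞)]
    · rw [← Finset.sum_coe_sort 𝒞 (fun c => ((X ∩ VK).filter (fun v => mk v = c)).card)]
    · intro v hv
      obtain ⟨u, hu⟩ := (Finset.mem_filter.1 (Finset.mem_inter.1 hv).2).2
      exact Finset.mem_coe.2 (Finset.mem_filter.2 ⟨mem_univ _, v, u, hu, rfl⟩)
  have hcardX : X.card = (X ∩ VK).card + (X \ VK).card := (Finset.card_inter_add_card_sdiff X VK).symm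
  have hs2 : ∑ c : 𝒞, (finrank F (Z F (onS Γ {v | mk v = c})) + 1) ≤
      ∑ c : 𝒞, 2 * ((X ∩ VK).filter (fun v => mk v = c)).card :=
    Finset.sum_le_sum fun c _ => hparts c
  rw [Finset.sum_add_distrib, ← Finset.mul_sum, ← hsum, Finset.sum_const, Finset.card_univ,
    Fintype.card_coe, smul_eq_mul, mul_one] at hs2
  omega

end FVS424
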