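import Mathlib

/-! The notions used in the statement of the main theorem. -/

namespace FVS424

/-- The tree `S_{w,x,y,z}` with `ℓ = ![w, x, y, z]`: it is obtained from the star `K_{1,4}` by
replacing the `i`-th edge by a path with `ℓ i` edges.  The vertex `none` is the centre, and the
vertex `some ⟨i, j⟩` is the vertex of the `i`-th leg at distance `j + 1` from the centre. -/
def subdividedStar (ℓ : Fin 4 → ℕ) : SimpleGraph (Option (Σ i : Fin 4, Fin (ℓ i))) :=
  SimpleGraph.fromRel fun a b =>
    (∃ (i : Fin 4) (j : Fin (ℓ i)), a = none ∧ b = some ⟨i, j⟩ ∧ j.val = 0) ∨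
    (∃ (i : Fin 4) (j k : Fin (ℓ i)), a = some ⟨i, j⟩ ∧ b = some ⟨i, k⟩ ∧ j.val + 1 = k.val)

/-- `X` is a feedback vertex set of `G`: the graph `G - X` is a forest. -/
def IsFVS {V : Type*} (G : SimpleGraph V) (X : Finset V) : Prop :=
  (G.induce {v | v ∉ X}).IsAcyclic

/-- The adjacency matrix (list of rows) of a graph with vertices `0, ..., n - 1`. -/
def adjMat {n : ℕ} (G : SimpleGraph (Fin n)) [DecidableRel G.Adj] : List (List Bool) :=
  List.ofFn fun i : Fin n => List.ofFn fun j : Fin n => decide (G.Adj i j)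

end FVS424
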