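import Pool.Agent.Lib.MP_424cb6_lc.PTSub
import Pool.Agent.Lib.MP_424cb6_lc.Statement
import Pool.Agent.Lib.MP_17a834_lc.Msr.Final

/-! Assembly: polynomial-time decision and search of feedback vertex sets on
`S_{1,p,q,r}`-subgraph-free graphs. -/

namespace FVS424

open Pool.Agent.MSR N68a2faeb N487b59b3 Turing Turing.TM2 Cmd En

attribute [local fun_prop] PT.eq PT.mem

/-- a string family computable in polynomial time gives `IsPolyTime` -/
theorem isPolyTime_of_CT {α β : Type} [N487b59b3 α] [N487b59b3 β] (f : α → β)
    (hf : CT (fun a : α => bitEncode a) (fun a => bitEncode (f a))) : IsPolyTime f := by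
  obtain ⟨K, i1, i2, i, o, c, d, h⟩ := hf
  refine ⟨{ tm := machine c i o, inputAlphabet := Equiv.refl Bool,
            outputAlphabet := Equiv.refl Bool, time := (Polynomial.X + 2) ^ d + 1,
            outputsFun := fun a => ?_ }⟩
  refine ⟨⟨Classical.choose (h a) + 1, ?_⟩, ?_⟩
  · have h1 := (Classical.choose_spec (h a)).2.outputs
    have e1 : List.map (Equiv.refl Bool).invFun
        ((N487b59b3.toEncoding (α := α)).encode a) = bitEncode a := List.map_id _
    have e2 : List.map (Equiv.refl Bool).invFun
        ((N487b59b3.toEncoding (α := β)).encode (f a)) = bitEncode (f a) := List.map_id _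
    exact (congrArg (fun s => (flip bind (FinTM2.step (machine c i o)))^[Classical.choose (h a) + 1]
      (some (initList (machine c i o) s))) e1).trans (h1.trans
        (congrArg (fun s => some (haltList (machine c i o) s)) e2.symm))
  · have h2 := (Classical.choose_spec (h a)).1
    have e1 : ((N487b59b3.toEncoding (α := α)).encode a).length = (bitEncode a).length := rfl
    simp only [Polynomial.eval_add, Polynomial.eval_pow, Polynomial.eval_X, Polynomial.eval_ofNat,
      Polynomial.eval_one, e1]
    exact Nat.add_le_add_right h2 1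

/-! ### the oracle for solvable instances -/

/-- value of a solvable instance -/
def vsolv (rk : List (List ℕ) → ℕ → ℕ) (tw : List (List Bool) × List ℕ → ℕ)
    (q : List (List Bool) × List ℕ) : ℕ :=
  bif q.2.any (fun v => !(leb (degl (ad q.1) q.2 v) 3)) then tw q else subval rk (rmat q.1 q.2)

theorem pt_vsolv {rk : List (List ℕ) → ℕ → ℕ} {tw : List (List Bool) × List ℕ → ℕ}
    (hrk : PT (fun q : List (List ℕ) × ℕ => rk q.1 q.2)) (htw : PT tw) : PT (vsolv rk tw) := by
  unfold vsolv
  refine PT.cond (by fun_prop) htw (pt_subval hrk (by fun_prop))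

/-- specification of the bounded treewidth algorithm -/
def TwSpec (w : ℕ) (tw : List (List Bool) × List ℕ → ℕ) : Prop :=
  ∀ (M : List (List Bool)) (S : List ℕ) (G : SimpleGraph ℕ),
    (∀ i j, ((M.getD i []).getD j false = true ↔ G.Adj i j)) → S.Nodup →
    TDR G (S.toFinset : Set ℕ) w ∅ → tw (M, S) = fvs G S.toFinset

theorem fvs_le_card (G : SimpleGraph ℕ) (S : Finset ℕ) : fvs G S ≤ S.card := fvs_le (isF_self G S)

theorem valok {rk : List (List ℕ) → ℕ → ℕ} {tw : List (List Bool) × List ℕ → ℕ} {w : ℕ}
    (hrk : RankSpec rk) (htw : TwSpec w tw) {M : List (List Bool)} {G : SimpleGraph ℕ}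
    (hM : ∀ i j, ad M i j = true ↔ G.Adj i j) :
    ValOK G w M.length (vcl (vsolv rk tw) M) := by
  intro S hS hSn hsolv
  have h1 : vsolv rk tw (M, S) = fvs G S.toFinset := by
    unfold vsolv
    by_cases hd : ∀ v ∈ S.toFinset, dgS G (S.toFinset : Set ℕ) v ≤ 3
    · have : S.any (fun v => !(leb (degl (ad M) S v) 3)) = false := by
        rw [List.any_eq_false]
        intro v hv
        have := hd v (List.mem_toFinset.2 hv)
        rw [degl_eq hM hS]
        simp only [leb, this, decide_true]
        simp
      simp only [this, cond_false]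
      exact subval_eq hrk hM hSn hd
    · have htd := hsolv.resolve_left hd
      push Not at hd
      obtain ⟨v, hv, hv3⟩ := hd
      have : S.any (fun v => !(leb (degl (ad M) S v) 3)) = true := by
        rw [List.any_eq_true]
        refine ⟨v, List.mem_toFinset.1 hv, ?_⟩
        rw [degl_eq hM hS]
        have : ¬ (dgS G (S.toFinset : Set ℕ) v ≤ 3) := by omega
        rw [leb, decide_eq_false this]
        rfl
      simp only [this, cond_true]
      exact htw M S G hM hS htd
  unfold vcl
  have h2 : fvs G S.toFinset ≤ M.length := by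
    refine (fvs_le_card _ _).trans ?_
    rw [← Finset.card_range M.length]
    apply Finset.card_le_card
    intro z hz
    exact Finset.mem_range.2 (hSn z (List.mem_toFinset.1 hz))
  rw [h1]
  simp [leb, h2]

/-! ### values of arbitrary sublists, and a minimum feedback vertex set -/

/-- value of the graph induced on `S` -/
def valM (V : List (List Bool) × List ℕ → ℕ) (M : List (List Bool)) (S : List ℕ) : ℕ :=
  algo (ad M) (vcl V M) S

section

variable {α : Type} [En α] {V : List (List Bool) × List ℕ → ℕ}

@[fun_prop]
theorem pt_valM (hV : PT V) {M : α → List (List Bool)} {S : α → List ℕ} (hM : PT M)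
    (hS : PT S) : PT (fun a => valM V (M a) (S a)) := by
  unfold valM algo
  obtain ⟨d, hd⟩ := hM.bound
  obtain ⟨e, he⟩ := hS.bound
  have hit : PT (fun a => (stepc (ad (M a)) (vcl V (M a)))^[(S a).length] (S a, 0)) := by
    refine PT.iter (n := fun a => (S a).length)
      (f := fun a => (S a, 0)) (g := fun a => stepc (ad (M a)) (vcl V (M a)))
      (by fun_prop) (by fun_prop) (by fun_prop) ?_
    refine ⟨fun n => 2 * (n + 2) ^ e + 1 + (n + 2) ^ e * (n + 2) ^ d,
      (((PB.const 2).mul ((PB.id.add (PB.const 2)).pow e)).add (PB.const 1)).add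
        (((PB.id.add (PB.const 2)).pow e).mul ((PB.id.add (PB.const 2)).pow d)), ?_⟩
    intro a k hk
    have key : ∀ k, ((stepc (ad (M a)) (vcl V (M a)))^[k] (S a, 0)).1.Sublist (S a) ∧
        ((stepc (ad (M a)) (vcl V (M a)))^[k] (S a, 0)).2 ≤ k * (M a).length := by
      intro k
      induction k with
      | zero => exact ⟨List.Sublist.refl _, Nat.zero_le _⟩
      | succ k ih =>
        rw [Function.iterate_succ_apply']
        obtain ⟨h1, h2⟩ := stepc_bound V (M a)
          ((stepc (ad (M a)) (vcl V (M a)))^[k] (S a, 0))
        refine ⟨h1.trans ih.1, h2.trans ?_⟩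
        have := ih.2
        rw [Nat.succ_mul]
        omega
    have hlen : (M a).length ≤ sz (M a) := length_le_sz (M a)
    have hlen2 : (S a).length ≤ sz (S a) := length_le_sz (S a)
    obtain ⟨h1, h2⟩ := key k
    have h3 := (sz_sublist h1).trans (he a)
    have h4 : sz ((stepc (ad (M a)) (vcl V (M a)))^[k] (S a, 0)) =
        2 * sz ((stepc (ad (M a)) (vcl V (M a)))^[k] (S a, 0)).1 + 1 +
        ((stepc (ad (M a)) (vcl V (M a)))^[k] (S a, 0)).2 := by
      have := sz_pair ((stepc (ad (M a)) (vcl V (M a)))^[k] (S a, 0)).1
        ((stepc (ad (M a)) (vcl V (M a)))^[k] (S a, 0)).2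
      rw [sz_nat] at this
      exact this
    rw [h4]
    have h6 : k * (M a).length ≤ (sz a + 2) ^ e * (sz a + 2) ^ d :=
      Nat.mul_le_mul ((hk.trans hlen2).trans (he a)) (hlen.trans (hd a))
    simp only
    omega
  fun_prop

/-- one step of the search: put `v` into the solution if this decreases the value -/
def srch (V : List (List Bool) × List ℕ → ℕ) (M : List (List Bool)) (st : List ℕ × List ℕ)
    (v : ℕ) : List ℕ × List ℕ :=
  bif ltb (valM V M (rm st.1 v)) (valM V M st.1) then (rm st.1 v, v :: st.2) else st

/-- a minimum feedback vertex set -/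
def minset (V : List (List Bool) × List ℕ → ℕ) (M : List (List Bool)) : List ℕ :=
  ((List.range M.length).foldl (srch V M) (List.range M.length, [])).2

theorem pt_minset (hV : PT V) : PT (fun M : List (List Bool) => minset V M) := by
  unfold minset
  have h1 : PT (fun M : List (List Bool) =>
      (List.range M.length).foldl (srch V M) (List.range M.length, [])) := by
    refine PT.foldl_add (l := fun M : List (List Bool) => List.range M.length)
      (f := fun M => (List.range M.length, ([] : List ℕ))) (g := fun M st v => srch V M st v)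
      (by fun_prop) (PT.pair (by fun_prop) (PT.const _)) (by unfold srch; fun_prop) ?_
    refine ⟨fun n => 2 * n + 1, ((PB.const 2).mul PB.id).add (PB.const 1), ?_⟩
    intro M st v hv
    rw [List.mem_range] at hv
    have hlen : M.length ≤ sz M := length_le_sz M
    have hst : sz st = 2 * sz st.1 + 1 + sz st.2 := sz_pair st.1 st.2
    unfold srch
    cases ltb (valM V M (rm st.1 v)) (valM V M st.1) with
    | true =>
      simp only [cond_true]
      rw [sz_pair, sz_cons, sz_nat, hst]
      have := sz_sublist (show (rm st.1 v).Sublist st.1 from List.filter_sublist)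
      omega
    | false => simp only [cond_false]; omega
  exact PT.snd h1

end

/-! ### graphs on `Fin n` -/

theorem adjMat_length {n : ℕ} (G : SimpleGraph (Fin n)) [DecidableRel G.Adj] :
    (adjMat G).length = n := by simp [adjMat]

theorem ad_adjMat {n : ℕ} (G : SimpleGraph (Fin n)) [DecidableRel G.Adj] (i j : ℕ) :
    ad (adjMat G) i j = true ↔ (G.map Fin.valEmbedding).Adj i j := by
  unfold ad adjMat
  rw [SimpleGraph.map_adj]
  by_cases hi : i < n
  · have h1 : (List.ofFn fun i : Fin n => List.ofFn fun j : Fin n => decide (G.Adj i j)).getD i [] =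
        List.ofFn fun j : Fin n => decide (G.Adj ⟨i, hi⟩ j) := by
      rw [List.getD_eq_getElem?_getD, List.getElem?_ofFn, dif_pos hi]
      rfl
    rw [h1]
    by_cases hj : j < n
    · have h2 : (List.ofFn fun j : Fin n => decide (G.Adj ⟨i, hi⟩ j)).getD j false =
          decide (G.Adj ⟨i, hi⟩ ⟨j, hj⟩) := by
        rw [List.getD_eq_getElem?_getD, List.getElem?_ofFn, dif_pos hj]
        rfl
      rw [h2, decide_eq_true_eq]
      constructor
      · intro h; exact ⟨_, _, h, rfl, rfl⟩
      · rintro ⟨a, b, h, ha, hb⟩
        have e1 : a = ⟨i, hi⟩ := Fin.ext ha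
        have e2 : b = ⟨j, hj⟩ := Fin.ext hb
        rwa [e1, e2] at h
    · rw [List.getD_eq_default]
      · constructor
        · intro h; simp at h
        · rintro ⟨a, b, _, _, hb⟩
          exact absurd (hb ▸ b.2) hj
      · simp; omega
  · rw [List.getD_eq_default (n := i)]
    · constructor
      · intro h; simp at h
      · rintro ⟨a, b, _, ha, _⟩
        exact absurd (ha ▸ a.2) hi
    · simp; omega

end FVS424
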