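import Pool.Agent.Lib.MP_424cb6_lc.FVS

/-! Irreducible vertex sets, minimal connecting sets, and minimal sides. -/

namespace FVS424

open Relation

variable {V : Type*}

/-- degree inside `S` -/
noncomputable def dgS (G : SimpleGraph V) (S : Set V) (v : V) : ℕ := (G.neighborSet v ∩ S).ncard

theorem dgS_mono {G : SimpleGraph V} {S S' : Finset V} (h : (S : Set V) ⊆ (S' : Set V)) (v : V) :
    dgS G (S : Set V) v ≤ dgS G (S' : Set V) v :=
  Set.ncard_le_ncard (Set.inter_subset_inter_right _ h) (Set.toFinite _)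

/-- A 2-edge cut of `G[S]` with side `K`, both sides connecting their ends, and both sides
containing a vertex of degree at least three. -/
structure ECut (G : SimpleGraph V) (S K : Finset V) (x1 y1 x2 y2 : V) : Prop where
  cut : TwoCut G (S : Set V) (K : Set V) x1 y1 x2 y2
  connO : Conn G ((S : Set V) \ K) x1 x2
  connI : Conn G (K : Set V) y1 y2
  degI : ∃ u ∈ K, 3 ≤ dgS G (S : Set V) u
  degO : ∃ u ∈ S, u ∉ K ∧ 3 ≤ dgS G (S : Set V) u

/-- no reduction is possible -/
def Irr (G : SimpleGraph V) (S : Finset V) : Prop :=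
  (∀ a C, ¬ VCut G S a C) ∧ ∀ K x1 y1 x2 y2, ¬ ECut G S K x1 y1 x2 y2

/-- no reduction with fewer than `m` vertices on its side is possible -/
def NoSmall (G : SimpleGraph V) (S : Finset V) (m : ℕ) : Prop :=
  (∀ a C, VCut G S a C → m ≤ C.card) ∧ ∀ K x1 y1 x2 y2, ECut G S K x1 y1 x2 y2 → m ≤ K.card

/-- a minimal subset of `R` connecting `x` and `y` -/
structure MinConn (G : SimpleGraph V) [DecidableEq V] (R : Finset V) (x y : V) (P : Finset V) :
    Prop where
  sub : P ⊆ R
  conn : Conn G (P : Set V) x y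
  min : ∀ z ∈ P, z ≠ x → z ≠ y → ¬ Conn G ((P.erase z : Finset V) : Set V) x y

section

variable [DecidableEq V] {G : SimpleGraph V}

theorem TwoCut.swap {S K : Set V} {x1 y1 x2 y2 : V} (h : TwoCut G S K x1 y1 x2 y2) :
    TwoCut G S K x2 y2 x1 y1 :=
  ⟨h.sub, h.y2K, h.y1K, h.x2S, h.x1S, h.x2K, h.x1K, h.xne.symm, h.yne.symm, h.adj2, h.adj1,
    fun u hu w hw hwK huw => (h.only u hu w hw hwK huw).symm⟩

theorem ECut.swap {S K : Finset V} {x1 y1 x2 y2 : V} (h : ECut G S K x1 y1 x2 y2) :
    ECut G S K x2 y2 x1 y1 :=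
  ⟨h.cut.swap, h.connO.symm, h.connI.symm, h.degI, h.degO⟩

theorem ECut.compl {S K : Finset V} {x1 y1 x2 y2 : V} (h : ECut G S K x1 y1 x2 y2) :
    ECut G S (S \ K) y1 x1 y2 x2 := by
  have hKS : K ⊆ S := fun z hz => h.cut.sub hz
  have hmem : ∀ z, z ∈ ((S \ K : Finset V) : Set V) ↔ z ∈ S ∧ z ∉ K := by
    intro z; rw [Finset.mem_coe, Finset.mem_sdiff]
  have e : (S : Set V) \ ((S \ K : Finset V) : Set V) = (K : Set V) := by
    ext z
    rw [Set.mem_sdiff, hmem]
    constructor
    · rintro ⟨h1, h2⟩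
      by_contra h3
      exact h2 ⟨h1, h3⟩
    · intro h1
      exact ⟨hKS h1, fun h2 => h2.2 h1⟩
  refine ⟨⟨?_, ?_, ?_, ?_, ?_, ?_, ?_, h.cut.yne, h.cut.xne, h.cut.adj1.symm, h.cut.adj2.symm, ?_⟩,
    ?_, ?_, ?_, ?_⟩
  · intro z hz; exact ((hmem z).1 hz).1
  · exact (hmem _).2 ⟨h.cut.x1S, h.cut.x1K⟩
  · exact (hmem _).2 ⟨h.cut.x2S, h.cut.x2K⟩
  · exact hKS h.cut.y1K
  · exact hKS h.cut.y2K
  · intro h'; exact ((hmem _).1 h').2 h.cut.y1K
  · intro h'; exact ((hmem _).1 h').2 h.cut.y2K
  · intro u hu w hw hwK huw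
    rw [hmem] at hu hwK
    have hwK' : w ∈ K := by
      by_contra h3
      exact hwK ⟨hw, h3⟩
    rcases h.cut.only w hwK' u hu.1 hu.2 huw.symm with h' | h'
    · exact Or.inl ⟨h'.2, h'.1⟩
    · exact Or.inr ⟨h'.2, h'.1⟩
  · rw [e]; exact h.connI
  · rw [Finset.coe_sdiff]; exact h.connO
  · obtain ⟨u, hu, huK, hd⟩ := h.degO
    exact ⟨u, Finset.mem_sdiff.2 ⟨hu, huK⟩, hd⟩
  · obtain ⟨u, hu, hd⟩ := h.degI
    exact ⟨u, hKS hu, fun h' => (Finset.mem_sdiff.1 h').2 hu, hd⟩

theorem VCut.compl {S C : Finset V} {a : V} (h : VCut G S a C) :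
    VCut G S a ((S.erase a) \ C) := by
  have hmem : ∀ z, z ∈ (S.erase a) \ C ↔ z ∈ S ∧ z ≠ a ∧ z ∉ C := by
    intro z
    rw [Finset.mem_sdiff, Finset.mem_erase]
    tauto
  refine ⟨h.aS, fun z hz => ((hmem z).1 hz).1, fun h' => ((hmem a).1 h').2.1 rfl, ?_, ?_, ?_⟩
  · obtain ⟨z, hz, hza, hzC⟩ := h.other
    exact ⟨z, (hmem z).2 ⟨hz, hza, hzC⟩⟩
  · obtain ⟨z, hz⟩ := h.ne
    refine ⟨z, h.sub hz, ?_, fun h' => ((hmem z).1 h').2.2 hz⟩
    rintro rfl
    exact h.aC hz
  · intro u hu w hw hwn huw
    rw [hmem] at hu hwn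
    by_contra hwa
    have hwC : w ∈ C := by
      by_contra h3
      exact hwn ⟨hw, hwa, h3⟩
    exact hu.2.1 (h.only w hwC u hu.1 hu.2.2 huw.symm)

/-- component -/
noncomputable def comp (G : SimpleGraph V) (S : Finset V) (x : V) : Finset V := by
  classical exact S.filter (fun z => Conn G (S : Set V) x z)

theorem mem_comp {S : Finset V} {x z : V} : z ∈ comp G S x ↔ Conn G (S : Set V) x z := by
  classical
  unfold comp
  rw [Finset.mem_filter]
  exact ⟨fun h => h.2, fun h => ⟨h.right, h⟩⟩

theorem comp_sub {S : Finset V} {x : V} : comp G S x ⊆ S := fun _ hz => (mem_comp.1 hz).right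

theorem comp_closed {S : Finset V} {x u w : V} (hu : u ∈ comp G S x) (hw : w ∈ S)
    (huw : G.Adj u w) : w ∈ comp G S x :=
  mem_comp.2 ((mem_comp.1 hu).tail hw huw)

/-! #### minimal connecting sets -/

theorem MinConn.list {R P : Finset V} {x y : V} (h : MinConn G R x y P) :
    ∃ l : List V, l.IsChain G.Adj ∧ l.Nodup ∧ l.head? = some x ∧ l.getLast? = some y ∧
      (∀ z, z ∈ l ↔ z ∈ P) ∧
      ∀ m1 t m2 w, l = m1 ++ t :: m2 → w ∈ m2 → G.Adj t w → m2.head? = some w := by
  obtain ⟨l, h1, h2, h3, h4, h5⟩ := h.conn.exists_path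
  have hxl : x ∈ l := List.mem_of_mem_head? (by rw [h3]; simp)
  have hyl : y ∈ l := List.mem_of_getLast? h4
  -- every walk covers `P`
  have hcov : ∀ l' : List V, l'.IsChain G.Adj → x ∈ l' → y ∈ l' → (∀ z ∈ l', z ∈ P) →
      ∀ z ∈ P, z ∈ l' := by
    intro l' hl' hx hy hsub z hz
    by_contra hzl
    refine h.min z hz (fun e => hzl (e ▸ hx)) (fun e => hzl (e ▸ hy)) ?_
    refine conn_of_chain hl' ?_ x hx y hy
    intro t ht
    rw [Finset.mem_coe, Finset.mem_erase]
    exact ⟨fun e => hzl (e ▸ ht), hsub t ht⟩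
  refine ⟨l, h1, h2, h3, h4, fun z => ⟨h5 z, hcov l h1 hxl hyl h5 z⟩, ?_⟩
  intro m1 t m2 w hl hw htw
  obtain ⟨n1, n2, hm2⟩ := List.append_of_mem hw
  subst hm2
  cases n1 with
  | nil => simp
  | cons c n1 =>
    exfalso
    subst hl
    rw [List.isChain_split] at h1
    have hc2 : (w :: n2).IsChain G.Adj := by
      have := h1.2
      rw [← List.cons_append] at this
      exact this.right_of_append
    have hch : (m1 ++ t :: w :: n2).IsChain G.Adj := by
      rw [List.isChain_split]
      exact ⟨h1.1, List.isChain_cons_cons.2 ⟨htw, hc2⟩⟩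
    have hx' : x ∈ m1 ++ t :: w :: n2 := by
      rw [head?_append_cons] at h3
      have : x ∈ m1 ++ [t] := List.mem_of_mem_head? (by rw [h3]; simp)
      simp only [List.mem_append, List.mem_cons, List.not_mem_nil, or_false] at this ⊢
      tauto
    have hy' : y ∈ m1 ++ t :: w :: n2 := by
      have e : m1 ++ t :: (c :: n1 ++ w :: n2) = (m1 ++ t :: (c :: n1)) ++ w :: n2 := by simp
      rw [e, getLast?_append_cons'] at h4
      have : y ∈ w :: n2 := List.mem_of_getLast? h4
      simp only [List.mem_append, List.mem_cons] at this ⊢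
      tauto
    have hcP : c ∈ P := h5 c (by simp)
    have := hcov _ hch hx' hy' (fun z hz => h5 z (by
      simp only [List.mem_append, List.mem_cons, List.cons_append] at hz ⊢
      tauto)) c hcP
    rw [List.nodup_append, List.nodup_cons] at h2
    simp only [List.cons_append, List.mem_append, List.mem_cons, List.nodup_cons, not_or] at h2 this
    rcases this with h' | h' | h' | h'
    · exact h2.2.2 c h' c (by simp) rfl
    · exact h2.2.1.1.1 h'.symm
    · exact h2.2.1.2.1.2.1 h'
    · exact h2.2.1.2.1.2.2 h'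

theorem acyc_list : ∀ l : List V, l.Nodup →
    (∀ m1 t m2 w, l = m1 ++ t :: m2 → w ∈ m2 → G.Adj t w → m2.head? = some w) →
    Acyc G {z | z ∈ l} := by
  intro l
  induction l with
  | nil =>
    intro _ _
    apply acyc_subsingleton
    intro u hu
    simp at hu
  | cons a l ih =>
    intro hnd hch
    rw [List.nodup_cons] at hnd
    have h1 : Acyc G {z | z ∈ l} := by
      apply ih hnd.2
      intro m1 t m2 w hl hw htw
      exact hch (a :: m1) t m2 w (by rw [hl]; rfl) hw htw
    have h2 : Acyc G ({a} : Set V) := by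
      apply acyc_subsingleton
      rintro u rfl w rfl
      rfl
    have h3 := acyc_glue_edge (G := G) (A := {a}) (B := {z | z ∈ l}) a (l.head?.getD a) ?_ ?_ h2 h1
    · refine h3.mono ?_
      intro z hz
      rcases List.mem_cons.1 hz with h | h
      · exact Or.inl h
      · exact Or.inr h
    · rintro z rfl hz
      exact hnd.1 hz
    · rintro u rfl w hw huw
      refine ⟨rfl, ?_⟩
      have := hch [] u l w rfl hw huw
      rw [this]
      rfl

theorem MinConn.acyc {R P : Finset V} {x y : V} (h : MinConn G R x y P) :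
    Acyc G (P : Set V) := by
  obtain ⟨l, h1, h2, h3, h4, h5, h6⟩ := h.list
  have := acyc_list (G := G) l h2 h6
  refine this.mono ?_
  intro z hz
  exact (h5 z).2 hz

theorem MinConn.conn_erase {R P : Finset V} {x y : V} (h : MinConn G R x y P) (b z : V)
    (hz : z ∈ P) (hzb : z ≠ b) : Conn G ((P.erase b : Finset V) : Set V) z x ∨
      Conn G ((P.erase b : Finset V) : Set V) z y := by
  obtain ⟨l, h1, h2, h3, h4, h5, h6⟩ := h.list
  have hxl : x ∈ l := List.mem_of_mem_head? (by rw [h3]; simp)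
  have hyl : y ∈ l := List.mem_of_getLast? h4
  have hmem : ∀ t, t ∈ ((P.erase b : Finset V) : Set V) ↔ t ∈ l ∧ t ≠ b := by
    intro t
    rw [Finset.mem_coe, Finset.mem_erase, h5]
    tauto
  by_cases hb : b ∈ l
  · obtain ⟨l1, l2, rfl⟩ := List.append_of_mem hb
    rw [List.nodup_append, List.nodup_cons] at h2
    have hb1 : b ∉ l1 := fun h => h2.2.2 b h b (by simp) rfl
    have hzl := (h5 z).2 hz
    simp only [List.mem_append, List.mem_cons] at hzl
    rcases hzl with hz1 | hz1 | hz1
    · left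
      refine conn_of_chain (l := l1) h1.left_of_append ?_ z hz1 x ?_
      · intro t ht
        rw [hmem]
        exact ⟨by simp [ht], fun e => hb1 (e ▸ ht)⟩
      · cases l1 with
        | nil => simp at hz1
        | cons c l1 =>
          simp at h3
          subst h3
          simp
    · exact absurd hz1 hzb
    · right
      refine conn_of_chain (l := l2) ?_ ?_ z hz1 y ?_
      · exact h1.right_of_append.tail
      · intro t ht
        rw [hmem]
        exact ⟨by simp [ht], fun e => h2.2.1.1 (e ▸ ht)⟩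
      · rw [getLast?_append_cons'] at h4
        cases l2 with
        | nil => simp at hz1
        | cons c l2 =>
          rw [List.getLast?_cons_cons] at h4
          exact List.mem_of_getLast? h4
  · left
    refine conn_of_chain (l := l) h1 ?_ z ((h5 z).2 hz) x hxl
    intro t ht
    rw [hmem]
    exact ⟨ht, fun e => hb (e ▸ ht)⟩

theorem MinConn.conn_all {R P : Finset V} {x y : V} (h : MinConn G R x y P) (z : V)
    (hz : z ∈ P) : Conn G (P : Set V) x z := by
  obtain ⟨l, h1, h2, h3, h4, h5, h6⟩ := h.list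
  exact conn_of_chain h1 (fun t ht => (h5 t).1 ht) x ((h5 x).2 h.conn.left) z ((h5 z).2 hz)

theorem MinConn.deg {R P : Finset V} {x y : V} (h : MinConn G R x y P) (z : V) (hz : z ∈ P) :
    (G.neighborSet z ∩ P).ncard ≤ 2 ∧ (z = x ∨ z = y → (G.neighborSet z ∩ P).ncard ≤ 1) := by
  obtain ⟨l, h1, h2, h3, h4, h5, h6⟩ := h.list
  obtain ⟨l1, l2, hl⟩ := List.append_of_mem ((h5 z).2 hz)
  have hsub : G.neighborSet z ∩ P ⊆ {t | t ∈ l1.getLast?} ∪ {t | t ∈ l2.head?} := by
    rintro t ⟨ht1, ht2⟩
    have ht1 : G.Adj z t := ht1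
    have htl := (h5 t).2 ht2
    rw [hl] at htl
    simp only [List.mem_append, List.mem_cons] at htl
    rcases htl with h' | h' | h'
    · left
      obtain ⟨m1, m2, hm⟩ := List.append_of_mem h'
      have := h6 m1 t (m2 ++ z :: l2) z (by rw [hl, hm]; simp) (by simp) ht1.symm
      cases m2 with
      | nil =>
        rw [hm]
        simp
      | cons c m2 =>
        simp at this
        exfalso
        rw [hl, hm, this] at h2
        simp [List.nodup_append] at h2
    · subst h'
      exact absurd ht1 (G.loopless.irrefl _)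
    · right
      exact h6 l1 z l2 t hl h' ht1
  have hc1 : ({t | t ∈ l1.getLast?} : Set V).ncard ≤ 1 := by
    rw [Set.ncard_le_one (by
      apply Set.Subsingleton.finite
      intro a ha b hb
      have ha' : l1.getLast? = some a := ha
      have hb' : l1.getLast? = some b := hb
      rw [ha'] at hb'
      simpa using hb')]
    intro a ha b hb
    have ha' : l1.getLast? = some a := ha
    have hb' : l1.getLast? = some b := hb
    rw [ha'] at hb'
    simpa using hb'
  have hc2 : ({t | t ∈ l2.head?} : Set V).ncard ≤ 1 := by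
    rw [Set.ncard_le_one (by
      apply Set.Subsingleton.finite
      intro a ha b hb
      have ha' : l2.head? = some a := ha
      have hb' : l2.head? = some b := hb
      rw [ha'] at hb'
      simpa using hb')]
    intro a ha b hb
    have ha' : l2.head? = some a := ha
    have hb' : l2.head? = some b := hb
    rw [ha'] at hb'
    simpa using hb'
  have hf1 : ({t | t ∈ l1.getLast?} : Set V).Finite := by
    apply Set.Subsingleton.finite
    intro a ha b hb
    have ha' : l1.getLast? = some a := ha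
    have hb' : l1.getLast? = some b := hb
    rw [ha'] at hb'
    simpa using hb'
  have hf2 : ({t | t ∈ l2.head?} : Set V).Finite := by
    apply Set.Subsingleton.finite
    intro a ha b hb
    have ha' : l2.head? = some a := ha
    have hb' : l2.head? = some b := hb
    rw [ha'] at hb'
    simpa using hb'
  refine ⟨?_, ?_⟩
  · calc (G.neighborSet z ∩ P).ncard ≤ ({t | t ∈ l1.getLast?} ∪ {t | t ∈ l2.head?} : Set V).ncard :=
        Set.ncard_le_ncard hsub (hf1.union hf2)
      _ ≤ ({t | t ∈ l1.getLast?} : Set V).ncard + ({t | t ∈ l2.head?} : Set V).ncard :=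
        Set.ncard_union_le _ _
      _ ≤ 2 := by omega
  · rintro (rfl | rfl)
    · have : l1 = [] := by
        cases l1 with
        | nil => rfl
        | cons c l1 =>
          rw [hl] at h3 h2
          simp at h3
          subst h3
          simp at h2
      subst this
      have hsub' : G.neighborSet z ∩ P ⊆ {t | t ∈ l2.head?} := by
        intro t ht
        rcases hsub ht with h | h
        · simp at h
        · exact h
      exact (Set.ncard_le_ncard hsub' hf2).trans hc2
    · have : l2 = [] := by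
        cases l2 with
        | nil => rfl
        | cons c l2 =>
          rw [hl] at h4 h2
          rw [getLast?_append_cons', List.getLast?_cons_cons] at h4
          have := List.mem_of_getLast? h4
          rw [List.nodup_append, List.nodup_cons] at h2
          exact absurd this h2.2.1.1
      subst this
      have hsub' : G.neighborSet z ∩ P ⊆ {t | t ∈ l1.getLast?} := by
        intro t ht
        rcases hsub ht with h | h
        · exact h
        · simp at h
      exact (Set.ncard_le_ncard hsub' hf1).trans hc1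

end

section

variable [DecidableEq V] {G : SimpleGraph V}

/-- path vertices have degree at most two -/
theorem deg_path {S K P : Finset V} {x1 y1 x2 y2 : V} (h : ECut G S K x1 y1 x2 y2)
    (hP : MinConn G (S \ K) x1 x2 P) (z : V) (hz : z ∈ P) :
    dgS G ((K ∪ P : Finset V) : Set V) z ≤ 2 := by
  have hzS := Finset.mem_sdiff.1 (hP.sub hz)
  obtain ⟨d1, d2⟩ := hP.deg z hz
  unfold dgS
  by_cases hx : z = x1 ∨ z = x2
  · have hsub : ∃ y, G.neighborSet z ∩ ((K ∪ P : Finset V) : Set V) ⊆
        {y} ∪ (G.neighborSet z ∩ P) := by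
      rcases hx with rfl | rfl
      · refine ⟨y1, ?_⟩
        rintro t ⟨ht1, ht2⟩
        have ht1 : G.Adj z t := ht1
        rw [Finset.mem_coe, Finset.mem_union] at ht2
        rcases ht2 with ht2 | ht2
        · rcases h.cut.only t ht2 z hzS.1 hzS.2 ht1.symm with h' | h'
          · exact Or.inl h'.1
          · exact absurd h'.2 h.cut.xne
        · exact Or.inr ⟨ht1, ht2⟩
      · refine ⟨y2, ?_⟩
        rintro t ⟨ht1, ht2⟩
        have ht1 : G.Adj z t := ht1
        rw [Finset.mem_coe, Finset.mem_union] at ht2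
        rcases ht2 with ht2 | ht2
        · rcases h.cut.only t ht2 z hzS.1 hzS.2 ht1.symm with h' | h'
          · exact absurd h'.2 h.cut.xne.symm
          · exact Or.inl h'.1
        · exact Or.inr ⟨ht1, ht2⟩
    obtain ⟨y, hsub⟩ := hsub
    have e1 := Set.ncard_le_ncard hsub (Set.toFinite _)
    have e2 := Set.ncard_union_le {y} (G.neighborSet z ∩ P)
    rw [Set.ncard_singleton] at e2
    have := d2 hx
    omega
  · refine (Set.ncard_le_ncard ?_ (Set.toFinite _)).trans d1
    rintro t ⟨ht1, ht2⟩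
    have ht1 : G.Adj z t := ht1
    rw [Finset.mem_coe, Finset.mem_union] at ht2
    rcases ht2 with ht2 | ht2
    · exfalso
      apply hx
      rcases h.cut.only t ht2 z hzS.1 hzS.2 ht1.symm with h' | h'
      · exact Or.inl h'.2
      · exact Or.inr h'.2
    · exact ⟨ht1, ht2⟩

theorem min_v {S C : Finset V} {a : V} (h : VCut G S a C) (hmin : NoSmall G S C.card) :
    Irr G (insert a C) := by
  have hTS : insert a C ⊆ S := by
    intro z hz
    rcases Finset.mem_insert.1 hz with rfl | hz
    · exact h.aS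
    · exact h.sub hz
  have hNC : ∀ u ∈ C, ∀ w ∈ S, G.Adj u w → w ∈ insert a C := by
    intro u hu w hw huw
    rw [Finset.mem_insert]
    by_cases hwC : w ∈ C
    · exact Or.inr hwC
    · exact Or.inl (h.only u hu w hw hwC huw)
  constructor
  · intro b D hD
    have key : ∀ D, VCut G (insert a C) b D → a ∉ D → False := by
      intro D hD haD
      have hDC : D ⊆ C := by
        intro z hz
        rcases Finset.mem_insert.1 (hD.sub hz) with rfl | h'
        · exact absurd hz haD
        · exact h'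
      have hDlt : D ⊂ C := by
        refine ⟨hDC, ?_⟩
        intro hCD
        rcases Finset.mem_insert.1 hD.aS with rfl | hb
        · obtain ⟨z, hz, hzb, hzD⟩ := hD.other
          rcases Finset.mem_insert.1 hz with h' | h'
          · exact hzb h'
          · exact hzD (hCD h')
        · exact hD.aC (hCD hb)
      have hV : VCut G S b D := by
        refine ⟨hTS hD.aS, fun z hz => hTS (hD.sub hz), hD.aC, hD.ne, ?_, ?_⟩
        · obtain ⟨z, hz, hzb, hzD⟩ := hD.other
          exact ⟨z, hTS hz, hzb, hzD⟩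
        · intro u hu w hw hwD huw
          exact hD.only u hu w (hNC u (hDC hu) w hw huw) hwD huw
      have h1 := hmin.1 b D hV
      have h2 := Finset.card_lt_card hDlt
      omega
    by_cases haD : a ∈ D
    · refine key _ hD.compl ?_
      intro h'
      exact (Finset.mem_sdiff.1 h').2 haD
    · exact key D hD haD
  · intro W z1 w1 z2 w2 hW
    have key : ∀ W z1 w1 z2 w2, ECut G (insert a C) W z1 w1 z2 w2 → a ∉ W → False := by
      intro W z1 w1 z2 w2 hW haW
      have hWC : W ⊆ C := by
        intro z hz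
        rcases Finset.mem_insert.1 (hW.cut.sub hz) with rfl | h'
        · exact absurd hz haW
        · exact h'
      have hWlt : W ⊂ C := by
        refine ⟨hWC, ?_⟩
        intro hCW
        have h1 : z1 = a := by
          rcases Finset.mem_insert.1 (Finset.mem_coe.1 hW.cut.x1S) with h' | h'
          · exact h'
          · exact absurd (hCW h') hW.cut.x1K
        have h2 : z2 = a := by
          rcases Finset.mem_insert.1 (Finset.mem_coe.1 hW.cut.x2S) with h' | h'
          · exact h'
          · exact absurd (hCW h') hW.cut.x2K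
        exact hW.cut.xne (h1.trans h2.symm)
      have hsub : ((insert a C : Finset V) : Set V) ⊆ (S : Set V) := by
        intro z hz; exact hTS hz
      have hE : ECut G S W z1 w1 z2 w2 := by
        refine ⟨⟨fun z hz => hsub (hW.cut.sub hz), hW.cut.y1K, hW.cut.y2K, hsub hW.cut.x1S,
          hsub hW.cut.x2S, hW.cut.x1K, hW.cut.x2K, hW.cut.xne, hW.cut.yne, hW.cut.adj1,
          hW.cut.adj2, ?_⟩, hW.connO.mono (Set.diff_subset_diff_left hsub), hW.connI, ?_, ?_⟩
        · intro u hu w hw hwW huw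
          exact hW.cut.only u hu w (hNC u (hWC hu) w hw huw) hwW huw
        · obtain ⟨u, hu, hd⟩ := hW.degI
          exact ⟨u, hu, hd.trans (dgS_mono hsub u)⟩
        · obtain ⟨u, hu, huW, hd⟩ := hW.degO
          exact ⟨u, hTS hu, huW, hd.trans (dgS_mono hsub u)⟩
      have h1 := hmin.2 W _ _ _ _ hE
      have h2 := Finset.card_lt_card hWlt
      omega
    by_cases haW : a ∈ W
    · refine key _ _ _ _ _ hW.compl ?_
      intro h'
      exact (Finset.mem_sdiff.1 h').2 haW
    · exact key _ _ _ _ _ hW haW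

/-- crossing edge -/
theorem cross_edge {R W : Set V} {p q : V} (h : Conn G R p q) (hp : p ∈ W) (hq : q ∉ W) :
    ∃ u w, u ∈ R ∧ w ∈ R ∧ u ∈ W ∧ w ∉ W ∧ G.Adj u w := by
  by_contra hno
  push Not at hno
  refine hq (h.closed (fun z => z ∈ W) hp ?_)
  intro u w h1 h2 h3 h4
  by_contra h5
  exact hno u w h1.right h4 h2 h5 h3

theorem min_e {S K P : Finset V} {x1 y1 x2 y2 : V} (h : ECut G S K x1 y1 x2 y2)
    (hmin : NoSmall G S K.card) (hP : MinConn G (S \ K) x1 x2 P) : Irr G (K ∪ P) := by
  have hKS : ∀ z ∈ K, z ∈ S := fun z hz => h.cut.sub hz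
  have hPS : ∀ z ∈ P, z ∈ S ∧ z ∉ K := fun z hz => Finset.mem_sdiff.1 (hP.sub hz)
  have hx1P : x1 ∈ P := hP.conn.left
  have hx2P : x2 ∈ P := hP.conn.right
  have hTS : ∀ z ∈ K ∪ P, z ∈ S := by
    intro z hz
    rcases Finset.mem_union.1 hz with h' | h'
    · exact hKS z h'
    · exact (hPS z h').1
  have hy1 : y1 ∈ K := h.cut.y1K
  have hy2 : y2 ∈ K := h.cut.y2K
  have hx1 : x1 ∉ K := h.cut.x1K
  have hx2 : x2 ∉ K := h.cut.x2K
  have hV : ∀ a D, VCut G S a D → D ⊂ K → False := by
    intro a D h1 h2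
    have e1 := hmin.1 a D h1
    have e2 := Finset.card_lt_card h2
    omega
  have hE : ∀ D z1 w1 z2 w2, ECut G S D z1 w1 z2 w2 → D ⊂ K → False := by
    intro D z1 w1 z2 w2 h1 h2
    have e1 := hmin.2 D _ _ _ _ h1
    have e2 := Finset.card_lt_card h2
    omega
  -- `K` is connected
  have hKconn : ∀ z ∈ K, Conn G (K : Set V) y1 z := by
    intro z hz
    by_contra hno
    have hy1D : y1 ∉ comp G K z := fun h' => hno (mem_comp.1 h').symm
    have hy2D : y2 ∉ comp G K z := fun h' => hno (h.connI.trans (mem_comp.1 h').symm)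
    refine hV y1 (comp G K z) ⟨hKS y1 hy1, fun t ht => hKS t (comp_sub ht), hy1D,
      ⟨z, mem_comp.2 (.refl hz)⟩, ⟨x1, h.cut.x1S, ?_, fun h' => hx1 (comp_sub h')⟩, ?_⟩
      ⟨comp_sub, fun h' => hy1D (h' hy1)⟩
    · rintro rfl; exact hx1 hy1
    · intro u hu w hw hwD huw
      by_cases hwK : w ∈ K
      · exact absurd (comp_closed hu hwK huw) hwD
      · rcases h.cut.only u (comp_sub hu) w hw hwK huw with h' | h'
        · exact absurd (h'.1 ▸ hu) hy1D
        · exact absurd (h'.1 ▸ hu) hy2D
  constructor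
  · intro b D hD
    -- part A
    have keyA : ∀ D, VCut G (K ∪ P) b D → b ∈ K → (∀ z ∈ P, z ∉ D) → False := by
      intro D hD hb hPD
      have hDK : D ⊆ K := by
        intro z hz
        rcases Finset.mem_union.1 (hD.sub hz) with h' | h'
        · exact h'
        · exact absurd hz (hPD z h')
      refine hV b D ⟨hKS b hb, fun t ht => hKS t (hDK ht), hD.aC, hD.ne, ⟨x1, h.cut.x1S, ?_,
        hPD x1 hx1P⟩, ?_⟩ ⟨hDK, fun h' => hD.aC (h' hb)⟩
      · rintro rfl; exact hx1 hb
      · intro u hu w hw hwD huw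
        refine hD.only u hu w ?_ hwD huw
        rw [Finset.mem_union]
        by_cases hwK : w ∈ K
        · exact Or.inl hwK
        · right
          rcases h.cut.only u (hDK hu) w hw hwK huw with h' | h'
          · exact h'.2 ▸ hx1P
          · exact h'.2 ▸ hx2P
    have keyB : ∀ D, VCut G (K ∪ P) b D → b ∈ P → (∀ z ∈ K, z ∉ D) → False := by
      intro D hD hb hKD
      obtain ⟨z, hz⟩ := hD.ne
      have hzP : z ∈ P := by
        rcases Finset.mem_union.1 (hD.sub hz) with h' | h'
        · exact absurd hz (hKD z h')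
        · exact h'
      have hzb : z ≠ b := by rintro rfl; exact hD.aC hz
      have hcl : ∀ t, Conn G ((P.erase b : Finset V) : Set V) z t → t ∈ D := by
        intro t ht
        refine ht.closed (fun z => z ∈ D) hz ?_
        intro u w h1 h2 h3 h4
        by_contra h5
        rw [Finset.mem_coe, Finset.mem_erase] at h4
        exact h4.1 (hD.only u h2 w (Finset.mem_union_right _ h4.2) h5 h3)
      rcases hP.conn_erase b z hzP hzb with h' | h'
      · have hx1D := hcl x1 h'
        have := hD.only x1 hx1D y1 (Finset.mem_union_left _ hy1) (hKD y1 hy1) h.cut.adj1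
        exact (hPS b hb).2 (this ▸ hy1)
      · have hx2D := hcl x2 h'
        have := hD.only x2 hx2D y2 (Finset.mem_union_left _ hy2) (hKD y2 hy2) h.cut.adj2
        exact (hPS b hb).2 (this ▸ hy2)
    have hbT := hD.aS
    rcases Finset.mem_union.1 hbT with hb | hb
    · -- `P` is connected and avoids `b`
      have hstep : ∀ D, VCut G (K ∪ P) b D → ∀ u ∈ D, ∀ w ∈ P, G.Adj u w → w ∈ D := by
        intro D hD u hu w hw huw
        by_contra h5
        have := hD.only u hu w (Finset.mem_union_right _ hw) h5 huw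
        exact (hPS w hw).2 (this ▸ hb)
      by_cases hx1D : x1 ∈ D
      · refine keyA _ hD.compl hb ?_
        intro z hz h'
        apply (Finset.mem_sdiff.1 h').2
        refine (hP.conn_all z hz).closed (fun z => z ∈ D) hx1D ?_
        intro u w _ h2 h3 h4
        exact hstep D hD u h2 w h4 h3
      · refine keyA _ hD hb ?_
        intro z hz h'
        apply hx1D
        refine (hP.conn_all z hz).symm.closed (fun z => z ∈ D) h' ?_
        intro u w _ h2 h3 h4
        exact hstep D hD u h2 w h4 h3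
    · have hbK := (hPS b hb).2
      have hstep : ∀ D, VCut G (K ∪ P) b D → ∀ u ∈ D, ∀ w ∈ K, G.Adj u w → w ∈ D := by
        intro D hD u hu w hw huw
        by_contra h5
        have := hD.only u hu w (Finset.mem_union_left _ hw) h5 huw
        exact hbK (this ▸ hw)
      by_cases hy1D : y1 ∈ D
      · refine keyB _ hD.compl hb ?_
        intro z hz h'
        apply (Finset.mem_sdiff.1 h').2
        refine (hKconn z hz).closed (fun z => z ∈ D) hy1D ?_
        intro u w _ h2 h3 h4
        exact hstep D hD u h2 w h4 h3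
      · refine keyB _ hD hb ?_
        intro z hz h'
        apply hy1D
        refine (hKconn z hz).symm.closed (fun z => z ∈ D) h' ?_
        intro u w _ h2 h3 h4
        exact hstep D hD u h2 w h4 h3
  · intro W z1 w1 z2 w2 hW
    have hsub : ((K ∪ P : Finset V) : Set V) ⊆ (S : Set V) := fun z hz => hTS z hz
    have hbig : ∀ u ∈ K ∪ P, 3 ≤ dgS G ((K ∪ P : Finset V) : Set V) u → u ∈ K := by
      intro u hu hd
      rcases Finset.mem_union.1 hu with h' | h'
      · exact h'
      · have := deg_path h hP u h'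
        omega
    have hKI : ∀ W z1 w1 z2 w2, ECut G (K ∪ P) W z1 w1 z2 w2 →
        ∃ k ∈ K, k ∈ W ∧ 3 ≤ dgS G ((K ∪ P : Finset V) : Set V) k := by
      intro W z1 w1 z2 w2 hW
      obtain ⟨u, hu, hd⟩ := hW.degI
      exact ⟨u, hbig u (hW.cut.sub hu) hd, hu, hd⟩
    have hKO : ∀ W z1 w1 z2 w2, ECut G (K ∪ P) W z1 w1 z2 w2 →
        ∃ k ∈ K, k ∉ W ∧ 3 ≤ dgS G ((K ∪ P : Finset V) : Set V) k := by
      intro W z1 w1 z2 w2 hW
      obtain ⟨u, hu, huW, hd⟩ := hW.degO
      exact ⟨u, hbig u hu hd, huW, hd⟩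
    -- part C
    have keyC : ∀ W z1 w1 z2 w2, ECut G (K ∪ P) W z1 w1 z2 w2 → (∀ z ∈ P, z ∉ W) → False := by
      intro W z1 w1 z2 w2 hW hPW
      obtain ⟨k2, hk2, hk2W, _⟩ := hKO _ _ _ _ _ hW
      have hWK : W ⊆ K := by
        intro z hz
        rcases Finset.mem_union.1 (hW.cut.sub hz) with h' | h'
        · exact h'
        · exact absurd hz (hPW z h')
      refine hE W z1 w1 z2 w2 ⟨⟨fun z hz => hsub (hW.cut.sub hz), hW.cut.y1K, hW.cut.y2K,
        hsub hW.cut.x1S, hsub hW.cut.x2S, hW.cut.x1K, hW.cut.x2K, hW.cut.xne, hW.cut.yne,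
        hW.cut.adj1, hW.cut.adj2, ?_⟩, hW.connO.mono (Set.diff_subset_diff_left hsub), hW.connI,
        ?_, ?_⟩ ⟨hWK, fun h' => hk2W (h' hk2)⟩
      · intro u hu w hw hwW huw
        refine hW.cut.only u hu w ?_ hwW huw
        rw [Finset.mem_coe, Finset.mem_union]
        by_cases hwK : w ∈ K
        · exact Or.inl hwK
        · right
          rcases h.cut.only u (hWK hu) w hw hwK huw with h' | h'
          · exact h'.2 ▸ hx1P
          · exact h'.2 ▸ hx2P
      · obtain ⟨u, hu, hd⟩ := hW.degI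
        exact ⟨u, hu, hd.trans (dgS_mono hsub u)⟩
      · obtain ⟨u, hu, huW, hd⟩ := hW.degO
        exact ⟨u, hTS u hu, huW, hd.trans (dgS_mono hsub u)⟩
    -- the main case: `w1, z1 ∈ P` and `w2, z2 ∈ K`
    have hxy : ∀ W z1 w1 z2 w2, ECut G (K ∪ P) W z1 w1 z2 w2 → w1 ∈ P → z1 ∈ P → w2 ∈ K → z2 ∈ K →
        (x1 ∈ W → y1 ∈ W) ∧ (x2 ∈ W → y2 ∈ W) ∧ (y1 ∈ W → x1 ∈ W) ∧ (y2 ∈ W → x2 ∈ W) := by
      intro W z1 w1 z2 w2 hW hw1 hz1 hw2 hz2
      have hcross : ∀ u ∈ W, ∀ w ∈ K ∪ P, w ∉ W → G.Adj u w → (u ∈ K → w ∈ K) ∧ (u ∈ P → w ∈ P)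
          := by
        intro u hu w hw hwW huw
        rcases hW.cut.only u hu w hw hwW huw with h' | h'
        · rw [h'.1, h'.2]
          exact ⟨fun h'' => absurd h'' (hPS _ hw1).2, fun _ => hz1⟩
        · rw [h'.1, h'.2]
          exact ⟨fun _ => hz2, fun h'' => absurd hw2 (hPS _ h'').2⟩
      refine ⟨?_, ?_, ?_, ?_⟩
      · intro h1
        by_contra h2
        exact (hPS _ ((hcross x1 h1 y1 (Finset.mem_union_left _ hy1) h2 h.cut.adj1).2 hx1P)).2 hy1
      · intro h1
        by_contra h2
        exact (hPS _ ((hcross x2 h1 y2 (Finset.mem_union_left _ hy2) h2 h.cut.adj2).2 hx2P)).2 hy2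
      · intro h1
        by_contra h2
        exact hx1 ((hcross y1 h1 x1 (Finset.mem_union_right _ hx1P) h2 h.cut.adj1.symm).1 hy1)
      · intro h1
        by_contra h2
        exact hx2 ((hcross y2 h1 x2 (Finset.mem_union_right _ hx2P) h2 h.cut.adj2.symm).1 hy2)
    have keyD : ∀ W z1 w1 z2 w2, ECut G (K ∪ P) W z1 w1 z2 w2 → w1 ∈ P → z1 ∈ P → w2 ∈ K →
        z2 ∈ K → x1 ∈ W → x2 ∈ W → False := by
      intro W z1 w1 z2 w2 hW hw1 hz1 hw2 hz2 hx1W hx2W
      obtain ⟨c1, c2, _, _⟩ := hxy _ _ _ _ _ hW hw1 hz1 hw2 hz2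
      refine hV w2 (K \ W) ⟨hKS _ hw2, fun t ht => hKS t (Finset.mem_sdiff.1 ht).1,
        fun h' => (Finset.mem_sdiff.1 h').2 hW.cut.y2K,
        ⟨z2, Finset.mem_sdiff.2 ⟨hz2, hW.cut.x2K⟩⟩,
        ⟨x1, h.cut.x1S, ?_, fun h' => hx1 (Finset.mem_sdiff.1 h').1⟩, ?_⟩
        ⟨Finset.sdiff_subset, fun h' => (Finset.mem_sdiff.1 (h' hw2)).2 hW.cut.y2K⟩
      · rintro rfl; exact hx1 hw2
      · intro u hu w hw hwD huw
        rw [Finset.mem_sdiff] at hu hwD
        by_cases hwK : w ∈ K
        · have hwW : w ∈ W := by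
            by_contra h'
            exact hwD ⟨hwK, h'⟩
          rcases hW.cut.only w hwW u (Finset.mem_coe.2 (Finset.mem_union_left _ hu.1)) hu.2
            huw.symm with h' | h'
          · exact absurd (h'.2 ▸ hu.1) (hPS _ hz1).2
          · exact h'.1
        · rcases h.cut.only u hu.1 w hw hwK huw with h' | h'
          · exact absurd (c1 hx1W) (h'.1 ▸ hu.2)
          · exact absurd (c2 hx2W) (h'.1 ▸ hu.2)
    have keyE : ∀ W z1 w1 z2 w2, ECut G (K ∪ P) W z1 w1 z2 w2 → w1 ∈ P → z1 ∈ P → w2 ∈ K →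
        z2 ∈ K → x1 ∈ W → x2 ∉ W → False := by
      intro W z1 w1 z2 w2 hW hw1 hz1 hw2 hz2 hx1W hx2W
      obtain ⟨c1, c2, c3, c4⟩ := hxy _ _ _ _ _ hW hw1 hz1 hw2 hz2
      have hy1W : y1 ∈ W := c1 hx1W
      have hy2W : y2 ∉ W := fun h' => hx2W (c4 h')
      obtain ⟨k1, hk1, hk1W, hk1d⟩ := hKI _ _ _ _ _ hW
      obtain ⟨k2, hk2, hk2W, hk2d⟩ := hKO _ _ _ _ _ hW
      have hT : ∀ z ∈ K, z ∈ ((K ∪ P : Finset V) : Set V) :=
        fun z hz => Finset.mem_coe.2 (Finset.mem_union_left _ hz)
      have hw2W : w2 ∈ W := hW.cut.y2K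
      have hz2W : z2 ∉ W := hW.cut.x2K
      -- edges leaving `K ∩ W`
      have honly : ∀ u ∈ K ∩ W, ∀ w ∈ S, w ∉ K ∩ W → G.Adj u w →
          (u = y1 ∧ w = x1) ∨ (u = w2 ∧ w = z2) := by
        intro u hu w hw hwD huw
        rw [Finset.mem_inter] at hu hwD
        by_cases hwK : w ∈ K
        · have hwW : w ∉ W := fun h' => hwD ⟨hwK, h'⟩
          rcases hW.cut.only u hu.2 w (hT w hwK) hwW huw with h' | h'
          · exact absurd (h'.1 ▸ hu.1) (hPS _ hw1).2
          · exact Or.inr h'
        · rcases h.cut.only u hu.1 w hw hwK huw with h' | h'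
          · exact Or.inl h'
          · exact absurd (h'.1 ▸ hu.2) hy2W
      by_cases hyw : y1 = w2
      · by_cases hD0 : ((K ∩ W).erase y1).Nonempty
        · refine hV y1 ((K ∩ W).erase y1) ⟨hKS _ hy1, ?_, by simp, hD0, ⟨x1, h.cut.x1S, ?_, ?_⟩, ?_⟩
            ⟨?_, fun h' => absurd (h' hy1) (by simp)⟩
          · intro t ht
            exact hKS t (Finset.mem_inter.1 (Finset.mem_of_mem_erase ht)).1
          · rintro rfl; exact hx1 hy1
          · intro h'
            exact hx1 (Finset.mem_inter.1 (Finset.mem_of_mem_erase h')).1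
          · intro u hu w hw hwD huw
            by_contra hwy
            rw [Finset.mem_erase] at hu hwD
            have hwD' : w ∉ K ∩ W := fun h' => hwD ⟨hwy, h'⟩
            rcases honly u hu.2 w hw hwD' huw with h' | h'
            · exact hu.1 h'.1
            · exact hu.1 (h'.1.trans hyw.symm)
          · intro t ht
            exact (Finset.mem_inter.1 (Finset.mem_of_mem_erase ht)).1
        · rw [Finset.not_nonempty_iff_eq_empty] at hD0
          have hall : ∀ t ∈ K, t ∈ W → t = y1 := by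
            intro t ht htW
            by_contra hne
            have : t ∈ (K ∩ W).erase y1 :=
              Finset.mem_erase.2 ⟨hne, Finset.mem_inter.2 ⟨ht, htW⟩⟩
            rw [hD0] at this
            simp at this
          have hk1y := hall k1 hk1 hk1W
          rw [hk1y] at hk1d
          have hle : dgS G ((K ∪ P : Finset V) : Set V) y1 ≤ 2 := by
            have hs : G.neighborSet y1 ∩ ((K ∪ P : Finset V) : Set V) ⊆ {x1, z2} := by
              rintro t ⟨ht1, ht2⟩
              have ht1 : G.Adj y1 t := ht1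
              have hnot : t ∉ K ∩ W := by
                intro h'
                rw [Finset.mem_inter] at h'
                have := hall t h'.1 h'.2
                subst this
                exact G.loopless.irrefl _ ht1
              rcases honly y1 (Finset.mem_inter.2 ⟨hy1, hy1W⟩) t (hsub ht2) hnot ht1 with h' | h'
              · exact Or.inl h'.2
              · exact Or.inr h'.2
            refine (Set.ncard_le_ncard hs (Set.toFinite _)).trans ?_
            have := Set.ncard_insert_le x1 {z2}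
            rw [Set.ncard_singleton] at this
            exact this
          omega
      · have hcut : TwoCut G (S : Set V) ((K ∩ W : Finset V) : Set V) x1 y1 z2 w2 := by
          refine ⟨?_, ?_, ?_, h.cut.x1S, hKS _ hz2, ?_, ?_, ?_, hyw, h.cut.adj1, hW.cut.adj2, ?_⟩
          · intro t ht
            exact hKS t (Finset.mem_inter.1 ht).1
          · exact Finset.mem_coe.2 (Finset.mem_inter.2 ⟨hy1, hy1W⟩)
          · exact Finset.mem_coe.2 (Finset.mem_inter.2 ⟨hw2, hw2W⟩)
          · intro h'; exact hx1 (Finset.mem_inter.1 h').1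
          · intro h'; exact hz2W (Finset.mem_inter.1 h').2
          · rintro rfl; exact hx1 hz2
          · intro u hu w hw hwD huw
            exact honly u hu w hw hwD huw
        have hconnI : Conn G ((K ∩ W : Finset V) : Set V) y1 w2 := by
          by_contra hno
          have hw2D : w2 ∉ comp G (K ∩ W) y1 := fun h' => hno (mem_comp.1 h')
          refine hV x1 (comp G (K ∩ W) y1) ⟨h.cut.x1S, ?_, ?_, ⟨y1, mem_comp.2 (.refl hcut.y1K)⟩,
            ⟨y2, hKS _ hy2, ?_, ?_⟩, ?_⟩ ⟨?_, ?_⟩
          · intro t ht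
            exact hKS t (Finset.mem_inter.1 (comp_sub ht)).1
          · intro h'
            exact hx1 (Finset.mem_inter.1 (comp_sub h')).1
          · rintro rfl; exact hx1 hy2
          · intro h'
            exact hy2W (Finset.mem_inter.1 (comp_sub h')).2
          · intro u hu w hw hwD huw
            by_cases hwKW : w ∈ K ∩ W
            · exact absurd (comp_closed hu hwKW huw) hwD
            · rcases honly u (comp_sub hu) w hw hwKW huw with h' | h'
              · exact h'.2
              · exact absurd (h'.1 ▸ hu) hw2D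
          · intro t ht
            exact (Finset.mem_inter.1 (comp_sub ht)).1
          · intro h'
            exact hy2W (Finset.mem_inter.1 (comp_sub (h' hy2))).2
        have hyz : Conn G ((K \ W : Finset V) : Set V) y2 z2 := by
          by_contra hno
          have hz2D : z2 ∉ comp G (K \ W) y2 := fun h' => hno (mem_comp.1 h')
          have hy2m : y2 ∈ K \ W := Finset.mem_sdiff.2 ⟨hy2, hy2W⟩
          refine hV x2 (comp G (K \ W) y2) ⟨h.cut.x2S, ?_, ?_, ⟨y2, mem_comp.2 (.refl hy2m)⟩,
            ⟨y1, hKS _ hy1, ?_, ?_⟩, ?_⟩ ⟨?_, ?_⟩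
          · intro t ht
            exact hKS t (Finset.mem_sdiff.1 (comp_sub ht)).1
          · intro h'
            exact hx2 (Finset.mem_sdiff.1 (comp_sub h')).1
          · rintro rfl; exact hx2 hy1
          · intro h'
            exact (Finset.mem_sdiff.1 (comp_sub h')).2 hy1W
          · intro u hu w hw hwD huw
            have hu' := Finset.mem_sdiff.1 (comp_sub hu)
            by_cases hwK : w ∈ K
            · by_cases hwW : w ∈ W
              · rcases hW.cut.only w hwW u (hT u hu'.1) hu'.2 huw.symm with h' | h'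
                · exact absurd (h'.2 ▸ hu'.1) (hPS _ hz1).2
                · exact absurd (h'.2 ▸ hu) hz2D
              · exact absurd (comp_closed hu (Finset.mem_sdiff.2 ⟨hwK, hwW⟩) huw) hwD
            · rcases h.cut.only u hu'.1 w hw hwK huw with h' | h'
              · exact absurd (h'.1 ▸ hy1W) hu'.2
              · exact h'.2
          · intro t ht
            exact (Finset.mem_sdiff.1 (comp_sub ht)).1
          · intro h'
            exact (Finset.mem_sdiff.1 (comp_sub (h' hy1))).2 hy1W
        refine hE (K ∩ W) x1 y1 z2 w2 ⟨hcut, ?_, hconnI, ?_, ?_⟩ ⟨Finset.inter_subset_left, ?_⟩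
        · have e1 : Conn G ((S : Set V) \ ((K ∩ W : Finset V) : Set V)) x1 x2 :=
            h.connO.mono (by
              rintro t ⟨ht1, ht2⟩
              exact ⟨ht1, fun h' => ht2 (Finset.mem_inter.1 h').1⟩)
          have e2 : Conn G ((S : Set V) \ ((K ∩ W : Finset V) : Set V)) y2 z2 :=
            hyz.mono (by
              intro t ht
              rw [Finset.mem_coe, Finset.mem_sdiff] at ht
              exact ⟨hKS _ ht.1, fun h' => ht.2 (Finset.mem_inter.1 h').2⟩)
          exact (e1.tail e2.left h.cut.adj2).trans e2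
        · exact ⟨k1, Finset.mem_inter.2 ⟨hk1, hk1W⟩, hk1d.trans (dgS_mono hsub _)⟩
        · exact ⟨k2, hKS _ hk2, fun h' => hk2W (Finset.mem_inter.1 h').2,
            hk2d.trans (dgS_mono hsub _)⟩
        · intro h'
          exact hk2W (Finset.mem_inter.1 (h' hk2)).2
    -- distribution
    by_cases hc1 : ∀ z ∈ P, z ∉ W
    · exact keyC _ _ _ _ _ hW hc1
    by_cases hc2 : ∀ z ∈ P, z ∈ W
    · refine keyC _ _ _ _ _ hW.compl ?_
      intro z hz h'
      exact (Finset.mem_sdiff.1 h').2 (hc2 z hz)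
    push Not at hc1 hc2
    obtain ⟨p1, hp1, hp1W⟩ := hc1
    obtain ⟨p2, hp2, hp2W⟩ := hc2
    obtain ⟨u, w, hu, hw, huW, hwW, huw⟩ := cross_edge (W := (W : Set V))
      ((hP.conn_all p1 hp1).symm.trans (hP.conn_all p2 hp2)) hp1W hp2W
    obtain ⟨k1, hk1, hk1W, _⟩ := hKI _ _ _ _ _ hW
    obtain ⟨k2, hk2, hk2W, _⟩ := hKO _ _ _ _ _ hW
    obtain ⟨u', w', hu', hw', huW', hwW', huw'⟩ := cross_edge (W := (W : Set V))
      ((hKconn k1 hk1).symm.trans (hKconn k2 hk2)) hk1W hk2W
    have hfin : ∀ z1 w1 z2 w2, ECut G (K ∪ P) W z1 w1 z2 w2 → w1 ∈ P → z1 ∈ P → w2 ∈ K →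
        z2 ∈ K → False := by
      intro z1 w1 z2 w2 hW hw1 hz1 hw2 hz2
      have hcm : ∀ z, z ∈ (K ∪ P) \ W ↔ z ∈ K ∪ P ∧ z ∉ W := fun z => Finset.mem_sdiff
      by_cases h1 : x1 ∈ W <;> by_cases h2 : x2 ∈ W
      · exact keyD _ _ _ _ _ hW hw1 hz1 hw2 hz2 h1 h2
      · exact keyE _ _ _ _ _ hW hw1 hz1 hw2 hz2 h1 h2
      · refine keyE _ _ _ _ _ hW.compl hz1 hw1 hz2 hw2 ?_ ?_
        · exact (hcm _).2 ⟨Finset.mem_union_right _ hx1P, h1⟩
        · intro h'; exact ((hcm _).1 h').2 h2
      · refine keyD _ _ _ _ _ hW.compl hz1 hw1 hz2 hw2 ?_ ?_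
        · exact (hcm _).2 ⟨Finset.mem_union_right _ hx1P, h1⟩
        · exact (hcm _).2 ⟨Finset.mem_union_right _ hx2P, h2⟩
    have e1 := hW.cut.only u huW w (Finset.mem_coe.2 (Finset.mem_union_right _ hw)) hwW huw
    have e2 := hW.cut.only u' huW' w' (Finset.mem_coe.2 (Finset.mem_union_left _ hw')) hwW' huw'
    have hPK : ∀ z ∈ P, z ∉ K := fun z hz => (hPS z hz).2
    rcases e1 with ⟨e11, e12⟩ | ⟨e11, e12⟩ <;> rcases e2 with ⟨e21, e22⟩ | ⟨e21, e22⟩
    · subst e11; subst e21
      exact hPK _ hu hu'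
    · refine hfin _ _ _ _ hW ?_ ?_ ?_ ?_
      · exact e11 ▸ hu
      · exact e12 ▸ hw
      · exact e21 ▸ hu'
      · exact e22 ▸ hw'
    · refine hfin _ _ _ _ hW.swap ?_ ?_ ?_ ?_
      · exact e11 ▸ hu
      · exact e12 ▸ hw
      · exact e21 ▸ hu'
      · exact e22 ▸ hw'
    · subst e11; subst e21
      exact hPK _ hu hu'

end

end FVS424
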