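import Pool.Agent.Lib.MP_424cb6_lc.SubFvs

/-! The reduction algorithm runs in polynomial time. -/

namespace FVS424

open Pool.Agent.MSR

attribute [local fun_prop] PT.eq PT.mem

section

variable {α β : Type} [En α] [En β]

theorem sz_sublist {l l' : List β} (h : l.Sublist l') : sz l ≤ sz l' := by
  induction h with
  | slnil => exact le_rfl
  | cons a _ ih => rw [sz_cons]; omega
  | cons_cons a _ ih => rw [sz_cons, sz_cons]; omega

@[fun_prop]
theorem pt_ad {M : α → List (List Bool)} {u w : α → ℕ} (hM : PT M) (hu : PT u) (hw : PT w) :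
    PT (fun a => ad (M a) (u a) (w a)) := by
  unfold FVS424.ad
  have h0 : PT (fun _ : α => ([] : List Bool)) := PT.const []
  have h1 : PT (fun _ : α => false) := PT.const false
  exact PT.getD hw (PT.getD hu hM h0) h1

@[fun_prop]
theorem pt_rm {S : α → List ℕ} {x : α → ℕ} (hS : PT S) (hx : PT x) :
    PT (fun a => rm (S a) (x a)) := by
  unfold FVS424.rm
  fun_prop

@[fun_prop]
theorem ptm_minus {S K : α → List ℕ} (hS : PT S) (hK : PT K) :
    PT (fun a => minus (S a) (K a)) := by
  unfold FVS424.minus
  fun_prop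

@[fun_prop]
theorem ptm_reach {M : α → List (List Bool)} {S : α → List ℕ} {x : α → ℕ} (hM : PT M) (hS : PT S)
    (hx : PT x) : PT (fun a => reach (ad (M a)) (S a) (x a)) := by
  unfold FVS424.reach
  obtain ⟨d, hd⟩ := hS.bound
  refine PT.iter (n := fun a => (S a).length)
    (f := fun a => (S a).filter (fun v => decide (v = x a)))
    (g := fun a R => (S a).filter (fun v => decide (v ∈ R) || R.any (fun u => ad (M a) u v)))
    (by fun_prop) (by fun_prop) (by fun_prop) ?_
  refine ⟨fun n => (n + 2) ^ d, (PB.id.add (PB.const 2)).pow d, ?_⟩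
  intro a k _
  refine le_trans (sz_sublist (l' := S a) ?_) (hd a)
  cases k with
  | zero => exact List.filter_sublist
  | succ k => rw [Function.iterate_succ_apply']; exact List.filter_sublist

@[fun_prop]
theorem pt_minconn {M : α → List (List Bool)} {R : α → List ℕ} {x y : α → ℕ} (hM : PT M)
    (hR : PT R) (hx : PT x) (hy : PT y) : PT (fun a => minconn (ad (M a)) (R a) (x a) (y a)) := by
  unfold FVS424.minconn
  obtain ⟨d, hd⟩ := hR.bound
  refine PT.foldl (l := R) (f := R)
    (g := fun a P z => bif (!decide (z = x a) && (!decide (z = y a) &&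
      decide (y a ∈ reach (ad (M a)) (rm P z) (x a)))) then rm P z else P)
    hR hR (by fun_prop) ?_
  refine ⟨fun n => (n + 2) ^ d, (PB.id.add (PB.const 2)).pow d, ?_⟩
  intro a k
  refine le_trans (sz_sublist (l' := R a) ?_) (hd a)
  have key : ∀ (l P : List ℕ), (l.foldl (fun P z => bif (!decide (z = x a) && (!decide (z = y a) &&
      decide (y a ∈ reach (ad (M a)) (rm P z) (x a)))) then rm P z else P)
      P).Sublist P := by
    intro l
    induction l with
    | nil => intro P; exact List.Sublist.refl _
    | cons z l ih =>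
      intro P
      rw [List.foldl_cons]
      refine (ih _).trans ?_
      cases (!decide (z = x a) && (!decide (z = y a) &&
        decide (y a ∈ reach (ad (M a)) (rm P z) (x a))))
      · exact List.Sublist.refl _
      · exact List.filter_sublist
  exact key _ _

@[fun_prop]
theorem pt_degl {M : α → List (List Bool)} {S : α → List ℕ} {x : α → ℕ} (hM : PT M) (hS : PT S)
    (hx : PT x) : PT (fun a => degl (ad (M a)) (S a) (x a)) := by
  unfold FVS424.degl
  fun_prop

@[fun_prop]
theorem pt_hasBig {M : α → List (List Bool)} {S K : α → List ℕ} (hM : PT M) (hS : PT S)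
    (hK : PT K) : PT (fun a => hasBig (ad (M a)) (S a) (K a)) := by
  unfold FVS424.hasBig
  fun_prop

@[fun_prop]
theorem pt_vc {M : α → List (List Bool)} {S : α → List ℕ} {x u : α → ℕ} (hM : PT M) (hS : PT S)
    (hx : PT x) (hu : PT u) : PT (fun a => vc (ad (M a)) (S a) (x a) (u a)) := by
  unfold FVS424.vc
  fun_prop

@[fun_prop]
theorem pt_vcands {M : α → List (List Bool)} {S : α → List ℕ} (hM : PT M) (hS : PT S) :
    PT (fun a => vcands (ad (M a)) (S a)) := by
  unfold FVS424.vcands
  fun_prop

@[fun_prop]
theorem pt_sideE {M : α → List (List Bool)} {S : α → List ℕ} {x1 y1 x2 : α → ℕ} (hM : PT M)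
    (hS : PT S) (h1 : PT x1) (h2 : PT y1) (h3 : PT x2) :
    PT (fun a => sideE (ad (M a)) (S a) (x1 a) (y1 a) (x2 a)) := by
  unfold FVS424.sideE
  fun_prop

@[fun_prop]
theorem pt_testE {M : α → List (List Bool)} {S K : α → List ℕ} {x1 y1 x2 y2 : α → ℕ} (hM : PT M)
    (hS : PT S) (hK : PT K) (h1 : PT x1) (h2 : PT y1) (h3 : PT x2) (h4 : PT y2) :
    PT (fun a => testE (ad (M a)) (S a) (K a) (x1 a) (y1 a) (x2 a) (y2 a)) := by
  unfold FVS424.testE
  fun_prop

@[fun_prop]
theorem pt_ec {M : α → List (List Bool)} {S : α → List ℕ} {x1 y1 x2 y2 : α → ℕ} (hM : PT M)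
    (hS : PT S) (h1 : PT x1) (h2 : PT y1) (h3 : PT x2) (h4 : PT y2) :
    PT (fun a => ec (ad (M a)) (S a) (x1 a) (y1 a) (x2 a) (y2 a)) := by
  unfold FVS424.ec
  fun_prop

@[fun_prop]
theorem pt_ecands {M : α → List (List Bool)} {S : α → List ℕ} (hM : PT M) (hS : PT S) :
    PT (fun a => ecands (ad (M a)) (S a)) := by
  unfold FVS424.ecands
  fun_prop

@[fun_prop]
theorem pt_sorted {M : α → List (List Bool)} {S : α → List ℕ} (hM : PT M) (hS : PT S) :
    PT (fun a => sorted (ad (M a)) (S a)) := by
  unfold FVS424.sorted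
  fun_prop

/-- clamped oracle -/
def vcl (V : List (List Bool) × List ℕ → ℕ) (M : List (List Bool)) (L : List ℕ) : ℕ :=
  bif leb (V (M, L)) M.length then V (M, L) else M.length

theorem vcl_le (V : List (List Bool) × List ℕ → ℕ) (M : List (List Bool)) (L : List ℕ) :
    vcl V M L ≤ M.length := by
  unfold vcl
  by_cases h : V (M, L) ≤ M.length
  · simp [leb, h]
  · simp [leb, h]

variable {V : List (List Bool) × List ℕ → ℕ}

@[fun_prop]
theorem pt_vcl (hV : PT V) {M : α → List (List Bool)} {L : α → List ℕ} (hM : PT M) (hL : PT L) :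
    PT (fun a => vcl V (M a) (L a)) := by
  unfold FVS424.vcl
  fun_prop

@[fun_prop]
theorem pt_stepV (hV : PT V) {M : α → List (List Bool)} {st : α → List ℕ × ℕ} {x : α → ℕ}
    {C : α → List ℕ} (hM : PT M) (hst : PT st) (hx : PT x) (hC : PT C) :
    PT (fun a => stepV (vcl V (M a)) (st a) (x a) (C a)) := by
  unfold FVS424.stepV
  fun_prop

@[fun_prop]
theorem pt_stepE (hV : PT V) {M : α → List (List Bool)} {st : α → List ℕ × ℕ}
    {x1 y1 x2 y2 : α → ℕ} {K : α → List ℕ} (hM : PT M) (hst : PT st) (hK : PT K)
    (h1 : PT x1) (h2 : PT y1) (h3 : PT x2) (h4 : PT y2) :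
    PT (fun a => stepE (ad (M a)) (vcl V (M a)) (st a) (K a) (x1 a) (y1 a) (x2 a) (y2 a)) := by
  unfold FVS424.stepE
  fun_prop

@[fun_prop]
theorem pt_stepc (hV : PT V) {M : α → List (List Bool)} {st : α → List ℕ × ℕ} (hM : PT M)
    (hst : PT st) : PT (fun a => stepc (ad (M a)) (vcl V (M a)) (st a)) := by
  unfold FVS424.stepc
  refine PT.lcase (l := fun a => sorted (ad (M a)) (st a).1) (f := fun a => st a)
    (g := fun a c _ => bif c.1 then stepV (vcl V (M a)) (st a) c.2.2.1 c.2.1
      else stepE (ad (M a)) (vcl V (M a)) (st a) c.2.1 c.2.2.1 c.2.2.2.1 c.2.2.2.2.1 c.2.2.2.2.2)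
    (by fun_prop) (by fun_prop) (by fun_prop)

theorem stepc_bound (V : List (List Bool) × List ℕ → ℕ) (M : List (List Bool))
    (st : List ℕ × ℕ) : (stepc (ad M) (vcl V M) st).1.Sublist st.1 ∧
      (stepc (ad M) (vcl V M) st).2 ≤ st.2 + M.length := by
  unfold FVS424.stepc
  cases sorted (ad M) st.1 with
  | nil => exact ⟨List.Sublist.refl _, Nat.le_add_right _ _⟩
  | cons c t =>
    simp only [lcase]
    cases c.1 with
    | true =>
      simp only [cond_true, stepV]
      refine ⟨?_, Nat.add_le_add_left (vcl_le _ _ _) _⟩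
      cases decide (vcl V M c.2.1 = vcl V M (c.2.2.1 :: c.2.1)) with
      | true => exact List.filter_sublist
      | false => exact List.filter_sublist.trans List.filter_sublist
    | false =>
      simp only [cond_false, stepE]
      refine ⟨?_, Nat.add_le_add_left (vcl_le _ _ _) _⟩
      cases decide (vcl V M (c.2.1 ++ minconn (ad M) (minus st.1 c.2.1) c.2.2.1 c.2.2.2.2.1) =
        vcl V M c.2.1) with
      | true => exact List.filter_sublist
      | false => exact List.filter_sublist

/-- the algorithm on an adjacency matrix -/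
def algoM (V : List (List Bool) × List ℕ → ℕ) (M : List (List Bool)) : ℕ :=
  algo (ad M) (vcl V M) (List.range M.length)

theorem pt_algoM (hV : PT V) : PT (fun M : List (List Bool) => algoM V M) := by
  unfold algoM algo
  have hit : PT (fun M : List (List Bool) =>
      (stepc (ad M) (vcl V M))^[(List.range M.length).length] (List.range M.length, 0)) := by
    refine PT.iter (n := fun M : List (List Bool) => (List.range M.length).length)
      (f := fun M => (List.range M.length, 0)) (g := fun M => stepc (ad M) (vcl V M))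
      (by fun_prop) (by fun_prop) (by fun_prop) ?_
    refine ⟨fun n => 2 * (n * (2 * n + 1)) + 1 + n * n,
      (((PB.const 2).mul (PB.id.mul (((PB.const 2).mul PB.id).add (PB.const 1)))).add
        (PB.const 1)).add (PB.id.mul PB.id), ?_⟩
    intro M k hk
    rw [List.length_range] at hk
    have key : ∀ k, ((stepc (ad M) (vcl V M))^[k] (List.range M.length, 0)).1.Sublist
        (List.range M.length) ∧
        ((stepc (ad M) (vcl V M))^[k] (List.range M.length, 0)).2 ≤ k * M.length := by
      intro k
      induction k with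
      | zero => exact ⟨List.Sublist.refl _, Nat.zero_le _⟩
      | succ k ih =>
        rw [Function.iterate_succ_apply']
        obtain ⟨h1, h2⟩ := stepc_bound V M
          ((stepc (ad M) (vcl V M))^[k] (List.range M.length, 0))
        refine ⟨h1.trans ih.1, h2.trans ?_⟩
        have := ih.2
        rw [Nat.succ_mul]
        omega
    have hlen : M.length ≤ sz M := length_le_sz M
    obtain ⟨h1, h2⟩ := key k
    have h3 := (sz_sublist h1).trans (sz_range M.length)
    have h4 : sz ((stepc (ad M) (vcl V M))^[k] (List.range M.length, 0)) =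
        2 * sz ((stepc (ad M) (vcl V M))^[k] (List.range M.length, 0)).1 + 1 +
        ((stepc (ad M) (vcl V M))^[k] (List.range M.length, 0)).2 := by
      have := sz_pair ((stepc (ad M) (vcl V M))^[k] (List.range M.length, 0)).1
        ((stepc (ad M) (vcl V M))^[k] (List.range M.length, 0)).2
      rw [sz_nat] at this
      exact this
    rw [h4]
    have h5 : M.length * (2 * M.length + 1) ≤ sz M * (2 * sz M + 1) :=
      Nat.mul_le_mul hlen (by omega)
    have h6 : k * M.length ≤ sz M * sz M := Nat.mul_le_mul (hk.trans hlen) hlen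
    simp only
    omega
  fun_prop

end

end FVS424
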