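import Pool.Agent.Lib.MP_424cb6_lc.PTAlgo

/-! The subcubic algorithm runs in polynomial time. -/

namespace FVS424

open Pool.Agent.MSR

attribute [local fun_prop] PT.eq PT.mem

section

variable {α β : Type} [En α] [En β]

theorem pt_nil (β : Type) [En β] : PT (fun _ : α => ([] : List β)) := PT.const []

attribute [local fun_prop] pt_nil

@[fun_prop]
theorem pt_nb {M : α → List (List Bool)} {v : α → ℕ} (hM : PT M) (hv : PT v) :
    PT (fun a => nb (M a) (v a)) := by
  unfold FVS424.nb
  fun_prop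

@[fun_prop]
theorem pt_m1 {M : α → List (List Bool)} {v : α → ℕ} (hM : PT M) (hv : PT v) :
    PT (fun a => m1 (M a) (v a)) := by
  unfold FVS424.m1
  fun_prop

@[fun_prop]
theorem pt_m2 {M : α → List (List Bool)} {v : α → ℕ} (hM : PT M) (hv : PT v) :
    PT (fun a => m2 (M a) (v a)) := by
  unfold FVS424.m2
  fun_prop

@[fun_prop]
theorem pt_prs {M : α → List (List Bool)} (hM : PT M) : PT (fun a => prs (M a)) := by
  unfold FVS424.prs
  fun_prop

@[fun_prop]
theorem pt_nn {M : α → List (List Bool)} (hM : PT M) : PT (fun a => nn (M a)) := by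
  unfold FVS424.nn
  fun_prop

@[fun_prop]
theorem pt_rows0 {M : α → List (List Bool)} (hM : PT M) : PT (fun a => rows0 (M a)) := by
  unfold FVS424.rows0
  fun_prop

@[fun_prop]
theorem pt_ft {M : α → List (List Bool)} {v w c c' : α → ℕ} (hM : PT M) (hv : PT v) (hw : PT w)
    (hc : PT c) (hc' : PT c') : PT (fun a => ft (M a) (v a) (w a) (c a) (c' a)) := by
  unfold FVS424.ft
  fun_prop

@[fun_prop]
theorem pt_row1 {M : α → List (List Bool)} {p v w : α → ℕ} {x : α → List ℕ} (hM : PT M)
    (hp : PT p) (hx : PT x) (hv : PT v) (hw : PT w) :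
    PT (fun a => row1 (M a) (p a) (x a) (v a) (w a)) := by
  unfold FVS424.row1
  fun_prop

@[fun_prop]
theorem pt_rows1 {M : α → List (List Bool)} {p : α → ℕ} {x : α → List ℕ} (hM : PT M)
    (hp : PT p) (hx : PT x) : PT (fun a => rows1 (M a) (p a) (x a)) := by
  unfold FVS424.rows1
  fun_prop

@[fun_prop]
theorem pt_rowsI {M : α → List (List Bool)} (hM : PT M) : PT (fun a => rowsI (M a)) := by
  unfold FVS424.rowsI
  fun_prop

theorem pt_sum {l : α → List (ℕ × ℕ)} (hl : PT l) :
    PT (fun a => (l a).foldl (fun c t => c + t.2) 0) := by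
  obtain ⟨d, hd⟩ := hl.bound
  refine PT.foldl_add (l := l) (f := fun _ => 0) (g := fun _ c t => c + t.2) hl (by fun_prop)
    (by fun_prop) ?_
  refine ⟨fun n => (n + 2) ^ d, (PB.id.add (PB.const 2)).pow d, ?_⟩
  intro a c b hb
  rw [sz_nat, sz_nat]
  have h1 := sz_mem hb
  have h2 := hd a
  rcases b with ⟨b1, b2⟩
  have h3 := sz_pair b1 b2
  rw [sz_nat, sz_nat] at h3
  simp only
  omega

@[fun_prop]
theorem pt_dense {N : α → ℕ} {sp : α → List (ℕ × ℕ)} (hN : PT N) (hsp : PT sp) :
    PT (fun a => dense (N a) (sp a)) := by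
  unfold FVS424.dense
  refine PT.map (by fun_prop) ?_
  exact pt_sum (l := fun q : α × ℕ => (sp q.1).filter (fun t => decide (t.1 = q.2))) (by fun_prop)

section

variable {rk : List (List ℕ) → ℕ → ℕ}

@[fun_prop]
theorem pt_rks (hrk : PT (fun q : List (List ℕ) × ℕ => rk q.1 q.2)) {M : α → List (List Bool)}
    {p : α → ℕ} {L : α → List (List (ℕ × ℕ))} (hM : PT M) (hp : PT p) (hL : PT L) :
    PT (fun a => rks rk (M a) (p a) (L a)) := by
  have : PT (fun a => ((L a).map (fun sp => dense (nn (M a)) sp), p a)) := by fun_prop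
  exact hrk.comp this

theorem pt_pdim (hrk : PT (fun q : List (List ℕ) × ℕ => rk q.1 q.2)) {M : α → List (List Bool)}
    {p : α → ℕ} {L : α → List (List (ℕ × ℕ))} (hM : PT M) (hp : PT p) (hL : PT L) :
    PT (fun a => pdim rk (M a) (p a) (L a)) := by
  unfold FVS424.pdim
  exact PT.sub (pt_rks hrk hM hp (by fun_prop)) (pt_rks hrk hM hp hL)

theorem pt_psup (hrk : PT (fun q : List (List ℕ) × ℕ => rk q.1 q.2)) {M : α → List (List Bool)}
    {p : α → ℕ} {L : α → List (List (ℕ × ℕ))} (hM : PT M) (hp : PT p) (hL : PT L) :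
    PT (fun a => psup rk (M a) (p a) (L a)) := by
  unfold FVS424.psup
  refine PT.length (PT.filter (by fun_prop) (PT.not (PT.eq ?_ ?_)))
  · exact pt_rks hrk (M := fun q : α × (ℕ × ℕ) => M q.1) (p := fun q => p q.1)
      (L := fun q => L q.1 ++ [[(q.2.1 * (M q.1).length + q.2.2, 1)]]) (by fun_prop) (by fun_prop)
      (by fun_prop)
  · exact pt_rks hrk (M := fun q : α × (ℕ × ℕ) => M q.1) (p := fun q => p q.1)
      (L := fun q => L q.1) (by fun_prop) (by fun_prop) (by fun_prop)

theorem pt_score (hrk : PT (fun q : List (List ℕ) × ℕ => rk q.1 q.2)) {M : α → List (List Bool)}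
    {p : α → ℕ} {x : α → List ℕ} (hM : PT M) (hp : PT p) (hx : PT x) :
    PT (fun a => score rk (M a) (p a) (x a)) := by
  unfold FVS424.score
  refine PT.add (PT.mul (PT.sub (by fun_prop) (pt_pdim hrk hM hp (by fun_prop))) (by fun_prop))
    (pt_psup hrk hM hp (by fun_prop))

@[fun_prop]
theorem pt_upd {n v t : α → ℕ} {x : α → List ℕ} (hn : PT n) (hx : PT x) (hv : PT v) (ht : PT t) :
    PT (fun a => upd (n a) (x a) (v a) (t a)) := by
  unfold FVS424.upd
  fun_prop

@[fun_prop]
theorem pt_ups {M : α → List (List Bool)} {p : α → ℕ} {x : α → List ℕ} (hM : PT M) (hp : PT p)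
    (hx : PT x) : PT (fun a => ups (M a) (p a) (x a)) := by
  unfold FVS424.ups
  fun_prop

theorem pt_stepx (hrk : PT (fun q : List (List ℕ) × ℕ => rk q.1 q.2)) {M : α → List (List Bool)}
    {p : α → ℕ} {x : α → List ℕ} (hM : PT M) (hp : PT p) (hx : PT x) :
    PT (fun a => stepx rk (M a) (p a) (x a)) := by
  unfold FVS424.stepx
  refine PT.headD (PT.filter (by fun_prop) (PT.ltb ?_ ?_)) hx
  · exact pt_score hrk (M := fun q : α × List ℕ => M q.1) (p := fun q => p q.1)
      (x := fun q => x q.1) (by fun_prop) (by fun_prop) (by fun_prop)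
  · exact pt_score hrk (M := fun q : α × List ℕ => M q.1) (p := fun q => p q.1)
      (x := fun q => q.2) (by fun_prop) (by fun_prop) (by fun_prop)

theorem sz_le_of {l : List ℕ} {p : ℕ} (h : ∀ i, l.getD i 0 ≤ p) :
    sz l ≤ l.length * (2 * p + 1) := by
  induction l with
  | nil => simp [sz_nil]
  | cons a l ih =>
    rw [sz_cons, sz_nat, List.length_cons, add_mul, one_mul]
    have h1 := ih (fun i => by simpa using h (i + 1))
    have h2 : a ≤ p := by simpa using h 0
    omega

theorem iter_length (M : List (List Bool)) (p k : ℕ) :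
    ((stepx rk M p)^[k] []).length ≤ M.length := by
  induction k with
  | zero => simp
  | succ k ih =>
    rw [Function.iterate_succ_apply']
    rcases stepx_cases (rk := rk) M p ((stepx rk M p)^[k] []) with h | h
    · rw [h.1]; exact ih
    · have h1 := h.1
      rw [ups, List.mem_map] at h1
      obtain ⟨e, _, he⟩ := h1
      rw [← he]
      simp [upd]

theorem pt_xfin (hrk : PT (fun q : List (List ℕ) × ℕ => rk q.1 q.2)) {M : α → List (List Bool)}
    {p : α → ℕ} (hM : PT M) (hp : PT p) : PT (fun a => xfin rk (M a) (p a)) := by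
  unfold FVS424.xfin
  obtain ⟨d, hd⟩ := hM.bound
  obtain ⟨e, he⟩ := hp.bound
  refine PT.iter (n := fun a => rounds (M a)) (f := fun _ => ([] : List ℕ))
    (g := fun a x => stepx rk (M a) (p a) x) (by unfold rounds; fun_prop) (by fun_prop) ?_ ?_
  · exact pt_stepx hrk (M := fun q : α × List ℕ => M q.1) (p := fun q => p q.1)
      (x := fun q => q.2) (by fun_prop) (by fun_prop) (by fun_prop)
  · refine ⟨fun n => (n + 2) ^ d * (2 * (n + 2) ^ e + 1),
      ((PB.id.add (PB.const 2)).pow d).mul
        (((PB.const 2).mul ((PB.id.add (PB.const 2)).pow e)).add (PB.const 1)), ?_⟩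
    intro a k _
    have h1 := sz_le_of (iter_le (rk := rk) (M a) (p a) k)
    have h2 := iter_length (rk := rk) (M a) (p a) k
    have h3 : (M a).length ≤ sz (M a) := length_le_sz _
    have h4 := hd a
    have h5 := he a
    rw [sz_nat] at h5
    refine h1.trans (Nat.mul_le_mul (by omega) (by omega))

@[fun_prop]
theorem pt_half {k : α → ℕ} (hk : PT k) : PT (fun a => half (k a)) := by
  unfold FVS424.half
  fun_prop

@[fun_prop]
theorem pt_prm {m : α → ℕ} (hm : PT m) : PT (fun a => prm (m a)) := by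
  unfold FVS424.prm
  fun_prop

theorem pt_subval (hrk : PT (fun q : List (List ℕ) × ℕ => rk q.1 q.2)) {M : α → List (List Bool)}
    (hM : PT M) : PT (fun a => subval rk (M a)) := by
  unfold FVS424.subval
  have hp : PT (fun a => prm ((M a).length * (M a).length + 2)) := by fun_prop
  have hx := pt_xfin hrk hM hp
  exact pt_half (PT.add (pt_pdim hrk hM hp (by fun_prop))
    (pt_pdim hrk hM hp (PT.append (pt_rows0 hM) (pt_rows1 hM hp hx))))

@[fun_prop]
theorem pt_rmat {M : α → List (List Bool)} {S : α → List ℕ} (hM : PT M) (hS : PT S) :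
    PT (fun a => rmat (M a) (S a)) := by
  unfold FVS424.rmat
  fun_prop

end

end

end FVS424
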