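import Pool.Agent.Lib.MP_424cb6_lc.Local

/-! The radical described by potentials (a sparse linear system). -/

namespace FVS424

open Module Finset

variable {V : Type*} [Fintype V] [DecidableEq V] {F : Type*} [Field F]

/-- the coefficient function of `M C ·` -/
def fC (n1 n2 : V → V) (x : V → F) (C : V → V → F) (v w : V) : F :=
  x v * ((if w = n2 v then C v (n1 v) else 0) - (if w = n1 v then C v (n2 v) else 0))

theorem Mx_eq_sum (n1 n2 : V → V) (x : V → F) (C D : V → V → F) :
    Mx n1 n2 x C D = ∑ v, ∑ w, fC n1 n2 x C v w * D v w := by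
  rw [Mx_apply]
  refine Finset.sum_congr rfl fun v _ => ?_
  have e : ∀ w, fC n1 n2 x C v w * D v w =
      (if w = n2 v then x v * C v (n1 v) * D v w else 0) -
      (if w = n1 v then x v * C v (n2 v) * D v w else 0) := by
    intro w
    unfold fC
    split_ifs <;> ring
  simp only [e]
  rw [Finset.sum_sub_distrib, Finset.sum_ite_eq', Finset.sum_ite_eq', om_apply]
  simp only [mem_univ, if_true]
  ring

/-- antisymmetric functions supported on the edges -/
def AA (F : Type*) [Field F] (G : SimpleGraph V) : Submodule F (V → V → F) where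
  carrier := {C | (∀ u v, C u v = - C v u) ∧ (∀ u v, ¬ G.Adj u v → C u v = 0)}
  zero_mem' := ⟨fun _ _ => by simp, fun _ _ _ => rfl⟩
  add_mem' := by
    rintro a b ⟨ha, ha'⟩ ⟨hb, hb'⟩
    refine ⟨fun u v => ?_, fun u v h => ?_⟩
    · simp only [Pi.add_apply]; rw [ha u v, hb u v]; ring
    · simp only [Pi.add_apply]; rw [ha' u v h, hb' u v h, add_zero]
  smul_mem' := by
    rintro c a ⟨ha, ha'⟩
    refine ⟨fun u v => ?_, fun u v h => ?_⟩
    · simp only [Pi.smul_apply, smul_eq_mul]; rw [ha u v]; ring
    · simp only [Pi.smul_apply, smul_eq_mul]; rw [ha' u v h, mul_zero]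

/-- divergence -/
def dvg (v : V) : (V → V → F) →ₗ[F] F where
  toFun D := ∑ u, D v u
  map_add' D E := by simp [Finset.sum_add_distrib]
  map_smul' c D := by simp [Finset.mul_sum]

theorem rad_iff (h2 : (2 : F) ≠ 0) {G : SimpleGraph V} {n1 n2 : V → V} {x : V → F}
    {C : V → V → F} : C ∈ radW (Mx n1 n2 x) (Z F G) ↔ C ∈ Z F G ∧ ∃ π : V → F,
      ∀ v w, G.Adj v w → fC n1 n2 x C v w - fC n1 n2 x C w v - π v + π w = 0 := by
  constructor
  · rintro ⟨hC, hrad⟩
    refine ⟨hC, ?_⟩
    set L : AA F G →ₗ[F] F := (Mx n1 n2 x C).comp (AA F G).subtype with hL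
    set d : V → (AA F G →ₗ[F] F) := fun v => (dvg v).comp (AA F G).subtype with hd
    have hker : ⨅ v, LinearMap.ker (d v) ≤ LinearMap.ker L := by
      intro D hD
      rw [Submodule.mem_iInf] at hD
      rw [LinearMap.mem_ker]
      exact hrad D ⟨D.2.1, D.2.2, fun v => LinearMap.mem_ker.1 (hD v)⟩
    have hmem := mem_span_of_iInf_ker_le_ker hker
    rw [Submodule.mem_span_range_iff_exists_fun] at hmem
    obtain ⟨c, hc⟩ := hmem
    refine ⟨c, fun v w hvw => ?_⟩
    have hD : (fun a b => (if a = v ∧ b = w then 1 else 0) - (if a = w ∧ b = v then 1 else 0) :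
        V → V → F) ∈ AA F G := by
      refine ⟨fun a b => ?_, fun a b hab => ?_⟩
      · simp only
        rw [ind_comm a b v w, ind_comm a b w v]
        ring
      · simp only
        rw [if_neg, if_neg]
        · ring
        · rintro ⟨rfl, rfl⟩; exact hab hvw.symm
        · rintro ⟨rfl, rfl⟩; exact hab hvw
    have h1 := LinearMap.congr_fun hc ⟨_, hD⟩
    have e1 : L ⟨_, hD⟩ = fC n1 n2 x C v w - fC n1 n2 x C w v := by
      show Mx n1 n2 x C _ = _
      rw [Mx_eq_sum]
      show ∑ a, ∑ b, fC n1 n2 x C a b *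
          ((if a = v ∧ b = w then (1 : F) else 0) - (if a = w ∧ b = v then 1 else 0)) = _
      have e : ∀ a b, fC n1 n2 x C a b *
          ((if a = v ∧ b = w then 1 else 0) - (if a = w ∧ b = v then 1 else 0)) =
          (if b = w then (if a = v then fC n1 n2 x C a b else 0) else 0) -
          (if b = v then (if a = w then fC n1 n2 x C a b else 0) else 0) := by
        intro a b
        by_cases h1 : a = v <;> by_cases h2 : b = w <;> by_cases h3 : a = w <;>
          by_cases h4 : b = v <;> simp [h1, h2, h3, h4] <;> simp_all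
      simp only [e, Finset.sum_sub_distrib, Finset.sum_ite_eq', mem_univ, if_true]
    have e2 : ∀ u, d u ⟨_, hD⟩ = (if u = v then 1 else 0) - (if u = w then 1 else 0) := by
      intro u
      show ∑ b, ((if u = v ∧ b = w then (1 : F) else 0) - (if u = w ∧ b = v then 1 else 0)) = _
      rw [Finset.sum_sub_distrib]
      congr 1
      · by_cases h : u = v <;> simp [h]
      · by_cases h : u = w <;> simp [h]
    rw [e1] at h1
    simp only [LinearMap.sum_apply, LinearMap.smul_apply, e2, smul_eq_mul, mul_sub, mul_ite,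
      mul_one, mul_zero, Finset.sum_sub_distrib, Finset.sum_ite_eq', mem_univ, if_true] at h1
    rw [← h1]
    ring
  · rintro ⟨hC, π, hπ⟩
    refine ⟨hC, fun D hD => ?_⟩
    have h1 : Mx n1 n2 x C D = ∑ v, ∑ w, fC n1 n2 x C v w * D v w := Mx_eq_sum _ _ _ _ _
    have h3 : Mx n1 n2 x C D = - ∑ v, ∑ w, fC n1 n2 x C w v * D v w := by
      rw [h1, Finset.sum_comm, ← Finset.sum_neg_distrib]
      refine Finset.sum_congr rfl fun v _ => ?_
      rw [← Finset.sum_neg_distrib]
      refine Finset.sum_congr rfl fun w _ => ?_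
      rw [hD.1 w v]
      ring
    have h4 : 2 * Mx n1 n2 x C D = ∑ v, ∑ w, (π v * D v w - π w * D v w) := by
      have : 2 * Mx n1 n2 x C D = ∑ v, ∑ w, fC n1 n2 x C v w * D v w -
          ∑ v, ∑ w, fC n1 n2 x C w v * D v w := by
        linear_combination h1 + h3
      rw [this, ← Finset.sum_sub_distrib]
      refine Finset.sum_congr rfl fun v _ => ?_
      rw [← Finset.sum_sub_distrib]
      refine Finset.sum_congr rfl fun w _ => ?_
      by_cases hvw : G.Adj v w
      · linear_combination (hπ v w hvw) * D v w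
      · rw [hD.2.1 v w hvw]; ring
    have h5 : ∑ v, ∑ w, (π v * D v w - π w * D v w) = 0 := by
      simp only [Finset.sum_sub_distrib]
      have e1 : ∑ v, ∑ w, π v * D v w = 0 := by
        refine Finset.sum_eq_zero fun v _ => ?_
        rw [← Finset.mul_sum, hD.2.2 v, mul_zero]
      have e2 : ∑ v, ∑ w, π w * D v w = 0 := by
        rw [Finset.sum_comm]
        refine Finset.sum_eq_zero fun w _ => ?_
        rw [← Finset.mul_sum]
        have : ∑ v, D v w = 0 := by
          have h6 := hD.2.2 w
          have h7 : ∑ v, D v w = - ∑ v, D w v := by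
            rw [← Finset.sum_neg_distrib]
            exact Finset.sum_congr rfl fun v _ => hD.1 v w
          rw [h7, h6, neg_zero]
        rw [this, mul_zero]
      rw [e1, e2, sub_zero]
    rw [h5] at h4
    exact (mul_eq_zero.1 h4).resolve_left h2

end FVS424
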