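import Pool.Agent.Lib.MP_17a834_lc.Msr.Ops

/-! # Rank modulo a prime in polynomial time. -/

open Turing Turing.TM2

namespace Pool.Agent.MSR

open Cmd N487b59b3 En

variable {α β γ δ : Type} [En α] [En β] [En γ] [En δ]

/-- remainder, with the value `0` for the modulus `0` -/
def red (p x : ℕ) : ℕ := if p = 0 then 0 else x % p

theorem red_le (p x : ℕ) : red p x ≤ p := by
  unfold red
  split_ifs with h
  · omega
  · exact (Nat.mod_lt _ (Nat.pos_of_ne_zero h)).le

@[fun_prop]
theorem PT.red {f g : α → ℕ} (hf : PT f) (hg : PT g) : PT (fun a => red (f a) (g a)) := by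
  obtain ⟨e, he⟩ := hg.bound
  have hle : ∀ p k x : ℕ, (fun y => bif MSR.leb p y then y - p else y)^[k] x ≤ x := by
    intro p k
    induction k with
    | zero => intro x; exact le_rfl
    | succ k ih =>
      intro x
      rw [Function.iterate_succ_apply]
      refine (ih _).trans ?_
      cases MSR.leb p x <;> simp
  have hsm : ∀ p k x : ℕ, x < p → (fun y => bif MSR.leb p y then y - p else y)^[k] x = x := by
    intro p k x hx
    have h1 : MSR.leb p x = false := by simp [MSR.leb, hx]
    induction k with
    | zero => rfl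
    | succ k ih =>
      rw [Function.iterate_succ_apply]
      simp only [h1, cond_false]
      exact ih
  have key : ∀ p k x : ℕ, 0 < p → x ≤ k →
      (fun y => bif MSR.leb p y then y - p else y)^[k] x = x % p := by
    intro p k
    induction k with
    | zero =>
      intro x _ hx
      have : x = 0 := by omega
      subst this
      simp
    | succ k ih =>
      intro x hp hx
      by_cases h : p ≤ x
      · rw [Function.iterate_succ_apply]
        have h1 : MSR.leb p x = true := by simp [MSR.leb, h]
        simp only [h1, cond_true]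
        rw [ih _ hp (by omega)]
        exact (Nat.mod_eq_sub_mod h).symm
      · rw [hsm p _ x (by omega)]
        exact (Nat.mod_eq_of_lt (by omega)).symm
  have h1 : PT (fun a => (fun y => bif MSR.leb (f a) y then y - f a else y)^[g a] (g a)) := by
    apply PT.iter (g := fun a y => bif MSR.leb (f a) y then y - f a else y) hg hg
    · have h2 : PT (fun p : α × ℕ => f p.1) := hf.comp (PT.fst PT.id')
      have h3 : PT (fun p : α × ℕ => p.2) := by fun_prop
      exact PT.cond (PT.leb h2 h3) (PT.sub h3 h2) h3
    · refine ⟨fun n => (n + 2) ^ e, (PB.id.add (PB.const 2)).pow e, ?_⟩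
      intro a k _
      rw [sz_nat]
      have h2 := he a
      rw [sz_nat] at h2
      exact (hle _ _ _).trans h2
  have h2 : PT (fun a => bif MSR.isz (f a) then 0 else
      (fun y => bif MSR.leb (f a) y then y - f a else y)^[g a] (g a)) :=
    PT.cond (PT.isz hf) (PT.const 0) h1
  refine h2.of_eq (fun a => ?_)
  unfold MSR.red MSR.isz
  by_cases h : f a = 0
  · simp [h]
  · have h3 : (f a == 0) = false := by simp [h]
    rw [h3, if_neg h, cond_false, key _ _ _ (Nat.pos_of_ne_zero h) le_rfl]

/-- the row obtained from `s` by eliminating the column `j` with the pivot row `r` -/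
def elim (p : ℕ) (r : List ℕ) (j : ℕ) (s : List ℕ) : List ℕ :=
  (List.range r.length).map (fun i =>
    red p (r.getD j 0 * s.getD i 0 + (p - red p (s.getD j 0)) * r.getD i 0))

/-- the columns where the row does not vanish -/
def pivs (p : ℕ) (r : List ℕ) : List ℕ :=
  (List.range r.length).filter (fun j => !isz (red p (r.getD j 0)))

/-- one step of the elimination -/
def rstep (p : ℕ) (q : ℕ × List (List ℕ)) : ℕ × List (List ℕ) :=
  lcase q.2 (q.1, []) (fun r t => lcase (pivs p r) (q.1, t) (fun j _ =>
    (q.1 + 1, t.map (elim p r j))))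

/-- the rank of the list of rows modulo `p` -/
def rankMod (L : List (List ℕ)) (p : ℕ) : ℕ := ((rstep p)^[L.length] (0, L)).1

theorem PT.elim {f : α → ℕ} {g : α → List ℕ} {h : α → ℕ} {l : α → List ℕ} (hf : PT f) (hg : PT g)
    (hh : PT h) (hl : PT l) : PT (fun a => elim (f a) (g a) (h a) (l a)) := by
  unfold MSR.elim
  apply PT.map (PT.range (PT.length hg))
  have f' : PT (fun p : α × ℕ => f p.1) := hf.comp (PT.fst PT.id')
  have g' : PT (fun p : α × ℕ => g p.1) := hg.comp (PT.fst PT.id')
  have h' : PT (fun p : α × ℕ => h p.1) := hh.comp (PT.fst PT.id')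
  have l' : PT (fun p : α × ℕ => l p.1) := hl.comp (PT.fst PT.id')
  have i' : PT (fun p : α × ℕ => p.2) := by fun_prop
  exact PT.red f' (PT.add (PT.mul (PT.getD h' g' (PT.const 0)) (PT.getD i' l' (PT.const 0)))
    (PT.mul (PT.sub f' (PT.red f' (PT.getD h' l' (PT.const 0)))) (PT.getD i' g' (PT.const 0))))

theorem PT.pivs {f : α → ℕ} {g : α → List ℕ} (hf : PT f) (hg : PT g) :
    PT (fun a => pivs (f a) (g a)) := by
  unfold MSR.pivs
  apply PT.filter (PT.range (PT.length hg))
  have f' : PT (fun p : α × ℕ => f p.1) := hf.comp (PT.fst PT.id')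
  have g' : PT (fun p : α × ℕ => g p.1) := hg.comp (PT.fst PT.id')
  have i' : PT (fun p : α × ℕ => p.2) := by fun_prop
  exact PT.not (PT.isz (PT.red f' (PT.getD i' g' (PT.const 0))))

theorem PT.rstep : PT (fun q : ℕ × (ℕ × List (List ℕ)) => rstep q.1 q.2) := by
  unfold MSR.rstep
  apply PT.lcase (by fun_prop) (by fun_prop)
  apply PT.lcase
  · exact PT.pivs (by fun_prop) (by fun_prop)
  · fun_prop
  · apply PT.pair (by fun_prop)
    apply PT.map (by fun_prop)
    exact PT.elim (by fun_prop) (by fun_prop) (by fun_prop) (by fun_prop)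

theorem sz_le_of_forall {l : List α} {B : ℕ} (h : ∀ a ∈ l, sz a ≤ B) :
    sz l ≤ l.length * (2 * B + 1) := by
  induction l with
  | nil => simp [sz_nil]
  | cons a l ih =>
    rw [sz_cons, List.length_cons]
    have h1 := h a List.mem_cons_self
    have h2 := ih (fun b hb => h b (List.mem_cons_of_mem _ hb))
    nlinarith

theorem length_elim (p : ℕ) (r : List ℕ) (j : ℕ) (s : List ℕ) :
    (elim p r j s).length = r.length := by
  simp [elim]

theorem sz_elim (p : ℕ) (r : List ℕ) (j : ℕ) (s : List ℕ) :
    sz (elim p r j s) ≤ r.length * (2 * p + 1) := by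
  have h := sz_le_of_forall (l := elim p r j s) (B := p) (fun a ha => by
    rw [sz_nat]
    unfold elim at ha
    obtain ⟨i, _, rfl⟩ := List.mem_map.mp ha
    exact red_le _ _)
  rwa [length_elim] at h

theorem rstep_nil (p c : ℕ) : rstep p (c, []) = (c, []) := rfl

theorem rstep_cons (p c : ℕ) (r : List ℕ) (t : List (List ℕ)) :
    (pivs p r = [] ∧ rstep p (c, r :: t) = (c, t)) ∨
    (∃ j, j ∈ pivs p r ∧ rstep p (c, r :: t) = (c + 1, t.map (elim p r j))) := by
  cases h : pivs p r with
  | nil => left; exact ⟨rfl, by simp [rstep, lcase, h]⟩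
  | cons j u => right; exact ⟨j, by simp, by simp [rstep, lcase, h]⟩

theorem rstep_inv (p M : ℕ) (hp : p ≤ M) (N : ℕ) (q : ℕ × List (List ℕ))
    (h1 : q.1 + q.2.length ≤ N) (h2 : ∀ s ∈ q.2, s.length ≤ M ∧ sz s ≤ M * (2 * M + 1)) :
    (rstep p q).1 + (rstep p q).2.length ≤ N ∧
      ∀ s ∈ (rstep p q).2, s.length ≤ M ∧ sz s ≤ M * (2 * M + 1) := by
  obtain ⟨c, rows⟩ := q
  cases rows with
  | nil => rw [rstep_nil]; exact ⟨h1, h2⟩
  | cons r t =>
    simp only [List.length_cons] at h1
    have hr := h2 r List.mem_cons_self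
    rcases rstep_cons p c r t with ⟨_, h⟩ | ⟨j, _, h⟩
    · rw [h]
      exact ⟨by simp only; omega, fun s hs => h2 s (List.mem_cons_of_mem _ hs)⟩
    · rw [h]
      refine ⟨by simp only [List.length_map]; omega, fun s hs => ?_⟩
      obtain ⟨s', _, rfl⟩ := List.mem_map.mp hs
      rw [length_elim]
      refine ⟨hr.1, (sz_elim _ _ _ _).trans ?_⟩
      exact Nat.mul_le_mul hr.1 (by omega)

theorem PT.rankMod : PT (fun q : List (List ℕ) × ℕ => rankMod q.1 q.2) := by
  have h1 : PT (fun q : List (List ℕ) × ℕ => (MSR.rstep q.2)^[q.1.length] (0, q.1)) := by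
    apply PT.iter (g := fun (q : List (List ℕ) × ℕ) c => MSR.rstep q.2 c)
      (f := fun q : List (List ℕ) × ℕ => ((0, q.1) : ℕ × List (List ℕ))) (by fun_prop)
      (by fun_prop)
    · have : PT (fun p : (List (List ℕ) × ℕ) × (ℕ × List (List ℕ)) => (p.1.2, p.2)) := by
        fun_prop
      exact PT.rstep.comp this
    · refine ⟨fun M => 2 * M + 1 + M * (2 * (M * (2 * M + 1)) + 1), ?_, ?_⟩
      · have hM : PB (fun n => n) := PB.id
        have h2 : PB (fun n => 2 * n + 1) := ((PB.const 2).mul hM).add (PB.const 1)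
        exact h2.add (hM.mul (((PB.const 2).mul (hM.mul h2)).add (PB.const 1)))
      · rintro ⟨L, p⟩ k _
        simp only
        set M := sz (L, p) with hM
        have hMe : M = 2 * sz L + 1 + p := by rw [hM, sz_pair, sz_nat]
        have hinv : ∀ k, ((MSR.rstep p)^[k] (0, L)).1 + ((MSR.rstep p)^[k] (0, L)).2.length ≤ L.length ∧
            ∀ s ∈ ((MSR.rstep p)^[k] (0, L)).2, s.length ≤ M ∧ sz s ≤ M * (2 * M + 1) := by
          intro k
          induction k with
          | zero =>
            refine ⟨by simp, fun s hs => ?_⟩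
            have h3 := sz_mem hs
            have h4 := length_le_sz s
            simp only [Function.iterate_zero, id_eq] at h3
            have h5 : sz s ≤ M := by omega
            refine ⟨by omega, h5.trans ?_⟩
            nlinarith
          | succ k ih =>
            rw [Function.iterate_succ_apply']
            exact rstep_inv p M (by omega) _ _ ih.1 ih.2
        obtain ⟨h3, h4⟩ := hinv k
        have h5 := sz_le_of_forall (B := M * (2 * M + 1)) (fun s hs => (h4 s hs).2)
        have h6 := length_le_sz L
        have h7 : sz ((MSR.rstep p)^[k] (0, L)) =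
            2 * ((MSR.rstep p)^[k] (0, L)).1 + 1 + sz ((MSR.rstep p)^[k] (0, L)).2 := by
          have := sz_pair ((MSR.rstep p)^[k] (0, L)).1 ((MSR.rstep p)^[k] (0, L)).2
          rw [sz_nat] at this
          exact this
        rw [h7]
        have h8 : ((MSR.rstep p)^[k] (0, L)).2.length * (2 * (M * (2 * M + 1)) + 1) ≤
            M * (2 * (M * (2 * M + 1)) + 1) := Nat.mul_le_mul_right _ (by omega)
        omega
  exact PT.fst h1

/-! ### correctness -/

section correct

variable (p : ℕ) (n : ℕ)

/-- a row as a vector over `ZMod p` -/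
def rvec (r : List ℕ) : Fin n → ZMod p := fun j => ((r.getD j 0 : ℕ) : ZMod p)

/-- the row space -/
def rspan (L : List (List ℕ)) : Submodule (ZMod p) (Fin n → ZMod p) :=
  Submodule.span (ZMod p) {v | ∃ r ∈ L, v = rvec p n r}

variable {p n}

theorem rspan_nil : rspan p n [] = ⊥ := by
  simp [rspan]

theorem rspan_cons (r : List ℕ) (t : List (List ℕ)) :
    rspan p n (r :: t) = Submodule.span (ZMod p) {rvec p n r} ⊔ rspan p n t := by
  unfold rspan
  rw [← Submodule.span_union]
  congr 1
  ext v
  simp only [List.mem_cons, exists_eq_or_imp, Set.mem_union, Set.mem_singleton_iff,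
    Set.mem_ofPred_eq]

variable [hp : Fact p.Prime]

theorem red_cast (x : ℕ) : ((red p x : ℕ) : ZMod p) = (x : ZMod p) := by
  unfold red
  rw [if_neg hp.out.ne_zero]
  simp

theorem red_eq_zero (x : ℕ) : red p x = 0 ↔ (x : ZMod p) = 0 := by
  unfold red
  rw [if_neg hp.out.ne_zero, ZMod.natCast_eq_zero_iff, Nat.dvd_iff_mod_eq_zero]

theorem rvec_elim (r : List ℕ) (hr : r.length = n) (j : Fin n) (s : List ℕ) :
    rvec p n (elim p r j s) = rvec p n r j • rvec p n s - rvec p n s j • rvec p n r := by
  funext i
  have h1 : (elim p r j s).getD i 0 = red p (r.getD j 0 * s.getD i 0 +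
      (p - red p (s.getD j 0)) * r.getD i 0) := by
    unfold elim
    rw [List.getD_eq_getElem?_getD, List.getElem?_map, List.getElem?_range (by
      rw [hr]; exact i.2)]
    rfl
  simp only [rvec, h1, red_cast, Pi.sub_apply, Pi.smul_apply, smul_eq_mul]
  push_cast [Nat.cast_sub (red_le p (s.getD j 0))]
  rw [red_cast]
  simp
  ring

theorem rspan_elim (r : List ℕ) (hr : r.length = n) (j : Fin n) (hj : rvec p n r j ≠ 0)
    (t : List (List ℕ)) :
    Submodule.span (ZMod p) {rvec p n r} ⊔ rspan p n t =
      Submodule.span (ZMod p) {rvec p n r} ⊔ rspan p n (t.map (elim p r j)) := by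
  apply le_antisymm
  · refine sup_le le_sup_left ?_
    unfold rspan
    rw [Submodule.span_le]
    rintro v ⟨s, hs, rfl⟩
    have h1 : rvec p n s = (rvec p n r j)⁻¹ • (rvec p n s j • rvec p n r) +
        (rvec p n r j)⁻¹ • rvec p n (elim p r j s) := by
      rw [rvec_elim r hr, smul_sub, smul_smul (rvec p n r j)⁻¹ (rvec p n r j),
        inv_mul_cancel₀ hj, one_smul]
      abel
    rw [SetLike.mem_coe, h1]
    refine Submodule.add_mem _ ?_ ?_
    · refine Submodule.mem_sup_left ?_
      exact Submodule.smul_mem _ _ (Submodule.smul_mem _ _ (Submodule.mem_span_singleton_self _))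
    · refine Submodule.mem_sup_right (Submodule.smul_mem _ _ (Submodule.subset_span ?_))
      exact ⟨_, List.mem_map.mpr ⟨s, hs, rfl⟩, rfl⟩
  · refine sup_le le_sup_left ?_
    unfold rspan
    rw [Submodule.span_le]
    rintro v ⟨s', hs', rfl⟩
    obtain ⟨s, hs, rfl⟩ := List.mem_map.mp hs'
    rw [SetLike.mem_coe, rvec_elim r hr]
    refine Submodule.sub_mem _ ?_ ?_
    · exact Submodule.mem_sup_right (Submodule.smul_mem _ _ (Submodule.subset_span ⟨s, hs, rfl⟩))
    · exact Submodule.mem_sup_left (Submodule.smul_mem _ _ (Submodule.mem_span_singleton_self _))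

theorem finrank_rspan_elim (r : List ℕ) (hr : r.length = n) (j : Fin n) (hj : rvec p n r j ≠ 0)
    (t : List (List ℕ)) :
    Module.finrank (ZMod p) (rspan p n (r :: t)) =
      1 + Module.finrank (ZMod p) (rspan p n (t.map (elim p r j))) := by
  rw [rspan_cons, rspan_elim r hr j hj]
  have hvan : ∀ v ∈ rspan p n (t.map (elim p r j)), v j = 0 := by
    intro v hv
    unfold rspan at hv
    induction hv using Submodule.span_induction with
    | mem v hv =>
      obtain ⟨s', hs', rfl⟩ := hv
      obtain ⟨s, hs, rfl⟩ := List.mem_map.mp hs'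
      rw [rvec_elim r hr]
      simp only [Pi.sub_apply, Pi.smul_apply, smul_eq_mul]
      ring
    | zero => rfl
    | add v w _ _ hv hw => rw [Pi.add_apply, hv, hw, add_zero]
    | smul c v _ hv => rw [Pi.smul_apply, hv, smul_zero]
  have h0 : rvec p n r ≠ 0 := fun h => hj (by rw [h]; rfl)
  have hinf : Submodule.span (ZMod p) {rvec p n r} ⊓ rspan p n (t.map (elim p r j)) = ⊥ := by
    rw [eq_bot_iff]
    rintro v ⟨hv1, hv2⟩
    obtain ⟨c, rfl⟩ := Submodule.mem_span_singleton.mp hv1
    have h1 := hvan _ hv2
    rw [Pi.smul_apply, smul_eq_mul, mul_eq_zero] at h1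
    rcases h1 with h1 | h1
    · rw [h1, zero_smul]; exact Submodule.zero_mem _
    · exact absurd h1 hj
  have h2 := Submodule.finrank_sup_add_finrank_inf_eq (Submodule.span (ZMod p) {rvec p n r})
    (rspan p n (t.map (elim p r j)))
  rw [hinf, finrank_bot, add_zero, finrank_span_singleton h0] at h2
  exact h2

theorem iterate_rstep (rows : List (List ℕ)) : ∀ (m : ℕ) (_ : rows.length = m) (c : ℕ)
    (_ : ∀ r ∈ rows, r.length = n),
    ((rstep p)^[m] (c, rows)).1 = c + Module.finrank (ZMod p) (rspan p n rows) := by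
  intro m
  induction m generalizing rows with
  | zero =>
    intro h c _
    rw [List.length_eq_zero_iff] at h
    subst h
    rw [rspan_nil, finrank_bot]
    rfl
  | succ m ih =>
    intro h c hlen
    cases rows with
    | nil => simp at h
    | cons r t =>
      have ht : t.length = m := by simpa using h
      have hr : r.length = n := hlen r List.mem_cons_self
      have hlt : ∀ r ∈ t, r.length = n := fun s hs => hlen s (List.mem_cons_of_mem _ hs)
      rw [Function.iterate_succ_apply]
      rcases rstep_cons p c r t with ⟨h1, h2⟩ | ⟨j, hj, h2⟩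
      · rw [h2, ih t ht c hlt, rspan_cons]
        have h3 : rvec p n r = 0 := by
          funext i
          have h4 : (i : ℕ) ∉ pivs p r := by rw [h1]; simp
          unfold pivs at h4
          rw [List.mem_filter] at h4
          have h5 : (i : ℕ) ∈ List.range r.length := by
            rw [List.mem_range, hr]; exact i.2
          have h6 : isz (red p (r.getD i 0)) = true := by
            by_contra h7
            exact h4 ⟨h5, by simpa using h7⟩
          have h7 : red p (r.getD i 0) = 0 := by simpa [isz] using h6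
          exact (red_eq_zero _).mp h7
        have h8 : Submodule.span (ZMod p) {rvec p n r} = ⊥ := by
          rw [Submodule.span_singleton_eq_bot]; exact h3
        rw [h8, bot_sup_eq]
      · unfold pivs at hj
        rw [List.mem_filter, List.mem_range, hr] at hj
        have h3 : rvec p n r ⟨j, hj.1⟩ ≠ 0 := by
          intro h4
          have h5 : red p (r.getD j 0) = 0 := (red_eq_zero _).mpr h4
          have h6 := hj.2
          rw [h5] at h6
          simp [isz] at h6
        rw [h2, ih (t.map (elim p r j)) (by simpa using ht) (c + 1) (fun s hs => by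
          obtain ⟨s', _, rfl⟩ := List.mem_map.mp hs
          rw [length_elim, hr]), finrank_rspan_elim r hr ⟨j, hj.1⟩ h3]
        simp only
        omega

end correct

theorem rankMod_eq (p : ℕ) [Fact p.Prime] (n : ℕ) (L : List (List ℕ))
    (hL : ∀ r ∈ L, r.length = n) :
    rankMod L p = Module.finrank (ZMod p) (Submodule.span (ZMod p)
      {v : Fin n → ZMod p | ∃ r ∈ L, ∀ j, v j = ((r.getD j 0 : ℕ) : ZMod p)}) := by
  unfold rankMod
  rw [iterate_rstep (p := p) (n := n) L _ rfl 0 hL, Nat.zero_add]
  have h1 : {v : Fin n → ZMod p | ∃ r ∈ L, ∀ j, v j = ((r.getD j 0 : ℕ) : ZMod p)} =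
      {v | ∃ r ∈ L, v = rvec p n r} := by
    ext v
    constructor
    · rintro ⟨r, hr, h⟩
      exact ⟨r, hr, funext h⟩
    · rintro ⟨r, hr, rfl⟩
      exact ⟨r, hr, fun j => rfl⟩
  rw [h1]
  rfl

end Pool.Agent.MSR
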