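import Mathlib

/-! Linear algebra of alternating forms on subspaces: radicals, one-coordinate changes, parity,
orthogonal dimension count. -/

namespace FVS424

open Module

variable {F : Type*} [Field F] {U : Type*} [AddCommGroup U] [Module F U] [FiniteDimensional F U]

theorem finrank_comap_sub (W K : Submodule F U) :
    finrank F (K.comap W.subtype) = finrank F ↥(W ⊓ K) := by
  have h := Submodule.map_comap_subtype W K
  rw [← h]
  exact (Submodule.finrank_map_subtype_eq W _).symm

/-- rank-nullity on a subspace -/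
theorem finrank_le_ker {N : Type*} [AddCommGroup N] [Module F N] [FiniteDimensional F N]
    (f : U →ₗ[F] N) (W : Submodule F U) :
    finrank F W ≤ finrank F N + finrank F ↥(W ⊓ LinearMap.ker f) := by
  have h := LinearMap.finrank_range_add_finrank_ker (f.domRestrict W)
  have h1 : finrank F (LinearMap.ker (f.domRestrict W)) = finrank F ↥(W ⊓ LinearMap.ker f) := by
    rw [← finrank_comap_sub]
    rfl
  have h2 := Submodule.finrank_le (LinearMap.range (f.domRestrict W))
  omega

theorem finrank_eq_ker {N : Type*} [AddCommGroup N] [Module F N] [FiniteDimensional F N]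
    (f : U →ₗ[F] N) (W : Submodule F U) (hs : ∀ n : N, ∃ w ∈ W, f w = n) :
    finrank F W = finrank F N + finrank F ↥(W ⊓ LinearMap.ker f) := by
  have h := LinearMap.finrank_range_add_finrank_ker (f.domRestrict W)
  have h1 : finrank F (LinearMap.ker (f.domRestrict W)) = finrank F ↥(W ⊓ LinearMap.ker f) := by
    rw [← finrank_comap_sub]
    rfl
  have h2 : LinearMap.range (f.domRestrict W) = ⊤ := by
    rw [LinearMap.range_eq_top]
    intro n
    obtain ⟨w, hw, hn⟩ := hs n
    exact ⟨⟨w, hw⟩, hn⟩
  rw [h2, finrank_top] at h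
  omega

/-- radical of the restriction of `M` to `W` -/
def radW (M : U →ₗ[F] U →ₗ[F] F) (W : Submodule F U) : Submodule F U where
  carrier := {C | C ∈ W ∧ ∀ D ∈ W, M C D = 0}
  zero_mem' := ⟨W.zero_mem, fun D _ => by simp⟩
  add_mem' := by
    rintro a b ⟨ha, ha'⟩ ⟨hb, hb'⟩
    exact ⟨W.add_mem ha hb, fun D hD => by simp [ha' D hD, hb' D hD]⟩
  smul_mem' := by
    rintro c a ⟨ha, ha'⟩
    exact ⟨W.smul_mem c ha, fun D hD => by simp [ha' D hD]⟩

omit [FiniteDimensional F U] in
theorem mem_radW {M : U →ₗ[F] U →ₗ[F] F} {W : Submodule F U} {C : U} :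
    C ∈ radW M W ↔ C ∈ W ∧ ∀ D ∈ W, M C D = 0 := Iff.rfl

omit [FiniteDimensional F U] in
theorem radW_le (M : U →ₗ[F] U →ₗ[F] F) (W : Submodule F U) : radW M W ≤ W := fun _ h => h.1

omit [FiniteDimensional F U] in
theorem alt_swap {M : U →ₗ[F] U →ₗ[F] F} (hM : ∀ C, M C C = 0) (C D : U) : M C D = - M D C := by
  have h := hM (C + D)
  simp only [map_add, LinearMap.add_apply, hM, zero_add, add_zero] at h
  exact eq_neg_of_add_eq_zero_right h

/-- orthogonal of `W` inside `Z` -/
def orthW (M : U →ₗ[F] U →ₗ[F] F) (Z W : Submodule F U) : Submodule F U where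
  carrier := {C | C ∈ Z ∧ ∀ D ∈ W, M D C = 0}
  zero_mem' := ⟨Z.zero_mem, fun D _ => by simp⟩
  add_mem' := by
    rintro a b ⟨ha, ha'⟩ ⟨hb, hb'⟩
    exact ⟨Z.add_mem ha hb, fun D hD => by simp [ha' D hD, hb' D hD]⟩
  smul_mem' := by
    rintro c a ⟨ha, ha'⟩
    exact ⟨Z.smul_mem c ha, fun D hD => by simp [ha' D hD]⟩

theorem orth_dim (M : U →ₗ[F] U →ₗ[F] F) (hM : ∀ C, M C C = 0) (Z W : Submodule F U) (hW : W ≤ Z) :
    finrank F W + finrank F (orthW M Z W) = finrank F Z + finrank F ↥(W ⊓ radW M Z) := by
  set B : LinearMap.BilinForm F Z := M.domRestrict₁₂ Z Z with hB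
  have hBM : ∀ x y : Z, B x y = M x y := fun x y => rfl
  have hr : B.IsRefl := by
    intro x y h
    rw [hBM] at h ⊢
    rw [alt_swap hM, h, neg_zero]
  have h := LinearMap.BilinForm.finrank_add_finrank_orthogonal hr (W.comap Z.subtype)
  have h1 : finrank F (W.comap Z.subtype) = finrank F W := by
    rw [finrank_comap_sub, inf_eq_right.2 hW]
  have h2 : B.orthogonal (W.comap Z.subtype) = (orthW M Z W).comap Z.subtype := by
    ext x
    rw [LinearMap.BilinForm.mem_orthogonal_iff]
    constructor
    · intro hx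
      refine ⟨x.2, fun D hD => ?_⟩
      exact hx ⟨D, hW hD⟩ hD
    · rintro ⟨_, hx⟩ y hy
      exact hx y hy
  have h3 : (W.comap Z.subtype ⊓ B.orthogonal ⊤) = (W ⊓ radW M Z).comap Z.subtype := by
    ext x
    simp only [Submodule.mem_inf, Submodule.mem_comap]
    refine and_congr_right fun _ => ?_
    rw [LinearMap.BilinForm.mem_orthogonal_iff]
    constructor
    · intro hx
      refine ⟨x.2, fun D hD => ?_⟩
      have := hx ⟨D, hD⟩ trivial
      rw [alt_swap hM]
      rw [show M D (Z.subtype x) = 0 from this, neg_zero]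
    · rintro ⟨_, hx⟩ y _
      have := hx y y.2
      show M y x = 0
      rw [alt_swap hM]
      rw [show M x y = 0 from this, neg_zero]
  rw [h1, h2, h3, finrank_comap_sub, finrank_comap_sub, inf_eq_right.2 (fun _ h => h.1),
    inf_eq_right.2 (le_trans inf_le_left hW)] at h
  exact h

/-- a functional vanishing on the radical is represented -/
theorem exists_rep (M : U →ₗ[F] U →ₗ[F] F) (hM : ∀ C, M C C = 0) (W : Submodule F U)
    (φ : U →ₗ[F] F) (h : ∀ C ∈ radW M W, φ C = 0) : ∃ D ∈ W, ∀ E ∈ W, M D E = φ E := by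
  set f : W →ₗ[F] Dual F W := M.domRestrict₁₂ W W with hf
  have hfM : ∀ x y : W, f x y = M x y := fun x y => rfl
  have hker : LinearMap.ker f = (radW M W).comap W.subtype := by
    ext x
    rw [LinearMap.mem_ker]
    constructor
    · intro hx
      refine ⟨x.2, fun D hD => ?_⟩
      have := hfM x ⟨D, hD⟩
      rw [hx] at this
      exact this.symm
    · rintro ⟨_, hx⟩
      ext y
      exact hx y y.2
  have hle : LinearMap.range f ≤ (LinearMap.ker f).dualAnnihilator := by
    rintro _ ⟨x, rfl⟩
    rw [Submodule.mem_dualAnnihilator]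
    intro y hy
    rw [LinearMap.mem_ker] at hy
    rw [hfM, alt_swap hM]
    have := hfM y x
    rw [hy] at this
    rw [← this]
    simp
  have hdim : finrank F (LinearMap.range f) = finrank F (LinearMap.ker f).dualAnnihilator := by
    have h1 := LinearMap.finrank_range_add_finrank_ker f
    have h2 := Subspace.finrank_add_finrank_dualAnnihilator_eq (LinearMap.ker f)
    omega
  have heq := Submodule.eq_of_le_of_finrank_eq hle hdim
  have hmem : φ.domRestrict W ∈ (LinearMap.ker f).dualAnnihilator := by
    rw [Submodule.mem_dualAnnihilator]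
    intro y hy
    rw [hker] at hy
    exact h y hy
  rw [← heq] at hmem
  obtain ⟨D, hD⟩ := hmem
  refine ⟨D, D.2, fun E hE => ?_⟩
  have := hfM D ⟨E, hE⟩
  rw [hD] at this
  exact this.symm

/-- `a ∧ b` -/
def wedge (a b : U →ₗ[F] F) : U →ₗ[F] U →ₗ[F] F :=
  LinearMap.mk₂ F (fun C D => a C * b D - b C * a D)
    (fun _ _ _ => by simp; ring) (fun _ _ _ => by simp; ring)
    (fun _ _ _ => by simp; ring) (fun _ _ _ => by simp; ring)

omit [FiniteDimensional F U] in
@[simp] theorem wedge_apply (a b : U →ₗ[F] F) (C D : U) : wedge a b C D = a C * b D - b C * a D :=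
  rfl

omit [FiniteDimensional F U] in
theorem wedge_self (a b : U →ₗ[F] F) (C : U) : wedge a b C C = 0 := by
  simp; ring

omit [FiniteDimensional F U] in
theorem add_wedge_self {M : U →ₗ[F] U →ₗ[F] F} (hM : ∀ C, M C C = 0) (a b : U →ₗ[F] F) (t : F)
    (C : U) : (M + t • wedge a b) C C = 0 := by
  rw [LinearMap.add_apply, LinearMap.add_apply, LinearMap.smul_apply, LinearMap.smul_apply, hM,
    wedge_self, smul_zero, add_zero]

omit [FiniteDimensional F U] in
theorem wedge_zero {a b : U →ₗ[F] F} {C D E : U} (h : wedge a b C D ≠ 0)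
    (h1 : wedge a b C E = 0) (h2 : wedge a b D E = 0) : a E = 0 ∧ b E = 0 := by
  simp only [wedge_apply] at h h1 h2
  constructor
  · have : (a C * b D - b C * a D) * a E = 0 := by linear_combination a D * h1 - a C * h2
    exact (mul_eq_zero.1 this).resolve_left h
  · have : (a C * b D - b C * a D) * b E = 0 := by linear_combination b D * h1 - b C * h2
    exact (mul_eq_zero.1 this).resolve_left h

omit [FiniteDimensional F U] in
theorem wedge_par {a b : U →ₗ[F] F} {C D : U} (hC : a C ≠ 0 ∨ b C ≠ 0) (h : wedge a b C D = 0) :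
    ∃ l : F, a D = l * a C ∧ b D = l * b C := by
  simp only [wedge_apply] at h
  rcases hC with hC | hC
  · refine ⟨a D / a C, by field_simp, ?_⟩
    rw [div_mul_eq_mul_div, eq_div_iff hC]
    linear_combination h
  · refine ⟨b D / b C, ?_, by field_simp⟩
    rw [div_mul_eq_mul_div, eq_div_iff hC]
    linear_combination -h

omit [FiniteDimensional F U] in
/-- change that makes the radical smaller -/
theorem rad_up {M : U →ₗ[F] U →ₗ[F] F} (hM : ∀ C, M C C = 0) {W : Submodule F U}
    {a b : U →ₗ[F] F} {t : F} (ht : t ≠ 0) {C D : U} (hC : C ∈ radW M W) (hD : D ∈ radW M W)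
    (h : wedge a b C D ≠ 0) {E : U} (hE : E ∈ W) (hE' : ∀ X ∈ radW M W, (M + t • wedge a b) E X = 0) :
    a E = 0 ∧ b E = 0 := by
  have key : ∀ X ∈ radW M W, wedge a b X E = 0 := by
    intro X hX
    have h1 := hE' X hX
    rw [LinearMap.add_apply, LinearMap.add_apply, LinearMap.smul_apply, LinearMap.smul_apply,
      alt_swap hM, hX.2 E hE, neg_zero, zero_add, smul_eq_mul] at h1
    rw [alt_swap (wedge_self a b), (mul_eq_zero.1 h1).resolve_left ht, neg_zero]
  exact wedge_zero h (key C hC) (key D hD)

/-- exchange element -/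
theorem exchange {M : U →ₗ[F] U →ₗ[F] F} (hM : ∀ C, M C C = 0) {W : Submodule F U}
    {a b : U →ₗ[F] F} {C : U} (hC : C ∈ radW M W)
    (h : ∀ D ∈ radW M W, wedge a b C D = 0) (h0 : a C ≠ 0 ∨ b C ≠ 0) :
    ∃ D ∈ W, a D = 0 ∧ b D = 0 ∧ (∀ E ∈ W, M D E = wedge a b C E) ∧
      ∀ t : F, C - t • D ∈ radW (M + t • wedge a b) W := by
  obtain ⟨D, hD, hDE⟩ := exists_rep M hM W (wedge a b C) h
  have h1 : wedge a b C D = 0 := by rw [← hDE D hD, hM]
  obtain ⟨l, hl1, hl2⟩ := wedge_par h0 h1
  have hD' : D - l • C ∈ W := W.sub_mem hD (W.smul_mem _ hC.1)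
  have ha : a (D - l • C) = 0 := by simp [hl1]
  have hb : b (D - l • C) = 0 := by simp [hl2]
  have hM' : ∀ E ∈ W, M (D - l • C) E = wedge a b C E := by
    intro E hE
    rw [map_sub, LinearMap.sub_apply, map_smul, LinearMap.smul_apply, hC.2 E hE, smul_zero,
      sub_zero, hDE E hE]
  refine ⟨D - l • C, hD', ha, hb, hM', fun t => ⟨W.sub_mem hC.1 (W.smul_mem _ hD'), fun E hE => ?_⟩⟩
  rw [LinearMap.add_apply, LinearMap.add_apply, LinearMap.smul_apply, LinearMap.smul_apply,
    map_sub, LinearMap.sub_apply, map_smul, LinearMap.smul_apply, hC.2 E hE, hM' E hE,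
    map_sub, LinearMap.sub_apply, map_smul, LinearMap.smul_apply]
  have : wedge a b (D - l • C) E = 0 := by
    rw [wedge_apply, ha, hb]; ring
  rw [this]
  simp

omit [FiniteDimensional F U] in
theorem rad_inf_le {M : U →ₗ[F] U →ₗ[F] F} {W : Submodule F U} {a b : U →ₗ[F] F} {t : F} {C : U}
    (hC : C ∈ radW M W) (ha : a C = 0) (hb : b C = 0) : C ∈ radW (M + t • wedge a b) W := by
  refine ⟨hC.1, fun E hE => ?_⟩
  rw [LinearMap.add_apply, LinearMap.add_apply, LinearMap.smul_apply, LinearMap.smul_apply,
    hC.2 E hE, wedge_apply, ha, hb]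
  simp

/-- the radical does not shrink if `a ∧ b` vanishes on it -/
theorem rad_down {M : U →ₗ[F] U →ₗ[F] F} (hM : ∀ C, M C C = 0) {W : Submodule F U}
    {a b : U →ₗ[F] F} (t : F) (h : ∀ C ∈ radW M W, ∀ D ∈ radW M W, wedge a b C D = 0) :
    finrank F (radW M W) ≤ finrank F (radW (M + t • wedge a b) W) := by
  by_cases hz : ∀ C ∈ radW M W, a C = 0 ∧ b C = 0
  · exact Submodule.finrank_mono fun C hC => rad_inf_le hC (hz C hC).1 (hz C hC).2
  · push Not at hz
    obtain ⟨C0, hC0, hne⟩ := hz
    have hne' : a C0 ≠ 0 ∨ b C0 ≠ 0 := by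
      by_cases h1 : a C0 = 0
      · exact Or.inr (hne h1)
      · exact Or.inl h1
    obtain ⟨D, hD, ha, hb, -, hrad⟩ := exchange hM hC0 (h C0 hC0) hne'
    -- functional `l` with `ev C = l C • ev C0`
    obtain ⟨l, hl⟩ : ∃ l : U →ₗ[F] F, ∀ C ∈ radW M W, a C = l C * a C0 ∧ b C = l C * b C0 := by
      rcases hne' with h1 | h1
      · refine ⟨(a C0)⁻¹ • a, fun C hC => ?_⟩
        have := h C0 hC0 C hC
        rw [wedge_apply] at this
        simp only [LinearMap.smul_apply, smul_eq_mul]
        constructor
        · field_simp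
        · field_simp
          linear_combination this
      · refine ⟨(b C0)⁻¹ • b, fun C hC => ?_⟩
        have := h C0 hC0 C hC
        rw [wedge_apply] at this
        simp only [LinearMap.smul_apply, smul_eq_mul]
        constructor
        · field_simp
          linear_combination -this
        · field_simp
    let f : radW M W →ₗ[F] U :=
      (LinearMap.id - t • LinearMap.smulRight l D).domRestrict (radW M W)
    have hfv : ∀ C : radW M W, f C = C - (t * l C) • D := by
      intro C
      simp [f, mul_smul]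
    have hf : ∀ C : radW M W, f C ∈ radW (M + t • wedge a b) W := by
      intro C
      have e : f C = (C - l C • C0) + l C • (C0 - t • D) := by
        rw [hfv, smul_sub, smul_smul, mul_comm t]
        abel
      rw [e]
      refine Submodule.add_mem _ ?_ (Submodule.smul_mem _ _ (hrad t))
      refine rad_inf_le (Submodule.sub_mem _ C.2 (Submodule.smul_mem _ _ hC0)) ?_ ?_
      · simp [(hl C C.2).1]
      · simp [(hl C C.2).2]
    have hinj : Function.Injective f := by
      rw [← LinearMap.ker_eq_bot, LinearMap.ker_eq_bot']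
      intro C hC
      rw [hfv] at hC
      have hC' : (C : U) = (t * l C) • D := sub_eq_zero.1 hC
      have h1 : a C = 0 := by rw [hC']; simp [ha]
      have h2 : b C = 0 := by rw [hC']; simp [hb]
      have h3 : l C = 0 := by
        have := hl C C.2
        rw [h1, h2] at this
        rcases hne' with h4 | h4
        · exact (mul_eq_zero.1 this.1.symm).resolve_right h4
        · exact (mul_eq_zero.1 this.2.symm).resolve_right h4
      rw [h3, mul_zero, zero_smul] at hC'
      exact Subtype.ext hC'
    have h1 : finrank F (LinearMap.range f) = finrank F (radW M W) :=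
      LinearMap.finrank_range_of_inj hinj
    rw [← h1]
    exact Submodule.finrank_mono (by rintro _ ⟨C, rfl⟩; exact hf C)

/-- parity of the rank of an alternating form -/
theorem rank_even (M : U →ₗ[F] U →ₗ[F] F) (hM : ∀ C, M C C = 0) : ∀ (n : ℕ) (W : Submodule F U),
    finrank F W = n → Even (finrank F W + finrank F (radW M W)) := by
  intro n
  induction n using Nat.strong_induction_on with
  | _ n ih =>
    intro W hn
    by_cases h0 : ∀ C ∈ W, ∀ D ∈ W, M C D = 0
    · have : radW M W = W := le_antisymm (radW_le M W) fun C hC => ⟨hC, h0 C hC⟩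
      rw [this]
      exact ⟨_, rfl⟩
    · push Not at h0
      obtain ⟨C, hC, D, hD, hne⟩ := h0
      have hne' : M D C ≠ 0 := by rw [alt_swap hM]; exact neg_ne_zero.2 hne
      set f : U →ₗ[F] F × F := (M C).prod (M D) with hf
      set W' := W ⊓ LinearMap.ker f with hW'
      have hs : ∀ n : F × F, ∃ w ∈ W, f w = n := by
        rintro ⟨x, y⟩
        refine ⟨(y / M D C) • C + (x / M C D) • D,
          W.add_mem (W.smul_mem _ hC) (W.smul_mem _ hD), ?_⟩
        simp [hf, hM, hne, hne']
      have hdim := finrank_eq_ker f W hs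
      rw [← hW', Module.finrank_prod, Module.finrank_self] at hdim
      have hrad : radW M W' = radW M W := by
        apply le_antisymm
        · intro E hE
          refine ⟨hE.1.1, fun X hX => ?_⟩
          have hE1 : M C E = 0 ∧ M D E = 0 := by
            have : f E = 0 := LinearMap.mem_ker.1 hE.1.2
            exact Prod.ext_iff.1 this
          obtain ⟨w, hw⟩ : ∃ w : U, w = X - ((M D X / M D C) • C + (M C X / M C D) • D) :=
            ⟨_, rfl⟩
          have hwW : w ∈ W' := by
            refine ⟨?_, ?_⟩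
            · rw [hw]
              exact W.sub_mem hX (W.add_mem (W.smul_mem _ hC) (W.smul_mem _ hD))
            · refine LinearMap.mem_ker.2 ?_
              rw [hf, hw]
              simp [hM, hne, hne']
          have h2 := hE.2 w hwW
          have hX' : X = w + ((M D X / M D C) • C + (M C X / M C D) • D) := by rw [hw]; abel
          rw [hX', map_add, h2, map_add, map_smul, map_smul, alt_swap hM E C, alt_swap hM E D,
            hE1.1, hE1.2]
          simp
        · intro E hE
          refine ⟨⟨hE.1, ?_⟩, fun X hX => hE.2 X hX.1⟩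
          refine LinearMap.mem_ker.2 (Prod.ext_iff.2 ⟨?_, ?_⟩)
          · show M C E = 0
            rw [alt_swap hM C E, hE.2 C hC, neg_zero]
          · show M D E = 0
            rw [alt_swap hM D E, hE.2 D hD, neg_zero]
      have h3 := ih (finrank F W') (by omega) W' rfl
      rw [hrad] at h3
      rw [hdim]
      obtain ⟨k, hk⟩ := h3
      exact ⟨k + 1, by omega⟩

end FVS424
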