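import Pool.Agent.Lib.MP_424cb6_lc.Barrier

/-! The trees `S_{w,x,y,z}` and the shortcut lemma. -/

namespace FVS424

open Relation

variable {V : Type*}

/-- The tree obtained from the star `K_{1,4}` by replacing the `i`-th edge by a path with `ℓ i`
edges.  The vertex `none` is the centre and `some ⟨i, j⟩` is the vertex of the `i`-th leg at distance
`j + 1` from the centre. -/
def spider (ℓ : Fin 4 → ℕ) : SimpleGraph (Option (Σ i : Fin 4, Fin (ℓ i))) :=
  SimpleGraph.fromRel fun a b =>
    match a, b with
    | none, some ⟨_, j⟩ => j.val = 0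
    | some ⟨i, j⟩, some ⟨i', j'⟩ => i = i' ∧ j.val + 1 = j'.val
    | _, _ => False

theorem spider_of_legs (G : SimpleGraph V) (ℓ : Fin 4 → ℕ) (v : V) (legs : Fin 4 → List V)
    (h : ∀ i, IsP G (v :: legs i)) (hl : ∀ i, ℓ i ≤ (legs i).length)
    (hd : ∀ i j, i ≠ j → (legs i).Disjoint (legs j)) : (spider ℓ).IsContained G := by
  let f : Option (Σ i : Fin 4, Fin (ℓ i)) → V := fun a =>
    match a with
    | none => v
    | some ⟨i, j⟩ => (legs i)[j.val]'(lt_of_lt_of_le j.2 (hl i))
  have hmem : ∀ i j, f (some ⟨i, j⟩) ∈ legs i := fun i j => List.getElem_mem _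
  have hrel : ∀ a b, (match a, b with
    | none, some ⟨_, j⟩ => j.val = 0
    | some ⟨i, j⟩, some ⟨i', j'⟩ => i = i' ∧ j.val + 1 = j'.val
    | _, _ => False : Prop) → G.Adj (f a) (f b) := by
    intro a b hab
    match a, b, hab with
    | none, some ⟨i, j⟩, hab =>
      have hj : j.val = 0 := hab
      have hlen : 0 < (legs i).length := lt_of_lt_of_le (hj ▸ j.2) (hl i)
      have := (h i).1.getElem 0 (by simpa using hlen)
      simpa [f, hj] using this
    | some ⟨i, j⟩, some ⟨i', j'⟩, hab =>
      obtain ⟨h1, h2⟩ : i = i' ∧ j.val + 1 = j'.val := hab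
      subst h1
      have hlen : j'.val < (legs i).length := lt_of_lt_of_le j'.2 (hl i)
      have := (h i).1.getElem (j.val + 1) (by simp; omega)
      simpa [f, ← h2] using this
  refine ⟨⟨⟨f, ?_⟩, ?_⟩⟩
  · intro a b hab
    obtain ⟨_, hab | hab⟩ := hab
    · exact hrel a b hab
    · exact (hrel b a hab).symm
  · intro a b hab
    have hab' : f a = f b := hab
    match a, b, hab' with
    | none, none, _ => rfl
    | none, some ⟨i, j⟩, hab' =>
      exfalso
      have := (h i).2
      rw [List.nodup_cons] at this
      apply this.1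
      have h2 : f none = v := rfl
      rw [← h2, hab']
      exact hmem i j
    | some ⟨i, j⟩, none, hab' =>
      exfalso
      have := (h i).2
      rw [List.nodup_cons] at this
      apply this.1
      have h2 : f none = v := rfl
      rw [← h2, ← hab']
      exact hmem i j
    | some ⟨i, j⟩, some ⟨i', j'⟩, hab' =>
      by_cases hii : i = i'
      · subst hii
        have hnd := (List.nodup_cons.1 (h i).2).2
        have : j.val = j'.val := (List.Nodup.getElem_inj_iff hnd).1 hab'
        rw [Fin.ext this]
      · exfalso
        exact hd i i' hii (hmem i j) (hab' ▸ hmem i' j')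

/-- **Shortcut lemma.** -/
theorem spider_of_fan [Finite V] (G : SimpleGraph V) (v : V) (p q r N : ℕ) (hN : 1 ≤ N)
    (hp : p ≤ N) (hq : q ≤ N)
    (hr : r ≤ N) (hfan : Fan G v (2 * N)) (hdeg : 4 ≤ (G.neighborSet v).ncard) :
    (spider ![1, p, q, r]).IsContained G := by
  classical
  obtain ⟨P, hP1, hP2⟩ := hfan
  have hcons : ∀ i, ∃ a l, P i = a :: l := by
    intro i
    cases hPi : P i with
    | nil =>
      have := (hP1 i).2
      rw [hPi] at this
      simp at this
      omega
    | cons a l => exact ⟨a, l, rfl⟩
  choose a l hal using hcons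
  -- a fourth neighbour
  obtain ⟨u, hu, hua⟩ : ∃ u, G.Adj v u ∧ ∀ i, u ≠ a i := by
    by_contra hno
    push Not at hno
    have hsub : G.neighborSet v ⊆ Set.range a := by
      intro u hu
      obtain ⟨i, hi⟩ := hno u hu
      exact ⟨i, hi.symm⟩
    have h1 := Set.ncard_le_ncard hsub (Set.toFinite _)
    have h2 : (Set.range a).ncard ≤ 3 := by
      rw [← Set.image_univ]
      refine (Set.ncard_image_le (Set.toFinite _)).trans ?_
      rw [Set.ncard_univ]
      simp
    omega
  have hfin : ∀ (x : V) (Q : Fin 3 → List V), G.Adj v x → (∀ i, x ∉ Q i) → (∀ i, IsP G (v :: Q i)) →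
      (∀ i, N ≤ (Q i).length) → (∀ i j, i ≠ j → (Q i).Disjoint (Q j)) →
      (spider ![1, p, q, r]).IsContained G := by
    intro x Q hx hxQ hQ1 hQ2 hQ3
    refine spider_of_legs G _ v (Fin.cons [x] Q) ?_ ?_ ?_
    · intro i
      refine Fin.cases ?_ (fun i => ?_) i
      · simp only [Fin.cons_zero]
        refine ⟨by simpa using hx, ?_⟩
        simp [hx.ne]
      · simpa using hQ1 i
    · intro i
      refine Fin.cases ?_ (fun i => ?_) i
      · simp
      · simp only [Fin.cons_succ, Matrix.cons_val_succ]
        refine le_trans ?_ (hQ2 i)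
        fin_cases i
        · exact hp
        · exact hq
        · exact hr
    · intro i j
      refine Fin.cases ?_ (fun i => ?_) i <;> refine Fin.cases ?_ (fun j => ?_) j
      · intro h; exact absurd rfl h
      · intro _
        simp only [Fin.cons_zero, Fin.cons_succ, List.singleton_disjoint]
        exact hxQ j
      · intro _
        simp only [Fin.cons_zero, Fin.cons_succ, List.disjoint_singleton]
        exact hxQ i
      · intro h
        simp only [Fin.cons_succ]
        exact hQ3 i j (fun e => h (by rw [e]))
  by_cases hmem : ∃ i, u ∈ P i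
  swap
  · push Not at hmem
    exact hfin u P hu hmem (fun i => (hP1 i).1) (fun i => (by have := (hP1 i).2; omega)) hP2
  obtain ⟨i, hi⟩ := hmem
  rw [hal i] at hi
  rcases List.mem_cons.1 hi with h | hi'
  · exact absurd h (hua i)
  obtain ⟨t, t', ht⟩ := List.append_of_mem hi'
  have hch := (hP1 i).1.1
  have hnd := (hP1 i).1.2
  have hlen := (hP1 i).2
  rw [hal i, ht] at hch hnd hlen
  have hPi : P i = (a i :: t) ++ u :: t' := by rw [hal i, ht]; rfl
  have hdis : ∀ j, j ≠ i → ∀ z ∈ (a i :: t) ++ u :: t', z ∉ P j := by
    intro j hj z hz hz'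
    exact hP2 i j (Ne.symm hj) (hPi ▸ hz) hz'
  have hnd' : v ∉ a i :: (t ++ u :: t') ∧ (a i :: (t ++ u :: t')).Nodup := List.nodup_cons.1 hnd
  have hnd2 : (a i :: t).Nodup ∧ (u :: t').Nodup ∧ ∀ z ∈ a i :: t, ∀ z' ∈ u :: t', z ≠ z' := by
    have := hnd'.2
    rw [← List.cons_append, List.nodup_append] at this
    exact this
  have hupd : ∀ (Qi : List V) (x : V), G.Adj v x → (∀ z ∈ Qi, z ∈ (a i :: t) ++ u :: t') →
      x ∈ (a i :: t) ++ u :: t' → x ∉ Qi → IsP G (v :: Qi) → N ≤ Qi.length →
      (spider ![1, p, q, r]).IsContained G := by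
    intro Qi x hx hQ hxm hxQ hIP hQl
    refine hfin x (Function.update P i Qi) hx ?_ ?_ ?_ ?_
    · intro j
      by_cases hj : j = i
      · subst hj; simpa using hxQ
      · rw [Function.update_of_ne hj]
        exact hdis j hj x hxm
    · intro j
      by_cases hj : j = i
      · subst hj; simpa using hIP
      · rw [Function.update_of_ne hj]
        exact (hP1 j).1
    · intro j
      by_cases hj : j = i
      · subst hj; simpa using hQl
      · rw [Function.update_of_ne hj]
        have := (hP1 j).2
        omega
    · intro j k hjk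
      by_cases hj : j = i
      · subst hj
        rw [Function.update_self, Function.update_of_ne (Ne.symm hjk)]
        intro z hz hz'
        exact hdis k (Ne.symm hjk) z (hQ z hz) hz'
      · by_cases hk : k = i
        · subst hk
          rw [Function.update_self, Function.update_of_ne hj]
          intro z hz hz'
          exact hdis j hj z (hQ z hz') hz
        · rw [Function.update_of_ne hj, Function.update_of_ne hk]
          exact hP2 j k hjk
  by_cases hlong : N ≤ (a i :: t).length
  · refine hupd (a i :: t) u hu (fun z hz => List.mem_append_left _ hz) (by simp) ?_ ?_ hlong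
    · intro h
      exact hnd2.2.2 u h u (by simp) rfl
    · refine ⟨?_, ?_⟩
      · rw [← List.cons_append, ← List.cons_append] at hch
        exact hch.left_of_append
      · rw [List.nodup_cons]
        refine ⟨?_, hnd2.1⟩
        intro h
        apply hnd'.1
        rw [← List.cons_append]
        exact List.mem_append_left _ h
  · refine hupd (u :: t') (a i) ?_ (fun z hz => List.mem_append_right _ hz) (by simp) ?_ ?_ ?_
    · rw [List.isChain_cons_cons] at hch
      exact hch.1
    · intro h
      exact hnd2.2.2 (a i) (by simp) (a i) h rfl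
    · refine ⟨?_, ?_⟩
      · rw [List.isChain_cons_cons]
        refine ⟨hu, ?_⟩
        rw [← List.cons_append, ← List.cons_append] at hch
        exact hch.right_of_append
      · rw [List.nodup_cons]
        refine ⟨?_, hnd2.2.1⟩
        intro h
        apply hnd'.1
        rw [← List.cons_append]
        exact List.mem_append_right _ h
    · simp only [List.length_cons, List.length_append] at hlen hlong ⊢
      omega

end FVS424
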