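import Pool.Agent.Lib.MP_424cb6_lc.Spider

/-! The structure theorem: irreducible graphs without `S_{1,p,q,r}` are subcubic or have bounded
treewidth. -/

namespace FVS424

open Relation

variable {V : Type*}

theorem split_count (P : V → Bool) : ∀ (l : List V) (K : ℕ), K ≤ l.countP P →
    ∃ l1 l2, l = l1 ++ l2 ∧ l1.countP P = K := by
  intro l
  induction l with
  | nil =>
    intro K hK
    refine ⟨[], [], rfl, ?_⟩
    simp at hK ⊢
    exact hK.symm
  | cons a l ih =>
    intro K hK
    cases K with
    | zero => exact ⟨[], a :: l, rfl, rfl⟩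
    | succ K =>
      by_cases ha : P a
      · rw [List.countP_cons_of_pos ha] at hK
        obtain ⟨l1, l2, h1, h2⟩ := ih K (by omega)
        refine ⟨a :: l1, l2, by rw [h1]; rfl, ?_⟩
        rw [List.countP_cons_of_pos ha, h2]
      · rw [List.countP_cons_of_neg ha] at hK
        obtain ⟨l1, l2, h1, h2⟩ := ih (K + 1) hK
        refine ⟨a :: l1, l2, by rw [h1]; rfl, ?_⟩
        rw [List.countP_cons_of_neg ha, h2]

theorem chop {G : SimpleGraph V} (P : V → Bool) (K : ℕ) : ∀ (m : ℕ) (l : List V), IsP G l →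
    m * K ≤ l.countP P → ∃ s : Fin m → List V, (∀ i, IsP G (s i) ∧ (∀ z ∈ s i, z ∈ l) ∧
      K ≤ (s i).countP P) ∧ ∀ i j, i ≠ j → (s i).Disjoint (s j) := by
  intro m
  induction m with
  | zero =>
    intro l _ _
    exact ⟨fun i => i.elim0, fun i => i.elim0, fun i => i.elim0⟩
  | succ m ih =>
    intro l hl hm
    obtain ⟨l1, l2, h1, h2⟩ := split_count P l K (by nlinarith)
    subst h1
    rw [List.countP_append, h2] at hm
    obtain ⟨s, hs1, hs2⟩ := ih l2 ⟨hl.1.right_of_append, (List.nodup_append.1 hl.2).2.1⟩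
      (by nlinarith)
    refine ⟨Fin.cons l1 s, ?_, ?_⟩
    · intro i
      refine Fin.cases ?_ (fun i => ?_) i
      · simp only [Fin.cons_zero]
        exact ⟨⟨hl.1.left_of_append, (List.nodup_append.1 hl.2).1⟩,
          fun z hz => List.mem_append_left _ hz, h2.ge⟩
      · simp only [Fin.cons_succ]
        exact ⟨(hs1 i).1, fun z hz => List.mem_append_right _ ((hs1 i).2.1 z hz), (hs1 i).2.2⟩
    · have hd : ∀ i, l1.Disjoint (s i) := by
        intro i z hz hz'
        exact (List.nodup_append.1 hl.2).2.2 z hz z ((hs1 i).2.1 z hz') rfl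
      intro i j
      refine Fin.cases ?_ (fun i => ?_) i <;> refine Fin.cases ?_ (fun j => ?_) j
      · intro h; exact absurd rfl h
      · intro _
        simpa using hd j
      · intro _
        simpa using (hd i).symm
      · intro h
        simp only [Fin.cons_succ]
        exact hs2 i j (fun e => h (by rw [e]))

open Classical in
theorem fan_of_insep [Finite V] (G : SimpleGraph V) (M : ℕ) (X X0 : Finset V)
    (hX : Insep G Set.univ (X : Set V)) (hX0 : X0 ⊆ X) (l : List V) (hl : IsP G l)
    (hX0l : ∀ x ∈ X0, x ∈ l)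
    (hcard : 2 * ((4 * M + 3) * (2 * M + 3)) + 1 ≤ X0.card) (v : V) (hv : v ∈ X) : Fan G v M := by
  set P : V → Bool := fun x => decide (x ∈ X0) with hP
  have hcount : X0.card ≤ l.countP P := by
    have h1 : X0 ⊆ (l.filter P).toFinset := by
      intro x hx
      rw [List.mem_toFinset, List.mem_filter]
      exact ⟨hX0l x hx, by simpa [hP] using hx⟩
    calc X0.card ≤ (l.filter P).toFinset.card := Finset.card_le_card h1
      _ ≤ (l.filter P).length := List.toFinset_card_le _
      _ = l.countP P := List.countP_eq_length_filter.symm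
  -- a long part avoiding `v`
  obtain ⟨l', hl', hvl', hc'⟩ : ∃ l', IsP G l' ∧ v ∉ l' ∧
      (4 * M + 3) * (2 * M + 3) ≤ l'.countP P := by
    by_cases hvl : v ∈ l
    · obtain ⟨l1, l2, rfl⟩ := List.append_of_mem hvl
      have hnd := List.nodup_append.1 hl.2
      have hnd2 := List.nodup_cons.1 hnd.2.1
      rw [List.countP_append, List.countP_cons] at hcount
      have : (if P v = true then 1 else 0) ≤ 1 := by split_ifs <;> omega
      by_cases h1 : (4 * M + 3) * (2 * M + 3) ≤ l1.countP P
      · refine ⟨l1, ⟨hl.1.left_of_append, hnd.1⟩, ?_, h1⟩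
        intro h
        exact hnd.2.2 v h v (by simp) rfl
      · refine ⟨l2, ⟨?_, hnd2.2⟩, hnd2.1, by omega⟩
        have := hl.1.right_of_append
        exact this.tail
    · exact ⟨l, hl, hvl, by omega⟩
  obtain ⟨s, hs1, hs2⟩ := chop P (2 * M + 3) (4 * M + 3) l' hl' hc'
  refine barrier_final (s := s) (X := (X : Set V)) M hX (by simpa using hv) (fun j => (hs1 j).1)
    ?_ ?_ hs2 ?_ (by omega)
  · intro j
    have h1 := (hs1 j).2.2
    have h2 := List.countP_le_length (p := P) (l := s j)
    omega
  · intro j h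
    exact hvl' ((hs1 j).2.1 v h)
  · intro j Y hY
    by_contra hno
    push Not at hno
    have h1 := (hs1 j).2.2
    have h2 : ((s j).filter P).toFinset ⊆ Y := by
      intro x hx
      rw [List.mem_toFinset, List.mem_filter] at hx
      exact hno x hx.1 (hX0 (by simpa [hP] using hx.2))
    have h3 := Finset.card_le_card h2
    rw [List.toFinset_card_of_nodup ((hs1 j).1.2.filter _), ← List.countP_eq_length_filter] at h3
    omega

/-- the bound for the treewidth -/
def twBound (N : ℕ) : ℕ := 2 * ((8 * N + 3) * (4 * N + 3)) + 1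

theorem four_le_twBound (N : ℕ) : 4 ≤ twBound N := by
  unfold twBound
  nlinarith

/-- degree in the sense of cardinality of the neighbourhood -/
noncomputable def dg (G : SimpleGraph V) (v : V) : ℕ := (G.neighborSet v).ncard

/-- `K` is one side of a 2-edge cut `x1y1, x2y2` with four different ends. -/
structure TwoCut (G : SimpleGraph V) (S K : Set V) (x1 y1 x2 y2 : V) : Prop where
  sub : K ⊆ S
  y1K : y1 ∈ K
  y2K : y2 ∈ K
  x1S : x1 ∈ S
  x2S : x2 ∈ S
  x1K : x1 ∉ K
  x2K : x2 ∉ K
  xne : x1 ≠ x2
  yne : y1 ≠ y2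
  adj1 : G.Adj x1 y1
  adj2 : G.Adj x2 y2
  only : ∀ u ∈ K, ∀ w ∈ S, w ∉ K → G.Adj u w → (u = y1 ∧ w = x1) ∨ (u = y2 ∧ w = x2)

open Classical in
theorem structure_theorem [Finite V] (G : SimpleGraph V) (p q r N : ℕ) (hN : 1 ≤ N) (hp : p ≤ N)
    (hq : q ≤ N) (hr : r ≤ N) (hfree : ¬ (spider ![1, p, q, r]).IsContained G)
    (h1 : ∀ a x y, x ≠ a → y ≠ a → Conn G {a}ᶜ x y)
    (h2 : ∀ K x1 y1 x2 y2, TwoCut G Set.univ K x1 y1 x2 y2 →
      (∀ u ∈ K, dg G u ≤ 2) ∨ (∀ u, u ∉ K → dg G u ≤ 2)) :
    (∀ v, dg G v ≤ 3) ∨ TDR G Set.univ (twBound N) ∅ := by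
  have : Fintype V := Fintype.ofFinite V
  rcases tw_or_insep (twBound N) (four_le_twBound N) _ G Finset.univ rfl with
    htd | ⟨X0, hX0c, hX0, l, hl, _, hX0l⟩
  · right
    simpa using htd
  left
  have hX0' : Insep G Set.univ (X0 : Set V) := by simpa using hX0
  -- a maximal inseparable set
  obtain ⟨X, hXmax, hX0X⟩ : ∃ X : Finset V,
      (Insep G Set.univ (X : Set V) ∧ ∀ X' : Finset V, X ⊆ X' → Insep G Set.univ (X' : Set V) →
        X' ⊆ X) ∧ X0 ⊆ X := by
    have hfin : (Finset.univ.filter (fun X : Finset V => Insep G Set.univ (X : Set V) ∧ X0 ⊆ X)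
      ).Nonempty := ⟨X0, by simp [hX0']⟩
    obtain ⟨X, hX, hXm⟩ := Finset.exists_max_image _ Finset.card hfin
    rw [Finset.mem_filter] at hX
    refine ⟨X, ⟨hX.2.1, ?_⟩, hX.2.2⟩
    intro X' hXX' hins
    have := hXm X' (by
      rw [Finset.mem_filter]
      exact ⟨Finset.mem_univ _, hins, hX.2.2.trans hXX'⟩)
    rw [Finset.eq_of_subset_of_card_le hXX' this]
  obtain ⟨hX, hmax⟩ := hXmax
  have hXc : 4 ≤ X.card :=
    (four_le_twBound N).trans (hX0c.trans (Finset.card_le_card hX0X))
  have hpick : ∀ Y : Finset V, Y.card ≤ 3 → ∃ x ∈ X, x ∉ Y := by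
    intro Y hY
    by_contra hno
    push Not at hno
    have := Finset.card_le_card (show X ⊆ Y from hno)
    omega
  -- degrees in `X`
  have hdeg : ∀ x ∈ X, dg G x ≤ 3 := by
    intro x hx
    by_contra hd
    apply hfree
    refine spider_of_fan G x p q r N hN hp hq hr ?_ (by unfold dg at hd; omega)
    refine fan_of_insep G (2 * N) X X0 hX hX0X l hl hX0l ?_ x hx
    have : 2 * ((4 * (2 * N) + 3) * (2 * (2 * N) + 3)) + 1 = twBound N := by
      unfold twBound; ring
    omega
  intro v
  by_contra hv
  have hv4 : 4 ≤ dg G v := by omega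
  have hvX : v ∉ X := fun h => hv (hdeg v h)
  -- the component of `v` outside `X`
  set C : Set V := {z | Conn G ((X : Set V)ᶜ) v z} with hC
  have hvC : v ∈ C := Conn.refl (by simpa using hvX)
  have hCX : ∀ z ∈ C, z ∉ X := by
    intro z hz
    have := Conn.right hz
    simpa using this
  have hCcl : ∀ u ∈ C, ∀ w, w ∉ X → G.Adj u w → w ∈ C := by
    intro u hu w hw huw
    exact Conn.tail hu (by simpa using hw) huw
  have hCconn : ∀ u ∈ C, ∀ w ∈ C, Conn G C u w := by
    have : ∀ u ∈ C, Conn G C v u := by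
      intro u hu
      have := Conn.restrict hu C hvC (fun a ha _ b hb hab => hCcl a ha b (by simpa using hb) hab)
      exact this.mono (fun z hz => hz.2)
    intro u hu w hw
    exact (this u hu).symm.trans (this w hw)
  -- Claim A : no three attachments
  have hA : ∀ x1 ∈ X, ∀ x2 ∈ X, ∀ x3 ∈ X, ∀ c1 ∈ C, ∀ c2 ∈ C, ∀ c3 ∈ C, G.Adj c1 x1 → G.Adj c2 x2 →
      G.Adj c3 x3 → x1 ≠ x2 → x1 ≠ x3 → x2 ≠ x3 → False := by
    intro x1 hx1 x2 hx2 x3 hx3 c1 hc1 c2 hc2 c3 hc3 a1 a2 a3 n12 n13 n23
    obtain ⟨Q, hQ1, hQ2, hQ3, hQ4, hQ5⟩ := (hCconn c1 hc1 c2 hc2).exists_path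
    set T : Set V := {z | z ∈ Q} with hT
    have hc1T : c1 ∈ T := List.mem_of_mem_head? (by rw [hQ3]; simp)
    obtain ⟨u, huQ, hu3⟩ : ∃ u ∈ Q, Conn G ({u} ∪ (C \ T)) u c3 := by
      by_cases h : c3 ∈ Q
      · exact ⟨c3, h, .refl (by simp)⟩
      · obtain ⟨u', u, b1, b2, b3, b4⟩ := (hCconn c3 hc3 c1 hc1).first_hit T h hc1T
        refine ⟨u, b3, ?_⟩
        refine (Conn.adj (S := {u} ∪ (C \ T)) (Or.inl rfl) (Or.inr b1.right) b2.symm).trans ?_
        exact (b1.mono (fun z hz => Or.inr hz)).symm
    have huC : u ∈ C := hQ5 u huQ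
    have huX : u ∉ X := hCX u huC
    obtain ⟨Q1, Q2, hQ⟩ := List.append_of_mem huQ
    have hch := hQ1
    rw [hQ, List.isChain_split] at hch
    have hnd := hQ2
    rw [hQ, List.nodup_append, List.nodup_cons] at hnd
    have hQC : ∀ z ∈ Q1 ++ u :: Q2, z ∈ C := by rw [← hQ]; exact hQ5
    have hne : ∀ z ∈ C, ∀ x ∈ X, z ≠ x := by
      rintro z hz x hx rfl
      exact hCX z hz hx
    -- three sets
    have hS1 : Conn G ({u} ∪ ({z | z ∈ Q1} ∪ {x1})) u x1 := by
      have e1 : Conn G ({u} ∪ ({z | z ∈ Q1} ∪ {x1})) u c1 := by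
        refine conn_of_chain (l := Q1 ++ [u]) hch.1 ?_ u (by simp) c1 ?_
        · intro z hz
          simp only [List.mem_append, List.mem_singleton] at hz
          rcases hz with hz | hz
          · exact Or.inr (Or.inl hz)
          · exact Or.inl hz
        · rw [hQ, head?_append_cons] at hQ3
          exact List.mem_of_mem_head? (by rw [hQ3]; simp)
      exact e1.tail (Or.inr (Or.inr rfl)) a1
    have hS2 : Conn G ({u} ∪ ({z | z ∈ Q2} ∪ {x2})) u x2 := by
      have e1 : Conn G ({u} ∪ ({z | z ∈ Q2} ∪ {x2})) u c2 := by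
        refine conn_of_chain (l := u :: Q2) hch.2 ?_ u (by simp) c2 ?_
        · intro z hz
          rcases List.mem_cons.1 hz with hz | hz
          · exact Or.inl hz
          · exact Or.inr (Or.inl hz)
        · rw [hQ, getLast?_append_cons'] at hQ4
          exact List.mem_of_getLast? hQ4
      exact e1.tail (Or.inr (Or.inr rfl)) a2
    have hS3 : Conn G ({u} ∪ ((C \ T) ∪ {x3})) u x3 := by
      refine (hu3.mono ?_).tail (Or.inr (Or.inr rfl)) a3
      rintro z (hz | hz)
      · exact Or.inl hz
      · exact Or.inr (Or.inl hz)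
    have hd12 : ∀ z ∈ ({z | z ∈ Q1} ∪ {x1} : Set V), z ∉ ({z | z ∈ Q2} ∪ {x2} : Set V) := by
      rintro z (hz | hz) (hz' | hz')
      · exact hnd.2.2 z hz z (by simp [show z ∈ Q2 from hz']) rfl
      · exact hne z (hQC z (by simp [show z ∈ Q1 from hz])) x2 hx2 hz'
      · exact hne z (hQC z (by simp [show z ∈ Q2 from hz'])) x1 hx1 hz
      · exact n12 (by rw [← show z = x1 from hz, ← show z = x2 from hz'])
    have hd13 : ∀ z ∈ ({z | z ∈ Q1} ∪ {x1} : Set V), z ∉ ((C \ T) ∪ {x3} : Set V) := by
      rintro z (hz | hz) (hz' | hz')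
      · apply hz'.2
        rw [hT]
        show z ∈ Q
        rw [hQ]
        simp [show z ∈ Q1 from hz]
      · exact hne z (hQC z (by simp [show z ∈ Q1 from hz])) x3 hx3 hz'
      · exact hne z hz'.1 x1 hx1 hz
      · exact n13 (by rw [← show z = x1 from hz, ← show z = x3 from hz'])
    have hd23 : ∀ z ∈ ({z | z ∈ Q2} ∪ {x2} : Set V), z ∉ ((C \ T) ∪ {x3} : Set V) := by
      rintro z (hz | hz) (hz' | hz')
      · apply hz'.2
        rw [hT]
        show z ∈ Q
        rw [hQ]
        simp [show z ∈ Q2 from hz]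
      · exact hne z (hQC z (by simp [show z ∈ Q2 from hz])) x3 hx3 hz'
      · exact hne z hz'.1 x2 hx2 hz
      · exact n23 (by rw [← show z = x2 from hz, ← show z = x3 from hz'])
    -- `u` can be added
    have hux : ∀ Y : Finset V, Y.card ≤ 2 → u ∉ Y →
        ∃ x ∈ X, x ∉ Y ∧ Conn G (Set.univ \ (Y : Set V)) u x := by
      intro Y hY huY
      by_contra hno
      push Not at hno
      have hhit : ∀ (S : Set V) (x : V), x ∈ X → x ∈ S → Conn G ({u} ∪ S) u x →
          ∃ z ∈ S, z ∈ Y := by
        intro S x hx hxS hc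
        by_contra hno2
        push Not at hno2
        apply hno x hx (hno2 x hxS)
        refine hc.mono ?_
        rintro z (hz | hz)
        · rw [Set.mem_singleton_iff] at hz
          subst hz
          exact ⟨trivial, huY⟩
        · exact ⟨trivial, hno2 z hz⟩
      obtain ⟨z1, hz1, hy1⟩ := hhit _ x1 hx1 (Or.inr rfl) hS1
      obtain ⟨z2, hz2, hy2⟩ := hhit _ x2 hx2 (Or.inr rfl) hS2
      obtain ⟨z3, hz3, hy3⟩ := hhit _ x3 hx3 (Or.inr rfl) hS3
      have : 2 < Y.card := by
        rw [Finset.two_lt_card]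
        refine ⟨z1, hy1, z2, hy2, z3, hy3, ?_, ?_, ?_⟩
        · rintro rfl; exact hd12 _ hz1 hz2
        · rintro rfl; exact hd13 _ hz1 hz3
        · rintro rfl; exact hd23 _ hz2 hz3
      omega
    have hins : Insep G Set.univ ((insert u X : Finset V) : Set V) := by
      refine ⟨Set.subset_univ _, ?_⟩
      intro Y hY x hx hxY x' hx' hxY'
      have hto : ∀ x ∈ insert u X, x ∉ Y → ∃ w ∈ X, w ∉ Y ∧ Conn G (Set.univ \ (Y : Set V)) x w := by
        intro x hx hxY
        rcases Finset.mem_insert.1 hx with rfl | hx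
        · exact hux Y hY hxY
        · exact ⟨x, hx, hxY, .refl ⟨trivial, hxY⟩⟩
      obtain ⟨w, hw, hwY, hc⟩ := hto x hx hxY
      obtain ⟨w', hw', hwY', hc'⟩ := hto x' hx' hxY'
      exact hc.trans ((hX.2 Y hY w hw hwY w' hw' hwY').trans hc'.symm)
    exact huX (hmax _ (Finset.subset_insert _ _) hins (Finset.mem_insert_self _ _))
  -- Claim B : two attachments
  have hattach : ∀ a, a ≠ v → ∃ u ∈ C, ∃ w ∈ X, w ≠ a ∧ G.Adj u w := by
    intro a hav
    obtain ⟨x, hx, hxa⟩ := hpick {a} (by simp)
    rw [Finset.mem_singleton] at hxa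
    obtain ⟨u, w, b1, b2, b3, b4⟩ := (h1 a v x (Ne.symm hav) hxa).first_hit (X : Set V)
      (by simpa using hvX) (by simpa using hx)
    refine ⟨u, ?_, w, by simpa using b3, by simpa using b4, b2⟩
    exact b1.mono (fun z hz => hz.2)
  obtain ⟨x0, hx0, _⟩ := hpick ∅ (by simp)
  obtain ⟨ya, hyaC, a, haX, _, hadja⟩ := hattach x0 (by rintro rfl; exact hvX hx0)
  obtain ⟨yb, hybC, b, hbX, hba, hadjb⟩ := hattach a (by rintro rfl; exact hvX haX)
  have hNC : ∀ u ∈ C, ∀ w ∈ X, G.Adj u w → w = a ∨ w = b := by
    intro u hu w hw huw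
    by_contra hno
    push Not at hno
    exact hA a haX b hbX w hw ya hyaC yb hybC u hu hadja hadjb huw hba.symm hno.1.symm hno.2.symm
  -- Claim C : unique neighbours
  have huniq : ∀ a ∈ X, ∀ b ∈ X, a ≠ b → (∀ u ∈ C, ∀ w ∈ X, G.Adj u w → w = a ∨ w = b) →
      ∀ c ∈ C, ∀ c' ∈ C, G.Adj a c → G.Adj a c' → c = c' := by
    intro a ha b hb hab hNC c hc c' hc' hac hac'
    by_contra hcc
    have hd := hdeg a ha
    unfold dg at hd
    have hsub : ∃ d, ∀ w, G.Adj a w → w = c ∨ w = c' ∨ w = d := by
      by_contra hno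
      push Not at hno
      obtain ⟨d1, hd1, e1, e2, _⟩ := hno a
      obtain ⟨d2, hd2, e3, e4, e5⟩ := hno d1
      have : ({c, c', d1, d2} : Set V) ⊆ G.neighborSet a := by
        rintro z (rfl | rfl | rfl | rfl)
        · exact hac
        · exact hac'
        · exact hd1
        · exact hd2
      have h3 := Set.ncard_le_ncard this (Set.toFinite _)
      have h4 : ({c, c', d1, d2} : Set V).ncard = 4 := by
        rw [Set.ncard_insert_of_notMem, Set.ncard_insert_of_notMem, Set.ncard_pair]
        · exact e5.symm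
        · simp [e2.symm, e4.symm]
        · simp [hcc, e1.symm, e3.symm]
      omega
    obtain ⟨d, hd'⟩ := hsub
    have had : G.Adj a d → a ≠ d := fun h => h.ne
    obtain ⟨x, hx, hxn⟩ := hpick {a, b, d} (by
      refine (Finset.card_insert_le _ _).trans ?_
      have := Finset.card_insert_le b {d}
      simp at this ⊢
      omega)
    simp only [Finset.mem_insert, Finset.mem_singleton, not_or] at hxn
    by_cases hda : d = a
    · -- then `a` has only the neighbours `c, c'`
      have hconn := hX.2 {b} (by simp) a ha (by simpa using hab) x hx (by simpa using hxn.2.1)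
      have : x ∈ C ∪ {a} := by
        refine hconn.closed (fun z => z ∈ C ∪ {a}) (Or.inr rfl) ?_
        intro u w _ hu huw hw
        have hwb : w ≠ b := by
          rintro rfl
          exact hw.2 (by simp)
        rcases hu with hu | hu
        · by_cases hwX : w ∈ X
          · rcases hNC u hu w hwX huw with h | h
            · exact Or.inr h
            · exact absurd h hwb
          · exact Or.inl (hCcl u hu w hwX huw)
        · rw [Set.mem_singleton_iff] at hu
          subst hu
          rcases hd' w huw with h | h | h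
          · exact Or.inl (h ▸ hc)
          · exact Or.inl (h ▸ hc')
          · rw [hda] at h
            exact absurd (h ▸ huw) (G.loopless.irrefl _)
      rcases this with h | h
      · exact hCX x h hx
      · exact hxn.1 h
    · have hconn := hX.2 {b, d} (Finset.card_le_two) a ha (by
        simp only [Finset.mem_insert, Finset.mem_singleton, not_or]
        exact ⟨hab, Ne.symm hda⟩) x hx (by
        simp only [Finset.mem_insert, Finset.mem_singleton, not_or]
        exact hxn.2)
      have : x ∈ C ∪ {a} := by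
        refine hconn.closed (fun z => z ∈ C ∪ {a}) (Or.inr rfl) ?_
        intro u w _ hu huw hw
        have hwb : w ≠ b := by
          rintro rfl
          exact hw.2 (by simp)
        have hwd : w ≠ d := by
          rintro rfl
          exact hw.2 (by simp)
        rcases hu with hu | hu
        · by_cases hwX : w ∈ X
          · rcases hNC u hu w hwX huw with h | h
            · exact Or.inr h
            · exact absurd h hwb
          · exact Or.inl (hCcl u hu w hwX huw)
        · rw [Set.mem_singleton_iff] at hu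
          subst hu
          rcases hd' w huw with h | h | h
          · exact Or.inl (h ▸ hc)
          · exact Or.inl (h ▸ hc')
          · exact absurd h hwd
      rcases this with h | h
      · exact hCX x h hx
      · exact hxn.1 h
  have huA := huniq a haX b hbX hba.symm hNC
  have huB := huniq b hbX a haX hba (fun u hu w hw huw => (hNC u hu w hw huw).symm)
  -- Claim D
  have hyab : ya ≠ yb := by
    intro hyy
    obtain ⟨z, hzC, hzy⟩ : ∃ z ∈ C, z ≠ ya := by
      by_contra hno
      push Not at hno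
      have hvy := hno v hvC
      have hsub : G.neighborSet v ⊆ {a, b} := by
        intro w hw
        have hw' : G.Adj v w := hw
        by_cases hwX : w ∈ X
        · rcases hNC v hvC w hwX hw' with h | h
          · exact Or.inl h
          · exact Or.inr h
        · exfalso
          have := hno w (hCcl v hvC w hwX hw')
          rw [this, ← hvy] at hw'
          exact G.loopless.irrefl _ hw'
      have h3 := Set.ncard_le_ncard hsub (Set.toFinite _)
      have h4 := Set.ncard_insert_le a {b}
      rw [Set.ncard_singleton] at h4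
      unfold dg at hv4
      omega
    have haya : a ≠ ya := by
      rintro h
      exact hCX ya hyaC (h ▸ haX)
    obtain ⟨u, w, b1, b2, b3, b4⟩ := (h1 ya z a hzy haya).first_hit (X : Set V)
      (by simpa using hCX z hzC) (by simpa using haX)
    have huC : u ∈ C := by
      have : Conn G ((X : Set V)ᶜ) z u := b1.mono (fun t ht => ht.2)
      exact Conn.trans (show Conn G ((X : Set V)ᶜ) v z from hzC) this
    have huy : u ≠ ya := by
      have := b1.right.1
      simpa using this
    rcases hNC u huC w (by simpa using b3) b2 with h | h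
    · subst h
      exact huy (huA u huC ya hyaC b2.symm hadja.symm)
    · subst h
      exact huy ((huB u huC yb hybC b2.symm hadjb.symm).trans hyy.symm)
  -- the 2-edge cut
  have hcut : TwoCut G Set.univ C a ya b yb := by
    refine ⟨Set.subset_univ _, hyaC, hybC, trivial, trivial, ?_, ?_, hba.symm, hyab, hadja.symm,
      hadjb.symm, ?_⟩
    · exact fun h => hCX a h haX
    · exact fun h => hCX b h hbX
    · intro u hu w _ hw huw
      have hwX : w ∈ X := by
        by_contra h
        exact hw (hCcl u hu w h huw)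
      rcases hNC u hu w hwX huw with h | h
      · subst h
        exact Or.inl ⟨huA u hu ya hyaC huw.symm hadja.symm, rfl⟩
      · subst h
        exact Or.inr ⟨huB u hu yb hybC huw.symm hadjb.symm, rfl⟩
  rcases h2 C a ya b yb hcut with h | h
  · have := h v hvC
    omega
  · have hda := h a (fun h => hCX a h haX)
    unfold dg at hda
    have hfin := Set.toFinite (G.neighborSet a)
    obtain ⟨x, hx, hxn⟩ := hpick (insert a hfin.toFinset) (by
      refine (Finset.card_insert_le _ _).trans ?_
      rw [← Set.ncard_eq_toFinset_card _ hfin]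
      omega)
    simp only [Finset.mem_insert, Set.Finite.mem_toFinset, not_or] at hxn
    have hconn := hX.2 hfin.toFinset (by rw [← Set.ncard_eq_toFinset_card _ hfin]; omega) a haX
      (by simp) x hx (by simpa using hxn.2)
    have : x = a := by
      refine hconn.closed (fun z => z = a) rfl ?_
      rintro u w _ rfl huw hw
      exfalso
      apply hw.2
      simpa using huw
    exact hxn.1 this

end FVS424
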