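import Pool.Agent.Lib.MP_424cb6_lc.Potential
import Pool.Agent.Lib.MP_424cb6_lc.Algo

/-! The subcubic algorithm: local search for the radical of the skew form, on lists. -/

namespace FVS424

open Module Pool.Agent.MSR

/-- matrix lookup -/
def ad (M : List (List Bool)) (u w : ℕ) : Bool := (M.getD u []).getD w false

/-- neighbours -/
def nb (M : List (List Bool)) (v : ℕ) : List ℕ := (List.range M.length).filter (fun w => ad M v w)

/-- first neighbour -/
def m1 (M : List (List Bool)) (v : ℕ) : ℕ := (nb M v).getD 0 0

/-- second neighbour -/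
def m2 (M : List (List Bool)) (v : ℕ) : ℕ := (nb M v).getD 1 0

/-- ordered pairs -/
def prs (M : List (List Bool)) : List (ℕ × ℕ) := List.range M.length ×ˢ List.range M.length

/-- number of unknowns -/
def nn (M : List (List Bool)) : ℕ := M.length * M.length + M.length

/-- sparse rows: flow conditions -/
def rows0 (M : List (List Bool)) : List (List (ℕ × ℕ)) :=
  (prs M).map (fun e => [(e.1 * M.length + e.2, 1), (e.2 * M.length + e.1, 1)]) ++
  (((prs M).filter (fun e => !ad M e.1 e.2)).map (fun e => [(e.1 * M.length + e.2, 1)]) ++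
  (List.range M.length).map (fun v => (List.range M.length).map (fun w => (v * M.length + w, 1))))

/-- terms of the coefficient function -/
def ft (M : List (List Bool)) (v w c c' : ℕ) : List (ℕ × ℕ) :=
  (bif decide (w = m2 M v) then [(v * M.length + m1 M v, c)] else []) ++
  (bif decide (w = m1 M v) then [(v * M.length + m2 M v, c')] else [])

/-- row of the pair `v, w` -/
def row1 (M : List (List Bool)) (p : ℕ) (x : List ℕ) (v w : ℕ) : List (ℕ × ℕ) :=
    ft M v w (x.getD v 0) (p - x.getD v 0) ++
    (ft M w v (p - x.getD w 0) (x.getD w 0) ++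
    [(M.length * M.length + v, p - 1), (M.length * M.length + w, 1)])

/-- sparse rows: potentials -/
def rows1 (M : List (List Bool)) (p : ℕ) (x : List ℕ) : List (List (ℕ × ℕ)) :=
  ((prs M).filter (fun e => ad M e.1 e.2)).map (fun e => row1 M p x e.1 e.2)

/-- rows killing the flow part -/
def rowsI (M : List (List Bool)) : List (List (ℕ × ℕ)) :=
  (List.range (M.length * M.length)).map (fun i => [(i, 1)])

/-- dense row -/
def dense (N : ℕ) (sp : List (ℕ × ℕ)) : List ℕ :=
  (List.range N).map (fun j => (sp.filter (fun t => decide (t.1 = j))).foldl (fun c t => c + t.2) 0)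

section

variable (rk : List (List ℕ) → ℕ → ℕ)

/-- rank of a sparse system -/
def rks (M : List (List Bool)) (p : ℕ) (L : List (List (ℕ × ℕ))) : ℕ :=
  rk (L.map (fun sp => dense (nn M) sp)) p

/-- dimension of the flow part of the kernel -/
def pdim (M : List (List Bool)) (p : ℕ) (L : List (List (ℕ × ℕ))) : ℕ :=
  rks rk M p (L ++ rowsI M) - rks rk M p L

/-- size of the support of the flow part of the kernel -/
def psup (M : List (List Bool)) (p : ℕ) (L : List (List (ℕ × ℕ))) : ℕ :=
  ((prs M).filter (fun e => !decide (rks rk M p (L ++ [[(e.1 * M.length + e.2, 1)]]) =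
    rks rk M p L))).length

/-- potential function of the local search -/
def score (M : List (List Bool)) (p : ℕ) (x : List ℕ) : ℕ :=
  (nn M - pdim rk M p (rows0 M ++ rows1 M p x)) * (M.length * M.length + 1) +
    psup rk M p (rows0 M ++ rows1 M p x)

/-- change one coordinate -/
def upd (n : ℕ) (x : List ℕ) (v t : ℕ) : List ℕ :=
  (List.range n).map (fun i => bif decide (i = v) then t else x.getD i 0)

/-- all one-coordinate changes -/
def ups (M : List (List Bool)) (p : ℕ) (x : List ℕ) : List (List ℕ) :=
  (List.range M.length ×ˢ List.range p).map (fun e => upd M.length x e.1 e.2)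

/-- one improvement step -/
def stepx (M : List (List Bool)) (p : ℕ) (x : List ℕ) : List ℕ :=
  ((ups M p x).filter (fun y => ltb (score rk M p x) (score rk M p y))).headD x

/-- number of rounds -/
def rounds (M : List (List Bool)) : ℕ := (nn M + 1) * (M.length * M.length + 1)

/-- the local optimum -/
def xfin (M : List (List Bool)) (p : ℕ) : List ℕ := (stepx rk M p)^[rounds M] []

/-- half of a number -/
def half (k : ℕ) : ℕ := ((List.range k).filter (fun i => leb (2 * i + 2) k)).length

/-- primes above `m` -/
def prm (m : ℕ) : ℕ :=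
  ((List.range (2 * m + 1)).filter (fun q => ltb m q &&
    !((List.range q).any (fun d => (List.range q).any (fun e => decide (d * e = q)))))).headD 0

/-- value of a subcubic instance -/
def subval (M : List (List Bool)) : ℕ :=
  half (pdim rk M (prm (M.length * M.length + 2)) (rows0 M) +
    pdim rk M (prm (M.length * M.length + 2)) (rows0 M ++
      rows1 M (prm (M.length * M.length + 2)) (xfin rk M (prm (M.length * M.length + 2)))))

end

theorem half_eq (k : ℕ) : half (2 * k) = k := by
  unfold half
  have : (List.range (2 * k)).filter (fun i => leb (2 * i + 2) (2 * k)) = List.range k := by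
    rw [two_mul, List.range_add, List.filter_append]
    have h1 : (List.range k).filter (fun i => leb (2 * i + 2) (k + k)) = List.range k := by
      rw [List.filter_eq_self]
      intro i hi
      rw [List.mem_range] at hi
      simp only [leb, decide_eq_true_eq]
      omega
    have h2 : ((List.range k).map (fun x => k + x)).filter
        (fun i => leb (2 * i + 2) (k + k)) = [] := by
      rw [List.filter_eq_nil_iff]
      intro i hi
      rw [List.mem_map] at hi
      obtain ⟨j, _, rfl⟩ := hi
      simp only [leb, decide_eq_true_eq]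
      omega
    rw [h1, h2, List.append_nil]
  rw [this, List.length_range]

theorem prm_spec (m : ℕ) (hm : 2 ≤ m) : (prm m).Prime ∧ m < prm m := by
  have key : ∀ q, 2 ≤ q → (¬ ∃ d, d < q ∧ ∃ e, e < q ∧ d * e = q) → q.Prime := by
    intro q hq h
    by_contra hn
    obtain ⟨d, hd, hd2, hdq⟩ := Nat.exists_dvd_of_not_prime2 hq hn
    obtain ⟨e, he⟩ := hd
    refine h ⟨d, hdq, e, ?_, he.symm⟩
    rw [he]
    nlinarith [Nat.pos_of_ne_zero (fun h0 : e = 0 => by rw [h0, mul_zero] at he; omega)]
  set l := (List.range (2 * m + 1)).filter (fun q => ltb m q &&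
    !((List.range q).any (fun d => (List.range q).any (fun e => decide (d * e = q))))) with hl
  have hmem : ∀ q ∈ l, q.Prime ∧ m < q := by
    intro q hq
    rw [hl, List.mem_filter] at hq
    obtain ⟨_, hq⟩ := hq
    simp only [ltb, Bool.and_eq_true, decide_eq_true_eq, Bool.not_eq_true', List.any_eq_false,
      List.mem_range, List.any_eq_true, not_exists, not_and] at hq
    refine ⟨key q (by omega) ?_, hq.1⟩
    rintro ⟨d, hd, e, he, hde⟩
    exact hq.2 d hd e he hde
  have hne : l ≠ [] := by
    obtain ⟨q, hq, hq1, hq2⟩ := Nat.exists_prime_lt_and_le_two_mul m (by omega)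
    have : q ∈ l := by
      rw [hl, List.mem_filter]
      refine ⟨List.mem_range.2 (by omega), ?_⟩
      simp only [ltb, Bool.and_eq_true, decide_eq_true_eq, Bool.not_eq_true', List.any_eq_false,
        List.mem_range, List.any_eq_true, not_exists, not_and]
      refine ⟨hq1, fun d hd e he hde => ?_⟩
      rcases (Nat.dvd_prime hq).1 (Dvd.intro _ hde) with h | h
      · subst h; omega
      · omega
    exact List.ne_nil_of_mem this
  have : prm m ∈ l := by
    show l.headD 0 ∈ l
    cases hl2 : l with
    | nil => exact absurd hl2 hne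
    | cons a t => simp
  exact hmem _ this

/-! ### linear algebra of sparse systems -/

/-- specification of the rank function -/
def RankSpec (rk : List (List ℕ) → ℕ → ℕ) : Prop :=
  ∀ (p : ℕ) [Fact p.Prime] (N : ℕ) (L : List (List ℕ)), (∀ r ∈ L, r.length = N) →
    rk L p = finrank (ZMod p) (Submodule.span (ZMod p)
      {v : Fin N → ZMod p | ∃ r ∈ L, ∀ j : Fin N, v j = ((r.getD j 0 : ℕ) : ZMod p)})

section

variable {F : Type*} [Field F] {N : ℕ}

/-- extension by zero -/
def ext (y : Fin N → F) (j : ℕ) : F := if h : j < N then y ⟨j, h⟩ else 0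

theorem ext_add (y z : Fin N → F) (j : ℕ) : ext (y + z) j = ext y j + ext z j := by
  unfold ext; split_ifs <;> simp

theorem ext_smul (c : F) (y : Fin N → F) (j : ℕ) : ext (c • y) j = c * ext y j := by
  unfold ext; split_ifs <;> simp

/-- value of a sparse row -/
def sev (y : ℕ → F) (sp : List (ℕ × ℕ)) : F := (sp.map (fun t => (t.2 : F) * y t.1)).sum

theorem sev_add (y z : ℕ → F) (sp : List (ℕ × ℕ)) :
    sev (fun j => y j + z j) sp = sev y sp + sev z sp := by
  induction sp with
  | nil => simp [sev]
  | cons t sp ih =>
    simp only [sev, List.map_cons, List.sum_cons] at ih ⊢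
    rw [ih]; ring

theorem sev_smul (c : F) (y : ℕ → F) (sp : List (ℕ × ℕ)) :
    sev (fun j => c * y j) sp = c * sev y sp := by
  induction sp with
  | nil => simp [sev]
  | cons t sp ih =>
    simp only [sev, List.map_cons, List.sum_cons] at ih ⊢
    rw [ih]; ring

theorem sev_append (y : ℕ → F) (a b : List (ℕ × ℕ)) : sev y (a ++ b) = sev y a + sev y b := by
  simp [sev]

/-- kernel of a sparse system -/
def KK (F : Type*) [Field F] (N : ℕ) (L : List (List (ℕ × ℕ))) : Submodule F (Fin N → F) where
  carrier := {y | ∀ sp ∈ L, sev (ext y) sp = 0}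
  zero_mem' := by
    intro sp _
    have : (ext (0 : Fin N → F)) = fun j => 0 * (0 : F) := by
      funext j; unfold ext; split_ifs <;> simp
    rw [this, sev_smul, zero_mul]
  add_mem' := by
    intro a b ha hb sp hsp
    have : ext (a + b) = fun j => ext a j + ext b j := funext (ext_add a b)
    rw [this, sev_add, ha sp hsp, hb sp hsp, add_zero]
  smul_mem' := by
    intro c a ha sp hsp
    have : ext (c • a) = fun j => c * ext a j := funext (ext_smul c a)
    rw [this, sev_smul, ha sp hsp, mul_zero]

theorem mem_KK {L : List (List (ℕ × ℕ))} {y : Fin N → F} :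
    y ∈ KK F N L ↔ ∀ sp ∈ L, sev (ext y) sp = 0 := Iff.rfl

theorem KK_append {L L' : List (List (ℕ × ℕ))} : KK F N (L ++ L') = KK F N L ⊓ KK F N L' := by
  ext y
  simp only [mem_KK, List.mem_append, Submodule.mem_inf]
  constructor
  · intro h; exact ⟨fun sp hsp => h sp (Or.inl hsp), fun sp hsp => h sp (Or.inr hsp)⟩
  · rintro ⟨h1, h2⟩ sp (h | h)
    · exact h1 sp h
    · exact h2 sp h

theorem dense_length (sp : List (ℕ × ℕ)) : (dense N sp).length = N := by simp [dense]

theorem dense_getD (sp : List (ℕ × ℕ)) (j : ℕ) (hj : j < N) :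
    (dense N sp).getD j 0 = (sp.map (fun t => if t.1 = j then t.2 else 0)).sum := by
  unfold dense
  rw [List.getD_eq_getElem?_getD, List.getElem?_map, List.getElem?_range hj]
  simp only [Option.map_some, Option.getD_some]
  have key : ∀ (sp : List (ℕ × ℕ)) (c : ℕ),
      (sp.filter (fun t => decide (t.1 = j))).foldl (fun c t => c + t.2) c =
      c + (sp.map (fun t => if t.1 = j then t.2 else 0)).sum := by
    intro sp
    induction sp with
    | nil => intro c; simp
    | cons t sp ih =>
      intro c
      rw [List.filter_cons, List.map_cons, List.sum_cons]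
      by_cases h : t.1 = j
      · simp only [h, decide_true, if_true, List.foldl_cons]
        rw [ih]
        omega
      · simp only [h, decide_false, if_false]
        rw [if_neg (by simp), ih]
        omega
  rw [key, zero_add]

theorem dot_dense (sp : List (ℕ × ℕ)) (y : Fin N → F) :
    ∑ j : Fin N, (((dense N sp).getD j 0 : ℕ) : F) * y j = sev (ext y) sp := by
  induction sp with
  | nil =>
    simp only [sev, List.map_nil, List.sum_nil]
    refine Finset.sum_eq_zero fun j _ => ?_
    rw [dense_getD _ _ j.2]
    simp
  | cons t sp ih =>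
    simp only [sev, List.map_cons, List.sum_cons] at ih ⊢
    rw [← ih]
    have e : ∀ j : Fin N, (((dense N (t :: sp)).getD j 0 : ℕ) : F) * y j =
        (if t.1 = j then (t.2 : F) * y j else 0) + (((dense N sp).getD j 0 : ℕ) : F) * y j := by
      intro j
      rw [dense_getD _ _ j.2, dense_getD _ _ j.2, List.map_cons, List.sum_cons]
      by_cases h : t.1 = j
      · simp only [h, if_true]; push_cast; ring
      · simp only [h, if_false, zero_add]
    simp only [e, Finset.sum_add_distrib]
    congr 1
    by_cases h : t.1 < N
    · rw [Finset.sum_eq_single (⟨t.1, h⟩ : Fin N)]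
      · simp [ext, h]
      · intro b _ hb
        rw [if_neg]
        intro h'
        exact hb (Fin.ext h'.symm)
      · intro h'; exact absurd (Finset.mem_univ _) h'
    · rw [Finset.sum_eq_zero]
      · simp [ext, h]
      · intro b _
        rw [if_neg]
        intro h'
        exact h (h' ▸ b.2)

end

theorem rank_KK {rk : List (List ℕ) → ℕ → ℕ} (hrk : RankSpec rk) (p : ℕ) [Fact p.Prime] (N : ℕ)
    (L : List (List (ℕ × ℕ))) :
    rk (L.map (fun sp => dense N sp)) p + finrank (ZMod p) (KK (ZMod p) N L) = N := by
  rw [hrk p N _ (by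
    intro r hr
    rw [List.mem_map] at hr
    obtain ⟨sp, _, rfl⟩ := hr
    exact dense_length sp)]
  set A : Matrix (Fin L.length) (Fin N) (ZMod p) :=
    Matrix.of fun i j => (((dense N L[i]).getD j 0 : ℕ) : ZMod p) with hA
  have h1 : Set.range A.row = {v : Fin N → ZMod p | ∃ r ∈ L.map (fun sp => dense N sp),
      ∀ j : Fin N, v j = ((r.getD j 0 : ℕ) : ZMod p)} := by
    ext v
    constructor
    · rintro ⟨i, rfl⟩
      exact ⟨dense N L[i], List.mem_map.2 ⟨L[i], List.getElem_mem _, rfl⟩, fun j => rfl⟩
    · rintro ⟨r, hr, hv⟩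
      rw [List.mem_map] at hr
      obtain ⟨sp, hsp, rfl⟩ := hr
      obtain ⟨i, hi, rfl⟩ := List.getElem_of_mem hsp
      exact ⟨⟨i, hi⟩, by funext j; rw [hv]; rfl⟩
  have h2 : KK (ZMod p) N L = LinearMap.ker A.mulVecLin := by
    ext y
    rw [mem_KK]
    constructor
    · intro h
      refine LinearMap.mem_ker.2 ?_
      funext i
      show ∑ j, A i j * y j = 0
      rw [← h L[i] (List.getElem_mem _), ← dot_dense]
      rfl
    · intro h sp hsp
      have h' : A.mulVec y = 0 := LinearMap.mem_ker.1 h
      obtain ⟨i, hi, rfl⟩ := List.getElem_of_mem hsp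
      rw [← dot_dense]
      exact congrFun h' ⟨i, hi⟩
  rw [← h1, ← Matrix.rank_eq_finrank_span_row, h2]
  have := LinearMap.finrank_range_add_finrank_ker A.mulVecLin
  rw [Module.finrank_fin_fun] at this
  exact this

end FVS424
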