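import Pool.Agent.Lib.MP_424cb6_lc.SubAlgo

/-! Correctness of the subcubic algorithm. -/

namespace FVS424

open Module Pool.Agent.MSR

section

variable {F : Type*} [Field F]

theorem list_sum_range (f : ℕ → F) (n : ℕ) : ((List.range n).map f).sum = ∑ i : Fin n, f i := by
  induction n with
  | zero => simp
  | succ n ih =>
    rw [List.range_succ, List.map_append, List.sum_append, ih, Fin.sum_univ_castSucc]
    simp

/-- the flow part -/
def pr (F : Type*) [Field F] (N n : ℕ) : (Fin N → F) →ₗ[F] (Fin n → Fin n → F) where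
  toFun y := fun u w => ext y (u * n + w)
  map_add' a b := by funext u w; exact ext_add a b _
  map_smul' c a := by funext u w; exact ext_smul c a _

theorem pr_apply {N n : ℕ} (y : Fin N → F) (u w : Fin n) : pr F N n y u w = ext y (u * n + w) := rfl

theorem ext_of_lt {N : ℕ} (y : Fin N → F) (j : ℕ) (h : j < N) : ext y j = y ⟨j, h⟩ := by
  simp [ext, h]

variable (M : List (List Bool))

theorem mem_prs {M : List (List Bool)} {e : ℕ × ℕ} :
    e ∈ prs M ↔ e.1 < M.length ∧ e.2 < M.length := by
  rcases e with ⟨a, b⟩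
  simp [prs]

theorem idx_lt {n u w : ℕ} (hu : u < n) (hw : w < n) : u * n + w < n * n := by nlinarith

theorem pair_lt {n u w : ℕ} (hu : u < n) (hw : w < n) : u * n + w < n * n + n := by
  have := idx_lt hu hw
  omega

theorem mem_KK_rows0 {M : List (List Bool)} {G : SimpleGraph (Fin M.length)}
    (hA : ∀ u w : Fin M.length, ad M u w = true ↔ G.Adj u w) (y : Fin (nn M) → F) :
    y ∈ KK F (nn M) (rows0 M) ↔ pr F (nn M) M.length y ∈ Z F G := by
  rw [mem_KK, mem_Z]
  have e3 : ∀ v : ℕ, sev (ext y) ((List.range M.length).map (fun w => (v * M.length + w, 1))) =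
      ∑ w : Fin M.length, ext y (v * M.length + w) := by
    intro v
    rw [sev, List.map_map, ← list_sum_range (fun w => ext y (v * M.length + w))]
    congr 1
    refine List.map_congr_left fun w _ => ?_
    simp
  constructor
  · intro h
    refine ⟨fun u w => ?_, fun u w huw => ?_, fun v => ?_⟩
    · have h1 := h [(u * M.length + w, 1), (w * M.length + u, 1)] (by
        refine List.mem_append_left _ (List.mem_map.2 ⟨((u : ℕ), (w : ℕ)), ?_, rfl⟩)
        exact mem_prs.2 ⟨u.2, w.2⟩)
      simp only [sev, List.map_cons, List.map_nil, List.sum_cons, List.sum_nil, Nat.cast_one,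
        one_mul, add_zero] at h1
      rw [pr_apply, pr_apply]
      exact eq_neg_of_add_eq_zero_left h1
    · have h1 := h [(u * M.length + w, 1)] (by
        refine List.mem_append_right _ (List.mem_append_left _ (List.mem_map.2
          ⟨((u : ℕ), (w : ℕ)), ?_, rfl⟩))
        refine List.mem_filter.2 ⟨mem_prs.2 ⟨u.2, w.2⟩, ?_⟩
        have : ad M u w = false := by
          rw [Bool.eq_false_iff]
          exact fun h' => huw ((hA u w).1 h')
        simp [this])
      simp only [sev, List.map_cons, List.map_nil, List.sum_cons, List.sum_nil, Nat.cast_one,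
        one_mul, add_zero] at h1
      exact h1
    · have h1 := h ((List.range M.length).map (fun w => ((v : ℕ) * M.length + w, 1))) (by
        refine List.mem_append_right _ (List.mem_append_right _ (List.mem_map.2
          ⟨(v : ℕ), List.mem_range.2 v.2, rfl⟩)))
      rw [e3] at h1
      exact h1
  · rintro ⟨h1, h2, h3⟩ sp hsp
    rw [rows0, List.mem_append, List.mem_append, List.mem_map, List.mem_map, List.mem_map] at hsp
    rcases hsp with ⟨e, he, rfl⟩ | ⟨e, he, rfl⟩ | ⟨v, hv, rfl⟩
    · rw [mem_prs] at he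
      have := h1 ⟨e.1, he.1⟩ ⟨e.2, he.2⟩
      rw [pr_apply, pr_apply] at this
      simp only [sev, List.map_cons, List.map_nil, List.sum_cons, List.sum_nil, Nat.cast_one,
        one_mul, add_zero]
      rw [this]
      ring
    · rw [List.mem_filter, mem_prs] at he
      have := h2 ⟨e.1, he.1.1⟩ ⟨e.2, he.1.2⟩ (by
        rw [← hA]
        have h4 := he.2
        simp only [Bool.not_eq_true'] at h4
        show ¬ ad M e.1 e.2 = true
        rw [h4]
        simp)
      rw [pr_apply] at this
      simp only [sev, List.map_cons, List.map_nil, List.sum_cons, List.sum_nil, Nat.cast_one,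
        one_mul, add_zero]
      exact this
    · rw [e3]
      exact h3 ⟨v, List.mem_range.1 hv⟩

theorem m1_lt {M : List (List Bool)} (v : Fin M.length) : m1 M v < M.length := by
  unfold m1
  rw [List.getD_eq_getElem?_getD]
  cases h : (nb M v)[0]? with
  | none => exact lt_of_le_of_lt (Nat.zero_le _) v.2
  | some a =>
    have := List.mem_of_getElem? h
    rw [nb, List.mem_filter, List.mem_range] at this
    exact this.1

theorem m2_lt {M : List (List Bool)} (v : Fin M.length) : m2 M v < M.length := by
  unfold m2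
  rw [List.getD_eq_getElem?_getD]
  cases h : (nb M v)[1]? with
  | none => exact lt_of_le_of_lt (Nat.zero_le _) v.2
  | some a =>
    have := List.mem_of_getElem? h
    rw [nb, List.mem_filter, List.mem_range] at this
    exact this.1

/-- first neighbour -/
def N1 (M : List (List Bool)) (v : Fin M.length) : Fin M.length := ⟨m1 M v, m1_lt v⟩

/-- second neighbour -/
def N2 (M : List (List Bool)) (v : Fin M.length) : Fin M.length := ⟨m2 M v, m2_lt v⟩

theorem loc_N {M : List (List Bool)} {G : SimpleGraph (Fin M.length)}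
    (hA : ∀ u w : Fin M.length, ad M u w = true ↔ G.Adj u w)
    (hdeg : ∀ v : Fin M.length, (nb M v).length ≤ 3) : Loc G (N1 M) (N2 M) := by
  intro v
  have h3 : (nb M v).getD 2 0 < M.length := by
    rw [List.getD_eq_getElem?_getD]
    cases h : (nb M v)[2]? with
    | none => exact lt_of_le_of_lt (Nat.zero_le _) v.2
    | some a =>
      have := List.mem_of_getElem? h
      rw [nb, List.mem_filter, List.mem_range] at this
      exact this.1
  refine ⟨⟨(nb M v).getD 2 0, h3⟩, fun u hu => ?_⟩
  have hm : (u : ℕ) ∈ nb M v := by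
    rw [nb, List.mem_filter, List.mem_range]
    exact ⟨u.2, (hA v u).2 hu⟩
  have hd := hdeg v
  simp only [Fin.ext_iff, N1, N2, m1, m2]
  generalize hl : nb M v = l at *
  match l, hd, hm with
  | [], _, hm => simp at hm
  | [a], _, hm => left; simpa using hm
  | [a, b], _, hm =>
    rcases List.mem_cons.1 hm with h | h
    · left; simpa using h
    · right; left; simpa using h
  | [a, b, c], _, hm =>
    rcases List.mem_cons.1 hm with h | h
    · left; simpa using h
    · rcases List.mem_cons.1 h with h | h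
      · right; left; simpa using h
      · right; right; simpa using h
  | a :: b :: c :: d :: l, hd, _ =>
    simp only [List.length_cons] at hd
    omega

/-- coordinate vector of a list -/
def xh (F : Type*) [Field F] (n : ℕ) (x : List ℕ) : Fin n → F := fun v => ((x.getD v 0 : ℕ) : F)

theorem sev_ft (M : List (List Bool)) (y : ℕ → F) (v w c c' : ℕ) :
    sev y (ft M v w c c') = (if w = m2 M v then (c : F) * y (v * M.length + m1 M v) else 0) +
      (if w = m1 M v then (c' : F) * y (v * M.length + m2 M v) else 0) := by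
  unfold ft
  rw [sev_append]
  congr 1
  · by_cases h : w = m2 M v <;> simp [h, sev]
  · by_cases h : w = m1 M v <;> simp [h, sev]

end

theorem sev_row1 {M : List (List Bool)} {p : ℕ} [hp : Fact p.Prime] {x : List ℕ}
    (hx : ∀ i, x.getD i 0 ≤ p) (y : Fin (nn M) → ZMod p) (v w : Fin M.length) :
    sev (ext y) (row1 M p x v w) =
      fC (N1 M) (N2 M) (xh (ZMod p) M.length x) (pr (ZMod p) (nn M) M.length y) v w -
      fC (N1 M) (N2 M) (xh (ZMod p) M.length x) (pr (ZMod p) (nn M) M.length y) w v -
      ext y (M.length * M.length + v) + ext y (M.length * M.length + w) := by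
  have hc : ∀ i, ((p - x.getD i 0 : ℕ) : ZMod p) = - ((x.getD i 0 : ℕ) : ZMod p) := by
    intro i
    rw [Nat.cast_sub (hx i)]
    simp
  have hc1 : ((p - 1 : ℕ) : ZMod p) = -1 := by
    rw [Nat.cast_sub hp.out.one_le]
    simp
  unfold row1
  rw [sev_append, sev_append, sev_ft, sev_ft, hc, hc]
  have e1 : ∀ a b : Fin M.length, fC (N1 M) (N2 M) (xh (ZMod p) M.length x)
      (pr (ZMod p) (nn M) M.length y) a b =
      (if (b : ℕ) = m2 M a then ((x.getD a 0 : ℕ) : ZMod p) * ext y (a * M.length + m1 M a) else 0) -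
      (if (b : ℕ) = m1 M a then ((x.getD a 0 : ℕ) : ZMod p) * ext y (a * M.length + m2 M a) else 0) := by
    intro a b
    unfold fC xh N1 N2
    simp only [Fin.ext_iff, pr_apply]
    split_ifs <;> ring
  rw [e1, e1]
  have e2 : sev (ext y) [(M.length * M.length + (v : ℕ), p - 1), (M.length * M.length + (w : ℕ), 1)] =
      - ext y (M.length * M.length + v) + ext y (M.length * M.length + w) := by
    simp only [sev, List.map_cons, List.map_nil, List.sum_cons, List.sum_nil, Nat.cast_one,
      one_mul, add_zero]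
    rw [hc1]
    ring
  rw [e2]
  split_ifs <;> ring

theorem mem_KK_rows1 {M : List (List Bool)} {G : SimpleGraph (Fin M.length)}
    (hA : ∀ u w : Fin M.length, ad M u w = true ↔ G.Adj u w) {p : ℕ} [hp : Fact p.Prime]
    {x : List ℕ} (hx : ∀ i, x.getD i 0 ≤ p) (y : Fin (nn M) → ZMod p) :
    y ∈ KK (ZMod p) (nn M) (rows1 M p x) ↔ ∀ v w, G.Adj v w →
      fC (N1 M) (N2 M) (xh (ZMod p) M.length x) (pr (ZMod p) (nn M) M.length y) v w -
      fC (N1 M) (N2 M) (xh (ZMod p) M.length x) (pr (ZMod p) (nn M) M.length y) w v -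
      ext y (M.length * M.length + v) + ext y (M.length * M.length + w) = 0 := by
  rw [mem_KK]
  constructor
  · intro h v w hvw
    rw [← sev_row1 hx]
    apply h
    refine List.mem_map.2 ⟨((v : ℕ), (w : ℕ)), List.mem_filter.2 ⟨mem_prs.2 ⟨v.2, w.2⟩, ?_⟩, rfl⟩
    exact (hA v w).2 hvw
  · intro h sp hsp
    rw [rows1, List.mem_map] at hsp
    obtain ⟨e, he, rfl⟩ := hsp
    rw [List.mem_filter, mem_prs] at he
    have h1 := h ⟨e.1, he.1.1⟩ ⟨e.2, he.1.2⟩ ((hA _ _).1 he.2)
    rw [← sev_row1 hx] at h1
    exact h1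

/-- assemble flow and potentials -/
def mkY {F : Type*} {n : ℕ} (C : Fin n → Fin n → F) (π : Fin n → F) (j : Fin (n * n + n)) : F :=
  if h : (j : ℕ) < n * n then
    C ⟨j / n, Nat.div_lt_of_lt_mul h⟩ ⟨j % n, Nat.mod_lt _ (by
      rcases Nat.eq_zero_or_pos n with h0 | h0
      · subst h0; simp at h
      · exact h0)⟩
  else π ⟨j - n * n, by have := j.2; omega⟩

theorem mkY_flow {F : Type*} [Field F] {n : ℕ} (C : Fin n → Fin n → F) (π : Fin n → F) :
    pr F (n * n + n) n (mkY C π) = C := by
  funext u w
  rw [pr_apply, ext_of_lt _ _ (pair_lt u.2 w.2), mkY]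
  have h1 : ((u : ℕ) * n + w) / n = u := by
    rw [mul_comm, Nat.mul_add_div (by have := u.2; omega), Nat.div_eq_of_lt w.2, add_zero]
  have h2 : ((u : ℕ) * n + w) % n = w := by
    rw [mul_comm, Nat.mul_add_mod, Nat.mod_eq_of_lt w.2]
  simp only [h1, h2]
  rw [dif_pos (idx_lt u.2 w.2)]

theorem mkY_pot {F : Type*} [Field F] {n : ℕ} (C : Fin n → Fin n → F) (π : Fin n → F) (v : Fin n) :
    ext (mkY C π) (n * n + v) = π v := by
  rw [ext_of_lt _ _ (by have := v.2; omega), mkY]
  simp

theorem map_Z {F : Type*} [Field F] {M : List (List Bool)} {G : SimpleGraph (Fin M.length)}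
    (hA : ∀ u w : Fin M.length, ad M u w = true ↔ G.Adj u w) :
    (KK F (nn M) (rows0 M)).map (pr F (nn M) M.length) = Z F G := by
  ext C
  rw [Submodule.mem_map]
  constructor
  · rintro ⟨y, hy, rfl⟩
    exact (mem_KK_rows0 hA y).1 hy
  · intro hC
    refine ⟨mkY C 0, (mem_KK_rows0 hA _).2 ?_, mkY_flow C 0⟩
    have : pr F (nn M) M.length (mkY C 0) = C := mkY_flow C 0
    rw [this]
    exact hC

theorem map_rad {M : List (List Bool)} {G : SimpleGraph (Fin M.length)}
    (hA : ∀ u w : Fin M.length, ad M u w = true ↔ G.Adj u w) {p : ℕ} [hp : Fact p.Prime]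
    (h2 : (2 : ZMod p) ≠ 0) {x : List ℕ} (hx : ∀ i, x.getD i 0 ≤ p) :
    (KK (ZMod p) (nn M) (rows0 M ++ rows1 M p x)).map (pr (ZMod p) (nn M) M.length) =
      radW (Mx (N1 M) (N2 M) (xh (ZMod p) M.length x)) (Z (ZMod p) G) := by
  ext C
  rw [Submodule.mem_map, rad_iff h2]
  constructor
  · rintro ⟨y, hy, rfl⟩
    rw [KK_append] at hy
    exact ⟨(mem_KK_rows0 hA y).1 hy.1, fun v => ext y (M.length * M.length + v),
      (mem_KK_rows1 hA hx y).1 hy.2⟩
  · rintro ⟨hC, π, hπ⟩
    have e : pr (ZMod p) (nn M) M.length (mkY C π) = C := mkY_flow C π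
    refine ⟨mkY C π, ?_, e⟩
    rw [KK_append]
    refine ⟨(mem_KK_rows0 hA _).2 (by rw [e]; exact hC), (mem_KK_rows1 hA hx _).2 ?_⟩
    intro v w hvw
    have e1 : ∀ u : Fin M.length, ext (N := nn M) (mkY C π) (M.length * M.length + u) = π u :=
      fun u => mkY_pot C π u
    rw [e, e1, e1]
    exact hπ v w hvw

theorem finrank_map_ker {F : Type*} [Field F] {U : Type*} [AddCommGroup U] [Module F U]
    [FiniteDimensional F U] {N : Type*} [AddCommGroup N] [Module F N] [FiniteDimensional F N]
    (f : U →ₗ[F] N) (W : Submodule F U) :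
    finrank F (W.map f) + finrank F ↥(W ⊓ LinearMap.ker f) = finrank F W := by
  have h := LinearMap.finrank_range_add_finrank_ker (f.domRestrict W)
  have h1 : finrank F (LinearMap.ker (f.domRestrict W)) = finrank F ↥(W ⊓ LinearMap.ker f) := by
    rw [← finrank_comap_sub]
    rfl
  have h2 : LinearMap.range (f.domRestrict W) = W.map f := by
    ext n
    constructor
    · rintro ⟨w, rfl⟩; exact ⟨w, w.2, rfl⟩
    · rintro ⟨w, hw, rfl⟩; exact ⟨⟨w, hw⟩, rfl⟩
  rw [h1, h2] at h
  exact h

theorem KK_rowsI {F : Type*} [Field F] (M : List (List Bool)) :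
    KK F (nn M) (rowsI M) = LinearMap.ker (pr F (nn M) M.length) := by
  ext y
  rw [mem_KK]
  constructor
  · intro h
    refine LinearMap.mem_ker.2 ?_
    funext u w
    have h1 := h [((u : ℕ) * M.length + w, 1)]
      (List.mem_map.2 ⟨_, List.mem_range.2 (idx_lt u.2 w.2), rfl⟩)
    simp only [sev, List.map_cons, List.map_nil, List.sum_cons, List.sum_nil, Nat.cast_one,
      one_mul, add_zero] at h1
    exact h1
  · intro h sp hsp
    have h' : pr F (nn M) M.length y = 0 := LinearMap.mem_ker.1 h
    rw [rowsI, List.mem_map] at hsp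
    obtain ⟨i, hi, rfl⟩ := hsp
    rw [List.mem_range] at hi
    have hn : 0 < M.length := by
      rcases Nat.eq_zero_or_pos M.length with h0 | h0
      · rw [h0] at hi; simp at hi
      · exact h0
    have h1 := congrFun (congrFun h' ⟨i / M.length, Nat.div_lt_of_lt_mul hi⟩)
      ⟨i % M.length, Nat.mod_lt _ hn⟩
    rw [pr_apply] at h1
    simp only [Nat.div_add_mod' i M.length] at h1
    simp only [sev, List.map_cons, List.map_nil, List.sum_cons, List.sum_nil, Nat.cast_one,
      one_mul, add_zero]
    exact h1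

theorem pdim_eq {rk : List (List ℕ) → ℕ → ℕ} (hrk : RankSpec rk) (p : ℕ) [Fact p.Prime]
    (M : List (List Bool)) (L : List (List (ℕ × ℕ))) :
    pdim rk M p L = finrank (ZMod p)
      ((KK (ZMod p) (nn M) L).map (pr (ZMod p) (nn M) M.length)) := by
  have h1 := rank_KK hrk p (nn M) L
  have h2 := rank_KK hrk p (nn M) (L ++ rowsI M)
  rw [KK_append, KK_rowsI] at h2
  have h3 := finrank_map_ker (pr (ZMod p) (nn M) M.length) (KK (ZMod p) (nn M) L)
  unfold pdim rks
  omega

theorem psup_eq {rk : List (List ℕ) → ℕ → ℕ} (hrk : RankSpec rk) (p : ℕ) [Fact p.Prime]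
    (M : List (List Bool)) (L : List (List (ℕ × ℕ))) :
    psup rk M p L = (supp ((KK (ZMod p) (nn M) L).map (pr (ZMod p) (nn M) M.length))).card := by
  classical
  unfold psup
  set q : ℕ × ℕ → Bool := fun e =>
    !decide (rks rk M p (L ++ [[(e.1 * M.length + e.2, 1)]]) = rks rk M p L) with hq
  have hnd : ((prs M).filter q).Nodup :=
    (List.Nodup.product List.nodup_range List.nodup_range).filter _
  rw [← List.toFinset_card_of_nodup hnd]
  have hinj : Function.Injective (fun e : Fin M.length × Fin M.length => ((e.1 : ℕ), (e.2 : ℕ))) := by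
    intro a b h
    rw [Prod.ext_iff] at h
    exact Prod.ext (Fin.ext h.1) (Fin.ext h.2)
  rw [← Finset.card_image_of_injective _ hinj]
  congr 1
  have key : ∀ u w : Fin M.length, q ((u : ℕ), (w : ℕ)) = true ↔
      (u, w) ∈ supp ((KK (ZMod p) (nn M) L).map (pr (ZMod p) (nn M) M.length)) := by
    intro u w
    rw [mem_supp]
    simp only [hq, Bool.not_eq_true', decide_eq_false_iff_not, rks]
    have h1 := rank_KK hrk p (nn M) L
    have h2 := rank_KK hrk p (nn M) (L ++ [[((u : ℕ) * M.length + w, 1)]])
    have hle : KK (ZMod p) (nn M) (L ++ [[((u : ℕ) * M.length + w, 1)]]) ≤ KK (ZMod p) (nn M) L := by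
      rw [KK_append]; exact inf_le_left
    have hmem : ∀ y, y ∈ KK (ZMod p) (nn M) [[((u : ℕ) * M.length + (w : ℕ), 1)]] ↔
        pr (ZMod p) (nn M) M.length y u w = 0 := by
      intro y
      rw [mem_KK]
      simp only [List.mem_singleton, forall_eq, sev, List.map_cons, List.map_nil, List.sum_cons,
        List.sum_nil, Nat.cast_one, one_mul, add_zero]
      rfl
    constructor
    · intro hne
      by_contra hcon
      push Not at hcon
      apply hne
      have : KK (ZMod p) (nn M) (L ++ [[((u : ℕ) * M.length + w, 1)]]) = KK (ZMod p) (nn M) L := by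
        refine le_antisymm hle fun y hy => ?_
        rw [KK_append]
        refine ⟨hy, (hmem y).2 ?_⟩
        exact hcon _ ⟨y, hy, rfl⟩
      rw [this] at h2
      omega
    · rintro ⟨_, ⟨y, hy, rfl⟩, hne⟩ heq
      rw [heq] at h2
      have h3 : finrank (ZMod p) (KK (ZMod p) (nn M) L) ≤
          finrank (ZMod p) (KK (ZMod p) (nn M) (L ++ [[((u : ℕ) * M.length + w, 1)]])) := by
        omega
      have h4 := Submodule.eq_of_le_of_finrank_le hle h3
      rw [← h4, KK_append] at hy
      exact hne ((hmem y).1 hy.2)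
  ext ⟨a, b⟩
  rw [List.mem_toFinset, List.mem_filter, mem_prs, Finset.mem_image]
  constructor
  · rintro ⟨⟨ha, hb⟩, h⟩
    exact ⟨(⟨a, ha⟩, ⟨b, hb⟩), (key ⟨a, ha⟩ ⟨b, hb⟩).1 h, rfl⟩
  · rintro ⟨⟨u, w⟩, h, he⟩
    rw [Prod.ext_iff] at he
    simp only at he
    obtain ⟨rfl, rfl⟩ := he
    exact ⟨⟨u.2, w.2⟩, (key u w).2 h⟩

/-! ### the local search -/

section search

variable {rk : List (List ℕ) → ℕ → ℕ}

theorem upd_getD {n : ℕ} (x : List ℕ) (v t i : ℕ) (hi : i < n) :
    (upd n x v t).getD i 0 = if i = v then t else x.getD i 0 := by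
  unfold upd
  rw [List.getD_eq_getElem?_getD, List.getElem?_map, List.getElem?_range hi]
  simp only [Option.map_some, Option.getD_some]
  by_cases h : i = v <;> simp [h]

theorem upd_getD_le {n p : ℕ} (x : List ℕ) (hx : ∀ i, x.getD i 0 ≤ p) (v t : ℕ) (ht : t ≤ p)
    (i : ℕ) : (upd n x v t).getD i 0 ≤ p := by
  by_cases hi : i < n
  · rw [upd_getD x v t i hi]
    split_ifs
    · exact ht
    · exact hx i
  · unfold upd
    rw [List.getD_eq_default]
    · exact Nat.zero_le _
    · simp; omega

theorem stepx_cases (M : List (List Bool)) (p : ℕ) (x : List ℕ) :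
    (stepx rk M p x = x ∧ ∀ y ∈ ups M p x, score rk M p y ≤ score rk M p x) ∨
    (stepx rk M p x ∈ ups M p x ∧ score rk M p x < score rk M p (stepx rk M p x)) := by
  unfold stepx
  cases hl : (ups M p x).filter (fun y => ltb (score rk M p x) (score rk M p y)) with
  | nil =>
    left
    refine ⟨rfl, fun y hy => ?_⟩
    rw [List.filter_eq_nil_iff] at hl
    have := hl y hy
    simp only [ltb, decide_eq_true_eq, not_lt] at this
    exact this
  | cons a t =>
    right
    have : a ∈ (ups M p x).filter (fun y => ltb (score rk M p x) (score rk M p y)) := by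
      rw [hl]; exact List.mem_cons_self
    rw [List.mem_filter] at this
    simp only [ltb, decide_eq_true_eq] at this
    simp only [List.headD_cons]
    exact this

theorem stepx_le (M : List (List Bool)) (p : ℕ) (x : List ℕ) (hx : ∀ i, x.getD i 0 ≤ p) :
    ∀ i, (stepx rk M p x).getD i 0 ≤ p := by
  rcases stepx_cases (rk := rk) M p x with h | h
  · rw [h.1]; exact hx
  · have h1 := h.1
    rw [ups, List.mem_map] at h1
    obtain ⟨e, he, he'⟩ := h1
    rw [← he']
    rcases e with ⟨a, b⟩
    rw [List.mem_product, List.mem_range, List.mem_range] at he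
    exact upd_getD_le x hx _ _ he.2.le

theorem iter_le (M : List (List Bool)) (p : ℕ) (k : ℕ) :
    ∀ i, ((stepx rk M p)^[k] []).getD i 0 ≤ p := by
  induction k with
  | zero => intro i; simp
  | succ k ih =>
    rw [Function.iterate_succ_apply']
    exact stepx_le M p _ ih

theorem psup_le (M : List (List Bool)) (p : ℕ) (L : List (List (ℕ × ℕ))) :
    psup rk M p L ≤ M.length * M.length := by
  unfold psup
  refine (List.length_filter_le _ _).trans ?_
  rw [prs, List.length_product, List.length_range]

theorem score_lt (M : List (List Bool)) (p : ℕ) (x : List ℕ) :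
    score rk M p x < rounds M := by
  unfold score rounds
  have h1 := psup_le (rk := rk) M p (rows0 M ++ rows1 M p x)
  have h2 : (nn M - pdim rk M p (rows0 M ++ rows1 M p x)) * (M.length * M.length + 1) ≤
      nn M * (M.length * M.length + 1) := Nat.mul_le_mul_right _ (Nat.sub_le _ _)
  have h3 : (nn M + 1) * (M.length * M.length + 1) =
      nn M * (M.length * M.length + 1) + (M.length * M.length + 1) := by ring
  omega

theorem xfin_opt (M : List (List Bool)) (p : ℕ) :
    ∀ y ∈ ups M p (xfin rk M p), score rk M p y ≤ score rk M p (xfin rk M p) := by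
  have key : ∀ k, (∀ y ∈ ups M p ((stepx rk M p)^[k] []),
      score rk M p y ≤ score rk M p ((stepx rk M p)^[k] [])) ∨
      k ≤ score rk M p ((stepx rk M p)^[k] []) := by
    intro k
    induction k with
    | zero => exact Or.inr (Nat.zero_le _)
    | succ k ih =>
      rw [Function.iterate_succ_apply']
      rcases stepx_cases (rk := rk) M p ((stepx rk M p)^[k] []) with h | h
      · left
        rw [h.1]
        exact h.2
      · right
        rcases ih with ih | ih
        · have := ih _ h.1
          omega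
        · omega
  rcases key (rounds M) with h | h
  · exact h
  · have := score_lt (rk := rk) M p ((stepx rk M p)^[rounds M] [])
    omega

end search

theorem xfin_locopt {rk : List (List ℕ) → ℕ → ℕ} (hrk : RankSpec rk) {M : List (List Bool)}
    {G : SimpleGraph (Fin M.length)}
    (hA : ∀ u w : Fin M.length, ad M u w = true ↔ G.Adj u w) {p : ℕ} [hp : Fact p.Prime]
    (h2 : (2 : ZMod p) ≠ 0) :
    LocOpt G (N1 M) (N2 M) (xh (ZMod p) M.length (xfin rk M p)) := by
  intro v t
  have hx : ∀ i, (xfin rk M p).getD i 0 ≤ p := iter_le M p _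
  have hy := upd_getD_le (n := M.length) (xfin rk M p) hx v t.val (ZMod.val_lt t).le
  have hopt := xfin_opt (rk := rk) M p (upd M.length (xfin rk M p) v t.val) (by
    refine List.mem_map.2 ⟨((v : ℕ), t.val), ?_, rfl⟩
    exact List.mem_product.2 ⟨List.mem_range.2 v.2, List.mem_range.2 (ZMod.val_lt t)⟩)
  have hupd : xh (ZMod p) M.length (upd M.length (xfin rk M p) v t.val) =
      Function.update (xh (ZMod p) M.length (xfin rk M p)) v t := by
    funext i
    unfold xh
    rw [upd_getD _ _ _ _ i.2]
    by_cases hi : i = v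
    · subst hi
      rw [Function.update_self, if_pos rfl, ZMod.natCast_zmod_val]
    · rw [Function.update_of_ne hi, if_neg (fun h => hi (Fin.ext h))]
  unfold score at hopt
  rw [pdim_eq hrk, pdim_eq hrk, psup_eq hrk, psup_eq hrk, map_rad hA h2 hx, map_rad hA h2 hy,
    hupd] at hopt
  set d := finrank (ZMod p) (radW (Mx (N1 M) (N2 M) (xh (ZMod p) M.length (xfin rk M p)))
    (Z (ZMod p) G)) with hd
  set d' := finrank (ZMod p) (radW (Mx (N1 M) (N2 M)
    (Function.update (xh (ZMod p) M.length (xfin rk M p)) v t)) (Z (ZMod p) G)) with hd'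
  set s := (supp (radW (Mx (N1 M) (N2 M) (xh (ZMod p) M.length (xfin rk M p)))
    (Z (ZMod p) G))).card with hs
  set s' := (supp (radW (Mx (N1 M) (N2 M)
    (Function.update (xh (ZMod p) M.length (xfin rk M p)) v t)) (Z (ZMod p) G))).card with hs'
  have hsle : s ≤ M.length * M.length := by
    have := Finset.card_le_univ (supp (radW (Mx (N1 M) (N2 M)
      (xh (ZMod p) M.length (xfin rk M p))) (Z (ZMod p) G)))
    rw [Fintype.card_prod, Fintype.card_fin] at this
    exact this
  have hdle : d ≤ nn M := by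
    have e : d = finrank (ZMod p) ((KK (ZMod p) (nn M) (rows0 M ++ rows1 M p (xfin rk M p))).map
      (pr (ZMod p) (nn M) M.length)) := by rw [map_rad hA h2 hx]
    have h3 := finrank_map_ker (pr (ZMod p) (nn M) M.length)
      (KK (ZMod p) (nn M) (rows0 M ++ rows1 M p (xfin rk M p)))
    have h4 := Submodule.finrank_le (KK (ZMod p) (nn M) (rows0 M ++ rows1 M p (xfin rk M p)))
    rw [Module.finrank_fin_fun] at h4
    omega
  constructor
  · by_contra hlt
    push Not at hlt
    have h3 : nn M - d + 1 ≤ nn M - d' := by omega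
    have h4 := Nat.mul_le_mul_right (M.length * M.length + 1) h3
    rw [add_mul, one_mul] at h4
    omega
  · intro heq
    rw [heq] at hopt
    omega

/-- the minimum over deletions of vertices of a graph on `Fin n` -/
theorem subval_spec {rk : List (List ℕ) → ℕ → ℕ} (hrk : RankSpec rk) {M : List (List Bool)}
    {G : SimpleGraph (Fin M.length)}
    (hA : ∀ u w : Fin M.length, ad M u w = true ↔ G.Adj u w)
    (hdeg : ∀ v : Fin M.length, (nb M v).length ≤ 3) :
    (∃ X : Finset (Fin M.length), (del G X).IsAcyclic ∧ X.card ≤ subval rk M) ∧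
    ∀ X : Finset (Fin M.length), (del G X).IsAcyclic → subval rk M ≤ X.card := by
  classical
  obtain ⟨hp, hpm⟩ := prm_spec (M.length * M.length + 2) (by omega)
  unfold subval
  set p := prm (M.length * M.length + 2) with hpd
  haveI : Fact p.Prime := ⟨hp⟩
  have h2 : (2 : ZMod p) ≠ 0 := by
    intro h
    have h3 : ((2 : ℕ) : ZMod p) = 0 := by exact_mod_cast h
    rw [ZMod.natCast_eq_zero_iff] at h3
    have := Nat.le_of_dvd (by omega) h3
    omega
  have hx : ∀ i, (xfin rk M p).getD i 0 ≤ p := iter_le M p _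
  have hloc := loc_N hA hdeg
  have hopt := xfin_locopt hrk hA (p := p) h2
  have hF : Fintype.card (Fin M.length × Fin M.length) < Fintype.card (ZMod p) := by
    rw [Fintype.card_prod, Fintype.card_fin, ZMod.card]
    omega
  rw [pdim_eq hrk, pdim_eq hrk, map_Z hA, map_rad hA h2 hx]
  obtain ⟨X, hX, hXc⟩ := upper (N1 M) (N2 M) _ (xh (ZMod p) M.length (xfin rk M p)) G hloc rfl
  have hlow := lower h2 hF hloc hopt
  have h3 := hlow X hX
  have heq : finrank (ZMod p) (Z (ZMod p) G) + finrank (ZMod p)
      (radW (Mx (N1 M) (N2 M) (xh (ZMod p) M.length (xfin rk M p))) (Z (ZMod p) G)) =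
      2 * X.card := by omega
  rw [heq, half_eq]
  refine ⟨⟨X, hX, le_rfl⟩, fun Y hY => ?_⟩
  have := hlow Y hY
  omega

end FVS424
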