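import Pool.Agent.Lib.MP_424cb6_lc.SubCorrect

/-! The subcubic value of a vertex list. -/

namespace FVS424

open Module Pool.Agent.MSR Relation

/-- restrict a matrix to a vertex list -/
def rmat (M : List (List Bool)) (S : List ℕ) : List (List Bool) :=
  (List.range M.length).map (fun u => (List.range M.length).map (fun w =>
    ad M u w && (decide (u ∈ S) && decide (w ∈ S))))

theorem rmat_length (M : List (List Bool)) (S : List ℕ) : (rmat M S).length = M.length := by
  simp [rmat]

theorem ad_rmat (M : List (List Bool)) (S : List ℕ) (u w : ℕ) (hu : u < M.length)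
    (hw : w < M.length) : ad (rmat M S) u w = (ad M u w && (decide (u ∈ S) && decide (w ∈ S))) := by
  have h1 : (rmat M S).getD u [] = (List.range M.length).map (fun w =>
      ad M u w && (decide (u ∈ S) && decide (w ∈ S))) := by
    rw [rmat, List.getD_eq_getElem?_getD, List.getElem?_map, List.getElem?_range hu]
    rfl
  show ((rmat M S).getD u []).getD w false = _
  rw [h1, List.getD_eq_getElem?_getD, List.getElem?_map, List.getElem?_range hw]
  rfl

/-- the restricted graph on `Fin` -/
def Gf (G : SimpleGraph ℕ) (S : List ℕ) (n : ℕ) : SimpleGraph (Fin n) where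
  Adj u w := G.Adj u w ∧ (u : ℕ) ∈ S ∧ (w : ℕ) ∈ S
  symm := ⟨fun _ _ h => ⟨h.1.symm, h.2.2, h.2.1⟩⟩
  loopless := ⟨fun _ h => G.loopless.irrefl _ h.1⟩

theorem subval_eq {rk : List (List ℕ) → ℕ → ℕ} (hrk : RankSpec rk) {M : List (List Bool)}
    {G : SimpleGraph ℕ} (hM : ∀ i j, ad M i j = true ↔ G.Adj i j) {S : List ℕ} 
    (hSn : ∀ z ∈ S, z < M.length)
    (hdeg : ∀ v ∈ S.toFinset, dgS G (S.toFinset : Set ℕ) v ≤ 3) :
    subval rk (rmat M S) = fvs G S.toFinset := by
  classical
  set n := (rmat M S).length with hn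
  have hnM : n = M.length := rmat_length M S
  have hA : ∀ u w : Fin n, ad (rmat M S) u w = true ↔ (Gf G S n).Adj u w := by
    intro u w
    rw [ad_rmat M S u w (by rw [← hnM]; exact u.2) (by rw [← hnM]; exact w.2)]
    simp only [Bool.and_eq_true, decide_eq_true_eq, hM]
    rfl
  have hdeg' : ∀ v : Fin n, (nb (rmat M S) v).length ≤ 3 := by
    intro v
    have hnd : (nb (rmat M S) v).Nodup := List.nodup_range.filter _
    by_cases hv : (v : ℕ) ∈ S
    · rw [← List.toFinset_card_of_nodup hnd, ← Set.ncard_coe_finset]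
      refine le_trans (Set.ncard_le_ncard ?_ (Set.toFinite _)) (hdeg v (List.mem_toFinset.2 hv))
      intro w hw
      rw [Finset.mem_coe, List.mem_toFinset, nb, List.mem_filter, List.mem_range] at hw
      have := (hA v ⟨w, hw.1⟩).1 hw.2
      exact ⟨this.1, by rw [Finset.mem_coe, List.mem_toFinset]; exact this.2.2⟩
    · have : nb (rmat M S) v = [] := by
        rw [nb, List.filter_eq_nil_iff]
        intro w hw hw'
        rw [List.mem_range] at hw
        exact hv ((hA v ⟨w, hw⟩).1 hw').2.1
      rw [this]; simp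
  obtain ⟨⟨X', hX', hX'c⟩, hmin⟩ := subval_spec hrk hA hdeg'
  apply le_antisymm
  · obtain ⟨X, hX, hXc⟩ := exists_fvs G S.toFinset
    set Y : Finset (Fin n) := Finset.univ.filter (fun v : Fin n => (v : ℕ) ∈ X) with hY
    have hYX : Y.card ≤ X.card := by
      rw [← Finset.card_map Fin.valEmbedding]
      apply Finset.card_le_card
      intro z hz
      rw [Finset.mem_map] at hz
      obtain ⟨v, hv, rfl⟩ := hz
      exact (Finset.mem_filter.1 hv).2
    have hYa : (del (Gf G S n) Y).IsAcyclic := by
      rw [SimpleGraph.isAcyclic_iff_forall_adj_isBridge]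
      intro u w huw
      rw [SimpleGraph.isBridge_iff]
      intro hr
      have hin : ∀ a b : Fin n, (del (Gf G S n) Y).Adj a b → 
          (b : ℕ) ∈ ((S.toFinset : Set ℕ) \ (X : Set ℕ)) := by
        intro a b hab
        refine ⟨by rw [Finset.mem_coe, List.mem_toFinset]; exact hab.1.2.2, fun h => ?_⟩
        exact hab.2.2 (Finset.mem_filter.2 ⟨Finset.mem_univ _, h⟩)
      refine hX.2 u (hin w u huw.symm) w (hin u w huw) huw.1.1 ?_
      rw [SimpleGraph.reachable_iff_reflTransGen] at hr
      refine ⟨hin w u huw.symm, ?_⟩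
      refine ReflTransGen.lift (fun v : Fin n => (v : ℕ)) ?_ _ _ hr
      intro a b hab
      rw [SimpleGraph.deleteEdges_adj] at hab
      refine ⟨?_, hin a b hab.1⟩
      rw [SimpleGraph.deleteEdges_adj]
      refine ⟨hab.1.1.1, ?_⟩
      intro h
      apply hab.2
      rw [Set.mem_singleton_iff, Sym2.eq_iff] at h ⊢
      rcases h with h | h
      · exact Or.inl ⟨Fin.ext h.1, Fin.ext h.2⟩
      · exact Or.inr ⟨Fin.ext h.1, Fin.ext h.2⟩
    rw [← hXc]
    exact (hmin Y hYa).trans hYX
  · refine le_trans ?_ hX'c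
    rw [← Finset.card_map Fin.valEmbedding]
    refine le_trans (fvs_le_of ?_) (Finset.card_le_card Finset.inter_subset_left)
    rw [acyc_iff]
    have hlt : ∀ v : ((S.toFinset : Set ℕ) \ ((X'.map Fin.valEmbedding : Finset ℕ) : Set ℕ) : Set ℕ),
        (v : ℕ) < n := by
      intro v
      rw [hnM]
      exact hSn v (List.mem_toFinset.1 v.2.1)
    let f : (G.induce ((S.toFinset : Set ℕ) \ ((X'.map Fin.valEmbedding : Finset ℕ) : Set ℕ))) →g
        (del (Gf G S n) X') :=
      { toFun := fun v => ⟨v, hlt v⟩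
        map_rel' := by
          intro a b hab
          have ha := a.2
          have hb := b.2
          refine ⟨⟨hab, List.mem_toFinset.1 ha.1, List.mem_toFinset.1 hb.1⟩, ?_, ?_⟩
          · intro h
            exact ha.2 (Finset.mem_coe.2 (Finset.mem_map.2 ⟨_, h, rfl⟩))
          · intro h
            exact hb.2 (Finset.mem_coe.2 (Finset.mem_map.2 ⟨_, h, rfl⟩)) }
    refine hX'.comap f ?_
    intro a b hab
    have : (a : ℕ) = b := congrArg Fin.val hab
    exact Subtype.ext this

end FVS424
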