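import Pool.Agent.Lib.MP_424cb6_lc.Conn

/-! Tree decompositions. -/

namespace FVS424

open Relation

variable {V : Type*}

/-- A tree decomposition of a graph. -/
structure TreeDecomposition (G : SimpleGraph V) where
  /-- the nodes of the tree -/
  ι : Type
  fin : Finite ι
  /-- the tree -/
  T : SimpleGraph ι
  isTree : T.IsTree
  /-- the bags -/
  bag : ι → Finset V
  mem_bag : ∀ v, ∃ i, v ∈ bag i
  edge_bag : ∀ u v, G.Adj u v → ∃ i, u ∈ bag i ∧ v ∈ bag i
  connected : ∀ v, (T.induce {i | v ∈ bag i}).Preconnected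

/-- `G` has treewidth at most `w`. -/
def TreewidthLE (G : SimpleGraph V) (w : ℕ) : Prop :=
  ∃ D : TreeDecomposition G, ∀ i, (D.bag i).card ≤ w + 1

/-- Tree decomposition of `G[A]` of width `≤ w` with a bag containing `R`. -/
def TDR (G : SimpleGraph V) (A : Set V) (w : ℕ) (R : Set V) : Prop :=
  ∃ (ι : Type) (_ : Finite ι) (T : SimpleGraph ι) (bag : ι → Finset V) (r : ι),
    T.IsTree ∧ (∀ i, ∀ v ∈ bag i, v ∈ A) ∧ (∀ i, (bag i).card ≤ w + 1) ∧
    (∀ v ∈ A, ∃ i, v ∈ bag i) ∧ (∀ u ∈ A, ∀ v ∈ A, G.Adj u v → ∃ i, u ∈ bag i ∧ v ∈ bag i) ∧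
    (∀ v i j, v ∈ bag i → v ∈ bag j → Conn T {k | v ∈ bag k} i j) ∧ R ⊆ (bag r : Set V)

theorem conn_induce {ι : Type*} {T : SimpleGraph ι} {S : Set ι} {i j : ι} (h : Conn T S i j)
    (hi : i ∈ S) (hj : j ∈ S) : (T.induce S).Reachable ⟨i, hi⟩ ⟨j, hj⟩ := by
  have : ∀ hj', (T.induce S).Reachable ⟨i, hi⟩ ⟨j, hj'⟩ := by
    refine h.closed (fun z => ∀ hz, (T.induce S).Reachable ⟨i, hi⟩ ⟨z, hz⟩)
      (fun _ => SimpleGraph.Reachable.refl _) ?_
    intro u v h1 h2 h3 h4 h5
    have hadj : (T.induce S).Adj ⟨u, h1.right⟩ ⟨v, h5⟩ := by simpa using h3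
    exact (h2 h1.right).trans hadj.reachable
  exact this hj

theorem TDR.toTW {G : SimpleGraph V} {w : ℕ} {R : Set V} (h : TDR G Set.univ w R) :
    TreewidthLE G w := by
  obtain ⟨ι, hf, T, bag, r, h1, h2, h3, h4, h5, h6, h7⟩ := h
  refine ⟨⟨ι, hf, T, h1, bag, fun v => h4 v trivial, fun u v h => h5 u trivial v trivial h, ?_⟩, h3⟩
  rintro v ⟨i, hi⟩ ⟨j, hj⟩
  exact conn_induce (h6 v i j hi hj) hi hj

theorem sum_isAcyclic {α β : Type*} {G : SimpleGraph α} {H : SimpleGraph β} (hG : G.IsAcyclic)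
    (hH : H.IsAcyclic) : (G ⊕g H).IsAcyclic := by
  rw [SimpleGraph.isAcyclic_iff_forall_adj_isBridge] at hG hH ⊢
  have key : ∀ (E : Set (Sym2 (α ⊕ β))) (a b : α ⊕ β), ((G ⊕g H).deleteEdges E).Reachable a b →
      (∀ u, a = .inl u → ∃ v, b = .inl v ∧
        (G.deleteEdges {e | e.map Sum.inl ∈ E}).Reachable u v) ∧
      (∀ u, a = .inr u → ∃ v, b = .inr v ∧
        (H.deleteEdges {e | e.map Sum.inr ∈ E}).Reachable u v) := by
    intro E a b h
    rw [SimpleGraph.reachable_iff_reflTransGen] at h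
    induction h with
    | refl =>
      exact ⟨fun u hu => ⟨u, hu, SimpleGraph.Reachable.refl _⟩,
        fun u hu => ⟨u, hu, SimpleGraph.Reachable.refl _⟩⟩
    | @tail b c h1 h2 ih =>
      constructor
      · intro u hu
        obtain ⟨v, rfl, hv⟩ := ih.1 u hu
        rcases c with c | c
        · refine ⟨c, rfl, hv.trans (SimpleGraph.Adj.reachable ?_)⟩
          rw [SimpleGraph.deleteEdges_adj] at h2 ⊢
          exact ⟨by simpa using h2.1, by simpa using h2.2⟩
        · rw [SimpleGraph.deleteEdges_adj] at h2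
          simp at h2
      · intro u hu
        obtain ⟨v, rfl, hv⟩ := ih.2 u hu
        rcases c with c | c
        · rw [SimpleGraph.deleteEdges_adj] at h2
          simp at h2
        · refine ⟨c, rfl, hv.trans (SimpleGraph.Adj.reachable ?_)⟩
          rw [SimpleGraph.deleteEdges_adj] at h2 ⊢
          exact ⟨by simpa using h2.1, by simpa using h2.2⟩
  intro a b hab
  rw [SimpleGraph.isBridge_iff]
  intro hr
  rcases a with a | a <;> rcases b with b | b
  · obtain ⟨v, hv, hv'⟩ := (key _ _ _ hr).1 a rfl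
    rw [Sum.inl.injEq] at hv
    subst hv
    have := hG (by simpa using hab : G.Adj a b)
    rw [SimpleGraph.isBridge_iff] at this
    apply this
    refine hv'.mono ?_
    intro u v huv
    rw [SimpleGraph.deleteEdges_adj] at huv ⊢
    refine ⟨huv.1, ?_⟩
    intro h
    apply huv.2
    rw [Set.mem_singleton_iff] at h
    simp [h]
  · simp at hab
  · simp at hab
  · obtain ⟨v, hv, hv'⟩ := (key _ _ _ hr).2 a rfl
    rw [Sum.inr.injEq] at hv
    subst hv
    have := hH (by simpa using hab : H.Adj a b)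
    rw [SimpleGraph.isBridge_iff] at this
    apply this
    refine hv'.mono ?_
    intro u v huv
    rw [SimpleGraph.deleteEdges_adj] at huv ⊢
    refine ⟨huv.1, ?_⟩
    intro h
    apply huv.2
    rw [Set.mem_singleton_iff] at h
    simp [h]

theorem TDR.glue {G : SimpleGraph V} {A B : Set V} {w : ℕ} {R R' : Set V}
    (h1 : TDR G A w R) (h2 : TDR G B w R') (hR : A ∩ B ⊆ R) (hR' : A ∩ B ⊆ R')
    (hE : ∀ u ∈ A ∪ B, ∀ v ∈ A ∪ B, G.Adj u v → (u ∈ A ∧ v ∈ A) ∨ (u ∈ B ∧ v ∈ B)) :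
    TDR G (A ∪ B) w R' := by
  obtain ⟨ι, hf, T, bag, r, a1, a2, a3, a4, a5, a6, a7⟩ := h1
  obtain ⟨κ, hg, U, bag', s, b1, b2, b3, b4, b5, b6, b7⟩ := h2
  have hlift1 : ∀ v i j, Conn T {k | v ∈ bag k} i j →
      Conn ((T ⊕g U) ⊔ SimpleGraph.edge (Sum.inl r) (Sum.inr s))
        {k | v ∈ Sum.elim bag bag' k} (Sum.inl i) (Sum.inl j) := by
    intro v i j h
    refine h.closed (fun z => Conn ((T ⊕g U) ⊔ SimpleGraph.edge (Sum.inl r) (Sum.inr s))
        {k | v ∈ Sum.elim bag bag' k} (Sum.inl i) (Sum.inl z)) (.refl h.1) ?_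
    intro x y _ h2 h3 h4
    refine h2.tail h4 ?_
    left
    simpa using h3
  have hlift2 : ∀ v i j, Conn U {k | v ∈ bag' k} i j →
      Conn ((T ⊕g U) ⊔ SimpleGraph.edge (Sum.inl r) (Sum.inr s))
        {k | v ∈ Sum.elim bag bag' k} (Sum.inr i) (Sum.inr j) := by
    intro v i j h
    refine h.closed (fun z => Conn ((T ⊕g U) ⊔ SimpleGraph.edge (Sum.inl r) (Sum.inr s))
        {k | v ∈ Sum.elim bag bag' k} (Sum.inr i) (Sum.inr z)) (.refl h.1) ?_
    intro x y _ h2 h3 h4
    refine h2.tail h4 ?_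
    left
    simpa using h3
  have hmid : ∀ v, v ∈ A → v ∈ B → Conn ((T ⊕g U) ⊔ SimpleGraph.edge (Sum.inl r) (Sum.inr s))
        {k | v ∈ Sum.elim bag bag' k} (Sum.inl r) (Sum.inr s) := by
    intro v hA hB
    refine Conn.adj (a7 (hR ⟨hA, hB⟩)) (b7 (hR' ⟨hA, hB⟩)) ?_
    right
    rw [SimpleGraph.edge_adj]
    exact ⟨Or.inl ⟨rfl, rfl⟩, by simp⟩
  refine ⟨ι ⊕ κ, inferInstance, (T ⊕g U) ⊔ SimpleGraph.edge (Sum.inl r) (Sum.inr s),
    Sum.elim bag bag', Sum.inr s, ⟨?_, ?_⟩, ?_, ?_, ?_, ?_, ?_, ?_⟩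
  · exact SimpleGraph.Connected.sum_sup_edge a1.1 b1.1
  · apply SimpleGraph.IsAcyclic.sup_edge_of_not_reachable
    · exact SimpleGraph.not_reachable_sum_inl_inr _ _
    · exact sum_isAcyclic a1.2 b1.2
  · rintro (i | i) v hv
    · exact Or.inl (a2 i v hv)
    · exact Or.inr (b2 i v hv)
  · rintro (i | i)
    · exact a3 i
    · exact b3 i
  · rintro v (hv | hv)
    · obtain ⟨i, hi⟩ := a4 v hv
      exact ⟨.inl i, hi⟩
    · obtain ⟨i, hi⟩ := b4 v hv
      exact ⟨.inr i, hi⟩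
  · intro u hu v hv huv
    rcases hE u hu v hv huv with h | h
    · obtain ⟨i, hi⟩ := a5 u h.1 v h.2 huv
      exact ⟨.inl i, hi⟩
    · obtain ⟨i, hi⟩ := b5 u h.1 v h.2 huv
      exact ⟨.inr i, hi⟩
  · rintro v (i | i) (j | j) hi hj
    · exact hlift1 v i j (a6 v i j hi hj)
    · have hA := a2 i v hi
      have hB := b2 j v hj
      exact (hlift1 v i r (a6 v i r hi (a7 (hR ⟨hA, hB⟩)))).trans
        ((hmid v hA hB).trans (hlift2 v s j (b6 v s j (b7 (hR' ⟨hA, hB⟩)) hj)))
    · have hA := a2 j v hj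
      have hB := b2 i v hi
      exact (hlift2 v i s (b6 v i s hi (b7 (hR' ⟨hA, hB⟩)))).trans
        ((hmid v hA hB).symm.trans (hlift1 v r j (a6 v r j (a7 (hR ⟨hA, hB⟩)) hj)))
    · exact hlift2 v i j (b6 v i j hi hj)
  · exact b7

theorem TDR.mono {G G' : SimpleGraph V} {A : Set V} {w w' : ℕ} {R R' : Set V} (h : TDR G A w R)
    (hG : ∀ u ∈ A, ∀ v ∈ A, G'.Adj u v → G.Adj u v) (hw : w ≤ w') (hR : R' ⊆ R) :
    TDR G' A w' R' := by
  obtain ⟨ι, hf, T, bag, r, a1, a2, a3, a4, a5, a6, a7⟩ := h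
  exact ⟨ι, hf, T, bag, r, a1, a2, fun i => (a3 i).trans (by omega), a4,
    fun u hu v hv huv => a5 u hu v hv (hG u hu v hv huv), a6, hR.trans a7⟩

/-- change the distinguished bag -/
theorem TDR.root {G : SimpleGraph V} {A : Set V} {w : ℕ} {R : Set V} (h : TDR G A w R)
    (Y : Finset V) (hY : ∀ y ∈ Y, y ∈ A) (hc : Y.card ≤ 2)
    (hcl : ∀ u ∈ Y, ∀ v ∈ Y, u ≠ v → G.Adj u v) : TDR G A w (Y : Set V) := by
  obtain ⟨ι, hf, T, bag, r, a1, a2, a3, a4, a5, a6, a7⟩ := h
  have : ∃ i, ∀ y ∈ Y, y ∈ bag i := by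
    rcases Y.eq_empty_or_nonempty with rfl | ⟨y, hy⟩
    · exact ⟨r, by simp⟩
    · by_cases h : ∃ z ∈ Y, z ≠ y
      · obtain ⟨z, hz, hzy⟩ := h
        obtain ⟨i, hi1, hi2⟩ := a5 y (hY y hy) z (hY z hz) (hcl y hy z hz hzy.symm)
        refine ⟨i, ?_⟩
        intro t ht
        by_contra hti
        have hty : t ≠ y := by rintro rfl; exact hti hi1
        have htz : t ≠ z := by rintro rfl; exact hti hi2
        have : 2 < Y.card := by
          rw [Finset.two_lt_card]
          exact ⟨t, ht, y, hy, z, hz, hty, htz, hzy.symm⟩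
        omega
      · push Not at h
        obtain ⟨i, hi⟩ := a4 y (hY y hy)
        refine ⟨i, ?_⟩
        intro t ht
        rw [h t ht]; exact hi
  obtain ⟨i, hi⟩ := this
  exact ⟨ι, hf, T, bag, i, a1, a2, a3, a4, a5, a6, hi⟩

theorem TDR.single {G : SimpleGraph V} {w : ℕ} (S : Finset V) (hS : S.card ≤ w + 1) :
    TDR G (S : Set V) w (S : Set V) := by
  refine ⟨Unit, inferInstance, ⊥, fun _ => S, (), ?_, ?_, ?_, ?_, ?_, ?_, ?_⟩
  · exact SimpleGraph.IsTree.of_subsingleton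
  · intro _ v hv; exact hv
  · intro _; exact hS
  · intro v hv; exact ⟨(), hv⟩
  · intro u hu v hv _; exact ⟨(), hu, hv⟩
  · intro v i j hi hj; exact Conn.refl hi
  · exact subset_rfl

open Classical in
/-- Depth-first search: if all paths in `A` are short, then there is a tree decomposition of small
width.  Here `s` is the current (reversed) root path. -/
theorem tdr_dfs (G : SimpleGraph V) (L : ℕ) : ∀ (n : ℕ) (C : Finset V) (s : List V), C.card = n →
    IsP G s → (∀ c ∈ C, c ∉ s) →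
    (∀ l, IsP G l → (∀ z ∈ l, z ∈ C ∨ z ∈ s) → l.length ≤ L + 1) →
    (∀ h ∈ s.head?, ∀ c ∈ C, ∃ c', Conn G (C : Set V) c c' ∧ G.Adj c' h) →
    TDR G {z | z ∈ C ∨ z ∈ s} L {z | z ∈ s} := by
  intro n
  induction n using Nat.strong_induction_on with
  | _ n ih =>
  intro C s hCn hs hCs hL hh
  rcases C.eq_empty_or_nonempty with rfl | ⟨c0, hc0⟩
  · have h := TDR.single (G := G) (w := L) s.toFinset
      ((List.toFinset_card_le s).trans (hL s hs (by simp)))
    have e : {z | z ∈ (∅ : Finset V) ∨ z ∈ s} = (s.toFinset : Set V) := by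
      ext z; simp
    have e' : {z | z ∈ s} = (s.toFinset : Set V) := by
      ext z; simp
    rw [e, e']
    exact h
  -- the new vertex
  obtain ⟨c, hc, hadj⟩ : ∃ c, c ∈ C ∧ ∀ h ∈ s.head?, G.Adj c h := by
    cases s with
    | nil => exact ⟨c0, hc0, by simp⟩
    | cons a s =>
      obtain ⟨c', h1, h2⟩ := hh a (by simp) c0 hc0
      exact ⟨c', h1.right, by simpa using h2⟩
  set K : Finset V := C.filter (fun z => Conn G (C : Set V) c z) with hK
  have hKc : ∀ z, z ∈ K ↔ Conn G (C : Set V) c z := by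
    intro z
    rw [hK, Finset.mem_filter]
    exact ⟨fun h => h.2, fun h => ⟨h.right, h⟩⟩
  have hcK : c ∈ K := (hKc c).2 (.refl hc)
  have hKC : K ⊆ C := Finset.filter_subset _ _
  have hKcl : ∀ u ∈ K, ∀ v ∈ C, G.Adj u v → v ∈ K := by
    intro u hu v hv huv
    rw [hKc] at hu ⊢
    exact hu.tail hv huv
  -- first part
  have hp1 : IsP G (c :: s) := by
    refine ⟨?_, ?_⟩
    · rw [List.isChain_cons]
      exact ⟨hadj, hs.1⟩
    · rw [List.nodup_cons]
      exact ⟨hCs c hc, hs.2⟩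
  have t1 : TDR G {z | z ∈ K.erase c ∨ z ∈ c :: s} L {z | z ∈ c :: s} := by
    refine ih (K.erase c).card ?_ (K.erase c) (c :: s) rfl hp1 ?_ ?_ ?_
    · calc (K.erase c).card < K.card := Finset.card_erase_lt_of_mem hcK
        _ ≤ C.card := Finset.card_le_card hKC
        _ = n := hCn
    · intro z hz
      rw [Finset.mem_erase] at hz
      rw [List.mem_cons]
      rintro (h | h)
      · exact hz.1 h
      · exact hCs z (hKC hz.2) h
    · intro l hl hz
      apply hL l hl
      intro z hzl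
      rcases hz z hzl with h | h
      · exact Or.inl (hKC (Finset.mem_of_mem_erase h))
      · rcases List.mem_cons.1 h with rfl | h
        · exact Or.inl hc
        · exact Or.inr h
    · intro h hhd z hz
      simp at hhd
      subst hhd
      rw [Finset.mem_erase] at hz
      have h1 : Conn G (C : Set V) z c := ((hKc z).1 hz.2).symm
      have h2 : Conn G ((C : Set V) ∩ (K : Set V)) z c :=
        h1.restrict _ hz.2 (fun u hu _ v hv huv => hKcl u hu v hv huv)
      obtain ⟨u, v, h3, h4, h5, h6⟩ := h2.first_hit {c} (by simpa using hz.1) rfl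
      rw [Set.mem_singleton_iff] at h5
      subst h5
      refine ⟨u, h3.mono ?_, h4⟩
      rintro t ⟨⟨_, ht⟩, ht'⟩
      rw [Finset.mem_coe, Finset.mem_erase]
      exact ⟨ht', ht⟩
  have t2 : TDR G {z | z ∈ C \ K ∨ z ∈ s} L {z | z ∈ s} := by
    refine ih (C \ K).card ?_ (C \ K) s rfl hs ?_ ?_ ?_
    · rw [← hCn]
      apply Finset.card_lt_card
      refine ⟨Finset.sdiff_subset, ?_⟩
      intro h
      have := h hc
      rw [Finset.mem_sdiff] at this
      exact this.2 hcK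
    · intro z hz
      exact hCs z (Finset.sdiff_subset hz)
    · intro l hl hz
      apply hL l hl
      intro z hzl
      rcases hz z hzl with h | h
      · exact Or.inl (Finset.sdiff_subset h)
      · exact Or.inr h
    · intro h hhd z hz
      rw [Finset.mem_sdiff] at hz
      obtain ⟨c', h1, h2⟩ := hh h hhd z hz.1
      refine ⟨c', (h1.restrict ((K : Set V)ᶜ) hz.2 ?_).mono ?_, h2⟩
      · intro u hu huC v hv huv hvK
        exact hu (hKcl v hvK u huC huv.symm)
      · rintro t ⟨ht1, ht2⟩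
        rw [Finset.mem_coe, Finset.mem_sdiff]
        exact ⟨ht1, ht2⟩
  have t3 := t1.glue t2 ?_ ?_ ?_
  · have e : {z | z ∈ C ∨ z ∈ s} = {z | z ∈ K.erase c ∨ z ∈ c :: s} ∪ {z | z ∈ C \ K ∨ z ∈ s} := by
      ext z
      simp only [Set.mem_ofPred_eq, Set.mem_union, Finset.mem_erase, Finset.mem_sdiff,
        List.mem_cons]
      constructor
      · rintro (h | h)
        · by_cases hzK : z ∈ K
          · by_cases hzc : z = c
            · exact Or.inl (Or.inr (Or.inl hzc))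
            · exact Or.inl (Or.inl ⟨hzc, hzK⟩)
          · exact Or.inr (Or.inl ⟨h, hzK⟩)
        · exact Or.inr (Or.inr h)
      · rintro ((⟨_, h⟩ | h | h) | (h | h))
        · exact Or.inl (hKC h)
        · exact Or.inl (h ▸ hc)
        · exact Or.inr h
        · exact Or.inl h.1
        · exact Or.inr h
    rw [e]
    exact t3
  · rintro z ⟨h1, h2⟩
    simp only [Set.mem_ofPred_eq, Finset.mem_erase, Finset.mem_sdiff, List.mem_cons] at h1 h2 ⊢
    rcases h1 with h1 | h1
    · rcases h2 with h2 | h2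
      · exact absurd h1.2 h2.2
      · exact Or.inr h2
    · exact h1
  · rintro z ⟨h1, h2⟩
    simp only [Set.mem_ofPred_eq, Finset.mem_erase, Finset.mem_sdiff, List.mem_cons] at h1 h2 ⊢
    rcases h2 with h2 | h2
    · rcases h1 with h1 | h1 | h1
      · exact absurd h1.2 h2.2
      · exact absurd hcK (h1 ▸ h2.2)
      · exact h1
    · exact h2
  · -- edges
    have hmem : ∀ z, z ∈ {z | z ∈ K.erase c ∨ z ∈ c :: s} ↔ (z ∈ K ∨ z ∈ s) := by
      intro z
      simp only [Set.mem_ofPred_eq, Finset.mem_erase, List.mem_cons]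
      constructor
      · rintro (h | h | h)
        · exact Or.inl h.2
        · exact Or.inl (h ▸ hcK)
        · exact Or.inr h
      · rintro (h | h)
        · by_cases hzc : z = c
          · exact Or.inr (Or.inl hzc)
          · exact Or.inl ⟨hzc, h⟩
        · exact Or.inr (Or.inr h)
    intro u hu v hv huv
    have hu' : u ∈ K ∨ u ∈ C \ K ∨ u ∈ s := by
      rcases hu with hu | hu
      · rcases (hmem u).1 hu with h | h
        · exact Or.inl h
        · exact Or.inr (Or.inr h)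
      · rcases hu with h | h
        · exact Or.inr (Or.inl h)
        · exact Or.inr (Or.inr h)
    have hv' : v ∈ K ∨ v ∈ C \ K ∨ v ∈ s := by
      rcases hv with hu | hu
      · rcases (hmem v).1 hu with h | h
        · exact Or.inl h
        · exact Or.inr (Or.inr h)
      · rcases hu with h | h
        · exact Or.inr (Or.inl h)
        · exact Or.inr (Or.inr h)
    rw [hmem, hmem]
    rcases hu' with h1 | h1 | h1 <;> rcases hv' with h2 | h2 | h2
    · exact Or.inl ⟨Or.inl h1, Or.inl h2⟩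
    · exfalso
      rw [Finset.mem_sdiff] at h2
      exact h2.2 (hKcl u h1 v h2.1 huv)
    · exact Or.inl ⟨Or.inl h1, Or.inr h2⟩
    · exfalso
      rw [Finset.mem_sdiff] at h1
      exact h1.2 (hKcl v h2 u h1.1 huv.symm)
    · exact Or.inr ⟨Or.inl h1, Or.inl h2⟩
    · exact Or.inr ⟨Or.inl h1, Or.inr h2⟩
    · exact Or.inl ⟨Or.inr h1, Or.inl h2⟩
    · exact Or.inr ⟨Or.inr h1, Or.inl h2⟩
    · exact Or.inr ⟨Or.inr h1, Or.inr h2⟩

end FVS424
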