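import Pool.Agent.Lib.MP_424cb6_lc.TwForest
import Pool.Agent.Lib.MP_424cb6_lc.Algo

/-! Closure of a finite universe under binary rules, in polynomial time. -/

namespace FVS424

open Relation Pool.Agent.MSR

section closure

variable {β : Type} (U : List β) (ax : β → Bool) (rule : β → β → β → Bool)

/-- one round of the closure -/
def clStep (T : List β) : List β :=
  U.filter (fun f => ax f || T.any (fun f1 => T.any (fun f2 => rule f1 f2 f)))

/-- the closure of a universe under axioms and binary rules -/
def cl : List β := (clStep U ax rule)^[U.length + 1] []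

/-- derivability -/
inductive Deriv : β → Prop
  | base {f : β} (h : f ∈ U) (h' : ax f = true) : Deriv f
  | step {f1 f2 f : β} (h : f ∈ U) (h1 : Deriv f1) (h2 : Deriv f2)
      (h' : rule f1 f2 f = true) : Deriv f

variable {U ax rule}

theorem mem_clStep {T : List β} {f : β} : f ∈ clStep U ax rule T ↔
    f ∈ U ∧ (ax f = true ∨ ∃ f1 ∈ T, ∃ f2 ∈ T, rule f1 f2 f = true) := by
  simp only [clStep, List.mem_filter, Bool.or_eq_true, List.any_eq_true]

theorem Deriv.mem {f : β} (h : Deriv U ax rule f) : f ∈ U := by
  cases h <;> assumption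

theorem mem_cl {f : β} : f ∈ cl U ax rule ↔ Deriv U ax rule f := by
  constructor
  · have : ∀ k f, f ∈ (clStep U ax rule)^[k] [] → Deriv U ax rule f := by
      intro k
      induction k with
      | zero => intro f hf; simp at hf
      | succ k ih =>
        intro f hf
        rw [Function.iterate_succ_apply', mem_clStep] at hf
        rcases hf with ⟨h1, h2 | ⟨f1, h3, f2, h4, h5⟩⟩
        · exact .base h1 h2
        · exact .step h1 (ih _ h3) (ih _ h4) h5
    exact this _ f
  · set T : ℕ → List β := fun k => (clStep U ax rule)^[k] [] with hT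
    have hT1 : ∀ k, T (k + 1) = clStep U ax rule (T k) := fun k => Function.iterate_succ_apply' _ _ _
    have hsub : ∀ k, (T k).Sublist (T (k + 1)) := by
      intro k
      induction k with
      | zero => exact List.nil_sublist _
      | succ k ih =>
        rw [hT1 (k + 1), hT1 k]
        unfold clStep
        apply List.monotone_filter_right
        intro f hf
        rw [hT1 k] at ih
        simp only [Bool.or_eq_true, List.any_eq_true] at hf ⊢
        rcases hf with h | ⟨f1, h1, f2, h2, h3⟩
        · exact Or.inl h
        · exact Or.inr ⟨f1, ih.subset h1, f2, ih.subset h2, h3⟩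
    have hle : ∀ k, (T k).length ≤ U.length := by
      intro k
      cases k with
      | zero => simp [hT]
      | succ k =>
        rw [hT1]
        exact List.length_filter_le _ _
    have hfix : ∃ k ≤ U.length, T k = T (k + 1) := by
      by_contra hno
      push Not at hno
      have : ∀ k ≤ U.length + 1, k ≤ (T k).length := by
        intro k
        induction k with
        | zero => simp
        | succ k ih =>
          intro hk
          have h1 := ih (by omega)
          have h2 := (hsub k).length_le
          have h3 : (T k).length ≠ (T (k + 1)).length := by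
            intro he
            exact hno k (by omega) ((hsub k).eq_of_length he)
          omega
      have h1 := this (U.length + 1) le_rfl
      have h2 := hle (U.length + 1)
      omega
    obtain ⟨k, hk, hfix⟩ := hfix
    have hst : ∀ j, T (k + j) = T k := by
      intro j
      induction j with
      | zero => rfl
      | succ j ih => rw [← Nat.add_assoc, hT1, ih, ← hT1, ← hfix]
    have hcl : cl U ax rule = T k := by
      have : cl U ax rule = T (U.length + 1) := rfl
      rw [this, ← hst (U.length + 1 - k)]
      congr 1
      omega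
    rw [hcl]
    intro h
    induction h with
    | base h h' =>
      rw [hfix, hT1, mem_clStep]
      exact ⟨h, Or.inl h'⟩
    | step h h1 h2 h' ih1 ih2 =>
      rw [hfix, hT1, mem_clStep]
      exact ⟨h, Or.inr ⟨_, ih1, _, ih2, h'⟩⟩

end closure

section pt

variable {α β γ : Type} [En α] [En β] [En γ]

theorem sz_filter_le (p : β → Bool) (l : List β) : sz (l.filter p) ≤ sz l := by
  induction l with
  | nil => simp
  | cons b l ih =>
    rw [List.filter_cons]
    split_ifs
    · rw [sz_cons, sz_cons]; omega
    · rw [sz_cons]; omega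

theorem pt_cl {U : α → List β} {ax : α → β → Bool} {rule : α → β → β → β → Bool} (hU : PT U)
    (hax : PT (fun p : α × β => ax p.1 p.2))
    (hrule : PT (fun p : α × β × β × β => rule p.1 p.2.1 p.2.2.1 p.2.2.2)) :
    PT (fun a => cl (U a) (ax a) (rule a)) := by
  obtain ⟨d, hd⟩ := hU.bound
  have hlen : PT (fun a => (U a).length + 1) := by fun_prop
  refine PT.iter (g := fun a T => clStep (U a) (ax a) (rule a) T) hlen (PT.const []) ?_ ?_
  · unfold clStep
    apply PT.filter (hU.comp (by fun_prop))
    apply PT.or
    · exact hax.comp (g := fun q : (α × List β) × β => (q.1.1, q.2)) (by fun_prop)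
    · apply PT.any (by fun_prop)
      apply PT.any (by fun_prop)
      exact hrule.comp (g := fun q : (((α × List β) × β) × β) × β =>
        (q.1.1.1.1, q.1.2, q.2, q.1.1.2)) (by fun_prop)
  · refine ⟨fun n => (n + 2) ^ d, (PB.id.add (PB.const 2)).pow d, ?_⟩
    intro a k _
    cases k with
    | zero => simp [sz_nil]
    | succ k =>
      rw [Function.iterate_succ_apply']
      exact (sz_filter_le _ _).trans (hd a)

theorem pt_reach {A : α → ℕ → ℕ → Bool} {S : α → List ℕ} {x : α → ℕ}
    (hA : PT (fun p : α × ℕ × ℕ => A p.1 p.2.1 p.2.2)) (hS : PT S) (hx : PT x) :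
    PT (fun a => reach (A a) (S a) (x a)) := by
  obtain ⟨d, hd⟩ := hS.bound
  refine PT.iter (g := fun a R => (S a).filter (fun v => decide (v ∈ R) ||
    R.any (fun u => A a u v))) (PT.length hS) ?_ ?_ ?_
  · apply PT.filter hS
    exact PT.eq (PT.snd PT.id') (hx.comp (PT.fst PT.id'))
  · apply PT.filter (hS.comp (PT.fst PT.id'))
    apply PT.or
    · exact PT.mem (PT.snd PT.id') (PT.snd (PT.fst PT.id'))
    · apply PT.any (by fun_prop)
      exact hA.comp (g := fun q : ((α × List ℕ) × ℕ) × ℕ => (q.1.1.1, q.2, q.1.2)) (by fun_prop)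
  · refine ⟨fun n => (n + 2) ^ d, (PB.id.add (PB.const 2)).pow d, ?_⟩
    intro a k _
    cases k with
    | zero => exact (sz_filter_le _ _).trans (hd a)
    | succ k =>
      rw [Function.iterate_succ_apply']
      exact (sz_filter_le _ _).trans (hd a)

theorem pt_minus {S K : α → List ℕ} (hS : PT S) (hK : PT K) : PT (fun a => minus (S a) (K a)) := by
  apply PT.filter hS
  exact PT.not (PT.mem (PT.snd PT.id') (hK.comp (PT.fst PT.id')))

end pt

/-! ### tuples -/

/-- lists of length at most `k` over `L` -/
def tup {β : Type} : ℕ → List β → List (List β)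
  | 0, _ => [[]]
  | k + 1, L => [] :: L.flatMap (fun x => (tup k L).map (fun t => x :: t))

theorem mem_tup {β : Type} {k : ℕ} {L l : List β} :
    l ∈ tup k L ↔ l.length ≤ k ∧ ∀ x ∈ l, x ∈ L := by
  induction k generalizing l with
  | zero =>
    simp only [tup, List.mem_singleton, Nat.le_zero, List.length_eq_zero_iff]
    constructor
    · rintro rfl; simp
    · exact And.left
  | succ k ih =>
    rw [tup, List.mem_cons, List.mem_flatMap]
    constructor
    · rintro (rfl | ⟨x, hx, h⟩)
      · simp
      · rw [List.mem_map] at h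
        obtain ⟨t, ht, rfl⟩ := h
        rw [ih] at ht
        refine ⟨by simpa using ht.1, ?_⟩
        intro y hy
        rcases List.mem_cons.1 hy with rfl | hy
        · exact hx
        · exact ht.2 y hy
    · rintro ⟨h1, h2⟩
      cases l with
      | nil => exact Or.inl rfl
      | cons x l =>
        right
        refine ⟨x, h2 x (by simp), ?_⟩
        rw [List.mem_map]
        refine ⟨l, ih.2 ⟨by simpa using h1, fun y hy => h2 y (List.mem_cons_of_mem _ hy)⟩, rfl⟩

theorem pt_tup {α β : Type} [En α] [En β] (k : ℕ) {L : α → List β} (hL : PT L) :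
    PT (fun a => tup k (L a)) := by
  induction k with
  | zero => exact PT.const _
  | succ k ih =>
    apply PT.cons (PT.const _)
    apply PT.flatMap hL
    apply PT.map (ih.comp (PT.fst PT.id'))
    have : PT (fun p : (α × β) × List β => p.1.2 :: p.2) := by fun_prop
    exact this

/-! ### connectivity tests -/

/-- adjacency of a list of edges -/
def adjL (F : List (ℕ × ℕ)) (i j : ℕ) : Bool :=
  (!decide (i = j)) && F.any (fun e => (decide (e.1 = i) && decide (e.2 = j)) ||
    (decide (e.1 = j) && decide (e.2 = i)))

/-- connectivity test -/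
def connb (F : List (ℕ × ℕ)) (a b : ℕ) : Bool :=
  decide (b ∈ reach (adjL F) (a :: F.flatMap (fun e => [e.1, e.2])) a)

theorem adjL_iff {F : List (ℕ × ℕ)} {i j : ℕ} : adjL F i j = true ↔
    (SimpleGraph.fromRel (fun a b => (a, b) ∈ F)).Adj i j := by
  simp only [adjL, Bool.and_eq_true, Bool.not_eq_true', decide_eq_false_iff_not, List.any_eq_true,
    Bool.or_eq_true, decide_eq_true_eq, SimpleGraph.fromRel_adj]
  constructor
  · rintro ⟨h1, ⟨x, y⟩, h2, h3⟩
    refine ⟨h1, ?_⟩
    simp only at h3
    rcases h3 with ⟨rfl, rfl⟩ | ⟨rfl, rfl⟩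
    · exact Or.inl h2
    · exact Or.inr h2
  · rintro ⟨h1, h2 | h2⟩
    · exact ⟨h1, _, h2, Or.inl ⟨rfl, rfl⟩⟩
    · exact ⟨h1, _, h2, Or.inr ⟨rfl, rfl⟩⟩

theorem connb_iff {F : List (ℕ × ℕ)} {a b : ℕ} :
    connb F a b = true ↔ MConn (F : Multiset (ℕ × ℕ)) a b := by
  rw [connb, decide_eq_true_eq, mem_reach (fun i j => adjL_iff)]
  have hv : ∀ z, z ∈ ((a :: F.flatMap (fun e => [e.1, e.2])).toFinset : Set ℕ) ↔
      z = a ∨ ∃ e ∈ F, z = e.1 ∨ z = e.2 := by
    intro z
    rw [List.coe_toFinset, Set.mem_ofPred_eq, List.mem_cons, List.mem_flatMap]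
    simp
  constructor
  · intro h
    refine h.closed (fun z => MConn (F : Multiset (ℕ × ℕ)) a z) (.refl _) ?_
    intro u v _ h2 h3 _
    rw [SimpleGraph.fromRel_adj] at h3
    exact h2.trans (ReflTransGen.single (by simpa using h3.2))
  · intro h
    induction h with
    | refl => exact .refl ((hv _).2 (Or.inl rfl))
    | @tail x y h1 h2 ih =>
      by_cases hxy : x = y
      · rwa [← hxy]
      · refine ih.tail ?_ ?_
        · rw [hv]
          right
          rcases h2 with h | h
          · exact ⟨_, by simpa using h, Or.inr rfl⟩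
          · exact ⟨_, by simpa using h, Or.inl rfl⟩
        · rw [SimpleGraph.fromRel_adj]
          exact ⟨hxy, by simpa using h2⟩

/-- forest test -/
def forestb (F : List (ℕ × ℕ)) : Bool :=
  !((List.range F.length).any (fun i =>
    connb (F.drop (i + 1)) (F.getD i (0, 0)).1 (F.getD i (0, 0)).2))

theorem forestb_cons (e : ℕ × ℕ) (F : List (ℕ × ℕ)) :
    forestb (e :: F) = (!(connb F e.1 e.2) && forestb F) := by
  unfold forestb
  rw [List.length_cons, List.range_succ_eq_map, List.any_cons, List.any_map]
  simp [Function.comp_def]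

theorem forestb_iff {F : List (ℕ × ℕ)} :
    forestb F = true ↔ MForest (F : Multiset (ℕ × ℕ)) := by
  induction F with
  | nil =>
    simp only [forestb, List.length_nil, List.range_zero, List.any_nil, Bool.not_false, true_iff]
    exact mforest_zero
  | cons e F ih =>
    rw [forestb_cons, ← Multiset.cons_coe, mforest_cons, Bool.and_eq_true, ih, Bool.not_eq_true',
      ← Bool.not_eq_true, connb_iff, and_comm]

section pt2

variable {α : Type} [En α]

theorem pt_connb {F : α → List (ℕ × ℕ)} {x y : α → ℕ} (hF : PT F) (hx : PT x) (hy : PT y) :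
    PT (fun a => connb (F a) (x a) (y a)) := by
  unfold connb
  apply PT.mem hy
  refine pt_reach (A := fun a => adjL (F a)) ?_ ?_ hx
  · unfold adjL
    apply PT.and
    · exact PT.not (PT.eq (by fun_prop) (by fun_prop))
    · apply PT.any (hF.comp (by fun_prop))
      apply PT.or
      · apply PT.and
        · exact PT.eq (by fun_prop) (by fun_prop)
        · exact PT.eq (by fun_prop) (by fun_prop)
      · apply PT.and
        · exact PT.eq (by fun_prop) (by fun_prop)
        · exact PT.eq (by fun_prop) (by fun_prop)
  · apply PT.cons hx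
    apply PT.flatMap hF
    fun_prop

theorem pt_forestb {F : α → List (ℕ × ℕ)} (hF : PT F) : PT (fun a => forestb (F a)) := by
  unfold forestb
  apply PT.not
  apply PT.any (by fun_prop)
  apply pt_connb
  · apply PT.drop (by fun_prop) (hF.comp (by fun_prop))
  · apply PT.fst
    exact PT.getD (by fun_prop) (hF.comp (by fun_prop)) (PT.const _)
  · apply PT.snd
    exact PT.getD (by fun_prop) (hF.comp (by fun_prop)) (PT.const _)

end pt2

end FVS424
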