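import Pool.Agent.Lib.MP_424cb6_lc.TreeDec
import Pool.Agent.Lib.MP_424cb6_lc.MinSide

/-! Finding the next bag of a tree decomposition. -/

namespace FVS424

open Relation

theorem exists_last_split {α : Type*} (p : α → Prop) (l : List α) (h : ∃ x ∈ l, p x) :
    ∃ l1 x l2, l = l1 ++ x :: l2 ∧ p x ∧ ∀ y ∈ l2, ¬ p y := by
  induction l with
  | nil => obtain ⟨x, hx, _⟩ := h; simp at hx
  | cons a l ih =>
    by_cases h' : ∃ x ∈ l, p x
    · obtain ⟨l1, x, l2, rfl, h2, h3⟩ := ih h'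
      exact ⟨a :: l1, x, l2, rfl, h2, h3⟩
    · push Not at h'
      obtain ⟨x, hx, hpx⟩ := h
      rcases List.mem_cons.1 hx with rfl | hx
      · exact ⟨[], x, l, rfl, hpx, h'⟩
      · exact absurd hpx (h' x hx)

theorem Conn.to_reachable {ι : Type*} {T : SimpleGraph ι} {S : Set ι} {i j : ι}
    (h : Conn T S i j) : T.Reachable i j := by
  refine h.closed (fun z => T.Reachable i z) (SimpleGraph.Reachable.refl _) ?_
  intro u v _ h2 h3 _
  exact h2.trans h3.reachable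

theorem exists_node {G : SimpleGraph ℕ} {S K : Set ℕ} {ι : Type} {T : SimpleGraph ι}
    (hT : T.IsTree) {bag : ι → Finset ℕ}
    (hedge : ∀ u ∈ S, ∀ v ∈ S, G.Adj u v → ∃ i, u ∈ bag i ∧ v ∈ bag i)
    (hcov : ∀ v ∈ S, ∃ i, v ∈ bag i)
    (hconn : ∀ v i j, v ∈ bag i → v ∈ bag j → Conn T {k | v ∈ bag k} i j)
    (hKS : K ⊆ S) (hK : ∀ x ∈ K, ∀ y ∈ K, Conn G K x y) {x0 : ℕ} (hx0 : x0 ∈ K) (r : ι)
    (hr : ∀ x ∈ S, x ∉ K → (∃ y ∈ K, G.Adj x y) → x ∈ bag r) :
    ∃ r', (∃ x ∈ K, x ∈ bag r') ∧ ∀ x ∈ S, x ∉ K → (∃ y ∈ K, G.Adj x y) → x ∈ bag r' := by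
  by_contra hno
  push Not at hno
  set TK : Set ι := {i | ∃ x ∈ K, x ∈ bag i} with hTK
  set R : Set ι := {i | ∀ x ∈ S, x ∉ K → (∃ y ∈ K, G.Adj x y) → x ∈ bag i} with hR
  have hdisj : ∀ i ∈ R, i ∉ TK := by
    intro i hi hi'
    obtain ⟨x, hx, hxK, ⟨y, hy, hxy⟩, hxb⟩ := hno i hi'
    exact hxb (hi x hx hxK ⟨y, hy, hxy⟩)
  -- `TK` is connected
  have hTKc : ∀ i ∈ TK, ∀ j ∈ TK, Conn T TK i j := by
    rintro i ⟨x, hx, hxi⟩ j ⟨y, hy, hyj⟩
    have h1 : ∀ v ∈ K, ∀ i j, v ∈ bag i → v ∈ bag j → Conn T TK i j := by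
      intro v hv i j hi hj
      exact (hconn v i j hi hj).mono (fun k hk => ⟨v, hv, hk⟩)
    have h2 : ∀ j, y ∈ bag j → Conn T TK i j := by
      refine (hK x hx y hy).closed (fun z => ∀ j, z ∈ bag j → Conn T TK i j)
        (fun j hj => h1 x hx i j hxi hj) ?_
      intro u v h3 h4 h5 h6 j hj
      obtain ⟨k, hk1, hk2⟩ := hedge u (hKS h3.right) v (hKS h6) h5
      exact (h4 k hk1).trans (h1 v h6 k j hk2 hj)
    exact h2 j hyj
  obtain ⟨k, hk⟩ := hcov x0 (hKS hx0)
  have hkT : k ∈ TK := ⟨x0, hx0, hk⟩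
  have hrk : Conn T Set.univ r k := by
    obtain ⟨p⟩ := hT.connected.preconnected r k
    have : ∀ {a b : ι}, T.Walk a b → Conn T Set.univ a b := by
      intro a b q
      induction q with
      | nil => exact .refl (Set.mem_univ _)
      | cons h q ih => exact (Conn.adj (Set.mem_univ _) (Set.mem_univ _) h).trans ih
    exact this p
  obtain ⟨l, hl1, hl2, hl3, hl4, -⟩ := hrk.exists_path
  have hrl : r ∈ l := List.mem_of_mem_head? hl3
  obtain ⟨l1, i, l2, rfl, hi, hl5⟩ := exists_last_split (fun z => z ∈ R) l ⟨r, hrl, hr⟩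
  cases l2 with
  | nil =>
    simp at hl4
    subst hl4
    exact hdisj i hi hkT
  | cons j l2 =>
    have hchain : (i :: j :: l2).IsChain T.Adj := (List.isChain_append.1 hl1).2.1
    have hij : T.Adj i j := (List.isChain_cons_cons.1 hchain).1
    have hnd : (i :: j :: l2).Nodup := (List.nodup_append.1 hl2).2.1
    have hkl : k ∈ j :: l2 := by
      rw [List.getLast?_append_cons, List.getLast?_cons_cons] at hl4
      exact List.mem_of_getLast? hl4
    have hjk : Conn T {z | z ≠ i} j k := by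
      refine conn_of_list l2 j (List.isChain_cons_cons.1 hchain).2 ?_ k hkl
      intro z hz
      rintro rfl
      exact (List.nodup_cons.1 hnd).1 hz
    have hjR : j ∉ R := hl5 j (by simp)
    rw [hR, Set.mem_ofPred_eq] at hjR
    push Not at hjR
    obtain ⟨u, huS, huK, ⟨y, hy, huy⟩, huj⟩ := hjR
    have hui : u ∈ bag i := hi u huS huK ⟨y, hy, huy⟩
    obtain ⟨k', hk1, hk2⟩ := hedge u huS y (hKS hy) huy
    have e1 : Conn (T.deleteEdges {s(i, j)}) Set.univ i k' := by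
      refine (hconn u i k' hui hk1).mono' ?_ (Set.subset_univ _)
      intro a ha b hb hab
      rw [SimpleGraph.deleteEdges_adj]
      refine ⟨hab, ?_⟩
      intro hs
      rw [Set.mem_singleton_iff, Sym2.eq_iff] at hs
      rcases hs with ⟨_, rfl⟩ | ⟨rfl, _⟩
      · exact huj hb
      · exact huj ha
    have hiT : i ∉ TK := hdisj i hi
    have e2 : Conn (T.deleteEdges {s(i, j)}) Set.univ k' k := by
      refine (hTKc k' ⟨y, hy, hk2⟩ k hkT).mono' ?_ (Set.subset_univ _)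
      intro a ha b hb hab
      rw [SimpleGraph.deleteEdges_adj]
      refine ⟨hab, ?_⟩
      intro hs
      rw [Set.mem_singleton_iff, Sym2.eq_iff] at hs
      rcases hs with ⟨rfl, _⟩ | ⟨_, rfl⟩
      · exact hiT ha
      · exact hiT hb
    have e3 : Conn (T.deleteEdges {s(i, j)}) Set.univ j k := by
      refine hjk.mono' ?_ (Set.subset_univ _)
      intro a ha b hb hab
      rw [SimpleGraph.deleteEdges_adj]
      refine ⟨hab, ?_⟩
      intro hs
      rw [Set.mem_singleton_iff, Sym2.eq_iff] at hs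
      rcases hs with ⟨rfl, _⟩ | ⟨_, rfl⟩
      · exact ha rfl
      · exact hb rfl
    have hbr := (SimpleGraph.isAcyclic_iff_forall_adj_isBridge.1 hT.isAcyclic) hij
    rw [SimpleGraph.isBridge_iff] at hbr
    exact hbr ((e1.trans e2).trans e3.symm).to_reachable

end FVS424
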