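import Pool.Agent.Lib.MP_424cb6_lc.TwForest
import Pool.Agent.Lib.MP_424cb6_lc.FVS

/-! Values of partial solutions. -/

namespace FVS424

open Relation

/-- edges inside `P ∪ Q` with an end in `Q` -/
noncomputable def reg (G : SimpleGraph ℕ) (P Q : Finset ℕ) : Finset (ℕ × ℕ) :=
  @Finset.filter _ (fun e => e.1 < e.2 ∧ G.Adj e.1 e.2 ∧ (e.1 ∈ Q ∨ e.2 ∈ Q))
    (Classical.decPred _) ((P ∪ Q) ×ˢ (P ∪ Q))

theorem mem_reg {G : SimpleGraph ℕ} {P Q : Finset ℕ} {e : ℕ × ℕ} : e ∈ reg G P Q ↔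
    e.1 < e.2 ∧ G.Adj e.1 e.2 ∧ (e.1 ∈ P ∨ e.1 ∈ Q) ∧ (e.2 ∈ P ∨ e.2 ∈ Q) ∧
      (e.1 ∈ Q ∨ e.2 ∈ Q) := by
  unfold reg
  simp only [Finset.mem_filter]
  rw [Finset.mem_product, Finset.mem_union, Finset.mem_union]
  tauto

/-- edges inside `P'` not inside `P` -/
noncomputable def ein (G : SimpleGraph ℕ) (P' P : Finset ℕ) : Finset (ℕ × ℕ) :=
  @Finset.filter _ (fun e => e.1 < e.2 ∧ G.Adj e.1 e.2 ∧ ¬ (e.1 ∈ P ∧ e.2 ∈ P))
    (Classical.decPred _) (P' ×ˢ P')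

theorem mem_ein {G : SimpleGraph ℕ} {P' P : Finset ℕ} {e : ℕ × ℕ} : e ∈ ein G P' P ↔
    e.1 < e.2 ∧ G.Adj e.1 e.2 ∧ e.1 ∈ P' ∧ e.2 ∈ P' ∧ ¬ (e.1 ∈ P ∧ e.2 ∈ P) := by
  unfold ein
  simp only [Finset.mem_filter]
  rw [Finset.mem_product]
  tauto

/-- `F` represents the connectivity on `P` of a partial solution of cost `c` in `K` -/
def Val (G : SimpleGraph ℕ) (P K : Finset ℕ) (F : Multiset (ℕ × ℕ)) (c : ℕ) : Prop :=
  ∃ X ⊆ K, X.card = c ∧ MForest (reg G P (K \ X)).val ∧ MForest F ∧ Touch F P ∧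
    ∀ a ∈ P, ∀ b ∈ P, (MConn (reg G P (K \ X)).val a b ↔ MConn F a b)

theorem finset_val_add {α : Type*} [DecidableEq α] {s t u : Finset α} (h : ∀ x ∈ s, x ∉ t)
    (hu : ∀ x, x ∈ u ↔ x ∈ s ∨ x ∈ t) : u.val = s.val + t.val := by
  have hd : Disjoint s t := Finset.disjoint_left.2 h
  have : u = s.disjUnion t hd := by
    ext x
    rw [Finset.mem_disjUnion, hu]
  rw [this]
  rfl

theorem reg_touch {G : SimpleGraph ℕ} {P Q K : Finset ℕ} (hQ : Q ⊆ K) :
    Touch (reg G P Q).val ((P : Set ℕ) ∪ K) := by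
  intro e he
  rw [Finset.mem_val, mem_reg] at he
  simp only [Set.mem_union, Finset.mem_coe]
  exact ⟨he.2.2.1.imp id fun h => hQ h, he.2.2.2.1.imp id fun h => hQ h⟩

theorem Touch.mono {M : Multiset (ℕ × ℕ)} {T T' : Set ℕ} (h : Touch M T) (hT : T ⊆ T') :
    Touch M T' := fun e he => ⟨hT (h e he).1, hT (h e he).2⟩

/-- replace both parts -/
theorem repl_two {P K1 K2 : Finset ℕ} {L1 L2 F1 F2 : Multiset (ℕ × ℕ)}
    (h12 : ∀ x ∈ K1, x ∉ K2) (hP1 : ∀ x ∈ P, x ∉ K1) (hP2 : ∀ x ∈ P, x ∉ K2)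
    (hL1 : Touch L1 ((P : Set ℕ) ∪ K1)) (hL2 : Touch L2 ((P : Set ℕ) ∪ K2))
    (hF1 : Touch F1 P) (hF2 : Touch F2 P)
    (hc1 : ∀ a ∈ P, ∀ b ∈ P, (MConn L1 a b ↔ MConn F1 a b))
    (hc2 : ∀ a ∈ P, ∀ b ∈ P, (MConn L2 a b ↔ MConn F2 a b))
    (f1 : MForest L1) (f2 : MForest L2) (g1 : MForest F1) (g2 : MForest F2) :
    (MForest (L1 + L2) ↔ MForest (F1 + F2)) ∧
      ∀ a ∈ P, ∀ b ∈ P, (MConn (L1 + L2) a b ↔ MConn (F1 + F2) a b) := by
  have hL1' : Touch L1 (K2 : Set ℕ)ᶜ := hL1.mono (by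
    rintro x (hx | hx)
    · exact hP2 x hx
    · exact h12 x hx)
  have hF2' : Touch F2 (K1 : Set ℕ)ᶜ := hF2.mono (fun x hx => hP1 x hx)
  have e1 := mforest_replace (L := L1) (P : Set ℕ) (K2 : Set ℕ) hL2
    (hF2.mono Set.subset_union_left) hL1' hc2 f2 g2
  have e2 := mforest_replace (L := F2) (P : Set ℕ) (K1 : Set ℕ) hL1
    (hF1.mono Set.subset_union_left) hF2' hc1 f1 g1
  refine ⟨?_, ?_⟩
  · rw [e1, add_comm, e2, add_comm]
  · intro a ha b hb
    rw [mconn_replace (L := L1) (P : Set ℕ) (K2 : Set ℕ) hL2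
      (hF2.mono Set.subset_union_left) hL1' hc2 (hP2 a ha) (hP2 b hb), add_comm,
      mconn_replace (L := F2) (P : Set ℕ) (K1 : Set ℕ) hL1
      (hF1.mono Set.subset_union_left) hF2' hc1 (hP1 a ha) (hP1 b hb), add_comm]

theorem reg_join {G : SimpleGraph ℕ} {P Q1 Q2 Q : Finset ℕ} (h12 : ∀ x ∈ Q1, x ∉ Q2)
    (hP1 : ∀ x ∈ P, x ∉ Q1)
    (hE : ∀ x ∈ Q1, ∀ y ∈ Q2, ¬ G.Adj x y) (hQ : ∀ x, x ∈ Q ↔ x ∈ Q1 ∨ x ∈ Q2) :
    (reg G P Q).val = (reg G P Q1).val + (reg G P Q2).val := by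
  apply finset_val_add
  · intro e he he'
    rw [mem_reg] at he he'
    obtain ⟨-, -, a1, a2, a3⟩ := he
    obtain ⟨-, -, b1, b2, b3⟩ := he'
    rcases a3 with h | h
    · rcases b1 with h' | h'
      · exact hP1 _ h' h
      · exact h12 _ h h'
    · rcases b2 with h' | h'
      · exact hP1 _ h' h
      · exact h12 _ h h'
  · intro e
    rw [mem_reg, mem_reg, mem_reg, hQ, hQ]
    constructor
    · rintro ⟨h1, h2, h3, h4, h5⟩
      by_cases hc : e.1 ∈ Q1 ∨ e.2 ∈ Q1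
      · left
        refine ⟨h1, h2, ?_, ?_, hc⟩
        · rcases h3 with h | h | h
          · exact Or.inl h
          · exact Or.inr h
          · rcases hc with hc | hc
            · exact Or.inr hc
            · exact absurd h2.symm (hE _ hc _ h)
        · rcases h4 with h | h | h
          · exact Or.inl h
          · exact Or.inr h
          · rcases hc with hc | hc
            · exact absurd h2 (hE _ hc _ h)
            · exact Or.inr hc
      · right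
        push Not at hc
        refine ⟨h1, h2, ?_, ?_, ?_⟩
        · rcases h3 with h | h | h
          · exact Or.inl h
          · exact absurd h hc.1
          · exact Or.inr h
        · rcases h4 with h | h | h
          · exact Or.inl h
          · exact absurd h hc.2
          · exact Or.inr h
        · rcases h5 with (h | h) | (h | h)
          · exact absurd h hc.1
          · exact Or.inl h
          · exact absurd h hc.2
          · exact Or.inr h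
    · rintro (⟨h1, h2, h3, h4, h5⟩ | ⟨h1, h2, h3, h4, h5⟩)
      · exact ⟨h1, h2, h3.imp id Or.inl, h4.imp id Or.inl, h5.imp Or.inl Or.inl⟩
      · exact ⟨h1, h2, h3.imp id Or.inr, h4.imp id Or.inr, h5.imp Or.inr Or.inr⟩

theorem Val.join {G : SimpleGraph ℕ} {P K1 K2 K : Finset ℕ} {F1 F2 F : Multiset (ℕ × ℕ)}
    {c1 c2 : ℕ} (v1 : Val G P K1 F1 c1) (v2 : Val G P K2 F2 c2)
    (h12 : ∀ x ∈ K1, x ∉ K2) (hP1 : ∀ x ∈ P, x ∉ K1) (hP2 : ∀ x ∈ P, x ∉ K2)
    (hE : ∀ x ∈ K1, ∀ y ∈ K2, ¬ G.Adj x y) (hK : ∀ x, x ∈ K ↔ x ∈ K1 ∨ x ∈ K2)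
    (hF12 : MForest (F1 + F2)) (hF : MForest F) (hFP : Touch F P)
    (hc : ∀ a ∈ P, ∀ b ∈ P, (MConn F a b ↔ MConn (F1 + F2) a b)) :
    Val G P K F (c1 + c2) := by
  obtain ⟨X1, hX1, rfl, a1, a2, a3, a4⟩ := v1
  obtain ⟨X2, hX2, rfl, b1, b2, b3, b4⟩ := v2
  have hd : Disjoint X1 X2 := Finset.disjoint_left.2 fun x h h' => h12 x (hX1 h) (hX2 h')
  have hreg : (reg G P (K \ (X1 ∪ X2))).val = (reg G P (K1 \ X1)).val + (reg G P (K2 \ X2)).val := by
    apply reg_join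
    · intro x hx hx'
      rw [Finset.mem_sdiff] at hx hx'
      exact h12 x hx.1 hx'.1
    · intro x hx hx'
      rw [Finset.mem_sdiff] at hx'
      exact hP1 x hx hx'.1
    · intro x hx y hy
      rw [Finset.mem_sdiff] at hx hy
      exact hE x hx.1 y hy.1
    · intro x
      rw [Finset.mem_sdiff, Finset.mem_sdiff, Finset.mem_sdiff, Finset.mem_union, hK]
      constructor
      · rintro ⟨h | h, h'⟩
        · exact Or.inl ⟨h, fun h1 => h' (Or.inl h1)⟩
        · exact Or.inr ⟨h, fun h1 => h' (Or.inr h1)⟩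
      · rintro (⟨h, h'⟩ | ⟨h, h'⟩)
        · exact ⟨Or.inl h, fun h1 => h1.elim h' fun h2 => h12 x h (hX2 h2)⟩
        · exact ⟨Or.inr h, fun h1 => h1.elim (fun h2 => h12 x (hX1 h2) h) h'⟩
  obtain ⟨r1, r2⟩ := repl_two h12 hP1 hP2 (reg_touch Finset.sdiff_subset)
    (reg_touch Finset.sdiff_subset) a3 b3 a4 b4 a1 b1 a2 b2
  refine ⟨X1 ∪ X2, ?_, Finset.card_union_of_disjoint hd, ?_, hF, hFP, ?_⟩
  · intro x hx
    rw [hK]
    rcases Finset.mem_union.1 hx with h | h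
    · exact Or.inl (hX1 h)
    · exact Or.inr (hX2 h)
  · rw [hreg, r1]
    exact hF12
  · intro a ha b hb
    rw [hreg, r2 a ha b hb, hc a ha b hb]

theorem Val.span {G : SimpleGraph ℕ} {P K X : Finset ℕ} {l : List ℕ}
    (hl : ∀ x, x ∈ l ↔ x ∈ P) (hX : X ⊆ K) (hf : MForest (reg G P (K \ X)).val) :
    ∃ F : List (ℕ × ℕ), F.length ≤ l.length ∧ (∀ e ∈ F, e.1 ∈ l ∧ e.2 ∈ l) ∧
      MForest (F : Multiset (ℕ × ℕ)) ∧ Touch (F : Multiset (ℕ × ℕ)) P ∧
      (∀ a ∈ P, ∀ b ∈ P, (MConn (reg G P (K \ X)).val a b ↔ MConn (F : Multiset (ℕ × ℕ)) a b)) ∧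
      Val G P K F X.card := by
  obtain ⟨F, h1, h2, h3, h4⟩ := exists_span _ (mconn_equiv (reg G P (K \ X)).val) l
  have hT : Touch (F : Multiset (ℕ × ℕ)) P := by
    intro e he
    have := h2 e (by simpa using he)
    exact ⟨(hl _).1 this.1, (hl _).1 this.2⟩
  have h5 : ∀ a ∈ P, ∀ b ∈ P, (MConn (reg G P (K \ X)).val a b ↔
      MConn (F : Multiset (ℕ × ℕ)) a b) := fun a ha b hb => h4 a ((hl a).2 ha) b ((hl b).2 hb)
  exact ⟨F, h1, h2, h3, hT, h5, X, hX, rfl, hf, h3, hT, h5⟩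

theorem Val.unjoin {G : SimpleGraph ℕ} {P K1 K2 K : Finset ℕ} {F : Multiset (ℕ × ℕ)}
    {c : ℕ} {l : List ℕ} (hl : ∀ x, x ∈ l ↔ x ∈ P) (v : Val G P K F c)
    (h12 : ∀ x ∈ K1, x ∉ K2) (hP1 : ∀ x ∈ P, x ∉ K1) (hP2 : ∀ x ∈ P, x ∉ K2)
    (hE : ∀ x ∈ K1, ∀ y ∈ K2, ¬ G.Adj x y) (hK : ∀ x, x ∈ K ↔ x ∈ K1 ∨ x ∈ K2) :
    ∃ (F1 F2 : List (ℕ × ℕ)) (c1 c2 : ℕ), c = c1 + c2 ∧
      F1.length ≤ l.length ∧ (∀ e ∈ F1, e.1 ∈ l ∧ e.2 ∈ l) ∧
      F2.length ≤ l.length ∧ (∀ e ∈ F2, e.1 ∈ l ∧ e.2 ∈ l) ∧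
      Val G P K1 F1 c1 ∧ Val G P K2 F2 c2 ∧
      MForest ((F1 : Multiset (ℕ × ℕ)) + (F2 : Multiset (ℕ × ℕ))) ∧
      ∀ a ∈ P, ∀ b ∈ P, (MConn F a b ↔
        MConn ((F1 : Multiset (ℕ × ℕ)) + (F2 : Multiset (ℕ × ℕ))) a b) := by
  obtain ⟨X, hX, rfl, a1, a2, a3, a4⟩ := v
  have hreg : (reg G P (K \ X)).val =
      (reg G P (K1 \ (X ∩ K1))).val + (reg G P (K2 \ (X ∩ K2))).val := by
    apply reg_join
    · intro x hx hx'
      rw [Finset.mem_sdiff] at hx hx'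
      exact h12 x hx.1 hx'.1
    · intro x hx hx'
      rw [Finset.mem_sdiff] at hx'
      exact hP1 x hx hx'.1
    · intro x hx y hy
      rw [Finset.mem_sdiff] at hx hy
      exact hE x hx.1 y hy.1
    · intro x
      simp only [Finset.mem_sdiff, Finset.mem_inter, hK]
      tauto
  rw [hreg] at a1
  obtain ⟨F1, p1, p2, p3, p4, p5, p6⟩ := Val.span hl (Finset.inter_subset_right (s₁ := X))
    (a1.mono (Multiset.le_add_right _ _))
  obtain ⟨F2, q1, q2, q3, q4, q5, q6⟩ := Val.span hl (Finset.inter_subset_right (s₁ := X))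
    (a1.mono (Multiset.le_add_left _ _))
  obtain ⟨r1, r2⟩ := repl_two h12 hP1 hP2 (reg_touch Finset.sdiff_subset)
    (reg_touch Finset.sdiff_subset) p4 q4 p5 q5 (a1.mono (Multiset.le_add_right _ _))
    (a1.mono (Multiset.le_add_left _ _)) p3 q3
  refine ⟨F1, F2, _, _, ?_, p1, p2, q1, q2, p6, q6, r1.1 a1, ?_⟩
  · have hd : Disjoint (X ∩ K1) (X ∩ K2) := by
      rw [Finset.disjoint_left]
      intro x hx hx'
      exact h12 x (Finset.mem_inter.1 hx).2 (Finset.mem_inter.1 hx').2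
    rw [← Finset.card_union_of_disjoint hd]
    congr 1
    ext x
    simp only [Finset.mem_union, Finset.mem_inter]
    have := @hX x
    rw [hK] at this
    tauto
  · intro a ha b hb
    rw [← a4 a ha b hb, hreg, r2 a ha b hb]

/-- conditions for a transfer from `(P', K')` to `(P, K)` -/
structure Trans (G : SimpleGraph ℕ) (P' K' P K : Finset ℕ) : Prop where
  h1 : ∀ x ∈ P', x ∈ P ∨ x ∈ K
  h2 : ∀ x ∈ K', x ∈ K
  h3 : ∀ x ∈ K', x ∉ P'
  h4 : ∀ x ∈ P, x ∉ K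
  h5 : ∀ x ∈ P, x ∉ P' → ∀ y, (y ∈ K' ∨ (y ∈ P' ∧ y ∈ K)) → ¬ G.Adj x y

theorem reg_trans {G : SimpleGraph ℕ} {P' K' P K X' : Finset ℕ} (h : Trans G P' K' P K)
    (hX : X' ⊆ K') : (reg G P (K \ (X' ∪ (K \ (K' ∪ P'))))).val =
      (ein G P' P).val + (reg G P' (K' \ X')).val := by
  have hQ : ∀ x, x ∈ K \ (X' ∪ (K \ (K' ∪ P'))) ↔ (x ∈ K' ∧ x ∉ X') ∨ (x ∈ P' ∧ x ∈ K) := by
    intro x
    simp only [Finset.mem_sdiff, Finset.mem_union]
    have a1 := h.h2 x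
    have a2 := h.h3 x
    have a3 := @hX x
    tauto
  apply finset_val_add
  · intro e he he'
    rw [mem_ein] at he
    rw [mem_reg] at he'
    obtain ⟨-, -, a1, a2, a3⟩ := he
    obtain ⟨-, -, b1, b2, b3⟩ := he'
    rw [Finset.mem_sdiff, Finset.mem_sdiff] at b3
    rcases b3 with h' | h'
    · exact h.h3 _ h'.1 a1
    · exact h.h3 _ h'.1 a2
  · intro e
    rw [mem_reg, mem_ein, mem_reg, hQ, hQ, Finset.mem_sdiff, Finset.mem_sdiff]
    constructor
    · rintro ⟨h1, h2, h3, h4, h5⟩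
      by_cases hc : (e.1 ∈ K' ∧ e.1 ∉ X') ∨ (e.2 ∈ K' ∧ e.2 ∉ X')
      · right
        refine ⟨h1, h2, ?_, ?_, hc⟩
        · rcases h3 with h3 | h3 | h3
          · by_cases hp : e.1 ∈ P'
            · exact Or.inl hp
            · exfalso
              rcases hc with hc | hc
              · exact h.h4 _ h3 (h.h2 _ hc.1)
              · exact h.h5 _ h3 hp _ (Or.inl hc.1) h2
          · exact Or.inr h3
          · exact Or.inl h3.1
        · rcases h4 with h3 | h3 | h3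
          · by_cases hp : e.2 ∈ P'
            · exact Or.inl hp
            · exfalso
              rcases hc with hc | hc
              · exact h.h5 _ h3 hp _ (Or.inl hc.1) h2.symm
              · exact h.h4 _ h3 (h.h2 _ hc.1)
          · exact Or.inr h3
          · exact Or.inl h3.1
      · left
        push Not at hc
        have h5' : (e.1 ∈ P' ∧ e.1 ∈ K) ∨ (e.2 ∈ P' ∧ e.2 ∈ K) := by
          rcases h5 with (h5 | h5) | (h5 | h5)
          · exact absurd (hc.1 h5.1) h5.2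
          · exact Or.inl h5
          · exact absurd (hc.2 h5.1) h5.2
          · exact Or.inr h5
        refine ⟨h1, h2, ?_, ?_, ?_⟩
        · rcases h3 with h3 | h3 | h3
          · by_contra hp
            rcases h5' with h5' | h5'
            · exact hp h5'.1
            · exact h.h5 _ h3 hp _ (Or.inr h5') h2
          · exact absurd (hc.1 h3.1) h3.2
          · exact h3.1
        · rcases h4 with h3 | h3 | h3
          · by_contra hp
            rcases h5' with h5' | h5'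
            · exact h.h5 _ h3 hp _ (Or.inr h5') h2.symm
            · exact hp h5'.1
          · exact absurd (hc.2 h3.1) h3.2
          · exact h3.1
        · rintro ⟨q1, q2⟩
          rcases h5' with h5' | h5'
          · exact h.h4 _ q1 h5'.2
          · exact h.h4 _ q2 h5'.2
    · rintro (⟨h1, h2, h3, h4, h5⟩ | ⟨h1, h2, h3, h4, h5⟩)
      · refine ⟨h1, h2, ?_, ?_, ?_⟩
        · rcases h.h1 _ h3 with h' | h'
          · exact Or.inl h'
          · exact Or.inr (Or.inr ⟨h3, h'⟩)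
        · rcases h.h1 _ h4 with h' | h'
          · exact Or.inl h'
          · exact Or.inr (Or.inr ⟨h4, h'⟩)
        · by_contra hno
          push Not at hno
          apply h5
          constructor
          · rcases h.h1 _ h3 with h' | h'
            · exact h'
            · exact absurd h' (hno.1.2 h3)
          · rcases h.h1 _ h4 with h' | h'
            · exact h'
            · exact absurd h' (hno.2.2 h4)
      · refine ⟨h1, h2, ?_, ?_, ?_⟩
        · rcases h3 with h3 | h3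
          · rcases h.h1 _ h3 with h' | h'
            · exact Or.inl h'
            · exact Or.inr (Or.inr ⟨h3, h'⟩)
          · exact Or.inr (Or.inl h3)
        · rcases h4 with h3 | h3
          · rcases h.h1 _ h3 with h' | h'
            · exact Or.inl h'
            · exact Or.inr (Or.inr ⟨h3, h'⟩)
          · exact Or.inr (Or.inl h3)
        · exact h5.imp Or.inl Or.inl

theorem ein_touch {G : SimpleGraph ℕ} {P' P : Finset ℕ} : Touch (ein G P' P).val P' := by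
  intro e he
  rw [Finset.mem_val, mem_ein] at he
  exact ⟨he.2.2.1, he.2.2.2.1⟩

theorem repl_trans {G : SimpleGraph ℕ} {P' K' P K : Finset ℕ} (h : Trans G P' K' P K)
    {L F' : Multiset (ℕ × ℕ)} (hL : Touch L ((P' : Set ℕ) ∪ K')) (hF : Touch F' P')
    (hc : ∀ a ∈ P', ∀ b ∈ P', (MConn L a b ↔ MConn F' a b)) (f1 : MForest L) (f2 : MForest F') :
    (MForest ((ein G P' P).val + L) ↔ MForest ((ein G P' P).val + F')) ∧
    ∀ a ∈ P, ∀ b ∈ P, (MConn ((ein G P' P).val + L) a b ↔ MConn ((ein G P' P).val + F') a b) := by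
  have h1 : Touch (ein G P' P).val (K' : Set ℕ)ᶜ :=
    ein_touch.mono (fun x hx hx' => h.h3 x hx' hx)
  refine ⟨mforest_replace (P' : Set ℕ) (K' : Set ℕ) hL (hF.mono Set.subset_union_left) h1 hc f1 f2,
    ?_⟩
  intro a ha b hb
  exact mconn_replace (P' : Set ℕ) (K' : Set ℕ) hL (hF.mono Set.subset_union_left) h1 hc
    (fun h' => h.h4 a ha (h.h2 a h')) (fun h' => h.h4 b hb (h.h2 b h'))

theorem Val.trans {G : SimpleGraph ℕ} {P' K' P K : Finset ℕ} (h : Trans G P' K' P K)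
    {F' F : Multiset (ℕ × ℕ)} {c' : ℕ} (v : Val G P' K' F' c')
    (hF' : MForest ((ein G P' P).val + F')) (hF : MForest F) (hFP : Touch F P)
    (hc : ∀ a ∈ P, ∀ b ∈ P, (MConn F a b ↔ MConn ((ein G P' P).val + F') a b)) :
    Val G P K F (c' + (K \ (K' ∪ P')).card) := by
  obtain ⟨X, hX, rfl, a1, a2, a3, a4⟩ := v
  obtain ⟨r1, r2⟩ := repl_trans h (reg_touch Finset.sdiff_subset) a3 a4 a1 a2
  refine ⟨X ∪ (K \ (K' ∪ P')), ?_, ?_, ?_, hF, hFP, ?_⟩
  · intro x hx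
    rcases Finset.mem_union.1 hx with h' | h'
    · exact h.h2 x (hX h')
    · exact (Finset.mem_sdiff.1 h').1
  · rw [Finset.card_union_of_disjoint]
    rw [Finset.disjoint_left]
    intro x hx hx'
    rw [Finset.mem_sdiff, Finset.mem_union] at hx'
    exact hx'.2 (Or.inl (hX hx))
  · rw [reg_trans h hX, r1]
    exact hF'
  · intro a ha b hb
    rw [reg_trans h hX, r2 a ha b hb, hc a ha b hb]

theorem Val.untrans {G : SimpleGraph ℕ} {P K B' : Finset ℕ} {F : Multiset (ℕ × ℕ)} {c : ℕ}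
    (v : Val G P K F c) (hPK : ∀ x ∈ P, x ∉ K)
    (hB : ∀ x ∈ P, x ∉ B' → ∀ y ∈ K, ¬ G.Adj x y) :
    ∃ P' ⊆ B', Trans G P' (K \ B') P K ∧ ∀ l : List ℕ, (∀ x, x ∈ l ↔ x ∈ P') →
      ∃ (F' : List (ℕ × ℕ)) (c' : ℕ), F'.length ≤ l.length ∧ (∀ e ∈ F', e.1 ∈ l ∧ e.2 ∈ l) ∧
        Val G P' (K \ B') F' c' ∧ MForest ((ein G P' P).val + (F' : Multiset (ℕ × ℕ))) ∧
        (∀ a ∈ P, ∀ b ∈ P, (MConn F a b ↔
          MConn ((ein G P' P).val + (F' : Multiset (ℕ × ℕ))) a b)) ∧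
        c = c' + (K \ ((K \ B') ∪ P')).card := by
  obtain ⟨X, hX, rfl, a1, a2, a3, a4⟩ := v
  set P' : Finset ℕ := B' ∩ (P ∪ (K \ X)) with hP'
  have hP'm : ∀ x, x ∈ P' ↔ x ∈ B' ∧ (x ∈ P ∨ (x ∈ K ∧ x ∉ X)) := by
    intro x
    rw [hP', Finset.mem_inter, Finset.mem_union, Finset.mem_sdiff]
  have hT : Trans G P' (K \ B') P K := by
    refine ⟨?_, ?_, ?_, hPK, ?_⟩
    · intro x hx
      exact ((hP'm x).1 hx).2.imp id And.left
    · intro x hx
      exact (Finset.mem_sdiff.1 hx).1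
    · intro x hx hx'
      exact (Finset.mem_sdiff.1 hx).2 ((hP'm x).1 hx').1
    · intro x hx hx' y hy
      have hxB : x ∉ B' := fun h => hx' ((hP'm x).2 ⟨h, Or.inl hx⟩)
      apply hB x hx hxB
      rcases hy with hy | hy
      · exact (Finset.mem_sdiff.1 hy).1
      · exact hy.2
  refine ⟨P', Finset.inter_subset_left, hT, ?_⟩
  intro l hl
  have hX' : X \ B' ⊆ K \ B' := Finset.sdiff_subset_sdiff hX subset_rfl
  have hXe : X = (X \ B') ∪ (K \ ((K \ B') ∪ P')) := by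
    ext x
    simp only [Finset.mem_union, Finset.mem_sdiff, hP'm]
    have h1 := @hX x
    have h2 := hPK x
    tauto
  have hreg := reg_trans hT hX'
  rw [← hXe] at hreg
  rw [hreg] at a1
  obtain ⟨F', p1, p2, p3, p4, p5, p6⟩ := Val.span hl hX' (a1.mono (Multiset.le_add_left _ _))
  obtain ⟨r1, r2⟩ := repl_trans hT (reg_touch Finset.sdiff_subset) p4 p5
    (a1.mono (Multiset.le_add_left _ _)) p3
  refine ⟨F', _, p1, p2, p6, r1.1 a1, ?_, ?_⟩
  · intro a ha b hb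
    rw [← a4 a ha b hb, hreg, r2 a ha b hb]
  · conv_lhs => rw [hXe]
    rw [Finset.card_union_of_disjoint]
    rw [Finset.disjoint_left]
    intro x hx hx'
    rw [Finset.mem_sdiff, Finset.mem_union] at hx'
    exact hx'.2 (Or.inl (hX' hx))

theorem val_empty (G : SimpleGraph ℕ) (P : Finset ℕ) : Val G P ∅ 0 0 := by
  have he : (reg G P (∅ \ ∅)).val = 0 := by
    rw [Multiset.eq_zero_iff_forall_notMem]
    intro e he
    rw [Finset.mem_val, mem_reg] at he
    simp at he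
  refine ⟨∅, subset_rfl, rfl, ?_, mforest_zero, fun e he => absurd he (Multiset.notMem_zero e), ?_⟩
  · rw [he]; exact mforest_zero
  · intro a _ b _
    rw [he]

/-! ### the root -/

theorem mconn_erase_iff {G : SimpleGraph ℕ} {W : Finset ℕ} {e : ℕ × ℕ}
    (he : e ∈ reg G ∅ W) : MConn ((reg G ∅ W).val.erase e) e.1 e.2 ↔
      Conn (G.deleteEdges {s(e.1, e.2)}) (W : Set ℕ) e.1 e.2 := by
  have hmem : ∀ f, f ∈ (reg G ∅ W).val.erase e ↔ f ≠ e ∧ f ∈ reg G ∅ W := by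
    intro f
    rw [Multiset.Nodup.mem_erase_iff (reg G ∅ W).nodup, Finset.mem_val]
  have he' := mem_reg.1 he
  have heW : e.1 ∈ W ∧ e.2 ∈ W := by
    obtain ⟨-, -, h1, h2, -⟩ := he'
    simp only [Finset.notMem_empty, false_or] at h1 h2
    exact ⟨h1, h2⟩
  constructor
  · intro h
    refine ⟨heW.1, ReflTransGen.mono (r := fun a b => (a, b) ∈ (reg G ∅ W).val.erase e ∨
      (b, a) ∈ (reg G ∅ W).val.erase e) ?_ _ _ h⟩
    intro a b hab
    rw [hmem, hmem, mem_reg, mem_reg] at hab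
    simp only [Finset.notMem_empty, false_or] at hab
    rw [SimpleGraph.deleteEdges_adj]
    rcases hab with ⟨h1, h2, h3, h4, h5, h6⟩ | ⟨h1, h2, h3, h4, h5, h6⟩
    · refine ⟨⟨h3, ?_⟩, h5⟩
      intro hs
      rw [Set.mem_singleton_iff, Sym2.eq_iff] at hs
      rcases hs with ⟨rfl, rfl⟩ | ⟨rfl, rfl⟩
      · exact h1 rfl
      · exact absurd h2 (by have := he'.1; omega)
    · refine ⟨⟨h3.symm, ?_⟩, h4⟩
      intro hs
      rw [Set.mem_singleton_iff, Sym2.eq_iff] at hs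
      rcases hs with ⟨rfl, rfl⟩ | ⟨rfl, rfl⟩
      · exact absurd h2 (by have := he'.1; omega)
      · exact h1 rfl
  · intro h
    refine h.closed (fun z => MConn ((reg G ∅ W).val.erase e) e.1 z) (.refl _) ?_
    intro u v hu h2 h3 h4
    refine h2.trans (ReflTransGen.single ?_)
    rw [hmem, hmem, mem_reg, mem_reg]
    simp only [Finset.notMem_empty, false_or]
    rw [SimpleGraph.deleteEdges_adj] at h3
    have huW : u ∈ W := hu.right
    have hvW : v ∈ W := h4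
    have hne := h3.1.ne
    rcases lt_or_gt_of_ne hne with hlt | hlt
    · left
      refine ⟨?_, hlt, h3.1, huW, hvW, Or.inl huW⟩
      rintro rfl
      exact h3.2 rfl
    · right
      refine ⟨?_, hlt, h3.1.symm, hvW, huW, Or.inl hvW⟩
      rintro rfl
      exact h3.2 (Sym2.eq_swap)

theorem mforest_iff_acyc {G : SimpleGraph ℕ} {W : Finset ℕ} :
    MForest (reg G ∅ W).val ↔ Acyc G (W : Set ℕ) := by
  constructor
  · intro h u hu w hw huw hc
    rcases lt_or_gt_of_ne huw.ne with hlt | hlt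
    · have he : (u, w) ∈ reg G ∅ W := by
        rw [mem_reg]
        exact ⟨hlt, huw, Or.inr hu, Or.inr hw, Or.inl hu⟩
      exact h _ he ((mconn_erase_iff he).2 hc)
    · have he : (w, u) ∈ reg G ∅ W := by
        rw [mem_reg]
        exact ⟨hlt, huw.symm, Or.inr hw, Or.inr hu, Or.inl hw⟩
      refine h _ he ((mconn_erase_iff he).2 ?_)
      rw [Sym2.eq_swap]
      exact hc.symm
  · intro h e he hc
    rw [Finset.mem_val] at he
    have he' := mem_reg.1 he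
    obtain ⟨-, h2, h3, h4, -⟩ := he'
    simp only [Finset.notMem_empty, false_or] at h3 h4
    exact h e.1 h3 e.2 h4 h2 ((mconn_erase_iff he).1 hc)

theorem val_root {G : SimpleGraph ℕ} {S : Finset ℕ} {c : ℕ} :
    Val G ∅ S 0 c ↔ ∃ X, IsF G S X ∧ X.card = c := by
  constructor
  · rintro ⟨X, hX, h1, h2, -⟩
    refine ⟨X, ⟨hX, ?_⟩, h1⟩
    rw [mforest_iff_acyc] at h2
    simpa using h2
  · rintro ⟨X, ⟨h1, h2⟩, h3⟩
    refine ⟨X, h1, h3, ?_, mforest_zero, fun e he => absurd he (Multiset.notMem_zero e), by simp⟩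
    rw [mforest_iff_acyc]
    simpa using h2

end FVS424
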