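import Pool.Agent.Lib.MP_424cb6_lc.TwForest
import Pool.Agent.Lib.MP_424cb6_lc.TwVal
import Pool.Agent.Lib.MP_424cb6_lc.TwClosure
import Pool.Agent.Lib.MP_424cb6_lc.TwNode

/-! Feedback vertex number of graphs of bounded treewidth in polynomial time. -/

namespace FVS424

open Relation Pool.Agent.MSR

/-- facts: alive boundary, region, forest on the boundary, cost -/
abbrev Fact : Type := List ℕ × List ℕ × List (ℕ × ℕ) × ℕ

/-- inclusion test -/
def subl (l m : List ℕ) : Bool := !(l.any (fun x => !decide (x ∈ m)))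
/-- disjointness test -/
def disj (l m : List ℕ) : Bool := !(l.any (fun x => decide (x ∈ m)))
/-- no edges between two lists -/
def noE (A : ℕ → ℕ → Bool) (l m : List ℕ) : Bool := !(l.any (fun x => m.any (fun y => A x y)))
/-- a forest on `P` -/
def okF (P : List ℕ) (F : List (ℕ × ℕ)) : Bool :=
  forestb F && !(F.any (fun e => !(decide (e.1 ∈ P) && decide (e.2 ∈ P))))
/-- same connectivity on `P` -/
def sameC (P : List ℕ) (F F' : List (ℕ × ℕ)) : Bool :=
  !(P.any (fun a => P.any (fun b => (connb F a b && !(connb F' a b)) ||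
    (connb F' a b && !(connb F a b)))))

theorem subl_iff {l m : List ℕ} : subl l m = true ↔ ∀ x ∈ l, x ∈ m := by
  simp [subl]

theorem disj_iff {l m : List ℕ} : disj l m = true ↔ ∀ x ∈ l, x ∉ m := by
  simp [disj]

theorem noE_iff {A : ℕ → ℕ → Bool} {G : SimpleGraph ℕ} (hA : ∀ i j, A i j = true ↔ G.Adj i j)
    {l m : List ℕ} : noE A l m = true ↔ ∀ x ∈ l, ∀ y ∈ m, ¬ G.Adj x y := by
  simp [noE, ← hA]

theorem okF_iff {P : List ℕ} {F : List (ℕ × ℕ)} : okF P F = true ↔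
    MForest (F : Multiset (ℕ × ℕ)) ∧ ∀ e ∈ F, e.1 ∈ P ∧ e.2 ∈ P := by
  rw [okF, Bool.and_eq_true, forestb_iff]
  simp

theorem xor_false_iff (x y : Bool) : ((x && !y) || (y && !x)) = false ↔ (x = true ↔ y = true) := by
  cases x <;> cases y <;> simp

theorem sameC_iff {P : List ℕ} {F F' : List (ℕ × ℕ)} : sameC P F F' = true ↔
    ∀ a ∈ P, ∀ b ∈ P, (MConn (F : Multiset (ℕ × ℕ)) a b ↔ MConn (F' : Multiset (ℕ × ℕ)) a b) := by
  simp only [sameC, Bool.not_eq_true', List.any_eq_false, Bool.not_eq_true, xor_false_iff,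
    connb_iff]

section

variable (w : ℕ) (A : ℕ → ℕ → Bool) (S : List ℕ)

/-- union of the components of `K0 \ B` meeting the first `m` vertices -/
def pre (K0 B : List ℕ) (m : ℕ) : List ℕ :=
  (minus K0 B).filter (fun x => (List.range m).any (fun i =>
    decide (x ∈ reach A (minus K0 B) (S.getD i 0))))

/-- the basic regions -/
def keys0 : List (List ℕ) :=
  S :: (tup (w + 1) S).flatMap (fun B => (minus S B).map (fun v => reach A (minus S B) v))

/-- all regions -/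
def allK : List (List ℕ) :=
  keys0 w A S ++ (keys0 w A S).flatMap (fun K0 => (tup (w + 1) S).flatMap (fun B =>
    (List.range (S.length + 1)).map (fun m => pre A S K0 B m)))

/-- the universe of facts -/
def uni : List Fact :=
  (tup (w + 1) S).flatMap (fun P => (allK w A S).flatMap (fun K =>
    (tup (w + 1) (P ×ˢ P)).flatMap (fun F => (List.range (S.length + 1)).map (fun c =>
      (P, K, F, c)))))

/-- edges inside `P'` not inside `P` -/
def einL (P' P : List ℕ) : List (ℕ × ℕ) :=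
  (S ×ˢ S).filter (fun e => (ltb e.1 e.2 && A e.1 e.2) &&
    ((decide (e.1 ∈ P') && decide (e.2 ∈ P')) && !(decide (e.1 ∈ P) && decide (e.2 ∈ P))))

/-- axioms -/
def axT (f : Fact) : Bool := f.2.1.isEmpty && (f.2.2.1.isEmpty && decide (f.2.2.2 = 0))

/-- the join rule -/
def joinT (f1 f2 f : Fact) : Bool :=
  (((subl f1.1 f.1 && subl f.1 f1.1) && (subl f2.1 f.1 && subl f.1 f2.1)) &&
  ((subl f.2.1 (f1.2.1 ++ f2.2.1) && (subl f1.2.1 f.2.1 && subl f2.2.1 f.2.1)) &&
  (disj f1.2.1 f2.2.1 && (noE A f1.2.1 f2.2.1 && disj f.1 f.2.1)))) &&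
  ((forestb (f1.2.2.1 ++ f2.2.2.1) && okF f.1 f.2.2.1) &&
  (sameC f.1 f.2.2.1 (f1.2.2.1 ++ f2.2.2.1) && decide (f.2.2.2 = f1.2.2.2 + f2.2.2.2)))

/-- the transfer rule -/
def transT (f1 f : Fact) : Bool :=
  (((subl f1.1 (f.1 ++ f.2.1) && subl f1.2.1 f.2.1) && (disj f1.2.1 f1.1 && disj f.1 f.2.1)) &&
  noE A (minus f.1 f1.1) (f1.2.1 ++ f1.1.filter (fun x => decide (x ∈ f.2.1)))) &&
  ((forestb (einL A S f1.1 f.1 ++ f1.2.2.1) && okF f.1 f.2.2.1) &&
  (sameC f.1 f.2.2.1 (einL A S f1.1 f.1 ++ f1.2.2.1) &&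
  decide (f.2.2.2 = f1.2.2.2 + (minus f.2.1 (f1.2.1 ++ f1.1)).length)))

/-- both rules -/
def rules (f1 f2 f : Fact) : Bool := joinT A f1 f2 f || transT A S f1 f

/-- the value -/
def twv : ℕ :=
  ((List.range (S.length + 1)).filter (fun c => (cl (uni w A S) axT (rules A S)).any (fun f =>
    f.1.isEmpty && (subl S f.2.1 && decide (f.2.2.2 = c))))).headD 0

end

section

variable {w : ℕ} {A : ℕ → ℕ → Bool} {S : List ℕ} {G : SimpleGraph ℕ}

theorem mem_uni {f : Fact} : f ∈ uni w A S ↔ f.1 ∈ tup (w + 1) S ∧ f.2.1 ∈ allK w A S ∧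
    f.2.2.1 ∈ tup (w + 1) (f.1 ×ˢ f.1) ∧ f.2.2.2 ≤ S.length := by
  obtain ⟨P, K, F, c⟩ := f
  simp only [uni, List.mem_flatMap, List.mem_map, List.mem_range, Prod.mk.injEq]
  constructor
  · rintro ⟨P, hP, K, hK, F, hF, c, hc, rfl, rfl, rfl, rfl⟩
    exact ⟨hP, hK, hF, by omega⟩
  · rintro ⟨hP, hK, hF, hc⟩
    exact ⟨P, hP, K, hK, F, hF, c, by omega, rfl, rfl, rfl, rfl⟩

theorem keys0_sub {K : List ℕ} (hK : K ∈ keys0 w A S) : K.Sublist S := by
  rw [keys0, List.mem_cons, List.mem_flatMap] at hK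
  rcases hK with rfl | ⟨B, _, h⟩
  · exact List.Sublist.refl _
  · rw [List.mem_map] at h
    obtain ⟨v, _, rfl⟩ := h
    exact (reach_sublist _ _).trans List.filter_sublist

theorem allK_sub {K : List ℕ} (hK : K ∈ allK w A S) : K.Sublist S := by
  rw [allK, List.mem_append] at hK
  rcases hK with hK | hK
  · exact keys0_sub hK
  · rw [List.mem_flatMap] at hK
    obtain ⟨K0, h0, hK⟩ := hK
    rw [List.mem_flatMap] at hK
    obtain ⟨B, _, hK⟩ := hK
    rw [List.mem_map] at hK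
    obtain ⟨m, _, rfl⟩ := hK
    exact List.filter_sublist.trans (List.filter_sublist.trans (keys0_sub h0))

theorem einL_coe (hA : ∀ i j, A i j = true ↔ G.Adj i j) (hS : S.Nodup) {P' P : List ℕ}
    (hP' : ∀ x ∈ P', x ∈ S) : ((einL A S P' P : List (ℕ × ℕ)) : Multiset (ℕ × ℕ)) =
      (ein G P'.toFinset P.toFinset).val := by
  have hnd : (einL A S P' P).Nodup := (hS.product hS).filter _
  refine (Multiset.Nodup.ext (Multiset.coe_nodup.2 hnd) (ein G _ _).nodup).2 ?_
  intro e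
  rw [Finset.mem_val, mem_ein, Multiset.mem_coe, einL, List.mem_filter]
  obtain ⟨x, y⟩ := e
  simp only [List.mem_toFinset, ltb, List.mem_product, Bool.and_eq_true, decide_eq_true_eq, hA,
    Bool.not_eq_true', Bool.and_eq_false_iff, decide_eq_false_iff_not]
  have h1 := hP' x
  have h2 := hP' y
  tauto

theorem joinT_iff (hA : ∀ i j, A i j = true ↔ G.Adj i j) {f1 f2 f : Fact} :
    joinT A f1 f2 f = true ↔
      ((((∀ x ∈ f1.1, x ∈ f.1) ∧ ∀ x ∈ f.1, x ∈ f1.1) ∧
        ((∀ x ∈ f2.1, x ∈ f.1) ∧ ∀ x ∈ f.1, x ∈ f2.1)) ∧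
      (((∀ x ∈ f.2.1, x ∈ f1.2.1 ++ f2.2.1) ∧ ((∀ x ∈ f1.2.1, x ∈ f.2.1) ∧
        ∀ x ∈ f2.2.1, x ∈ f.2.1)) ∧
      ((∀ x ∈ f1.2.1, x ∉ f2.2.1) ∧ ((∀ x ∈ f1.2.1, ∀ y ∈ f2.2.1, ¬ G.Adj x y) ∧
        (∀ x ∈ f.1, x ∉ f.2.1))))) ∧
      ((MForest ((f1.2.2.1 ++ f2.2.2.1 : List (ℕ × ℕ)) : Multiset (ℕ × ℕ)) ∧
        (MForest (f.2.2.1 : Multiset (ℕ × ℕ)) ∧ ∀ e ∈ f.2.2.1, e.1 ∈ f.1 ∧ e.2 ∈ f.1)) ∧
      ((∀ a ∈ f.1, ∀ b ∈ f.1, (MConn (f.2.2.1 : Multiset (ℕ × ℕ)) a b ↔
        MConn ((f1.2.2.1 ++ f2.2.2.1 : List (ℕ × ℕ)) : Multiset (ℕ × ℕ)) a b)) ∧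
        f.2.2.2 = f1.2.2.2 + f2.2.2.2)) := by
  simp only [joinT, Bool.and_eq_true, subl_iff, disj_iff, noE_iff hA, forestb_iff, okF_iff,
    sameC_iff, decide_eq_true_eq]

theorem transT_iff (hA : ∀ i j, A i j = true ↔ G.Adj i j) {f1 f : Fact} :
    transT A S f1 f = true ↔
      ((((∀ x ∈ f1.1, x ∈ f.1 ++ f.2.1) ∧ ∀ x ∈ f1.2.1, x ∈ f.2.1) ∧
        ((∀ x ∈ f1.2.1, x ∉ f1.1) ∧ ∀ x ∈ f.1, x ∉ f.2.1)) ∧
      (∀ x ∈ minus f.1 f1.1, ∀ y ∈ f1.2.1 ++ f1.1.filter (fun x => decide (x ∈ f.2.1)),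
        ¬ G.Adj x y)) ∧
      ((MForest ((einL A S f1.1 f.1 ++ f1.2.2.1 : List (ℕ × ℕ)) : Multiset (ℕ × ℕ)) ∧
        (MForest (f.2.2.1 : Multiset (ℕ × ℕ)) ∧ ∀ e ∈ f.2.2.1, e.1 ∈ f.1 ∧ e.2 ∈ f.1)) ∧
      ((∀ a ∈ f.1, ∀ b ∈ f.1, (MConn (f.2.2.1 : Multiset (ℕ × ℕ)) a b ↔
        MConn ((einL A S f1.1 f.1 ++ f1.2.2.1 : List (ℕ × ℕ)) : Multiset (ℕ × ℕ)) a b)) ∧
        f.2.2.2 = f1.2.2.2 + (minus f.2.1 (f1.2.1 ++ f1.1)).length)) := by
  simp only [transT, Bool.and_eq_true, subl_iff, disj_iff, noE_iff hA, forestb_iff, okF_iff,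
    sameC_iff, decide_eq_true_eq]

/-- derivable facts are true -/
theorem sound (hA : ∀ i j, A i j = true ↔ G.Adj i j) (hS : S.Nodup) {f : Fact}
    (h : Deriv (uni w A S) axT (rules A S) f) :
    Val G f.1.toFinset f.2.1.toFinset (f.2.2.1 : Multiset (ℕ × ℕ)) f.2.2.2 := by
  induction h with
  | base h h' =>
    simp only [axT, Bool.and_eq_true, List.isEmpty_iff, decide_eq_true_eq] at h'
    obtain ⟨h1, h2, h3⟩ := h'
    rw [h1, h2, h3]
    exact val_empty G _
  | @step f1 f2 f h h1 h2 h' ih1 ih2 =>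
    rw [rules, Bool.or_eq_true] at h'
    rcases h' with h' | h'
    · rw [joinT_iff hA] at h'
      obtain ⟨⟨⟨⟨a1, a2⟩, a3, a4⟩, ⟨a5, a6, a7⟩, a8, a9, a10⟩, ⟨a11, a12, a13⟩, a14, a15⟩ := h'
      have e1 : f1.1.toFinset = f.1.toFinset := by
        ext x
        rw [List.mem_toFinset, List.mem_toFinset]
        exact ⟨a1 x, a2 x⟩
      have e2 : f2.1.toFinset = f.1.toFinset := by
        ext x
        rw [List.mem_toFinset, List.mem_toFinset]
        exact ⟨a3 x, a4 x⟩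
      rw [e1] at ih1
      rw [e2] at ih2
      rw [a15]
      refine Val.join ih1 ih2 ?_ ?_ ?_ ?_ ?_ a11 a12 ?_ ?_
      · intro x hx
        rw [List.mem_toFinset] at hx ⊢
        exact a8 x hx
      · intro x hx
        rw [List.mem_toFinset] at hx ⊢
        exact fun h => a10 x hx (a6 x h)
      · intro x hx
        rw [List.mem_toFinset] at hx ⊢
        exact fun h => a10 x hx (a7 x h)
      · intro x hx y hy
        rw [List.mem_toFinset] at hx hy
        exact a9 x hx y hy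
      · intro x
        rw [List.mem_toFinset, List.mem_toFinset, List.mem_toFinset]
        constructor
        · intro hx
          exact List.mem_append.1 (a5 x hx)
        · rintro (hx | hx)
          · exact a6 x hx
          · exact a7 x hx
      · intro e he
        have := a13 e (by simpa using he)
        simpa using this
      · intro a ha b hb
        rw [List.mem_toFinset] at ha hb
        exact a14 a ha b hb
    · rw [transT_iff hA] at h'
      obtain ⟨⟨⟨⟨a1, a2⟩, a3, a4⟩, a5⟩, ⟨a6, a7, a8⟩, a9, a10⟩ := h'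
      have hP1 : ∀ x ∈ f1.1, x ∈ S := (mem_tup.1 (mem_uni.1 h1.mem).1).2
      have hKnd : f.2.1.Nodup := hS.sublist (allK_sub (mem_uni.1 h).2.1)
      have hT : Trans G f1.1.toFinset f1.2.1.toFinset f.1.toFinset f.2.1.toFinset := by
        refine ⟨?_, ?_, ?_, ?_, ?_⟩
        · intro x hx
          rw [List.mem_toFinset] at hx
          rw [List.mem_toFinset, List.mem_toFinset, ← List.mem_append]
          exact a1 x hx
        · intro x hx
          rw [List.mem_toFinset] at hx ⊢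
          exact a2 x hx
        · intro x hx
          rw [List.mem_toFinset] at hx ⊢
          exact a3 x hx
        · intro x hx
          rw [List.mem_toFinset] at hx ⊢
          exact a4 x hx
        · intro x hx hx' y hy
          rw [List.mem_toFinset] at hx hx'
          simp only [List.mem_toFinset] at hy
          refine a5 x (mem_minus.2 ⟨hx, hx'⟩) y ?_
          rw [List.mem_append, List.mem_filter]
          simpa using hy
      rw [← Multiset.coe_add, einL_coe hA hS hP1] at a6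
      simp only [← Multiset.coe_add, einL_coe hA hS hP1] at a9
      have hc : (minus f.2.1 (f1.2.1 ++ f1.1)).length =
          (f.2.1.toFinset \ (f1.2.1.toFinset ∪ f1.1.toFinset)).card := by
        rw [← List.toFinset_append, ← toFinset_minus, List.toFinset_card_of_nodup]
        exact hKnd.filter _
      rw [a10, hc]
      refine Val.trans hT ih1 a6 a7 ?_ ?_
      · intro e he
        have := a8 e (by simpa using he)
        simpa using this
      · intro a ha b hb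
        rw [List.mem_toFinset] at ha hb
        exact a9 a ha b hb

end

end FVS424
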