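import Pool.Agent.Lib.MP_424cb6_lc.TwAlgo

/-! Completeness of the rules for graphs of bounded treewidth. -/

namespace FVS424

open Relation Pool.Agent.MSR

variable {w : ℕ} {A : ℕ → ℕ → Bool} {S : List ℕ} {G : SimpleGraph ℕ}

theorem mem_pre (hA : ∀ i j, A i j = true ↔ G.Adj i j) {K0 B : List ℕ} {m x : ℕ} :
    x ∈ pre A S K0 B m ↔
      ∃ i < m, Conn G ((minus K0 B).toFinset : Set ℕ) (S.getD i 0) x := by
  rw [pre, List.mem_filter, List.any_eq_true]
  simp only [List.mem_range, decide_eq_true_eq, mem_reach hA]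
  constructor
  · rintro ⟨_, h⟩
    exact h
  · rintro ⟨i, hi, hc⟩
    refine ⟨?_, i, hi, hc⟩
    have := hc.right
    simpa using this

theorem pre_succ_eq (hA : ∀ i j, A i j = true ↔ G.Adj i j) {K0 B : List ℕ} {m : ℕ}
    (h : S.getD m 0 ∉ minus K0 B ∨
      ∃ i < m, Conn G ((minus K0 B).toFinset : Set ℕ) (S.getD i 0) (S.getD m 0)) :
    pre A S K0 B (m + 1) = pre A S K0 B m := by
  unfold pre
  apply List.filter_congr
  intro x _
  rw [Bool.eq_iff_iff, List.any_eq_true, List.any_eq_true]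
  simp only [List.mem_range, decide_eq_true_eq, mem_reach hA]
  constructor
  · rintro ⟨i, hi, hc⟩
    by_cases him : i = m
    · subst him
      rcases h with h | ⟨j, hj, hc'⟩
      · exfalso
        apply h
        have := hc.left
        simpa using this
      · exact ⟨j, hj, hc'.trans hc⟩
    · exact ⟨i, by omega, hc⟩
  · rintro ⟨i, hi, hc⟩
    exact ⟨i, by omega, hc⟩

theorem joinT_of (hA : ∀ i j, A i j = true ↔ G.Adj i j) {P K1 K2 K : List ℕ}
    {F1 F2 F : List (ℕ × ℕ)} {c1 c2 c : ℕ} (hK : ∀ x, x ∈ K ↔ x ∈ K1 ∨ x ∈ K2)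
    (h12 : ∀ x ∈ K1, x ∉ K2) (hE : ∀ x ∈ K1, ∀ y ∈ K2, ¬ G.Adj x y) (hPK : ∀ x ∈ P, x ∉ K)
    (hF12 : MForest ((F1 : Multiset (ℕ × ℕ)) + (F2 : Multiset (ℕ × ℕ))))
    (hF : MForest (F : Multiset (ℕ × ℕ))) (hFP : ∀ e ∈ F, e.1 ∈ P ∧ e.2 ∈ P)
    (hc : ∀ a ∈ P, ∀ b ∈ P, (MConn (F : Multiset (ℕ × ℕ)) a b ↔
      MConn ((F1 : Multiset (ℕ × ℕ)) + (F2 : Multiset (ℕ × ℕ))) a b)) (hcc : c = c1 + c2) :
    joinT A (P, K1, F1, c1) (P, K2, F2, c2) (P, K, F, c) = true := by
  rw [joinT_iff hA]
  simp only [List.mem_append, ← Multiset.coe_add]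
  exact ⟨⟨⟨⟨fun x h => h, fun x h => h⟩, fun x h => h, fun x h => h⟩,
    ⟨fun x h => (hK x).1 h, fun x h => (hK x).2 (Or.inl h), fun x h => (hK x).2 (Or.inr h)⟩,
    h12, hE, hPK⟩, ⟨hF12, hF, hFP⟩, hc, hcc⟩

theorem forest_touch_empty {P : Finset ℕ} {F : List (ℕ × ℕ)} (hF : MForest (F : Multiset (ℕ × ℕ)))
    (hT : Touch (F : Multiset (ℕ × ℕ)) P)
    (h : ∀ a ∈ P, ∀ b ∈ P, (MConn 0 a b ↔ MConn (F : Multiset (ℕ × ℕ)) a b)) : F = [] := by
  cases F with
  | nil => rfl
  | cons e F =>
    exfalso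
    have he : e ∈ ((e :: F : List (ℕ × ℕ)) : Multiset (ℕ × ℕ)) := by simp
    have h1 := hT e he
    have h2 := (h e.1 h1.1 e.2 h1.2).2 (MConn.edge he)
    have h3 : e.1 = e.2 := by
      rcases h2.touch (T := ∅) (fun e he => absurd he (Multiset.notMem_zero e)) with h | h
      · exact h
      · exact absurd h.1 (by simp)
    apply hF e he
    rw [h3]
    exact .refl _

theorem complete_step (hA : ∀ i j, A i j = true ↔ G.Adj i j) (hS : S.Nodup)
    {K0 : Finset ℕ} {K0l : List ℕ} (hK0l : K0l ∈ keys0 w A S) (hK0 : ∀ x, x ∈ K0l ↔ x ∈ K0)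
    (hK0S : ∀ x ∈ K0, x ∈ S) {B' : Finset ℕ} (hB'S : ∀ x ∈ B', x ∈ S) (hB'c : B'.card ≤ w + 1)
    (hcl : ∀ x ∈ K0, x ∉ B' → ∀ y ∈ S, y ∉ B' → G.Adj x y → y ∈ K0)
    (hrec : ∀ s ∈ K0, s ∉ B' → ∀ (Pl : List ℕ) (Fl : List (ℕ × ℕ)) (c : ℕ),
      Pl ∈ tup (w + 1) S → (∀ x ∈ Pl, x ∈ B') → Fl ∈ tup (w + 1) (Pl ×ˢ Pl) → c ≤ S.length →
      Val G Pl.toFinset (comp G (S.toFinset \ B') s) (Fl : Multiset (ℕ × ℕ)) c →
      Deriv (uni w A S) axT (rules A S) (Pl, reach A (minus S B'.toList) s, Fl, c))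
    {Pl Kl : List ℕ} {Fl : List (ℕ × ℕ)} {c : ℕ} (hPl : Pl ∈ tup (w + 1) S)
    (hKl : Kl ∈ allK w A S) (hKlm : ∀ x, x ∈ Kl ↔ x ∈ K0) (hFl : Fl ∈ tup (w + 1) (Pl ×ˢ Pl))
    (hc : c ≤ S.length) (hPK : ∀ x ∈ Pl, x ∉ K0)
    (hB : ∀ x ∈ Pl, x ∉ B' → ∀ y ∈ K0, ¬ G.Adj x y)
    (v : Val G Pl.toFinset K0 (Fl : Multiset (ℕ × ℕ)) c) :
    Deriv (uni w A S) axT (rules A S) (Pl, Kl, Fl, c) := by
  have hvF := v
  obtain ⟨_, _, _, _, hFf, hFT, _⟩ := hvF
  have hFP : ∀ e ∈ Fl, e.1 ∈ Pl ∧ e.2 ∈ Pl := by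
    intro e he
    have := hFT e (by simpa using he)
    simpa using this
  obtain ⟨P', hP'B, hT, hrest⟩ := v.untrans (B' := B') (fun x hx => hPK x (by simpa using hx))
    (fun x hx => hB x (by simpa using hx))
  have hl : ∀ x, x ∈ P'.toList ↔ x ∈ P' := fun x => Finset.mem_toList
  have hlf : P'.toList.toFinset = P' := Finset.toList_toFinset _
  obtain ⟨F', c', f1, f2, v', f4, f5, f6⟩ := hrest P'.toList hl
  have hP'len : P'.toList.length ≤ w + 1 := by
    rw [Finset.length_toList]
    exact (Finset.card_le_card hP'B).trans hB'c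
  have hP't : P'.toList ∈ tup (w + 1) S :=
    mem_tup.2 ⟨hP'len, fun x hx => hB'S x (hP'B ((hl x).1 hx))⟩
  have htupF : ∀ F : List (ℕ × ℕ), F.length ≤ P'.toList.length →
      (∀ e ∈ F, e.1 ∈ P'.toList ∧ e.2 ∈ P'.toList) →
      F ∈ tup (w + 1) (P'.toList ×ˢ P'.toList) := by
    intro F h1 h2
    refine mem_tup.2 ⟨h1.trans hP'len, ?_⟩
    rintro ⟨x, y⟩ hx
    exact List.mem_product.2 (h2 _ hx)
  set Bl := B'.toList with hBl
  have hBlm : ∀ x, x ∈ Bl ↔ x ∈ B' := fun x => Finset.mem_toList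
  have hBlt : Bl ∈ tup (w + 1) S :=
    mem_tup.2 ⟨by rw [hBl, Finset.length_toList]; exact hB'c, fun x hx => hB'S x ((hBlm x).1 hx)⟩
  have hW : ∀ x, x ∈ ((minus K0l Bl).toFinset : Set ℕ) ↔ x ∈ K0 ∧ x ∉ B' := by
    intro x
    rw [Finset.mem_coe, List.mem_toFinset, mem_minus, hK0, hBlm]
  have hW' : ∀ x, x ∈ minus K0l Bl ↔ x ∈ K0 ∧ x ∉ B' := by
    intro x
    rw [mem_minus, hK0, hBlm]
  have hWeq : ((minus K0l Bl).toFinset : Set ℕ) = {x | x ∈ K0 ∧ x ∉ B'} := by
    ext x; rw [hW]; rfl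
  -- the regions `pre m`
  have hpreK : ∀ m ≤ S.length, pre A S K0l Bl m ∈ allK w A S := by
    intro m hm
    rw [allK, List.mem_append]
    right
    rw [List.mem_flatMap]
    refine ⟨K0l, hK0l, ?_⟩
    rw [List.mem_flatMap]
    refine ⟨Bl, hBlt, ?_⟩
    rw [List.mem_map]
    exact ⟨m, List.mem_range.2 (by omega), rfl⟩
  have key : ∀ m ≤ S.length, ∀ (F : List (ℕ × ℕ)) (c : ℕ),
      F ∈ tup (w + 1) (P'.toList ×ˢ P'.toList) → c ≤ S.length →
      Val G P' (pre A S K0l Bl m).toFinset (F : Multiset (ℕ × ℕ)) c →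
      Deriv (uni w A S) axT (rules A S) (P'.toList, pre A S K0l Bl m, F, c) := by
    intro m
    induction m with
    | zero =>
      intro hm F c hF hc hv
      have he : pre A S K0l Bl 0 = [] := by
        rw [List.eq_nil_iff_forall_not_mem]
        intro x hx
        rw [mem_pre hA] at hx
        obtain ⟨i, hi, _⟩ := hx
        omega
      have hmem := hpreK 0 hm
      rw [he] at hv hmem ⊢
      obtain ⟨X, hX, hXc, h1, h2, h3, h4⟩ := hv
      have hX0 : X = ∅ := by
        rw [List.toFinset_nil] at hX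
        exact Finset.subset_empty.1 hX
      subst hX0
      have hreg : (reg G P' (([] : List ℕ).toFinset \ ∅)).val = 0 := by
        rw [Multiset.eq_zero_iff_forall_notMem]
        intro e he
        rw [Finset.mem_val, mem_reg] at he
        simp at he
      rw [hreg] at h4
      have hF0 := forest_touch_empty h2 h3 h4
      subst hF0
      rw [Finset.card_empty] at hXc
      subst hXc
      refine .base (mem_uni.2 ⟨hP't, hmem, hF, hc⟩) rfl
    | succ m ih =>
      intro hm F c hF hc hv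
      set s := S.getD m 0 with hs
      by_cases hcase : s ∉ minus K0l Bl ∨
          ∃ i < m, Conn G ((minus K0l Bl).toFinset : Set ℕ) (S.getD i 0) s
      · have he := pre_succ_eq hA hcase
        rw [he] at hv ⊢
        exact ih (by omega) F c hF hc hv
      · push Not at hcase
        obtain ⟨hsW, hsn⟩ := hcase
        have hsW' := (hW' s).1 hsW
        have hsS : s ∈ S := hK0S s hsW'.1
        -- the component of `s`
        have hC : ∀ x, x ∈ comp G (S.toFinset \ B') s ↔
            Conn G ((minus K0l Bl).toFinset : Set ℕ) s x := by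
          intro x
          rw [mem_comp]
          constructor
          · intro h
            have := h.restrict (K0 : Set ℕ) hsW'.1 (by
              intro u hu huS y hyS huy
              have e1 := Finset.mem_sdiff.1 (Finset.mem_coe.1 huS)
              have e2 := Finset.mem_sdiff.1 (Finset.mem_coe.1 hyS)
              exact hcl u hu e1.2 y (List.mem_toFinset.1 e2.1) e2.2 huy)
            refine this.mono ?_
            rintro y ⟨hy1, hy2⟩
            have e2 := Finset.mem_sdiff.1 (Finset.mem_coe.1 hy1)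
            rw [hW]
            exact ⟨hy2, e2.2⟩
          · intro h
            refine h.mono ?_
            intro y hy
            rw [hW] at hy
            rw [Finset.mem_coe, Finset.mem_sdiff, List.mem_toFinset]
            exact ⟨hK0S y hy.1, hy.2⟩
        have hCl : ∀ x, x ∈ reach A (minus S Bl) s ↔ x ∈ comp G (S.toFinset \ B') s := by
          intro x
          rw [mem_reach hA, mem_comp, toFinset_minus, hBl, Finset.toList_toFinset]
        have hCk : reach A (minus S Bl) s ∈ allK w A S := by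
          rw [allK, List.mem_append]
          left
          rw [keys0, List.mem_cons]
          right
          rw [List.mem_flatMap]
          refine ⟨Bl, hBlt, ?_⟩
          rw [List.mem_map]
          refine ⟨s, ?_, rfl⟩
          rw [mem_minus, hBlm]
          exact ⟨hsS, hsW'.2⟩
        have hpm : ∀ x, x ∈ pre A S K0l Bl m ↔ ∃ i < m,
            Conn G ((minus K0l Bl).toFinset : Set ℕ) (S.getD i 0) x := fun x => mem_pre hA
        have hun : ∀ x, x ∈ pre A S K0l Bl (m + 1) ↔
            x ∈ pre A S K0l Bl m ∨ x ∈ comp G (S.toFinset \ B') s := by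
          intro x
          rw [mem_pre hA, mem_pre hA, hC]
          constructor
          · rintro ⟨i, hi, h⟩
            by_cases him : i = m
            · subst him
              exact Or.inr h
            · exact Or.inl ⟨i, by omega, h⟩
          · rintro (⟨i, hi, h⟩ | h)
            · exact ⟨i, by omega, h⟩
            · exact ⟨m, by omega, h⟩
        have hdisj : ∀ x ∈ pre A S K0l Bl m, x ∉ comp G (S.toFinset \ B') s := by
          intro x hx hx'
          rw [hpm] at hx
          rw [hC] at hx'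
          obtain ⟨i, hi, h⟩ := hx
          exact hsn i hi (h.trans hx'.symm)
        have hnoE : ∀ x ∈ pre A S K0l Bl m, ∀ y ∈ comp G (S.toFinset \ B') s, ¬ G.Adj x y := by
          intro x hx y hy hxy
          rw [hpm] at hx
          rw [hC] at hy
          obtain ⟨i, hi, h⟩ := hx
          exact hsn i hi ((h.tail hy.right hxy).trans hy.symm)
        have hP'pre : ∀ m, ∀ x ∈ P', x ∉ pre A S K0l Bl m := by
          intro m x hx hx'
          rw [mem_pre hA] at hx'
          obtain ⟨i, hi, h⟩ := hx'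
          have := h.right
          rw [hW] at this
          exact this.2 (hP'B hx)
        have hP'C : ∀ x ∈ P', x ∉ comp G (S.toFinset \ B') s := by
          intro x hx hx'
          rw [hC] at hx'
          have := hx'.right
          rw [hW] at this
          exact this.2 (hP'B hx)
        have hvF := hv
        obtain ⟨_, _, _, _, hFf', hFT', _⟩ := hvF
        obtain ⟨F1, F2, c1, c2, g1, g2, g3, g4, g5, g6, g7, g8, g9⟩ := Val.unjoin hl hv
          (K1 := (pre A S K0l Bl m).toFinset) (K2 := comp G (S.toFinset \ B') s)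
          (fun x hx => hdisj x (List.mem_toFinset.1 hx))
          (fun x hx hx' => hP'pre m x hx (List.mem_toFinset.1 hx')) hP'C
          (fun x hx y hy => hnoE x (List.mem_toFinset.1 hx) y hy)
          (fun x => by rw [List.mem_toFinset, List.mem_toFinset]; exact hun x)
        have d1 := ih (by omega) F1 c1 (htupF F1 g2 g3) (by omega) g6
        have d2 := hrec s hsW'.1 hsW'.2 P'.toList F2 c2 hP't (fun x hx => hP'B ((hl x).1 hx))
          (htupF F2 g4 g5) (by omega) (by rw [hlf]; exact g7)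
        refine .step (mem_uni.2 ⟨hP't, hpreK (m + 1) hm, hF, hc⟩) d1 d2 ?_
        rw [rules, Bool.or_eq_true]
        left
        refine joinT_of hA ?_ ?_ ?_ ?_ g8 hFf' ?_ ?_ g1
        · intro x
          rw [hun, hCl]
        · intro x hx
          rw [hCl]
          exact hdisj x hx
        · intro x hx y hy
          rw [hCl] at hy
          exact hnoE x hx y hy
        · intro x hx
          exact hP'pre (m + 1) x ((hl x).1 hx)
        · intro e he
          have := hFT' e (by simpa using he)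
          rw [hl, hl]
          exact this
        · intro a ha b hb
          exact g9 a ((hl a).1 ha) b ((hl b).1 hb)
  -- the last region
  have hlast : ∀ x, x ∈ pre A S K0l Bl S.length ↔ x ∈ K0 ∧ x ∉ B' := by
    intro x
    rw [mem_pre hA]
    constructor
    · rintro ⟨i, _, h⟩
      have := h.right
      rwa [hW] at this
    · intro hx
      obtain ⟨i, hi, he⟩ := List.getElem_of_mem (hK0S x hx.1)
      refine ⟨i, hi, ?_⟩
      have : S.getD i 0 = x := by rw [List.getD_eq_getElem _ _ hi, he]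
      rw [this]
      exact .refl ((hW x).2 hx)
  have hlastf : (pre A S K0l Bl S.length).toFinset = K0 \ B' := by
    ext x
    rw [List.mem_toFinset, hlast, Finset.mem_sdiff]
  have d := key S.length le_rfl F' c' (htupF F' f1 f2) (by omega) (by rw [hlastf]; exact v')
  refine .step (mem_uni.2 ⟨hPl, hKl, hFl, hc⟩) d d ?_
  rw [rules, Bool.or_eq_true]
  right
  have hP'S : ∀ x ∈ P'.toList, x ∈ S := (mem_tup.1 hP't).2
  rw [transT_iff hA]
  simp only [← Multiset.coe_add, einL_coe hA hS hP'S, hlf]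
  refine ⟨⟨⟨⟨?_, ?_⟩, ?_, ?_⟩, ?_⟩, ⟨f4, hFf, hFP⟩, ?_, ?_⟩
  · intro x hx
    have := hT.h1 x ((hl x).1 hx)
    rw [List.mem_append, hKlm]
    simpa using this
  · intro x hx
    rw [hlast] at hx
    rw [hKlm]
    exact hx.1
  · intro x hx hx'
    rw [hlast] at hx
    exact hx.2 (hP'B ((hl x).1 hx'))
  · intro x hx
    rw [hKlm]
    exact hPK x hx
  · intro x hx y hy
    rw [mem_minus] at hx
    rw [List.mem_append, List.mem_filter, hlast, decide_eq_true_eq, hKlm, hl] at hy
    refine hT.h5 x (by simpa using hx.1) (fun h => hx.2 ((hl x).2 h)) y ?_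
    rw [Finset.mem_sdiff]
    exact hy
  · intro a ha b hb
    exact f5 a (by simpa using ha) b (by simpa using hb)
  · rw [f6]
    congr 1
    have hKnd : Kl.Nodup := hS.sublist (allK_sub hKl)
    have e1 : (minus Kl (pre A S K0l Bl S.length ++ P'.toList)).toFinset =
        K0 \ ((K0 \ B') ∪ P') := by
      rw [toFinset_minus, List.toFinset_append, hlastf, hlf]
      congr 1
      ext x
      rw [List.mem_toFinset, hKlm]
    rw [← e1, List.toFinset_card_of_nodup]
    exact hKnd.filter _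

/-- the data of a tree decomposition -/
structure TData (G : SimpleGraph ℕ) (S : List ℕ) (w : ℕ) (ι : Type) where
  /-- the tree -/
  T : SimpleGraph ι
  /-- the bags -/
  bag : ι → Finset ℕ
  tree : T.IsTree
  sub : ∀ i, ∀ v ∈ bag i, v ∈ S
  card : ∀ i, (bag i).card ≤ w + 1
  cov : ∀ v ∈ S, ∃ i, v ∈ bag i
  edge : ∀ u ∈ S, ∀ v ∈ S, G.Adj u v → ∃ i, u ∈ bag i ∧ v ∈ bag i
  conn : ∀ v i j, v ∈ bag i → v ∈ bag j → Conn T {k | v ∈ bag k} i j

theorem complete_comp (hA : ∀ i j, A i j = true ↔ G.Adj i j) (hS : S.Nodup) {ι : Type}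
    (D : TData G S w ι) (n : ℕ) : ∀ (B : Finset ℕ) (v : ℕ), (∀ x ∈ B, x ∈ S) →
    B.card ≤ w + 1 → v ∈ S → v ∉ B → (comp G (S.toFinset \ B) v).card ≤ n →
    (∃ r, ∀ x ∈ S, x ∉ comp G (S.toFinset \ B) v →
      (∃ y ∈ comp G (S.toFinset \ B) v, G.Adj x y) → x ∈ D.bag r) →
    ∀ (Pl : List ℕ) (Fl : List (ℕ × ℕ)) (c : ℕ),
      Pl ∈ tup (w + 1) S → (∀ x ∈ Pl, x ∈ B) → Fl ∈ tup (w + 1) (Pl ×ˢ Pl) → c ≤ S.length →
      Val G Pl.toFinset (comp G (S.toFinset \ B) v) (Fl : Multiset (ℕ × ℕ)) c →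
      Deriv (uni w A S) axT (rules A S) (Pl, reach A (minus S B.toList) v, Fl, c) := by
  induction n with
  | zero =>
    intro B v hBS hBc hvS hvB hn
    exfalso
    have : v ∈ comp G (S.toFinset \ B) v := by
      rw [mem_comp]
      refine .refl ?_
      rw [Finset.mem_coe, Finset.mem_sdiff, List.mem_toFinset]
      exact ⟨hvS, hvB⟩
    have h2 := Finset.card_pos.2 ⟨v, this⟩
    omega
  | succ n ih =>
    intro B v hBS hBc hvS hvB hn hr Pl Fl c hPl hPB hFl hc hval
    obtain ⟨r, hr⟩ := hr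
    set K0 := comp G (S.toFinset \ B) v with hK0
    have hmK : ∀ x ∈ K0, x ∈ S ∧ x ∉ B := by
      intro x hx
      have := comp_sub hx
      rw [Finset.mem_sdiff, List.mem_toFinset] at this
      exact this
    have hvK : v ∈ K0 := by
      rw [hK0, mem_comp]
      refine .refl ?_
      rw [Finset.mem_coe, Finset.mem_sdiff, List.mem_toFinset]
      exact ⟨hvS, hvB⟩
    have hclos : ∀ x ∈ K0, ∀ y ∈ S, y ∉ B → G.Adj x y → y ∈ K0 := by
      intro x hx y hy hyB hxy
      refine comp_closed hx ?_ hxy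
      rw [Finset.mem_sdiff, List.mem_toFinset]
      exact ⟨hy, hyB⟩
    have hconnK : ∀ x ∈ (K0 : Set ℕ), ∀ y ∈ (K0 : Set ℕ), Conn G (K0 : Set ℕ) x y := by
      have h1 : ∀ x ∈ (K0 : Set ℕ), Conn G (K0 : Set ℕ) v x := by
        intro x hx
        rw [Finset.mem_coe, hK0, mem_comp] at hx
        refine (hx.restrict (K0 : Set ℕ) hvK ?_).mono Set.inter_subset_right
        intro u hu _ y hyS huy
        rw [Finset.mem_coe, Finset.mem_sdiff, List.mem_toFinset] at hyS
        exact hclos u hu y hyS.1 hyS.2 huy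
      intro x hx y hy
      exact (h1 x hx).symm.trans (h1 y hy)
    obtain ⟨r', ⟨x1, hx1, hx1b⟩, hr'⟩ := exists_node (G := G) (S := {x | x ∈ S})
      (K := (K0 : Set ℕ)) D.tree D.edge D.cov D.conn (fun x hx => (hmK x hx).1) hconnK hvK r
      (fun x hx hxK hy => hr x hx hxK hy)
    set B' : Finset ℕ := D.bag r' ∩ (B ∪ K0) with hB'
    have hB'm : ∀ x, x ∈ B' ↔ x ∈ D.bag r' ∧ (x ∈ B ∨ x ∈ K0) := by
      intro x
      rw [hB', Finset.mem_inter, Finset.mem_union]
    have hB'S : ∀ x ∈ B', x ∈ S := fun x hx => D.sub r' x ((hB'm x).1 hx).1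
    have hB'c : B'.card ≤ w + 1 := (Finset.card_le_card Finset.inter_subset_left).trans (D.card r')
    have hcl : ∀ x ∈ K0, x ∉ B' → ∀ y ∈ S, y ∉ B' → G.Adj x y → y ∈ K0 := by
      intro x hx _ y hy hyB' hxy
      by_contra hyK
      have hyB : y ∈ B := by
        by_contra hyB
        exact hyK (hclos x hx y hy hyB hxy)
      exact hyB' ((hB'm y).2 ⟨hr' y hy hyK ⟨x, hx, hxy.symm⟩, Or.inl hyB⟩)
    have hk0 : reach A (minus S B.toList) v ∈ keys0 w A S := by
      rw [keys0, List.mem_cons]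
      right
      rw [List.mem_flatMap]
      refine ⟨B.toList, mem_tup.2 ⟨by rw [Finset.length_toList]; exact hBc,
        fun x hx => hBS x (Finset.mem_toList.1 hx)⟩, ?_⟩
      rw [List.mem_map]
      refine ⟨v, ?_, rfl⟩
      rw [mem_minus, Finset.mem_toList]
      exact ⟨hvS, hvB⟩
    have hkm : ∀ x, x ∈ reach A (minus S B.toList) v ↔ x ∈ K0 := by
      intro x
      rw [mem_reach hA, hK0, mem_comp, toFinset_minus, Finset.toList_toFinset]
    refine complete_step hA hS hk0 hkm (fun x hx => (hmK x hx).1) hB'S hB'c hcl ?_ hPl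
      (by rw [allK, List.mem_append]; exact Or.inl hk0) hkm hFl hc
      (fun x hx hx' => (hmK x hx').2 (hPB x hx)) ?_ hval
    · intro s hs hsB'
      have hsub : ∀ x ∈ comp G (S.toFinset \ B') s, x ∈ K0 ∧ x ∉ B' := by
        intro x hx
        have hx2 := comp_sub hx
        rw [Finset.mem_sdiff] at hx2
        refine ⟨?_, hx2.2⟩
        rw [mem_comp] at hx
        refine hx.closed (fun z => z ∈ K0) hs ?_
        intro u y hu1 hu hy1 hy2
        have e1 := hu1.right
        rw [Finset.mem_coe, Finset.mem_sdiff] at e1 hy2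
        exact hcl u hu e1.2 y (List.mem_toFinset.1 hy2.1) hy2.2 hy1
      refine ih B' s hB'S hB'c (hmK s hs).1 hsB' ?_ ?_
      · have hlt : (comp G (S.toFinset \ B') s).card < K0.card := by
          apply Finset.card_lt_card
          refine ⟨fun x hx => (hsub x hx).1, ?_⟩
          intro hcon
          have := (hsub x1 (hcon hx1)).2
          exact this ((hB'm x1).2 ⟨hx1b, Or.inr hx1⟩)
        omega
      · refine ⟨r', ?_⟩
        rintro x hx hxC ⟨y, hy, hxy⟩
        obtain ⟨hyK, hyB'⟩ := hsub y hy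
        by_cases hxK : x ∈ K0
        · by_contra hxb
          apply hxC
          refine comp_closed hy ?_ hxy.symm
          rw [Finset.mem_sdiff, List.mem_toFinset]
          exact ⟨hx, fun h => hxb ((hB'm x).1 h).1⟩
        · exact hr' x hx hxK ⟨y, hyK, hxy⟩
    · intro x hx hxB' y hy hxy
      have hxS : x ∈ S := (mem_tup.1 hPl).2 x hx
      have hxK : x ∉ K0 := fun h => (hmK x h).2 (hPB x hx)
      exact hxB' ((hB'm x).2 ⟨hr' x hxS hxK ⟨y, hy, hxy⟩, Or.inl (hPB x hx)⟩)

theorem complete_root (hA : ∀ i j, A i j = true ↔ G.Adj i j) (hS : S.Nodup) {ι : Type}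
    (D : TData G S w ι) {c : ℕ} (hc : c ≤ S.length) (hv : Val G ∅ S.toFinset 0 c) :
    Deriv (uni w A S) axT (rules A S) ([], S, [], c) := by
  obtain ⟨r⟩ := D.tree.connected.nonempty
  have hS0 : S ∈ keys0 w A S := by
    rw [keys0]; exact List.mem_cons_self
  refine complete_step (B' := D.bag r) (K0 := S.toFinset) hA hS hS0 (fun x => List.mem_toFinset.symm)
    (fun x hx => List.mem_toFinset.1 hx) (D.sub r) (D.card r)
    (fun x _ _ y hy _ _ => List.mem_toFinset.2 hy) ?_ (mem_tup.2 ⟨by simp, by simp⟩)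
    (by rw [allK, List.mem_append]; exact Or.inl hS0) (fun x => List.mem_toFinset.symm)
    (mem_tup.2 ⟨by simp, by simp⟩) hc (by simp) (by simp) hv
  intro s hs hsB
  refine complete_comp hA hS D _ (D.bag r) s (D.sub r) (D.card r) (List.mem_toFinset.1 hs) hsB
    le_rfl ⟨r, ?_⟩
  rintro x hx hxC ⟨y, hy, hxy⟩
  by_contra hxb
  apply hxC
  refine comp_closed hy ?_ hxy.symm
  rw [Finset.mem_sdiff, List.mem_toFinset]
  exact ⟨hx, hxb⟩

theorem twv_eq (hA : ∀ i j, A i j = true ↔ G.Adj i j) (hS : S.Nodup) {ι : Type}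
    (D : TData G S w ι) : twv w A S = fvs G S.toFinset := by
  have hmem : ∀ c, c ≤ S.length → ((cl (uni w A S) axT (rules A S)).any (fun f =>
      f.1.isEmpty && (subl S f.2.1 && decide (f.2.2.2 = c))) = true ↔
      Val G ∅ S.toFinset 0 c) := by
    intro c hc
    rw [List.any_eq_true]
    constructor
    · rintro ⟨⟨P, K, F, c'⟩, hf, hf'⟩
      rw [mem_cl] at hf
      simp only [Bool.and_eq_true, List.isEmpty_iff, subl_iff, decide_eq_true_eq] at hf'
      obtain ⟨rfl, h2, rfl⟩ := hf'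
      have h3 := sound hA hS hf
      have h4 := mem_uni.1 hf.mem
      simp only at h3 h4
      have hF : F = [] := by
        rw [List.eq_nil_iff_forall_not_mem]
        intro e he
        have := (mem_tup.1 h4.2.2.1).2 e he
        simp at this
      have hK : K.toFinset = S.toFinset := by
        ext x
        rw [List.mem_toFinset, List.mem_toFinset]
        exact ⟨fun h => (allK_sub h4.2.1).subset h, h2 x⟩
      rw [hF, hK] at h3
      exact h3
    · intro h
      refine ⟨([], S, [], c), mem_cl.2 (complete_root hA hS D hc h), ?_⟩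
      simp only [Bool.and_eq_true, List.isEmpty_nil, decide_true, and_true, true_and]
      rw [subl_iff]
      exact fun x hx => hx
  obtain ⟨X, hX, hXc⟩ := exists_fvs G S.toFinset
  have hXle : fvs G S.toFinset ≤ S.length := by
    rw [← hXc]
    exact (Finset.card_le_card hX.1).trans (List.toFinset_card_le S)
  unfold twv
  have hv0 : Val G ∅ S.toFinset 0 (fvs G S.toFinset) := val_root.2 ⟨X, hX, hXc⟩
  have hmin : ∀ c < fvs G S.toFinset, ¬ Val G ∅ S.toFinset 0 c := by
    intro c hc hv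
    obtain ⟨Y, hY, hYc⟩ := val_root.1 hv
    have := fvs_le hY
    omega
  have hgen : ∀ (p : ℕ → Bool) (k n : ℕ), k < n → p k = true → (∀ c < k, p c = false) →
      ((List.range n).filter p).headD 0 = k := by
    intro p k n hkn hpk hp
    obtain ⟨d, rfl⟩ : ∃ d, n = k + (1 + d) := ⟨n - k - 1, by omega⟩
    rw [List.range_add, List.filter_append]
    have h1 : (List.range k).filter p = [] := by
      rw [List.filter_eq_nil_iff]
      intro c hc
      rw [hp c (List.mem_range.1 hc)]
      simp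
    rw [h1, List.nil_append, Nat.add_comm 1 d, List.range_succ_eq_map, List.map_cons,
      List.filter_cons, Nat.add_zero, hpk]
    simp
  apply hgen
  · omega
  · exact (hmem _ hXle).2 hv0
  · intro c hc
    rw [← Bool.not_eq_true]
    intro h
    exact hmin c hc ((hmem c (by omega)).1 h)

end FVS424
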