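import Mathlib

/-! Forests as multisets of edges. -/

namespace FVS424

open Relation

/-- connectivity by a multiset of edges -/
def MConn (M : Multiset (ℕ × ℕ)) : ℕ → ℕ → Prop :=
  ReflTransGen (fun a b => (a, b) ∈ M ∨ (b, a) ∈ M)

/-- a multiset of edges is a forest (no cycles, no loops, no repeated edges) -/
def MForest (M : Multiset (ℕ × ℕ)) : Prop := ∀ e ∈ M, ¬ MConn (M.erase e) e.1 e.2

variable {M M' L L' : Multiset (ℕ × ℕ)} {a b c : ℕ}

theorem MConn.refl (a : ℕ) : MConn M a a := ReflTransGen.refl

theorem MConn.trans (h : MConn M a b) (h' : MConn M b c) : MConn M a c :=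
  ReflTransGen.trans h h'

theorem MConn.symm (h : MConn M a b) : MConn M b a := by
  induction h with
  | refl => exact .refl _
  | tail h1 h2 ih => exact (ReflTransGen.single h2.symm : MConn M _ _).trans ih

theorem MConn.mono (h : MConn M a b) (hM : ∀ e ∈ M, e ∈ M') : MConn M' a b := by
  induction h with
  | refl => exact .refl _
  | tail h1 h2 ih => exact ih.trans (ReflTransGen.single (h2.imp (hM _) (hM _)))

theorem MConn.congr (hM : ∀ e, e ∈ M ↔ e ∈ M') : MConn M a b ↔ MConn M' a b :=
  ⟨fun h => h.mono fun e he => (hM e).1 he, fun h => h.mono fun e he => (hM e).2 he⟩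

theorem MConn.edge {e : ℕ × ℕ} (h : e ∈ M) : MConn M e.1 e.2 := ReflTransGen.single (Or.inl h)

theorem mconn_cons {e : ℕ × ℕ} : MConn (e ::ₘ M) a b ↔
    MConn M a b ∨ (MConn M a e.1 ∧ MConn M e.2 b) ∨ (MConn M a e.2 ∧ MConn M e.1 b) := by
  constructor
  · intro h
    induction h with
    | refl => exact Or.inl (.refl _)
    | @tail x y h1 h2 ih =>
      have h2' : ((x, y) = e ∨ (y, x) = e) ∨ MConn M x y := by
        rcases h2 with h | h
        · rcases Multiset.mem_cons.1 h with h | h
          · exact Or.inl (Or.inl h)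
          · exact Or.inr (ReflTransGen.single (Or.inl h))
        · rcases Multiset.mem_cons.1 h with h | h
          · exact Or.inl (Or.inr h)
          · exact Or.inr (ReflTransGen.single (Or.inr h))
      rcases h2' with (h | h) | h
      · subst h
        rcases ih with h | h | h
        · exact Or.inr (Or.inl ⟨h, .refl _⟩)
        · exact Or.inr (Or.inl ⟨h.1, .refl _⟩)
        · exact Or.inl h.1
      · subst h
        rcases ih with h | h | h
        · exact Or.inr (Or.inr ⟨h, .refl _⟩)
        · exact Or.inl h.1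
        · exact Or.inr (Or.inr ⟨h.1, .refl _⟩)
      · rcases ih with h' | h' | h'
        · exact Or.inl (h'.trans h)
        · exact Or.inr (Or.inl ⟨h'.1, h'.2.trans h⟩)
        · exact Or.inr (Or.inr ⟨h'.1, h'.2.trans h⟩)
  · have hm : ∀ {x y}, MConn M x y → MConn (e ::ₘ M) x y :=
      fun h => h.mono fun e he => Multiset.mem_cons_of_mem he
    have he : MConn (e ::ₘ M) e.1 e.2 := MConn.edge (Multiset.mem_cons_self _ _)
    rintro (h | h | h)
    · exact hm h
    · exact (hm h.1).trans (he.trans (hm h.2))
    · exact (hm h.1).trans (he.symm.trans (hm h.2))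

theorem mforest_cons {e : ℕ × ℕ} : MForest (e ::ₘ M) ↔ MForest M ∧ ¬ MConn M e.1 e.2 := by
  constructor
  · intro h
    constructor
    · intro e' he' hc
      apply h e' (Multiset.mem_cons_of_mem he')
      refine hc.mono ?_
      intro x hx
      by_cases hee : e' = e
      · subst hee
        rw [Multiset.erase_cons_head]
        exact Multiset.mem_of_mem_erase hx
      · rw [Multiset.erase_cons_tail_of_mem he']
        exact Multiset.mem_cons_of_mem hx
    · have := h e (Multiset.mem_cons_self _ _)
      rwa [Multiset.erase_cons_head] at this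
  · rintro ⟨h1, h2⟩ e' he' hc
    by_cases hee : e' = e
    · subst hee
      rw [Multiset.erase_cons_head] at hc
      exact h2 hc
    · have he'' : e' ∈ M := by
        rcases Multiset.mem_cons.1 he' with h | h
        · exact absurd h hee
        · exact h
      rw [Multiset.erase_cons_tail_of_mem he'', mconn_cons] at hc
      have hm : ∀ {x y}, MConn (M.erase e') x y → MConn M x y :=
        fun h => h.mono fun e he => Multiset.mem_of_mem_erase he
      have hed : MConn M e'.1 e'.2 := MConn.edge he''
      rcases hc with h | h | h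
      · exact h1 e' he'' h
      · exact h2 ((hm h.1).symm.trans (hed.trans (hm h.2).symm))
      · exact h2 ((hm h.2).trans (hed.symm.trans (hm h.1)))

theorem mforest_zero : MForest 0 := fun e he => absurd he (Multiset.notMem_zero e)

theorem MForest.mono (h : MForest M) (hL : L ≤ M) : MForest L := by
  intro e he hc
  apply h e (Multiset.mem_of_le hL he)
  exact hc.mono fun x hx => Multiset.mem_of_le (Multiset.erase_le_erase e hL) hx

/-- `M` only touches vertices of `T ∪ P` -/
def Touch (M : Multiset (ℕ × ℕ)) (T : Set ℕ) : Prop := ∀ e ∈ M, e.1 ∈ T ∧ e.2 ∈ T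

theorem MConn.touch (h : MConn M a b) {T : Set ℕ} (hT : Touch M T) : a = b ∨ (a ∈ T ∧ b ∈ T) := by
  induction h with
  | refl => exact Or.inl rfl
  | @tail x y h1 h2 ih =>
    have hy : x ∈ T ∧ y ∈ T := by
      rcases h2 with h | h
      · exact hT _ h
      · exact ⟨(hT _ h).2, (hT _ h).1⟩
    rcases ih with rfl | h
    · exact Or.inr hy
    · exact Or.inr ⟨h.1, hy.2⟩

theorem mconn_replace_aux (T P : Set ℕ) (h1 : Touch M (T ∪ P))
    (hL : Touch L Pᶜ) (hc : ∀ x ∈ T, ∀ y ∈ T, MConn M x y → MConn M' x y)
    (ha : a ∉ P) (hb : b ∉ P) (h : MConn (L + M) a b) : MConn (L + M') a b := by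
  have hl : ∀ {x y}, MConn L x y → MConn (L + M') x y :=
    fun h => h.mono fun e he => Multiset.mem_add.2 (Or.inl he)
  have hr : ∀ {x y}, MConn M' x y → MConn (L + M') x y :=
    fun h => h.mono fun e he => Multiset.mem_add.2 (Or.inr he)
  have key : (b ∉ P → MConn (L + M') a b) ∧
      (b ∈ P → ∃ t ∈ T, MConn (L + M') a t ∧ MConn M t b) := by
    clear hb
    induction h with
    | refl => exact ⟨fun _ => .refl _, fun h => absurd h ha⟩
    | @tail x y h1' h2 ih =>
      have h2' : ((x ∉ P ∧ y ∉ P) ∧ MConn L x y) ∨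
          ((x ∈ T ∪ P ∧ y ∈ T ∪ P) ∧ MConn M x y) := by
        rcases h2 with h | h
        · rcases Multiset.mem_add.1 h with h | h
          · exact Or.inl ⟨hL _ h, ReflTransGen.single (Or.inl h)⟩
          · exact Or.inr ⟨h1 _ h, ReflTransGen.single (Or.inl h)⟩
        · rcases Multiset.mem_add.1 h with h | h
          · exact Or.inl ⟨(hL _ h).symm, ReflTransGen.single (Or.inr h)⟩
          · exact Or.inr ⟨(h1 _ h).symm, ReflTransGen.single (Or.inr h)⟩
      rcases h2' with ⟨⟨hx, hy⟩, h⟩ | ⟨⟨hx, hy⟩, h⟩
      · exact ⟨fun _ => (ih.1 hx).trans (hl h), fun h' => absurd h' hy⟩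
      · have ht : ∃ t ∈ T, MConn (L + M') a t ∧ MConn M t y := by
          by_cases hxP : x ∈ P
          · obtain ⟨t, ht, h3, h4⟩ := ih.2 hxP
            exact ⟨t, ht, h3, h4.trans h⟩
          · exact ⟨x, hx.resolve_right hxP, ih.1 hxP, h⟩
        refine ⟨fun hyP => ?_, fun _ => ht⟩
        obtain ⟨t, ht, h3, h4⟩ := ht
        exact h3.trans (hr (hc t ht y (hy.resolve_right hyP) h4))
  exact key.1 hb

/-- replacing `M` by `M'` with the same connectivity on the boundary -/
theorem mconn_replace (T P : Set ℕ) (h1 : Touch M (T ∪ P))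
    (h1' : Touch M' (T ∪ P)) (hL : Touch L Pᶜ)
    (hc : ∀ x ∈ T, ∀ y ∈ T, (MConn M x y ↔ MConn M' x y))
    (ha : a ∉ P) (hb : b ∉ P) : MConn (L + M) a b ↔ MConn (L + M') a b :=
  ⟨mconn_replace_aux T P h1 hL (fun x hx y hy => (hc x hx y hy).1) ha hb,
    mconn_replace_aux T P h1' hL (fun x hx y hy => (hc x hx y hy).2) ha hb⟩

theorem mforest_replace (T P : Set ℕ) (h1 : Touch M (T ∪ P))
    (h1' : Touch M' (T ∪ P)) (hL : Touch L Pᶜ)
    (hc : ∀ x ∈ T, ∀ y ∈ T, (MConn M x y ↔ MConn M' x y)) (hM : MForest M) (hM' : MForest M') :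
    MForest (L + M) ↔ MForest (L + M') := by
  induction L using Multiset.induction_on with
  | empty => simp [hM, hM']
  | cons e L ih =>
    have hL' : Touch L Pᶜ := fun x hx => hL x (Multiset.mem_cons_of_mem hx)
    have he := hL e (Multiset.mem_cons_self _ _)
    rw [Multiset.cons_add, Multiset.cons_add, mforest_cons, mforest_cons, ih hL',
      mconn_replace T P h1 h1' hL' hc he.1 he.2]

/-- spanning forests of an equivalence relation -/
theorem exists_span (r : ℕ → ℕ → Prop) (hr : Equivalence r) (l : List ℕ) :
    ∃ F : List (ℕ × ℕ), F.length ≤ l.length ∧ (∀ e ∈ F, e.1 ∈ l ∧ e.2 ∈ l) ∧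
      MForest (F : Multiset (ℕ × ℕ)) ∧
      ∀ a ∈ l, ∀ b ∈ l, (r a b ↔ MConn (F : Multiset (ℕ × ℕ)) a b) := by
  induction l with
  | nil => exact ⟨[], by simp, by simp, mforest_zero, by simp⟩
  | cons x l ih =>
    obtain ⟨F, h1, h2, h3, h4⟩ := ih
    have hT : Touch (F : Multiset (ℕ × ℕ)) {z | z ∈ l} := fun e he => h2 e (by simpa using he)
    by_cases hx : x ∈ l
    · refine ⟨F, by simp; omega, fun e he => ⟨List.mem_cons_of_mem _ (h2 e he).1,
        List.mem_cons_of_mem _ (h2 e he).2⟩, h3, ?_⟩
      intro a ha b hb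
      have ha' : a ∈ l := by
        rcases List.mem_cons.1 ha with rfl | h
        · exact hx
        · exact h
      have hb' : b ∈ l := by
        rcases List.mem_cons.1 hb with rfl | h
        · exact hx
        · exact h
      exact h4 a ha' b hb'
    · have hno : ∀ b, MConn (F : Multiset (ℕ × ℕ)) x b → x = b := by
        intro b hb
        rcases hb.touch hT with h | h
        · exact h
        · exact absurd h.1 hx
      have hno' : ∀ b, MConn (F : Multiset (ℕ × ℕ)) b x → x = b := fun b hb => hno b hb.symm
      by_cases hy : ∃ y ∈ l, r x y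
      · obtain ⟨y, hyl, hy⟩ := hy
        have hxy : x ≠ y := by
          rintro rfl
          exact hx hyl
        refine ⟨(x, y) :: F, by simpa using h1, ?_, ?_, ?_⟩
        · intro e he
          rcases List.mem_cons.1 he with rfl | he
          · exact ⟨by simp, by simp [hyl]⟩
          · exact ⟨List.mem_cons_of_mem _ (h2 e he).1, List.mem_cons_of_mem _ (h2 e he).2⟩
        · rw [← Multiset.cons_coe, mforest_cons]
          exact ⟨h3, fun h => hxy (hno y h)⟩
        · intro a ha0 b hb0
          rw [← Multiset.cons_coe, mconn_cons]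
          simp only
          rcases List.mem_cons.1 ha0 with rfl | ha <;> rcases List.mem_cons.1 hb0 with rfl | hb
          · exact ⟨fun _ => Or.inl (.refl _), fun _ => hr.refl _⟩
          · constructor
            · intro h
              exact Or.inr (Or.inl ⟨.refl _, (h4 y hyl b hb).1 (hr.trans (hr.symm hy) h)⟩)
            · rintro (h | h | h)
              · exact absurd (hno b h) (fun h => hx (h ▸ hb))
              · exact hr.trans hy ((h4 y hyl b hb).2 h.2)
              · exact absurd (hno y h.1) hxy
          · constructor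
            · intro h
              exact Or.inr (Or.inr ⟨(h4 a ha y hyl).1 (hr.trans h hy), .refl _⟩)
            · rintro (h | h | h)
              · exact absurd (hno' a h) (fun h => hx (h ▸ ha))
              · exact absurd (hno' a h.1) (fun h => hx (h ▸ ha))
              · exact hr.trans ((h4 a ha y hyl).2 h.1) (hr.symm hy)
          · rw [h4 a ha b hb]
            constructor
            · exact Or.inl
            · rintro (h | h | h)
              · exact h
              · exact absurd (hno' a h.1) (fun h => hx (h ▸ ha))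
              · exact absurd (hno b h.2) (fun h => hx (h ▸ hb))
      · push Not at hy
        refine ⟨F, by simp; omega, fun e he => ⟨List.mem_cons_of_mem _ (h2 e he).1,
          List.mem_cons_of_mem _ (h2 e he).2⟩, h3, ?_⟩
        intro a ha0 b hb0
        rcases List.mem_cons.1 ha0 with rfl | ha <;> rcases List.mem_cons.1 hb0 with rfl | hb
        · exact ⟨fun _ => .refl _, fun _ => hr.refl _⟩
        · exact ⟨fun h => absurd h (hy b hb), fun h => by rw [hno b h]; exact hr.refl _⟩
        · exact ⟨fun h => absurd (hr.symm h) (hy a ha), fun h => by rw [hno' a h]; exact hr.refl _⟩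
        · exact h4 a ha b hb

theorem mconn_equiv (M : Multiset (ℕ × ℕ)) : Equivalence (MConn M) :=
  ⟨fun _ => .refl _, fun h => h.symm, fun h h' => h.trans h'⟩

end FVS424
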