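import Pool.Agent.Lib.MP_424cb6_lc.TwComplete

/-! The bounded treewidth algorithm runs in polynomial time. -/

namespace FVS424

open Relation Pool.Agent.MSR

section

variable {α : Type} [En α]

theorem pt_subl {l m : α → List ℕ} (hl : PT l) (hm : PT m) : PT (fun a => subl (l a) (m a)) := by
  unfold subl
  apply PT.not
  apply PT.any hl
  exact PT.not (PT.mem (PT.snd PT.id') (hm.comp (PT.fst PT.id')))

theorem pt_disj {l m : α → List ℕ} (hl : PT l) (hm : PT m) : PT (fun a => disj (l a) (m a)) := by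
  unfold disj
  apply PT.not
  apply PT.any hl
  exact PT.mem (PT.snd PT.id') (hm.comp (PT.fst PT.id'))

theorem pt_noE {A : α → ℕ → ℕ → Bool} {l m : α → List ℕ}
    (hA : PT (fun p : α × ℕ × ℕ => A p.1 p.2.1 p.2.2)) (hl : PT l) (hm : PT m) :
    PT (fun a => noE (A a) (l a) (m a)) := by
  unfold noE
  apply PT.not
  apply PT.any hl
  apply PT.any (hm.comp (PT.fst PT.id'))
  exact hA.comp (g := fun q : (α × ℕ) × ℕ => (q.1.1, q.1.2, q.2)) (by fun_prop)

theorem pt_okF {P : α → List ℕ} {F : α → List (ℕ × ℕ)} (hP : PT P) (hF : PT F) :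
    PT (fun a => okF (P a) (F a)) := by
  unfold okF
  apply PT.and (pt_forestb hF)
  apply PT.not
  apply PT.any hF
  apply PT.not
  apply PT.and
  · exact PT.mem (by fun_prop) (hP.comp (PT.fst PT.id'))
  · exact PT.mem (by fun_prop) (hP.comp (PT.fst PT.id'))

theorem pt_sameC {P : α → List ℕ} {F F' : α → List (ℕ × ℕ)} (hP : PT P) (hF : PT F)
    (hF' : PT F') : PT (fun a => sameC (P a) (F a) (F' a)) := by
  unfold sameC
  apply PT.not
  apply PT.any hP
  apply PT.any (hP.comp (PT.fst PT.id'))
  have h1 : PT (fun q : (α × ℕ) × ℕ => connb (F q.1.1) q.1.2 q.2) :=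
    pt_connb (hF.comp (by fun_prop)) (by fun_prop) (by fun_prop)
  have h2 : PT (fun q : (α × ℕ) × ℕ => connb (F' q.1.1) q.1.2 q.2) :=
    pt_connb (hF'.comp (by fun_prop)) (by fun_prop) (by fun_prop)
  exact PT.or (PT.and h1 (PT.not h2)) (PT.and h2 (PT.not h1))

variable {A : α → ℕ → ℕ → Bool} {S : α → List ℕ}

theorem pt_pre (hA : PT (fun p : α × ℕ × ℕ => A p.1 p.2.1 p.2.2)) (hS : PT S)
    {K0 B : α → List ℕ} {m : α → ℕ} (hK : PT K0) (hB : PT B) (hm : PT m) :
    PT (fun a => pre (A a) (S a) (K0 a) (B a) (m a)) := by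
  unfold pre
  have hmin : PT (fun a => minus (K0 a) (B a)) := pt_minus hK hB
  apply PT.filter hmin
  apply PT.any (PT.range (hm.comp (PT.fst PT.id')))
  apply PT.mem (by fun_prop)
  refine pt_reach (A := fun q : (α × ℕ) × ℕ => A q.1.1) ?_ (hmin.comp (by fun_prop)) ?_
  · exact hA.comp (g := fun q : ((α × ℕ) × ℕ) × ℕ × ℕ => (q.1.1.1, q.2.1, q.2.2)) (by fun_prop)
  · exact PT.getD (by fun_prop) (hS.comp (by fun_prop)) (PT.const _)

theorem pt_keys0 (w : ℕ) (hA : PT (fun p : α × ℕ × ℕ => A p.1 p.2.1 p.2.2)) (hS : PT S) :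
    PT (fun a => keys0 w (A a) (S a)) := by
  unfold keys0
  apply PT.cons hS
  apply PT.flatMap (pt_tup (w + 1) hS)
  have hmin : PT (fun q : α × List ℕ => minus (S q.1) q.2) :=
    pt_minus (hS.comp (PT.fst PT.id')) (PT.snd PT.id')
  apply PT.map hmin
  refine pt_reach (A := fun q : (α × List ℕ) × ℕ => A q.1.1) ?_ (hmin.comp (by fun_prop))
    (by fun_prop)
  exact hA.comp (g := fun q : ((α × List ℕ) × ℕ) × ℕ × ℕ => (q.1.1.1, q.2.1, q.2.2))
    (by fun_prop)

theorem pt_allK (w : ℕ) (hA : PT (fun p : α × ℕ × ℕ => A p.1 p.2.1 p.2.2)) (hS : PT S) :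
    PT (fun a => allK w (A a) (S a)) := by
  unfold allK
  apply PT.append (pt_keys0 w hA hS)
  apply PT.flatMap (pt_keys0 w hA hS)
  apply PT.flatMap ((pt_tup (w + 1) hS).comp (PT.fst PT.id'))
  apply PT.map
  · apply PT.range
    apply PT.succ
    apply PT.length
    exact hS.comp (by fun_prop)
  · refine pt_pre (A := fun q : ((α × List ℕ) × List ℕ) × ℕ => A q.1.1.1)
      (S := fun q : ((α × List ℕ) × List ℕ) × ℕ => S q.1.1.1) ?_ (hS.comp (by fun_prop))
      (by fun_prop) (by fun_prop) (by fun_prop)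
    exact hA.comp (g := fun q : (((α × List ℕ) × List ℕ) × ℕ) × ℕ × ℕ =>
      (q.1.1.1.1, q.2.1, q.2.2)) (by fun_prop)

theorem pt_uni (w : ℕ) (hA : PT (fun p : α × ℕ × ℕ => A p.1 p.2.1 p.2.2)) (hS : PT S) :
    PT (fun a => uni w (A a) (S a)) := by
  unfold uni
  apply PT.flatMap (pt_tup (w + 1) hS)
  apply PT.flatMap ((pt_allK w hA hS).comp (PT.fst PT.id'))
  apply PT.flatMap
  · apply pt_tup
    apply PT.product
    · fun_prop
    · fun_prop
  apply PT.map
  · apply PT.range
    apply PT.succ
    apply PT.length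
    exact hS.comp (by fun_prop)
  · fun_prop

theorem pt_einL (hA : PT (fun p : α × ℕ × ℕ => A p.1 p.2.1 p.2.2)) (hS : PT S)
    {P' P : α → List ℕ} (hP' : PT P') (hP : PT P) :
    PT (fun a => einL (A a) (S a) (P' a) (P a)) := by
  unfold einL
  apply PT.filter (PT.product hS hS)
  apply PT.and
  · apply PT.and (by fun_prop)
    exact hA.comp (g := fun q : α × (ℕ × ℕ) => (q.1, q.2.1, q.2.2)) (by fun_prop)
  · apply PT.and
    · apply PT.and
      · exact PT.mem (by fun_prop) (hP'.comp (by fun_prop))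
      · exact PT.mem (by fun_prop) (hP'.comp (by fun_prop))
    · apply PT.not
      apply PT.and
      · exact PT.mem (by fun_prop) (hP.comp (by fun_prop))
      · exact PT.mem (by fun_prop) (hP.comp (by fun_prop))

theorem pt_axT {f : α → Fact} (hf : PT f) : PT (fun a => axT (f a)) := by
  unfold axT
  apply PT.and (by fun_prop)
  apply PT.and (by fun_prop)
  exact PT.eq (by fun_prop) (by fun_prop)

theorem pt_joinT (hA : PT (fun p : α × ℕ × ℕ => A p.1 p.2.1 p.2.2)) {f1 f2 f : α → Fact}
    (h1 : PT f1) (h2 : PT f2) (hf : PT f) : PT (fun a => joinT (A a) (f1 a) (f2 a) (f a)) := by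
  unfold joinT
  apply PT.and
  · apply PT.and
    · apply PT.and
      · exact PT.and (pt_subl (by fun_prop) (by fun_prop)) (pt_subl (by fun_prop) (by fun_prop))
      · exact PT.and (pt_subl (by fun_prop) (by fun_prop)) (pt_subl (by fun_prop) (by fun_prop))
    · apply PT.and
      · exact PT.and (pt_subl (by fun_prop) (by fun_prop))
          (PT.and (pt_subl (by fun_prop) (by fun_prop)) (pt_subl (by fun_prop) (by fun_prop)))
      · exact PT.and (pt_disj (by fun_prop) (by fun_prop))
          (PT.and (pt_noE hA (by fun_prop) (by fun_prop)) (pt_disj (by fun_prop) (by fun_prop)))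
  · apply PT.and
    · exact PT.and (pt_forestb (by fun_prop)) (pt_okF (by fun_prop) (by fun_prop))
    · exact PT.and (pt_sameC (by fun_prop) (by fun_prop) (by fun_prop))
        (PT.eq (by fun_prop) (by fun_prop))

theorem pt_transT (hA : PT (fun p : α × ℕ × ℕ => A p.1 p.2.1 p.2.2)) (hS : PT S)
    {f1 f : α → Fact} (h1 : PT f1) (hf : PT f) :
    PT (fun a => transT (A a) (S a) (f1 a) (f a)) := by
  unfold transT
  have he : PT (fun a => einL (A a) (S a) (f1 a).1 (f a).1 ++ (f1 a).2.2.1) :=
    PT.append (pt_einL hA hS (by fun_prop) (by fun_prop)) (by fun_prop)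
  apply PT.and
  · apply PT.and
    · apply PT.and
      · exact PT.and (pt_subl (by fun_prop) (by fun_prop)) (pt_subl (by fun_prop) (by fun_prop))
      · exact PT.and (pt_disj (by fun_prop) (by fun_prop)) (pt_disj (by fun_prop) (by fun_prop))
    · apply pt_noE hA
      · exact pt_minus (by fun_prop) (by fun_prop)
      · apply PT.append (by fun_prop)
        apply PT.filter (by fun_prop)
        have h3 : PT (fun q : α × ℕ => (f q.1).2.1) := by
          exact PT.fst (PT.snd (hf.comp (PT.fst PT.id')))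
        exact PT.mem (by fun_prop) h3
  · apply PT.and
    · exact PT.and (pt_forestb he) (pt_okF (by fun_prop) (by fun_prop))
    · apply PT.and (pt_sameC (by fun_prop) (by fun_prop) he)
      apply PT.eq (by fun_prop)
      apply PT.add (by fun_prop)
      apply PT.length
      exact pt_minus (by fun_prop) (by fun_prop)

theorem pt_twv (w : ℕ) (hA : PT (fun p : α × ℕ × ℕ => A p.1 p.2.1 p.2.2)) (hS : PT S) :
    PT (fun a => twv w (A a) (S a)) := by
  unfold twv
  have hcl : PT (fun a => cl (uni w (A a) (S a)) axT (rules (A a) (S a))) := by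
    refine pt_cl (ax := fun _ => axT) (rule := fun a => rules (A a) (S a)) (pt_uni w hA hS)
      (pt_axT (PT.snd PT.id')) ?_
    unfold rules
    apply PT.or
    · refine pt_joinT (A := fun q : α × Fact × Fact × Fact => A q.1) ?_ (by fun_prop) (by fun_prop)
        (by fun_prop)
      exact hA.comp (g := fun q : (α × Fact × Fact × Fact) × ℕ × ℕ => (q.1.1, q.2.1, q.2.2))
        (by fun_prop)
    · refine pt_transT (A := fun q : α × Fact × Fact × Fact => A q.1)
        (S := fun q : α × Fact × Fact × Fact => S q.1) ?_ (hS.comp (PT.fst PT.id')) (by fun_prop)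
        (by fun_prop)
      exact hA.comp (g := fun q : (α × Fact × Fact × Fact) × ℕ × ℕ => (q.1.1, q.2.1, q.2.2))
        (by fun_prop)
  apply PT.headD _ (PT.const 0)
  apply PT.filter
  · apply PT.range
    apply PT.succ
    exact PT.length hS
  · apply PT.any (hcl.comp (PT.fst PT.id'))
    apply PT.and (by fun_prop)
    apply PT.and
    · exact pt_subl (hS.comp (by fun_prop)) (by fun_prop)
    · exact PT.eq (by fun_prop) (by fun_prop)

end

/-- Feedback vertex number of induced subgraphs of treewidth at most `w`, in polynomial time. -/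
theorem exists_twVal (w : ℕ) : ∃ f : List (List Bool) × List ℕ → ℕ, PT f ∧
    ∀ (M : List (List Bool)) (S : List ℕ) (G : SimpleGraph ℕ),
      (∀ i j, ((M.getD i []).getD j false = true ↔ G.Adj i j)) → S.Nodup →
      TDR G (S.toFinset : Set ℕ) w ∅ → f (M, S) = fvs G S.toFinset := by
  refine ⟨fun a => twv w (fun i j => (a.1.getD i []).getD j false) a.2, ?_, ?_⟩
  · refine pt_twv (A := fun (a : List (List Bool) × List ℕ) i j => (a.1.getD i []).getD j false)
      w ?_ (PT.snd PT.id')
    fun_prop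
  · intro M S G hM hS hD
    obtain ⟨ι, _, T, bag, r, h1, h2, h3, h4, h5, h6, _⟩ := hD
    refine twv_eq hM hS (ι := ι) ⟨T, bag, h1, ?_, h3, ?_, ?_, h6⟩
    · intro i v hv
      simpa using h2 i v hv
    · intro v hv
      exact h4 v (by simpa using hv)
    · intro u hu v hv huv
      exact h5 u (by simpa using hu) v (by simpa using hv) huv

end FVS424
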